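import Mathlib

/-!
Counting subsets of a finite field with a prescribed stabilizer in the affine group.
-/

namespace Pool.Agent.V11179.AGL

/-- The number `N(S_{d,H}, k)` of `k`-subsets `B` of `K` whose stabilizer in the group of the maps
`x ↦ a x + b` with `a ≠ 0` is exactly `S_{d,H} = {x ↦ ζ x + h : ζ ^ d = 1, h ∈ H}`. -/
noncomputable def stabCount (K : Type*) [Field K] (d : ℕ) (H : AddSubgroup K) (k : ℕ) : ℕ :=
  {B : Set K | B.ncard = k ∧ ∀ a b : K, a ≠ 0 →
    ((fun x => a * x + b) '' B = B ↔ (a ^ d = 1 ∧ b ∈ H))}.ncard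

/-- The number of elements of the field `H' = {x : x H ⊆ H}`. -/
noncomputable def multCard {K : Type*} [Field K] (H : AddSubgroup K) : ℕ :=
  {x : K | ∀ h ∈ H, x * h ∈ H}.ncard

end Pool.Agent.V11179.AGL
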