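import Mathlib

/-!
Sets invariant under subgroups of the affine group of a finite field: orbits and counting.
-/

namespace Pool.Agent.V11179.AGL

open Finset Classical

noncomputable section

variable {K : Type*} [Field K] [Fintype K]

/-- invariance of `B` under `x ↦ a x + b` -/
def Inv (B : Finset K) (a b : K) : Prop := ∀ x ∈ B, a * x + b ∈ B

lemma aff_injective {a : K} (ha : a ≠ 0) (b : K) : Function.Injective (fun x => a * x + b) := by
  intro x y h
  simp only at h
  exact mul_left_cancel₀ ha (add_right_cancel h)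

lemma image_eq_iff (B : Finset K) {a : K} (ha : a ≠ 0) (b : K) :
    B.image (fun x => a * x + b) = B ↔ Inv B a b := by
  constructor
  · intro h x hx
    rw [← h]
    exact mem_image_of_mem _ hx
  · intro h
    apply eq_of_subset_of_card_le
    · intro y hy
      obtain ⟨x, hx, rfl⟩ := mem_image.1 hy
      exact h x hx
    · rw [card_image_of_injective _ (aff_injective ha b)]

lemma Inv.comp {B : Finset K} {a b c e : K} (h1 : Inv B a b) (h2 : Inv B c e) :
    Inv B (a * c) (a * e + b) := by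
  intro x hx
  have := h1 _ (h2 x hx)
  convert this using 1
  ring

lemma Inv.symm {B : Finset K} {a b : K} (ha : a ≠ 0) (h : Inv B a b) :
    Inv B a⁻¹ (-(a⁻¹ * b)) := by
  intro x hx
  have h1 := (image_eq_iff B ha b).2 h
  rw [← h1] at hx
  obtain ⟨y, hy, rfl⟩ := mem_image.1 hx
  have : a⁻¹ * (a * y + b) + -(a⁻¹ * b) = y := by
    field_simp
    ring
  rw [this]
  exact hy

/-- The field of multipliers preserving `H`. -/
def stabField (H : AddSubgroup K) : Subfield K where
  carrier := {x | ∀ h ∈ H, x * h ∈ H}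
  mul_mem' := by
    intro a b ha hb h hh
    rw [mul_assoc]
    exact ha _ (hb _ hh)
  one_mem' := by
    intro h hh
    rwa [one_mul]
  add_mem' := by
    intro a b ha hb h hh
    rw [add_mul]
    exact H.add_mem (ha _ hh) (hb _ hh)
  zero_mem' := by
    intro h _
    rw [zero_mul]
    exact H.zero_mem
  neg_mem' := by
    intro a ha h hh
    rw [neg_mul]
    exact H.neg_mem (ha _ hh)
  inv_mem' := by
    intro a ha h hh
    by_cases ha0 : a = 0
    · rw [ha0, inv_zero, zero_mul]
      exact H.zero_mem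
    · have h1 : (univ.filter (· ∈ H)).image (fun x => a * x) = univ.filter (· ∈ H) := by
        apply eq_of_subset_of_card_le
        · intro y hy
          obtain ⟨x, hx, rfl⟩ := mem_image.1 hy
          exact mem_filter.2 ⟨mem_univ _, ha x (mem_filter.1 hx).2⟩
        · rw [card_image_of_injective _ (mul_right_injective₀ ha0)]
      have h2 : h ∈ univ.filter (· ∈ H) := mem_filter.2 ⟨mem_univ _, hh⟩
      rw [← h1] at h2
      obtain ⟨x, hx, rfl⟩ := mem_image.1 h2
      rw [← mul_assoc, inv_mul_cancel₀ ha0, one_mul]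
      exact (mem_filter.1 hx).2

lemma mem_stabField {H : AddSubgroup K} {x : K} : x ∈ stabField H ↔ ∀ h ∈ H, x * h ∈ H := Iff.rfl

/-- `H` as a finset -/
def Hf (H : AddSubgroup K) : Finset K := univ.filter (· ∈ H)

lemma mem_Hf {H : AddSubgroup K} {x : K} : x ∈ Hf H ↔ x ∈ H := by simp [Hf]

lemma card_Hf (H : AddSubgroup K) : (Hf H).card = Nat.card H := by
  rw [Nat.card_eq_fintype_card, Fintype.card_subtype]
  rfl

lemma Hf_pos (H : AddSubgroup K) : 0 < (Hf H).card := by
  apply card_pos.2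
  exact ⟨0, mem_Hf.2 H.zero_mem⟩

/-- roots of unity of order dividing `d`, as a finset -/
def mu (K : Type*) [Field K] [Fintype K] (d : ℕ) : Finset K := univ.filter (fun ζ => ζ ^ d = 1)

lemma mem_mu {d : ℕ} {x : K} : x ∈ mu K d ↔ x ^ d = 1 := by simp [mu]

lemma exists_prim {d : ℕ} (hd : d ∣ Fintype.card K - 1) :
    ∃ z : K, IsPrimitiveRoot z d := by
  obtain ⟨g, hg⟩ := IsCyclic.exists_generator (α := Kˣ)
  have h1 : orderOf g = Fintype.card K - 1 := by
    rw [orderOf_eq_card_of_forall_mem_zpowers hg, Nat.card_eq_fintype_card, Fintype.card_units]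
  have hq : 1 < Fintype.card K := Fintype.one_lt_card
  obtain ⟨c, hc⟩ := hd
  have hc0 : c ≠ 0 := by
    rintro rfl
    omega
  have h2 : orderOf (g ^ c) = d := by
    rw [orderOf_pow_of_dvd hc0 (by rw [h1, hc]; exact dvd_mul_left _ _), h1, hc,
      Nat.mul_div_cancel _ (Nat.pos_of_ne_zero hc0)]
  refine ⟨((g ^ c : Kˣ) : K), ?_⟩
  have h3 := IsPrimitiveRoot.orderOf (g ^ c)
  rw [h2] at h3
  exact h3.map_of_injective (f := Units.coeHom K) Units.val_injective

lemma d_pos {d : ℕ} (hd : d ∣ Fintype.card K - 1) : 0 < d := by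
  have hq : 1 < Fintype.card K := Fintype.one_lt_card
  rcases Nat.eq_zero_or_pos d with h | h
  · subst h
    rw [zero_dvd_iff] at hd
    omega
  · exact h

lemma card_mu {d : ℕ} (hd : d ∣ Fintype.card K - 1) : (mu K d).card = d := by
  obtain ⟨z, hz⟩ := exists_prim hd
  have hd0 := d_pos hd
  have h1 : mu K d = Polynomial.nthRootsFinset d (1 : K) := by
    ext x
    rw [mem_mu, Polynomial.mem_nthRootsFinset hd0]
  rw [h1, hz.card_nthRootsFinset]

section orbits

variable (d : ℕ) (H : AddSubgroup K)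

/-- orbits of `x ↦ ζ x + h` -/
def orb (x : K) : Finset K := univ.filter (fun y => ∃ ζ, ζ ^ d = 1 ∧ y - ζ * x ∈ H)

variable {d H}

lemma mem_orb {x y : K} : y ∈ orb d H x ↔ ∃ ζ, ζ ^ d = 1 ∧ y - ζ * x ∈ H := by simp [orb]

lemma self_mem_orb (x : K) : x ∈ orb d H x := by
  rw [mem_orb]
  refine ⟨1, one_pow _, ?_⟩
  rw [one_mul, sub_self]
  exact H.zero_mem

lemma orb_symm (hd0 : 0 < d) (hH : ∀ ζ : K, ζ ^ d = 1 → ∀ h ∈ H, ζ * h ∈ H) {x y : K}
    (h : y ∈ orb d H x) : x ∈ orb d H y := by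
  rw [mem_orb] at h ⊢
  obtain ⟨ζ, hζ, h⟩ := h
  have hζ0 : ζ ≠ 0 := by
    rintro rfl
    rw [zero_pow hd0.ne'] at hζ
    exact zero_ne_one hζ
  refine ⟨ζ⁻¹, by rw [inv_pow, hζ, inv_one], ?_⟩
  have h1 := H.neg_mem (hH ζ⁻¹ (by rw [inv_pow, hζ, inv_one]) _ h)
  convert h1 using 1
  field_simp
  ring

lemma orb_trans (hH : ∀ ζ : K, ζ ^ d = 1 → ∀ h ∈ H, ζ * h ∈ H) {x y w : K}
    (h1 : y ∈ orb d H x) (h2 : w ∈ orb d H y) : w ∈ orb d H x := by
  rw [mem_orb] at h1 h2 ⊢
  obtain ⟨ζ, hζ, h1⟩ := h1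
  obtain ⟨ξ, hξ, h2⟩ := h2
  refine ⟨ξ * ζ, by rw [mul_pow, hζ, hξ, one_mul], ?_⟩
  have h3 := H.add_mem h2 (hH ξ hξ _ h1)
  convert h3 using 1
  ring

lemma orb_eq (hd0 : 0 < d) (hH : ∀ ζ : K, ζ ^ d = 1 → ∀ h ∈ H, ζ * h ∈ H) {x y : K}
    (h : y ∈ orb d H x) : orb d H y = orb d H x := by
  ext w
  exact ⟨fun hw => orb_trans hH h hw, fun hw => orb_trans hH (orb_symm hd0 hH h) hw⟩

lemma orb_of_mem (hd0 : 0 < d) (hH : ∀ ζ : K, ζ ^ d = 1 → ∀ h ∈ H, ζ * h ∈ H) {x : K}
    (hx : x ∈ H) : orb d H x = Hf H := by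
  ext y
  rw [mem_orb, mem_Hf]
  constructor
  · rintro ⟨ζ, hζ, h⟩
    have := H.add_mem h (hH ζ hζ x hx)
    rwa [sub_add_cancel] at this
  · intro hy
    refine ⟨1, one_pow _, ?_⟩
    rw [one_mul]
    exact H.sub_mem hy hx

lemma card_orb (hd : d ∣ Fintype.card K - 1) (hH : ∀ ζ : K, ζ ^ d = 1 → ∀ h ∈ H, ζ * h ∈ H)
    {x : K} (hx : x ∉ H) : (orb d H x).card = d * (Hf H).card := by
  have h1 : orb d H x = ((mu K d) ×ˢ (Hf H)).image (fun p => p.1 * x + p.2) := by
    ext y
    rw [mem_orb, mem_image]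
    constructor
    · rintro ⟨ζ, hζ, h⟩
      exact ⟨(ζ, y - ζ * x), mem_product.2 ⟨mem_mu.2 hζ, mem_Hf.2 h⟩, by ring⟩
    · rintro ⟨⟨ζ, h⟩, hp, rfl⟩
      rw [mem_product] at hp
      refine ⟨ζ, mem_mu.1 hp.1, ?_⟩
      simp only
      rw [add_sub_cancel_left]
      exact mem_Hf.1 hp.2
  rw [h1, card_image_of_injOn, card_product, card_mu hd]
  rintro ⟨ζ, h⟩ hp ⟨ξ, g⟩ hp' heq
  rw [mem_coe, mem_product] at hp hp'
  simp only at heq hp hp'
  have hζ : ζ ∈ stabField H := hH ζ (mem_mu.1 hp.1)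
  have hξ : ξ ∈ stabField H := hH ξ (mem_mu.1 hp'.1)
  have h2 : (ζ - ξ) * x ∈ H := by
    have : (ζ - ξ) * x = g - h := by linear_combination heq
    rw [this]
    exact H.sub_mem (mem_Hf.1 hp'.2) (mem_Hf.1 hp.2)
  have h3 : ζ = ξ := by
    by_contra hne
    have h4 : (ζ - ξ)⁻¹ ∈ stabField H := (stabField H).inv_mem ((stabField H).sub_mem hζ hξ)
    have h5 := h4 _ h2
    rw [← mul_assoc, inv_mul_cancel₀ (sub_ne_zero.2 hne), one_mul] at h5
    exact hx h5
  subst h3
  have h4 : h = g := add_left_cancel heq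
  rw [h4]

end orbits

/-- number of unions of `j` members of a family of disjoint sets -/
lemma card_unions {α : Type*} (P : Finset (Finset α)) (Z : Finset α)
    (hne : ∀ o ∈ P, o.Nonempty) (hdisj : ∀ o ∈ P, ∀ o' ∈ P, o ≠ o' → Disjoint o o')
    (hZ : ∀ o ∈ P, Disjoint o Z) (j : ℕ) :
    ((powersetCard j P).image (fun A => A.biUnion id ∪ Z)).card = P.card.choose j := by
  rw [card_image_of_injOn, card_powersetCard]
  intro A hA A' hA' heq
  simp only at heq
  rw [mem_coe, mem_powersetCard] at hA hA'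
  have key : ∀ A : Finset (Finset α), A ⊆ P → A = P.filter (· ⊆ A.biUnion id ∪ Z) := by
    intro A hA
    ext o
    rw [mem_filter]
    constructor
    · intro ho
      refine ⟨hA ho, ?_⟩
      intro x hx
      exact mem_union_left _ (mem_biUnion.2 ⟨o, ho, hx⟩)
    · rintro ⟨hoP, ho⟩
      obtain ⟨x, hx⟩ := hne o hoP
      rcases mem_union.1 (ho hx) with h | h
      · obtain ⟨o', ho', hx'⟩ := mem_biUnion.1 h
        by_cases hoo : o = o'
        · rw [hoo]; exact ho'
        · exact absurd hx' (disjoint_left.1 (hdisj o hoP o' (hA ho') hoo) hx)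
      · exact absurd h (disjoint_left.1 (hZ o hoP) hx)
  rw [key A hA.1, key A' hA'.1, heq]

/-- the invariant sets of size `k` -/
def Fix (d : ℕ) (H : AddSubgroup K) (k : ℕ) : Finset (Finset K) :=
  univ.filter (fun B => B.card = k ∧ (∀ ζ : K, ζ ^ d = 1 → Inv B ζ 0) ∧ ∀ h ∈ H, Inv B 1 h)

section count

variable {d : ℕ} {H : AddSubgroup K} {k : ℕ}

lemma mem_Fix {B : Finset K} : B ∈ Fix d H k ↔
    B.card = k ∧ (∀ ζ : K, ζ ^ d = 1 → Inv B ζ 0) ∧ ∀ h ∈ H, Inv B 1 h := by
  simp [Fix]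

lemma orb_subset_iff {B : Finset K} :
    ((∀ ζ : K, ζ ^ d = 1 → Inv B ζ 0) ∧ ∀ h ∈ H, Inv B 1 h) ↔ ∀ x ∈ B, orb d H x ⊆ B := by
  constructor
  · rintro ⟨h1, h2⟩ x hx y hy
    obtain ⟨ζ, hζ, h⟩ := mem_orb.1 hy
    have h3 := h2 _ h _ (h1 ζ hζ x hx)
    convert h3 using 1
    ring
  · intro h
    refine ⟨fun ζ hζ x hx => h x hx ?_, fun g hg x hx => h x hx ?_⟩
    · rw [mem_orb]
      refine ⟨ζ, hζ, ?_⟩
      rw [add_zero, sub_self]
      exact H.zero_mem
    · rw [mem_orb]
      refine ⟨1, one_pow _, ?_⟩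
      rw [add_sub_cancel_left]
      exact hg

/-- orbits outside `H` -/
def P0 (d : ℕ) (H : AddSubgroup K) : Finset (Finset K) := (univ.filter (· ∉ H)).image (orb d H)

/-- all orbits -/
def P1 (d : ℕ) (H : AddSubgroup K) : Finset (Finset K) := (univ : Finset K).image (orb d H)

variable (hd : d ∣ Fintype.card K - 1) (hH : ∀ ζ : K, ζ ^ d = 1 → ∀ h ∈ H, ζ * h ∈ H)

include hd hH

lemma orb_not_mem_H {x y : K} (hx : x ∉ H) (hy : y ∈ orb d H x) : y ∉ H := by
  intro h
  apply hx
  have h1 := orb_symm (d_pos hd) hH hy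
  rw [orb_of_mem (d_pos hd) hH h, mem_Hf] at h1
  exact h1

lemma P_disj {o o' : Finset K} (ho : o ∈ P1 d H) (ho' : o' ∈ P1 d H) (hne : o ≠ o') :
    Disjoint o o' := by
  obtain ⟨x, -, rfl⟩ := mem_image.1 ho
  obtain ⟨x', -, rfl⟩ := mem_image.1 ho'
  rw [disjoint_left]
  intro y hy hy'
  apply hne
  rw [← orb_eq (d_pos hd) hH hy, ← orb_eq (d_pos hd) hH hy']

omit hd hH in
lemma P0_sub : P0 d H ⊆ P1 d H := image_subset_image (filter_subset _ _)

lemma P0_disj_H {o : Finset K} (ho : o ∈ P0 d H) : Disjoint o (Hf H) := by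
  obtain ⟨x, hx, rfl⟩ := mem_image.1 ho
  rw [disjoint_left]
  intro y hy hyH
  exact orb_not_mem_H hd hH (mem_filter.1 hx).2 hy (mem_Hf.1 hyH)

omit hd hH in
lemma P1_nonempty {o : Finset K} (ho : o ∈ P1 d H) : o.Nonempty := by
  obtain ⟨x, -, rfl⟩ := mem_image.1 ho
  exact ⟨x, self_mem_orb x⟩

lemma card_P0 : (P0 d H).card * (d * (Hf H).card) + (Hf H).card = Fintype.card K := by
  have h1 : (P0 d H).biUnion id = univ.filter (· ∉ H) := by
    ext y
    rw [mem_biUnion]
    constructor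
    · rintro ⟨o, ho, hy⟩
      obtain ⟨x, hx, rfl⟩ := mem_image.1 ho
      exact mem_filter.2 ⟨mem_univ _, orb_not_mem_H hd hH (mem_filter.1 hx).2 hy⟩
    · intro hy
      exact ⟨orb d H y, mem_image_of_mem _ hy, self_mem_orb y⟩
  have h2 : ((P0 d H).biUnion id).card = (P0 d H).card * (d * (Hf H).card) := by
    rw [card_biUnion]
    · rw [sum_const_nat]
      intro o ho
      obtain ⟨x, hx, rfl⟩ := mem_image.1 ho
      exact card_orb hd hH (mem_filter.1 hx).2
    · intro o ho o' ho' hne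
      exact P_disj hd hH (P0_sub ho) (P0_sub ho') hne
  rw [← h2, h1]
  have h3 := card_filter_add_card_filter_not (s := (univ : Finset K)) (fun x => x ∈ H)
  rw [Finset.card_univ] at h3
  unfold Hf
  omega

lemma Fix_structure {B : Finset K}
    (hB : (∀ ζ : K, ζ ^ d = 1 → Inv B ζ 0) ∧ ∀ h ∈ H, Inv B 1 h) :
    B = (P0 d H |>.filter (· ⊆ B)).biUnion id ∪ (if (0 : K) ∈ B then Hf H else ∅) := by
  rw [orb_subset_iff] at hB
  ext y
  rw [mem_union, mem_biUnion]
  constructor
  · intro hy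
    by_cases hyH : y ∈ H
    · right
      have h0 : (0 : K) ∈ B := by
        apply hB y hy
        rw [orb_of_mem (d_pos hd) hH hyH]
        exact mem_Hf.2 H.zero_mem
      rw [if_pos h0]
      exact mem_Hf.2 hyH
    · left
      exact ⟨orb d H y, mem_filter.2 ⟨mem_image_of_mem _ (mem_filter.2 ⟨mem_univ _, hyH⟩),
        hB y hy⟩, self_mem_orb y⟩
  · rintro (⟨o, ho, hy⟩ | hy)
    · exact (mem_filter.1 ho).2 hy
    · split_ifs at hy with h0
      · apply hB 0 h0
        rw [orb_of_mem (d_pos hd) hH H.zero_mem]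
        exact hy
      · simp at hy

lemma Fix_card_eq {B : Finset K}
    (hB : (∀ ζ : K, ζ ^ d = 1 → Inv B ζ 0) ∧ ∀ h ∈ H, Inv B 1 h) :
    B.card = ((P0 d H).filter (· ⊆ B)).card * (d * (Hf H).card) +
      (if (0 : K) ∈ B then (Hf H).card else 0) := by
  conv_lhs => rw [Fix_structure hd hH hB]
  rw [card_union_of_disjoint]
  · congr 1
    · rw [card_biUnion]
      · rw [sum_const_nat]
        intro o ho
        obtain ⟨x, hx, rfl⟩ := mem_image.1 (mem_filter.1 ho).1
        exact card_orb hd hH (mem_filter.1 hx).2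
      · intro o ho o' ho' hne
        exact P_disj hd hH (P0_sub (mem_filter.1 ho).1) (P0_sub (mem_filter.1 ho').1) hne
    · split_ifs <;> simp
  · rw [disjoint_biUnion_left]
    intro o ho
    split_ifs
    · exact P0_disj_H hd hH (mem_filter.1 ho).1
    · simp

/-- sizes of invariant sets -/
lemma Fix_size {B : Finset K} (hB : B ∈ Fix d H k) :
    ∃ j e : ℕ, e ≤ 1 ∧ k = (Hf H).card * (d * j + e) := by
  rw [mem_Fix] at hB
  have h1 := Fix_card_eq hd hH hB.2
  rw [hB.1] at h1
  split_ifs at h1 with h0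
  · exact ⟨_, 1, le_rfl, by rw [h1]; ring⟩
  · exact ⟨_, 0, zero_le_one, by rw [h1]; ring⟩

lemma card_Fix_of_two_le (hd2 : 2 ≤ d) {j e : ℕ} (he : e ≤ 1)
    (hk : k = (Hf H).card * (d * j + e)) : (Fix d H k).card = (P0 d H).card.choose j := by
  set Z : Finset K := if e = 1 then Hf H else ∅ with hZ
  have hZcard : Z.card = e * (Hf H).card := by
    rw [hZ]
    split_ifs with h
    · rw [h, one_mul]
    · have : e = 0 := by omega
      rw [this]; simp
  have hdZ : ∀ o ∈ P0 d H, Disjoint o Z := by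
    intro o ho
    rw [hZ]
    split_ifs
    · exact P0_disj_H hd hH ho
    · simp
  have hpos := Hf_pos H
  have key : Fix d H k = (powersetCard j (P0 d H)).image (fun A => A.biUnion id ∪ Z) := by
    ext B
    rw [mem_image]
    constructor
    · intro hB
      rw [mem_Fix] at hB
      have h1 := Fix_card_eq hd hH hB.2
      rw [hB.1, hk] at h1
      have h2 : (d * j + e) = ((P0 d H).filter (· ⊆ B)).card * d + (if (0 : K) ∈ B then 1 else 0) := by
        apply Nat.eq_of_mul_eq_mul_left hpos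
        rw [h1]
        split_ifs <;> ring
      have h3 : ((P0 d H).filter (· ⊆ B)).card = j ∧ (if (0 : K) ∈ B then 1 else 0) = e := by
        have h4 : (if (0 : K) ∈ B then 1 else 0) ≤ 1 := by split_ifs <;> omega
        set t := (if (0 : K) ∈ B then 1 else 0) with ht
        set s := ((P0 d H).filter (· ⊆ B)).card with hs
        have h5 : (d * j + e) % d = (s * d + t) % d := by rw [h2]
        rw [Nat.mul_add_mod, Nat.mul_add_mod', Nat.mod_eq_of_lt (by omega),
            Nat.mod_eq_of_lt (by omega)] at h5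
        have h6 : d * j = d * s := by
          rw [← h5] at h2
          have := h2
          rw [mul_comm s d] at this
          omega
        exact ⟨(Nat.eq_of_mul_eq_mul_left (by omega) h6).symm, h5.symm⟩
      refine ⟨(P0 d H).filter (· ⊆ B), mem_powersetCard.2 ⟨filter_subset _ _, h3.1⟩, ?_⟩
      have h7 : (if (0 : K) ∈ B then Hf H else ∅) = Z := by
        rw [hZ]
        have := h3.2
        split_ifs at this ⊢ <;> first | rfl | omega
      rw [← h7]
      exact (Fix_structure hd hH hB.2).symm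
    · rintro ⟨A, hA, rfl⟩
      rw [mem_powersetCard] at hA
      rw [mem_Fix, orb_subset_iff]
      constructor
      · rw [card_union_of_disjoint]
        · rw [card_biUnion, sum_const_nat (m := d * (Hf H).card), hA.2, hZcard, hk]
          · ring
          · intro o ho
            obtain ⟨x, hx, rfl⟩ := mem_image.1 (hA.1 ho)
            exact card_orb hd hH (mem_filter.1 hx).2
          · intro o ho o' ho' hne
            exact P_disj hd hH (P0_sub (hA.1 ho)) (P0_sub (hA.1 ho')) hne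
        · rw [disjoint_biUnion_left]
          intro o ho
          exact hdZ o (hA.1 ho)
      · intro x hx y hy
        rcases mem_union.1 hx with h | h
        · obtain ⟨o, ho, hxo⟩ := mem_biUnion.1 h
          apply mem_union_left
          refine mem_biUnion.2 ⟨o, ho, ?_⟩
          obtain ⟨w, -, rfl⟩ := mem_image.1 (hA.1 ho)
          exact orb_trans hH hxo hy
        · apply mem_union_right
          rw [hZ] at h ⊢
          split_ifs at h ⊢
          · rw [orb_of_mem (d_pos hd) hH (mem_Hf.1 h)] at hy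
            exact hy
          · simp at h
  rw [key, card_unions _ _ (fun o ho => P1_nonempty (P0_sub ho))
    (fun o ho o' ho' hne => P_disj hd hH (P0_sub ho) (P0_sub ho') hne) hdZ]

end count

section count1

variable {H : AddSubgroup K} {k : ℕ}

lemma one_dvd_card : 1 ∣ Fintype.card K - 1 := one_dvd _

omit [Fintype K] in
lemma one_stab (ζ : K) (hζ : ζ ^ 1 = 1) (h : K) (hh : h ∈ H) : ζ * h ∈ H := by
  rw [pow_one] at hζ
  rwa [hζ, one_mul]

lemma card_orb1 (x : K) : (orb 1 H x).card = (Hf H).card := by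
  by_cases hx : x ∈ H
  · rw [orb_of_mem one_pos (one_stab (H := H)) hx]
  · rw [card_orb one_dvd_card (one_stab (H := H)) hx, one_mul]

lemma card_P1 : (P1 1 H).card * (Hf H).card = Fintype.card K := by
  have h1 : (P1 1 H).biUnion id = univ := by
    ext y
    rw [mem_biUnion]
    exact ⟨fun _ => mem_univ _, fun _ => ⟨orb 1 H y, mem_image_of_mem _ (mem_univ _),
      self_mem_orb y⟩⟩
  rw [← Finset.card_univ, ← h1, card_biUnion]
  · rw [sum_const_nat]
    intro o ho
    obtain ⟨x, -, rfl⟩ := mem_image.1 ho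
    exact card_orb1 x
  · intro o ho o' ho' hne
    exact P_disj one_dvd_card (one_stab (H := H)) ho ho' hne

lemma card_Fix_one {t : ℕ} (hk : k = (Hf H).card * t) :
    (Fix 1 H k).card = (P1 1 H).card.choose t := by
  have hpos := Hf_pos H
  have hcu : ∀ A ⊆ P1 1 H, (A.biUnion id).card = A.card * (Hf H).card := by
    intro A hA
    rw [card_biUnion]
    · rw [sum_const_nat]
      intro o ho
      obtain ⟨x, -, rfl⟩ := mem_image.1 (hA ho)
      exact card_orb1 x
    · intro o ho o' ho' hne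
      exact P_disj one_dvd_card (one_stab (H := H)) (hA ho) (hA ho') hne
  have key : Fix 1 H k = (powersetCard t (P1 1 H)).image (fun A => A.biUnion id ∪ ∅) := by
    ext B
    rw [mem_image]
    constructor
    · intro hB
      rw [mem_Fix, orb_subset_iff] at hB
      have h1 : B = ((P1 1 H).filter (· ⊆ B)).biUnion id := by
        ext y
        rw [mem_biUnion]
        constructor
        · intro hy
          exact ⟨orb 1 H y, mem_filter.2 ⟨mem_image_of_mem _ (mem_univ _), hB.2 y hy⟩,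
            self_mem_orb y⟩
        · rintro ⟨o, ho, hy⟩
          exact (mem_filter.1 ho).2 hy
      have h2 : ((P1 1 H).filter (· ⊆ B)).card = t := by
        have h3 := hcu ((P1 1 H).filter (· ⊆ B)) (filter_subset _ _)
        rw [← h1, hB.1, hk, mul_comm] at h3
        exact (Nat.eq_of_mul_eq_mul_right hpos h3).symm
      exact ⟨(P1 1 H).filter (· ⊆ B), mem_powersetCard.2 ⟨filter_subset _ _, h2⟩,
        by rw [union_empty]; exact h1.symm⟩
    · rintro ⟨A, hA, rfl⟩
      rw [mem_powersetCard] at hA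
      rw [union_empty, mem_Fix, orb_subset_iff]
      refine ⟨by rw [hcu A hA.1, hA.2, hk, mul_comm], ?_⟩
      intro x hx y hy
      obtain ⟨o, ho, hxo⟩ := mem_biUnion.1 hx
      refine mem_biUnion.2 ⟨o, ho, ?_⟩
      obtain ⟨w, -, rfl⟩ := mem_image.1 (hA.1 ho)
      exact orb_trans (one_stab (H := H)) hxo hy
  rw [key, card_unions _ _ (fun o ho => P1_nonempty ho)
    (fun o ho o' ho' hne => P_disj one_dvd_card (one_stab (H := H)) ho ho' hne)
    (fun o _ => disjoint_empty_right o)]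

lemma Fix_one_size {B : Finset K} (hB : B ∈ Fix 1 H k) : (Hf H).card ∣ k := by
  obtain ⟨j, e, -, hk⟩ := Fix_size one_dvd_card (one_stab (H := H)) hB
  exact ⟨_, hk⟩

end count1

end

end Pool.Agent.V11179.AGL
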