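import Mathlib
import Pool.Agent.V11179.AGLBasic

/-!
Structure of the invariant sets with a larger stabilizer, and bounds for their number.
-/

namespace Pool.Agent.V11179.AGL

open Finset Classical

noncomputable section

variable {K : Type*} [Field K] [Fintype K]

lemma exists_unit_order {d : ℕ} (hd : d ∣ Fintype.card K - 1) : ∃ z : Kˣ, orderOf z = d := by
  obtain ⟨g, hg⟩ := IsCyclic.exists_generator (α := Kˣ)
  have h1 : orderOf g = Fintype.card K - 1 := by
    rw [orderOf_eq_card_of_forall_mem_zpowers hg, Nat.card_eq_fintype_card, Fintype.card_units]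
  have hq : 1 < Fintype.card K := Fintype.one_lt_card
  obtain ⟨c, hc⟩ := hd
  have hc0 : c ≠ 0 := by
    rintro rfl
    omega
  refine ⟨g ^ c, ?_⟩
  rw [orderOf_pow_of_dvd hc0 (by rw [h1, hc]; exact dvd_mul_left _ _), h1, hc,
    Nat.mul_div_cancel _ (Nat.pos_of_ne_zero hc0)]

lemma roots_in (T : Subgroup Kˣ) {d l : ℕ} (hd : d ∣ Fintype.card K - 1) (hl : l.Prime)
    (hT : ∀ ζ : Kˣ, ζ ^ d = 1 → ζ ∈ T) {a : Kˣ} (ha : a ∈ T) (h1 : a ^ (d * l) = 1)
    (h2 : a ^ d ≠ 1) :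
    d * l ∣ Fintype.card K - 1 ∧ ∀ ζ : Kˣ, ζ ^ (d * l) = 1 → ζ ∈ T := by
  obtain ⟨z, hz⟩ := exists_unit_order (K := K) hd
  have hd0 := d_pos hd
  have hdt : d ∣ Nat.card T := by
    rw [← hz]
    apply Subgroup.orderOf_dvd_natCard
    apply hT
    rw [← hz]
    exact pow_orderOf_eq_one z
  have hot : orderOf a ∣ Nat.card T := Subgroup.orderOf_dvd_natCard _ ha
  have hlcm : d.lcm (orderOf a) ∣ Nat.card T := Nat.lcm_dvd hdt hot
  have hdl : d * l = d.lcm (orderOf a) := by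
    have h3 : d.lcm (orderOf a) ∣ d * l :=
      Nat.lcm_dvd (dvd_mul_right _ _) (orderOf_dvd_of_pow_eq_one h1)
    obtain ⟨s, hs⟩ := Nat.dvd_lcm_left d (orderOf a)
    rw [hs] at h3 ⊢
    have h4 : s ∣ l := Nat.dvd_of_mul_dvd_mul_left hd0 h3
    rcases (Nat.dvd_prime hl).1 h4 with h5 | h5
    · exfalso
      apply h2
      rw [h5, mul_one] at hs
      have h6 : orderOf a ∣ d := by
        rw [← hs]
        exact Nat.dvd_lcm_right _ _
      exact orderOf_dvd_iff_pow_eq_one.1 h6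
    · rw [h5]
  rw [← hdl] at hlcm
  constructor
  · refine hlcm.trans ?_
    have h3 := Subgroup.card_subgroup_dvd_card T
    rwa [Nat.card_eq_fintype_card (α := Kˣ), Fintype.card_units] at h3
  · have ht0 : Nat.card T ≠ 0 := Nat.card_pos.ne'
    have : NeZero (Nat.card T) := ⟨ht0⟩
    have hle : T ≤ rootsOfUnity (Nat.card T) K := by
      intro x hx
      rw [mem_rootsOfUnity]
      have := pow_card_eq_one' (x := (⟨x, hx⟩ : T))
      exact congrArg Subtype.val this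
    have hcard : Nat.card (rootsOfUnity (Nat.card T) K) ≤ Nat.card T := card_rootsOfUnity K _
    have heq := Subgroup.eq_of_le_of_card_ge hle hcard
    intro ζ hζ
    rw [heq, mem_rootsOfUnity]
    obtain ⟨c, hc⟩ := hlcm
    rw [hc, pow_mul, hζ, one_pow]

/-- the multipliers preserving both `B` and `H` -/
def TB (B : Finset K) (H : AddSubgroup K) : Subgroup Kˣ where
  carrier := {u | Inv B (u : K) 0 ∧ ∀ h ∈ H, (u : K) * h ∈ H}
  mul_mem' := by
    rintro u v ⟨h1, h2⟩ ⟨h3, h4⟩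
    refine ⟨?_, ?_⟩
    · have := h1.comp h3
      rw [mul_zero, add_zero] at this
      rw [Units.val_mul]
      exact this
    · intro h hh
      rw [Units.val_mul, mul_assoc]
      exact h2 _ (h4 _ hh)
  one_mem' := by
    refine ⟨?_, ?_⟩
    · intro x hx
      rw [Units.val_one, one_mul, add_zero]
      exact hx
    · intro h hh
      rw [Units.val_one, one_mul]
      exact hh
  inv_mem' := by
    rintro u ⟨h1, h2⟩
    refine ⟨?_, ?_⟩
    · have := h1.symm u.ne_zero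
      rw [mul_zero, neg_zero] at this
      rw [Units.val_inv_eq_inv_val]
      exact this
    · rw [Units.val_inv_eq_inv_val]
      exact (stabField H).inv_mem h2

lemma Inv.pow {B : Finset K} {a b : K} (h : Inv B a b) (n : ℕ) : ∃ b', Inv B (a ^ n) b' := by
  induction n with
  | zero =>
    refine ⟨0, ?_⟩
    intro x hx
    rw [pow_zero, one_mul, add_zero]
    exact hx
  | succ n ih =>
    obtain ⟨b', hb'⟩ := ih
    refine ⟨a ^ n * b + b', ?_⟩
    rw [pow_succ]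
    exact hb'.comp h

/-- translations preserving `B` -/
def TrB (B : Finset K) : AddSubgroup K where
  carrier := {v | Inv B 1 v}
  add_mem' := by
    intro v w hv hw
    have := Inv.comp hv hw
    rw [one_mul, one_mul, add_comm] at this
    exact this
  zero_mem' := by
    intro x hx
    rw [one_mul, add_zero]
    exact hx
  neg_mem' := by
    intro v hv
    have := Inv.symm one_ne_zero hv
    rw [inv_one, one_mul] at this
    exact this

lemma mem_TrB {B : Finset K} {v : K} : v ∈ TrB B ↔ Inv B 1 v := Iff.rfl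

section

variable {d : ℕ} {H : AddSubgroup K} {k : ℕ}

lemma exact_mpr {B : Finset K} (hB : B ∈ Fix d H k) {a b : K} (ha : a ^ d = 1) (hb : b ∈ H) :
    Inv B a b := by
  rw [mem_Fix] at hB
  have := Inv.comp (hB.2.2 b hb) (hB.2.1 a ha)
  rw [one_mul, one_mul, zero_add] at this
  exact this

lemma bad_cases {B : Finset K} (hB : B ∈ Fix d H k) (hd : d ∣ Fintype.card K - 1)
    {a b : K} (ha : a ≠ 0) (hab : Inv B a b) (hnot : ¬ (a ^ d = 1 ∧ b ∈ H)) :
    (∃ v, v ∉ H ∧ Inv B 1 v) ∨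
      ((∀ v, Inv B 1 v → v ∈ H) ∧ ∃ a b : K, ∃ l : ℕ, l.Prime ∧ a ≠ 0 ∧ a ^ (d * l) = 1 ∧
        a ^ d ≠ 1 ∧ Inv B a b ∧ ∀ h ∈ H, a * h ∈ H) := by
  by_cases hv : ∃ v, v ∉ H ∧ Inv B 1 v
  · exact Or.inl hv
  · right
    push Not at hv
    have hv' : ∀ v, Inv B 1 v → v ∈ H := by
      intro v h
      by_contra hc
      exact hv v hc h
    refine ⟨hv', ?_⟩
    have had : a ^ d ≠ 1 := by
      intro h
      apply hnot
      refine ⟨h, ?_⟩
      have hinv : Inv B a⁻¹ 0 := (mem_Fix.1 hB).2.1 _ (by rw [inv_pow, h, inv_one])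
      have h1 := hab.comp hinv
      rw [mul_inv_cancel₀ ha, mul_zero, zero_add] at h1
      exact hv' b h1
    set u : Kˣ := Units.mk0 a ha with hu
    have hn1 : orderOf (u ^ d) ≠ 1 := by
      rw [Ne, orderOf_eq_one_iff]
      intro h
      apply had
      have := congrArg Units.val h
      rw [Units.val_pow_eq_pow_val, Units.val_one] at this
      exact this
    obtain ⟨l, hl, hln⟩ := Nat.exists_prime_and_dvd hn1
    set n := orderOf (u ^ d) with hn
    have hn0 : 0 < n := orderOf_pos _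
    obtain ⟨s, hs⟩ := hln
    have hs0 : 0 < s := by
      rcases Nat.eq_zero_or_pos s with h | h
      · rw [h, mul_zero] at hs; omega
      · exact h
    obtain ⟨b', hb'⟩ := hab.pow s
    have hu1 : (u ^ s) ^ (d * l) = 1 := by
      have : (u ^ s) ^ (d * l) = (u ^ d) ^ n := by
        rw [← pow_mul, ← pow_mul, hs]
        congr 1
        ring
      rw [this, hn]
      exact pow_orderOf_eq_one _
    have hu2 : (u ^ s) ^ d ≠ 1 := by
      intro h
      have h1 : (u ^ d) ^ s = 1 := by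
        rw [← pow_mul, mul_comm, pow_mul]
        exact h
      have h2 := Nat.le_of_dvd hs0 (orderOf_dvd_of_pow_eq_one h1)
      rw [← hn, hs] at h2
      have := hl.two_le
      nlinarith
    have e1 : ((u ^ s : Kˣ) : K) = a ^ s := by rw [Units.val_pow_eq_pow_val]; rfl
    refine ⟨a ^ s, b', l, hl, pow_ne_zero _ ha, ?_, ?_, hb', ?_⟩
    · have := congrArg Units.val hu1
      rw [Units.val_pow_eq_pow_val, Units.val_one, e1] at this
      exact this
    · intro h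
      apply hu2
      apply Units.ext
      rw [Units.val_pow_eq_pow_val, Units.val_one, e1]
      exact h
    · intro h hh
      apply hv'
      have h0 : a ^ s ≠ 0 := pow_ne_zero _ ha
      have h1 := (hb'.comp ((mem_Fix.1 hB).2.2 h hh)).comp (hb'.symm h0)
      rw [mul_one, mul_inv_cancel₀ h0] at h1
      convert h1 using 1
      field_simp
      ring

lemma badA_two {B : Finset K} (hB : B ∈ Fix d H k) (hd : d ∣ Fintype.card K - 1) (hd2 : 2 ≤ d)
    (hH : ∀ ζ : K, ζ ^ d = 1 → ∀ h ∈ H, ζ * h ∈ H)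
    (hv : ∀ v, Inv B 1 v → v ∈ H) {a b : K} {l : ℕ} (hl : l.Prime) (ha0 : a ≠ 0)
    (h1 : a ^ (d * l) = 1) (h2 : a ^ d ≠ 1) (hab : Inv B a b) (haH : ∀ h ∈ H, a * h ∈ H) :
    d * l ∣ Fintype.card K - 1 ∧ (∀ ζ : K, ζ ^ (d * l) = 1 → ∀ h ∈ H, ζ * h ∈ H) ∧
      B ∈ Fix (d * l) H k := by
  have hB' := mem_Fix.1 hB
  have hbH : b ∈ H := by
    obtain ⟨ζ, hζ, hζ1⟩ : ∃ ζ : K, ζ ^ d = 1 ∧ ζ ≠ 1 := by
      by_contra hc
      push Not at hc
      have : mu K d ⊆ {1} := by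
        intro ζ hζ
        rw [mem_singleton]
        exact hc ζ (mem_mu.1 hζ)
      have := card_le_card this
      rw [card_mu hd, card_singleton] at this
      omega
    have hζ0 : ζ ≠ 0 := by
      rintro rfl
      rw [zero_pow (by omega)] at hζ
      exact zero_ne_one hζ
    have h3 : Inv B 1 ((ζ - 1) * b) := by
      have h4 := (((hB'.2.1 ζ hζ).comp hab).comp
        (hB'.2.1 ζ⁻¹ (by rw [inv_pow, hζ, inv_one]))).comp (hab.symm ha0)
      have e1 : ζ * a * ζ⁻¹ * a⁻¹ = 1 := by field_simp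
      rw [e1] at h4
      convert h4 using 1
      field_simp
      ring
    have h4 := hv _ h3
    have h5 : (ζ - 1) ∈ stabField H :=
      (stabField H).sub_mem (hH ζ hζ) (stabField H).one_mem
    have h6 := (stabField H).inv_mem h5 _ h4
    rwa [← mul_assoc, inv_mul_cancel₀ (sub_ne_zero.2 hζ1), one_mul] at h6
  have ha' : Inv B a 0 := by
    have h3 := (hB'.2.2 (-b) (H.neg_mem hbH)).comp hab
    rw [one_mul, one_mul, add_neg_cancel] at h3
    exact h3
  have hT : ∀ ζ : Kˣ, ζ ^ d = 1 → ζ ∈ TB B H := by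
    intro ζ hζ
    have hζ' : (ζ : K) ^ d = 1 := by
      rw [← Units.val_pow_eq_pow_val, hζ, Units.val_one]
    exact ⟨hB'.2.1 _ hζ', hH _ hζ'⟩
  obtain ⟨h3, h4⟩ := roots_in (TB B H) hd hl hT (a := Units.mk0 a ha0) ⟨ha', haH⟩
    (by
      apply Units.ext
      rw [Units.val_pow_eq_pow_val, Units.val_one, Units.val_mk0, h1])
    (by
      intro h
      apply h2
      have := congrArg Units.val h
      rw [Units.val_pow_eq_pow_val, Units.val_one, Units.val_mk0] at this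
      exact this)
  have h5 : ∀ ζ : K, ζ ^ (d * l) = 1 → Inv B ζ 0 ∧ ∀ h ∈ H, ζ * h ∈ H := by
    intro ζ hζ
    have hζ0 : ζ ≠ 0 := by
      rintro rfl
      rw [zero_pow (Nat.mul_pos (by omega) hl.pos).ne'] at hζ
      exact zero_ne_one hζ
    have := h4 (Units.mk0 ζ hζ0) (by
      apply Units.ext
      rw [Units.val_pow_eq_pow_val, Units.val_one, Units.val_mk0, hζ])
    exact this
  exact ⟨h3, fun ζ hζ => (h5 ζ hζ).2, mem_Fix.2 ⟨hB'.1, fun ζ hζ => (h5 ζ hζ).1, hB'.2.2⟩⟩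

lemma badA_one {B : Finset K} (hB : B ∈ Fix 1 H k)
    {a b : K} {l : ℕ} (hl : l.Prime) (ha0 : a ≠ 0)
    (h1 : a ^ (1 * l) = 1) (h2 : a ^ 1 ≠ 1) (hab : Inv B a b) (haH : ∀ h ∈ H, a * h ∈ H) :
    l ∣ Fintype.card K - 1 ∧ (∀ ζ : K, ζ ^ l = 1 → ∀ h ∈ H, ζ * h ∈ H) ∧
      ∃ c, B.image (fun x => x - c) ∈ Fix l H k := by
  have hB' := mem_Fix.1 hB
  rw [pow_one] at h2
  set c : K := b / (1 - a) with hc
  have h1a : 1 - a ≠ 0 := sub_ne_zero.2 (Ne.symm h2)
  have hcb : c - a * c = b := by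
    rw [hc]
    field_simp
  set B' := B.image (fun x => x - c) with hB'def
  have ha' : Inv B' a 0 := by
    intro x hx
    obtain ⟨y, hy, rfl⟩ := mem_image.1 hx
    refine mem_image.2 ⟨a * y + b, hab y hy, ?_⟩
    rw [← hcb]
    ring
  have htr : ∀ h ∈ H, Inv B' 1 h := by
    intro h hh x hx
    obtain ⟨y, hy, rfl⟩ := mem_image.1 hx
    refine mem_image.2 ⟨1 * y + h, hB'.2.2 h hh y hy, ?_⟩
    ring
  have hcard : B'.card = k := by
    rw [hB'def, card_image_of_injective _ (sub_left_injective), hB'.1]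
  have hT : ∀ ζ : Kˣ, ζ ^ 1 = 1 → ζ ∈ TB B' H := by
    intro ζ hζ
    rw [pow_one] at hζ
    rw [hζ]
    exact (TB B' H).one_mem
  obtain ⟨h3, h4⟩ := roots_in (TB B' H) one_dvd_card hl hT (a := Units.mk0 a ha0) ⟨ha', haH⟩
    (by
      apply Units.ext
      rw [Units.val_pow_eq_pow_val, Units.val_one, Units.val_mk0, h1])
    (by
      intro h
      apply h2
      have := congrArg Units.val h
      rw [Units.val_pow_eq_pow_val, Units.val_one, Units.val_mk0, pow_one] at this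
      exact this)
  rw [one_mul] at h3 h4
  have h5 : ∀ ζ : K, ζ ^ l = 1 → Inv B' ζ 0 ∧ ∀ h ∈ H, ζ * h ∈ H := by
    intro ζ hζ
    have hζ0 : ζ ≠ 0 := by
      rintro rfl
      rw [zero_pow hl.pos.ne'] at hζ
      exact zero_ne_one hζ
    have := h4 (Units.mk0 ζ hζ0) (by
      apply Units.ext
      rw [Units.val_pow_eq_pow_val, Units.val_one, Units.val_mk0, hζ])
    exact this
  exact ⟨h3, fun ζ hζ => (h5 ζ hζ).2, c, mem_Fix.2 ⟨hcard, fun ζ hζ => (h5 ζ hζ).1, htr⟩⟩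

end

section fieldE

/-- the subfield generated by the `d`-th roots of unity -/
def EE (K : Type*) [Field K] (d : ℕ) : Subfield K := Subfield.closure {ζ : K | ζ ^ d = 1}

lemma EE_le {d : ℕ} {H : AddSubgroup K} (hH : ∀ ζ : K, ζ ^ d = 1 → ∀ h ∈ H, ζ * h ∈ H) :
    EE K d ≤ stabField H := by
  unfold EE
  rw [Subfield.closure_le]
  intro ζ hζ
  exact hH ζ hζ

omit [Fintype K] in
lemma mem_EE {d : ℕ} {ζ : K} (h : ζ ^ d = 1) : ζ ∈ EE K d := Subfield.subset_closure h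

/-- the subfield `EE` as a finset -/
def Ef (K : Type*) [Field K] [Fintype K] (d : ℕ) : Finset K := univ.filter (· ∈ EE K d)

lemma mem_Ef {d : ℕ} {x : K} : x ∈ Ef K d ↔ x ∈ EE K d := by simp [Ef]

/-- `H + E v` -/
def H1 (d : ℕ) (H : AddSubgroup K) (v : K) : AddSubgroup K :=
  H ⊔ (EE K d).toAddSubgroup.map (AddMonoidHom.mulRight v)

lemma mem_H1 {d : ℕ} {H : AddSubgroup K} {v x : K} :
    x ∈ H1 d H v ↔ ∃ h ∈ H, ∃ ε ∈ EE K d, x = h + ε * v := by
  unfold H1
  rw [AddSubgroup.mem_sup]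
  constructor
  · rintro ⟨h, hh, y, hy, rfl⟩
    obtain ⟨ε, hε, rfl⟩ := AddSubgroup.mem_map.1 hy
    exact ⟨h, hh, ε, hε, rfl⟩
  · rintro ⟨h, hh, ε, hε, rfl⟩
    exact ⟨h, hh, ε * v, AddSubgroup.mem_map.2 ⟨ε, hε, rfl⟩, rfl⟩

variable {d : ℕ} {H : AddSubgroup K} {k : ℕ}

lemma le_H1 {v : K} {h : K} (hh : h ∈ H) : h ∈ H1 d H v :=
  mem_H1.2 ⟨h, hh, 0, (EE K d).zero_mem, by ring⟩

lemma self_mem_H1 {v : K} : v ∈ H1 d H v :=
  mem_H1.2 ⟨0, H.zero_mem, 1, (EE K d).one_mem, by ring⟩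

lemma H1_stable (hH : ∀ ζ : K, ζ ^ d = 1 → ∀ h ∈ H, ζ * h ∈ H) (v : K) :
    ∀ ζ : K, ζ ^ d = 1 → ∀ h ∈ H1 d H v, ζ * h ∈ H1 d H v := by
  intro ζ hζ x hx
  obtain ⟨h, hh, ε, hε, rfl⟩ := mem_H1.1 hx
  exact mem_H1.2 ⟨ζ * h, hH ζ hζ h hh, ζ * ε, (EE K d).mul_mem (mem_EE hζ) hε, by ring⟩

lemma card_H1 (hH : ∀ ζ : K, ζ ^ d = 1 → ∀ h ∈ H, ζ * h ∈ H) {v : K} (hv : v ∉ H) :
    (Hf (H1 d H v)).card = (Ef K d).card * (Hf H).card := by
  have h1 : Hf (H1 d H v) = ((Ef K d) ×ˢ (Hf H)).image (fun p => p.2 + p.1 * v) := by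
    ext x
    rw [mem_Hf, mem_H1, mem_image]
    constructor
    · rintro ⟨h, hh, ε, hε, rfl⟩
      exact ⟨(ε, h), mem_product.2 ⟨mem_Ef.2 hε, mem_Hf.2 hh⟩, rfl⟩
    · rintro ⟨⟨ε, h⟩, hp, rfl⟩
      rw [mem_product] at hp
      exact ⟨h, mem_Hf.1 hp.2, ε, mem_Ef.1 hp.1, rfl⟩
  rw [h1, card_image_of_injOn, card_product]
  rintro ⟨ζ, h⟩ hp ⟨ξ, g⟩ hp' heq
  rw [mem_coe, mem_product] at hp hp'
  simp only at heq hp hp'
  have h2 : (ζ - ξ) * v ∈ H := by
    have : (ζ - ξ) * v = g - h := by linear_combination heq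
    rw [this]
    exact H.sub_mem (mem_Hf.1 hp'.2) (mem_Hf.1 hp.2)
  have h3 : ζ = ξ := by
    by_contra hne
    have h4 : (ζ - ξ)⁻¹ ∈ stabField H := EE_le hH
      ((EE K d).inv_mem ((EE K d).sub_mem (mem_Ef.1 hp.1) (mem_Ef.1 hp'.1)))
    have h5 := h4 _ h2
    rw [← mul_assoc, inv_mul_cancel₀ (sub_ne_zero.2 hne), one_mul] at h5
    exact hv h5
  subst h3
  have h4 : h = g := add_right_cancel heq
  rw [h4]

lemma Fix_H1 {B : Finset K} (hB : B ∈ Fix d H k) (hd : d ∣ Fintype.card K - 1) {v : K}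
    (hv : Inv B 1 v) : B ∈ Fix d (H1 d H v) k := by
  have hB' := mem_Fix.1 hB
  refine mem_Fix.2 ⟨hB'.1, hB'.2.1, ?_⟩
  have hst : ∀ ζ : K, ζ ^ d = 1 → ∀ h ∈ TrB B, ζ * h ∈ TrB B := by
    intro ζ hζ h hh
    have hζ0 : ζ ≠ 0 := by
      rintro rfl
      rw [zero_pow (d_pos hd).ne'] at hζ
      exact zero_ne_one hζ
    rw [mem_TrB] at hh ⊢
    have h1 := ((hB'.2.1 ζ hζ).comp hh).comp (hB'.2.1 ζ⁻¹ (by rw [inv_pow, hζ, inv_one]))
    rw [mul_one, mul_inv_cancel₀ hζ0] at h1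
    convert h1 using 1
    ring
  intro x hx
  obtain ⟨h, hh, ε, hε, rfl⟩ := mem_H1.1 hx
  have h1 : h ∈ TrB B := hB'.2.2 h hh
  have h2 : ε * v ∈ TrB B := EE_le hst hε v hv
  exact (TrB B).add_mem h1 h2

/-- the invariant sets with a translation outside `H` -/
def BadB (d : ℕ) (H : AddSubgroup K) (k : ℕ) : Finset (Finset K) :=
  (Fix d H k).filter (fun B => ∃ v, v ∉ H ∧ Inv B 1 v)

lemma card_BadB (hd : d ∣ Fintype.card K - 1) (hH : ∀ ζ : K, ζ ^ d = 1 → ∀ h ∈ H, ζ * h ∈ H)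
    {X : ℕ} (hX : ∀ v, v ∉ H → (Fix d (H1 d H v) k).card ≤ X) :
    (BadB d H k).card * ((Ef K d).card * (Hf H).card - (Hf H).card) ≤
      (Fintype.card K - (Hf H).card) * X := by
  have hcompl : (univ.filter (fun v : K => v ∉ H)).card = Fintype.card K - (Hf H).card := by
    have h3 := card_filter_add_card_filter_not (s := (univ : Finset K)) (fun x => x ∈ H)
    rw [Finset.card_univ] at h3
    unfold Hf
    omega
  rw [← hcompl]
  apply card_mul_le_card_mul (fun (B : Finset K) (v : K) => Inv B 1 v)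
  · intro B hB
    obtain ⟨hB1, v, hv, hBv⟩ := mem_filter.1 hB
    have h1 := mem_Fix.1 (Fix_H1 hB1 hd hBv)
    have h2 : (Hf (H1 d H v)) \ (Hf H) ⊆
        (univ.filter (fun v : K => v ∉ H)).bipartiteAbove (fun B v => Inv B 1 v) B := by
      intro w hw
      rw [mem_sdiff, mem_Hf, mem_Hf] at hw
      rw [mem_bipartiteAbove]
      exact ⟨mem_filter.2 ⟨mem_univ _, hw.2⟩, h1.2.2 w hw.1⟩
    refine le_trans ?_ (card_le_card h2)
    rw [card_sdiff_of_subset, card_H1 hH hv]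
    intro h hh
    rw [mem_Hf] at hh ⊢
    exact le_H1 hh
  · intro v hv
    refine le_trans (card_le_card ?_) (hX v (mem_filter.1 hv).2)
    intro B hB
    rw [mem_bipartiteBelow] at hB
    exact Fix_H1 (mem_filter.1 hB.1).1 hd hB.2

lemma card_Ef_ge (hd : d ∣ Fintype.card K - 1) : d + 1 ≤ (Ef K d).card := by
  have h1 : insert 0 (mu K d) ⊆ Ef K d := by
    intro x hx
    rw [mem_Ef]
    rcases mem_insert.1 hx with rfl | h
    · exact (EE K d).zero_mem
    · exact mem_EE (mem_mu.1 h)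
  refine le_trans ?_ (card_le_card h1)
  rw [card_insert_of_notMem, card_mu hd]
  rw [mem_mu, zero_pow (d_pos hd).ne']
  exact zero_ne_one

lemma card_Ef_eq : (Ef K d).card = Nat.card (EE K d) := by
  rw [Nat.card_eq_fintype_card, Fintype.card_subtype]
  rfl

lemma card_Ef_mod (hd : d ∣ Fintype.card K - 1) : ∃ c, 1 ≤ c ∧ (Ef K d).card = c * d + 1 := by
  obtain ⟨z, hz⟩ := exists_prim (K := K) hd
  have hd0 := d_pos hd
  have hzE : z ∈ EE K d := mem_EE hz.pow_eq_one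
  have hprim : IsPrimitiveRoot (⟨z, hzE⟩ : EE K d) d := by
    apply IsPrimitiveRoot.of_map_of_injective (f := (EE K d).subtype) _ Subtype.val_injective
    exact hz
  have hz0 : (⟨z, hzE⟩ : EE K d) ≠ 0 := hprim.ne_zero hd0.ne'
  have h1 := hprim.eq_orderOf
  have h2 : (⟨z, hzE⟩ : EE K d) ^ (Nat.card (EE K d) - 1) = 1 := by
    have h3 := FiniteField.pow_card_sub_one_eq_one (⟨z, hzE⟩ : EE K d) hz0
    rw [← Nat.card_eq_fintype_card] at h3
    exact h3
  have h3 : d ∣ Nat.card (EE K d) - 1 := by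
    have h5 := orderOf_dvd_of_pow_eq_one h2
    rw [← h1] at h5
    exact h5
  obtain ⟨c, hc⟩ := h3
  have h4 := card_Ef_ge (K := K) hd
  rw [card_Ef_eq] at h4 ⊢
  refine ⟨c, ?_, ?_⟩
  · rcases Nat.eq_zero_or_pos c with h | h
    · rw [h, mul_zero] at hc
      omega
    · exact h
  · have : Nat.card (EE K d) = d * c + 1 := by omega
    rw [this, mul_comm]

end fieldE

end

end Pool.Agent.V11179.AGL
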