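import Mathlib

/-!
Numerical inequalities between binomial coefficients.
-/

namespace Pool.Agent.V11179.AGL

open Finset

lemma choose_mono_half {n s : ℕ} (hs : 2 * s ≤ n) : ∀ t ≤ s, n.choose t ≤ n.choose s := by
  induction s with
  | zero =>
    intro t ht
    have : t = 0 := by omega
    rw [this]
  | succ s ih =>
    intro t ht
    rcases Nat.lt_or_ge t (s + 1) with h | h
    · exact (ih (by omega) t (by omega)).trans (Nat.choose_le_succ_of_lt_half_left (by omega))
    · have : t = s + 1 := by omega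
      rw [this]

lemma choose_mono_half' {n s t : ℕ} (hs : 2 * s ≤ n + 1) (ht : t ≤ s) :
    n.choose t ≤ n.choose s := by
  rcases Nat.lt_or_ge n (2 * s) with h | h
  · rcases Nat.lt_or_ge t s with h1 | h1
    · have h2 : n.choose (s - 1) = n.choose s := by
        have h3 : n.choose (n - (s - 1)) = n.choose (s - 1) := Nat.choose_symm (by omega)
        have h4 : n - (s - 1) = s := by omega
        rw [h4] at h3
        exact h3.symm
      rw [← h2]
      exact choose_mono_half (by omega) t (by omega)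
    · have : t = s := by omega
      rw [this]
  · exact choose_mono_half h t ht

lemma vand (a a' s s' : ℕ) : a.choose s * a'.choose s' ≤ (a + a').choose (s + s') := by
  rw [Nat.add_choose_eq]
  exact single_le_sum (f := fun ij : ℕ × ℕ => a.choose ij.1 * a'.choose ij.2)
    (fun _ _ => Nat.zero_le _) (show (s, s') ∈ antidiagonal (s + s') by
      rw [Finset.HasAntidiagonal.mem_antidiagonal])

lemma c2 (n : ℕ) : (n + 2).choose 2 * 2 = (n + 2) * (n + 1) := by
  have h := Nat.choose_succ_right_eq (n + 2) 1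
  rw [Nat.choose_one_right] at h
  have e : n + 2 - 1 = n + 1 := by omega
  rw [e] at h
  exact h

lemma c3 (n : ℕ) : (n + 3).choose 3 * 6 = (n + 3) * (n + 2) * (n + 1) := by
  have h := Nat.choose_succ_right_eq (n + 3) 2
  have h2 := c2 (n + 1)
  have e : n + 3 - 2 = n + 1 := by omega
  rw [e] at h
  have e2 : n + 1 + 2 = n + 3 := by ring
  rw [e2] at h2
  have : (n + 3).choose 3 * 6 = ((n + 3).choose (2 + 1) * (2 + 1)) * 2 := by ring
  rw [this, h]
  have : (n + 3).choose 2 * (n + 1) * 2 = ((n + 3).choose 2 * 2) * (n + 1) := by ring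
  rw [this, h2]

lemma c4 (n : ℕ) : (n + 4).choose 4 * 24 = (n + 4) * (n + 3) * (n + 2) * (n + 1) := by
  have h := Nat.choose_succ_right_eq (n + 4) 3
  have h2 := c3 (n + 1)
  have e : n + 4 - 3 = n + 1 := by omega
  rw [e] at h
  have e2 : n + 1 + 3 = n + 4 := by ring
  rw [e2] at h2
  have : (n + 4).choose 4 * 24 = ((n + 4).choose (3 + 1) * (3 + 1)) * 6 := by ring
  rw [this, h]
  have : (n + 4).choose 3 * (n + 1) * 6 = ((n + 4).choose 3 * 6) * (n + 1) := by ring
  rw [this, h2]

/-- small binomial coefficients are bounded by the half-half one -/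
lemma choose_div_le {m j a t : ℕ} (hjm : 2 * j ≤ m) (ha : 2 * a ≤ m) (ht : 2 * t ≤ j) :
    a.choose t ≤ (m / 2).choose (j / 2) := by
  calc a.choose t ≤ (m / 2).choose t := Nat.choose_le_choose t (by omega)
    _ ≤ (m / 2).choose (j / 2) := choose_mono_half (by omega) t (by omega)

/-- the sum of the first family in the case `d ≥ 2` -/
def sumA2 (m j : ℕ) : ℕ :=
  ∑ l ∈ (range (j + 1)).filter (fun l => 2 ≤ l ∧ l ∣ j ∧ l ∣ m), (m / l).choose (j / l)

/-- the sum of the first family in the case `d = 1` -/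
def sumA1 (Q k : ℕ) : ℕ :=
  ∑ l ∈ (range (k + 1)).filter (fun l => 2 ≤ l ∧ k % l ≤ 1 ∧ l ∣ Q - 1),
    Q * ((Q - 1) / l).choose (k / l)

lemma card_filter_range (j : ℕ) (hj : 1 ≤ j) (p : ℕ → Prop) [DecidablePred p] :
    ((range (j + 1)).filter (fun l => 2 ≤ l ∧ p l)).card ≤ j - 1 := by
  have h : (range (j + 1)).filter (fun l => 2 ≤ l ∧ p l) ⊆ Ico 2 (j + 1) := by
    intro l hl
    rw [mem_filter, mem_range] at hl
    rw [mem_Ico]
    omega
  refine (card_le_card h).trans ?_
  rw [Nat.card_Ico]
  omega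

lemma sumA2_le {m j : ℕ} (hj : 1 ≤ j) (hjm : 2 * j ≤ m) :
    sumA2 m j ≤ (j - 1) * (m / 2).choose (j / 2) := by
  unfold sumA2
  refine (sum_le_card_nsmul _ _ ((m / 2).choose (j / 2)) ?_).trans ?_
  · intro l hl
    rw [mem_filter] at hl
    obtain ⟨-, hl2, hlj, hlm⟩ := hl
    apply choose_div_le hjm
    · obtain ⟨c, rfl⟩ := hlm
      rw [Nat.mul_div_cancel_left _ (by omega)]
      exact Nat.mul_le_mul_right c hl2
    · obtain ⟨c, rfl⟩ := hlj
      rw [Nat.mul_div_cancel_left _ (by omega)]
      exact Nat.mul_le_mul_right c hl2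
  · rw [smul_eq_mul]
    exact Nat.mul_le_mul_right _ (card_filter_range j hj _)

lemma sumA1_le {Q k : ℕ} (hk : 1 ≤ k) (hkQ : 2 * k ≤ Q) :
    sumA1 Q k ≤ (k - 1) * (Q * (Q / 2).choose (k / 2)) := by
  unfold sumA1
  refine (sum_le_card_nsmul _ _ (Q * (Q / 2).choose (k / 2)) ?_).trans ?_
  · intro l hl
    rw [mem_filter] at hl
    obtain ⟨-, hl2, hlj, hlm⟩ := hl
    apply Nat.mul_le_mul_left
    apply choose_div_le hkQ
    · have := Nat.div_mul_le_self (Q - 1) l
      have h2 : (Q - 1) / l * 2 ≤ (Q - 1) / l * l := Nat.mul_le_mul_left _ hl2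
      omega
    · have := Nat.div_mul_le_self k l
      have h2 : k / l * 2 ≤ k / l * l := Nat.mul_le_mul_left _ hl2
      omega
  · rw [smul_eq_mul]
    exact Nat.mul_le_mul_right _ (card_filter_range k hk _)

lemma I2_large {m j : ℕ} (hm : 13 ≤ m) (hj : 4 ≤ j) (hjm : 2 * j ≤ m) :
    (m + j - 1) * (m / 2).choose (j / 2) < m.choose j := by
  have hY : 0 < (m / 2).choose (j / 2) := Nat.choose_pos (by omega)
  have h1 := vand (m / 2) (m - m / 2) (j / 2) (j - j / 2)
  have e1 : m / 2 + (m - m / 2) = m := by omega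
  have e2 : j / 2 + (j - j / 2) = j := by omega
  rw [e1, e2] at h1
  have h2 : m + j ≤ (m - m / 2).choose (j - j / 2) := by
    rcases Nat.lt_or_ge j 5 with h | h
    · have hj4 : j = 4 := by omega
      subst hj4
      obtain ⟨x, hx⟩ : ∃ x, m - m / 2 = x + 2 := ⟨m - m / 2 - 2, by omega⟩
      have h3 := c2 x
      have hx5 : 5 ≤ x := by omega
      have hmx : m ≤ 2 * (x + 2) := by omega
      have e3 : 4 - 4 / 2 = 2 := by norm_num
      rw [e3, hx]
      nlinarith
    · have h3 : (m - m / 2).choose 3 ≤ (m - m / 2).choose (j - j / 2) :=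
        choose_mono_half' (by omega) (by omega)
      refine le_trans ?_ h3
      obtain ⟨x, hx⟩ : ∃ x, m - m / 2 = x + 3 := ⟨m - m / 2 - 3, by omega⟩
      have h4 := c3 x
      have hx5 : 4 ≤ x := by omega
      have hmx : m + j ≤ 3 * (x + 3) := by omega
      rw [hx]
      have h5 : 18 * (x + 3) ≤ (x + 3) * (x + 2) * (x + 1) := by
        have : 18 ≤ (x + 2) * (x + 1) := by nlinarith
        calc 18 * (x + 3) = (x + 3) * 18 := by ring
          _ ≤ (x + 3) * ((x + 2) * (x + 1)) := Nat.mul_le_mul_left _ this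
          _ = _ := by ring
      omega
  calc (m + j - 1) * (m / 2).choose (j / 2) < (m + j) * (m / 2).choose (j / 2) :=
        Nat.mul_lt_mul_of_pos_right (by omega) hY
    _ ≤ (m - m / 2).choose (j - j / 2) * (m / 2).choose (j / 2) := Nat.mul_le_mul_right _ h2
    _ = (m / 2).choose (j / 2) * (m - m / 2).choose (j - j / 2) := by ring
    _ ≤ m.choose j := h1

lemma I2_small : ∀ m ∈ Finset.Icc 8 12, ∀ j ∈ Finset.Icc 4 6, 2 * j ≤ m →
    (m + j - 1) * (m / 2).choose (j / 2) < m.choose j := by
  decide +kernel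

lemma I2 {m j : ℕ} (hj : 4 ≤ j) (hjm : 2 * j ≤ m) :
    (m + j - 1) * (m / 2).choose (j / 2) < m.choose j := by
  rcases Nat.lt_or_ge m 13 with h | h
  · exact I2_small m (Finset.mem_Icc.2 ⟨by omega, by omega⟩) j
      (Finset.mem_Icc.2 ⟨by omega, by omega⟩) hjm
  · exact I2_large h hj hjm

lemma I1_large {Q k : ℕ} (hQ : 19 ≤ Q) (hk : 5 ≤ k) (hkQ : 2 * k ≤ Q) :
    k * Q * (Q / 2).choose (k / 2) ≤ Q.choose k := by
  have h1 := vand (Q / 2) (Q - Q / 2) (k / 2) (k - k / 2)
  have e1 : Q / 2 + (Q - Q / 2) = Q := by omega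
  have e2 : k / 2 + (k - k / 2) = k := by omega
  rw [e1, e2] at h1
  have h2 : k * Q ≤ (Q - Q / 2).choose (k - k / 2) := by
    rcases Nat.lt_or_ge k 7 with h | h
    · have h3 : (Q - Q / 2).choose 3 ≤ (Q - Q / 2).choose (k - k / 2) :=
        choose_mono_half' (by omega) (by omega)
      refine le_trans ?_ h3
      obtain ⟨x, hx⟩ : ∃ x, Q - Q / 2 = x + 3 := ⟨Q - Q / 2 - 3, by omega⟩
      have h4 := c3 x
      have hx5 : 7 ≤ x := by omega
      have hQx : Q ≤ 2 * (x + 3) := by omega
      rw [hx]
      have h5 : 72 * (x + 3) ≤ (x + 3) * (x + 2) * (x + 1) := by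
        have : 72 ≤ (x + 2) * (x + 1) := by nlinarith
        calc 72 * (x + 3) = (x + 3) * 72 := by ring
          _ ≤ (x + 3) * ((x + 2) * (x + 1)) := Nat.mul_le_mul_left _ this
          _ = _ := by ring
      have h6 : k * Q ≤ 6 * (2 * (x + 3)) := Nat.mul_le_mul (by omega) hQx
      omega
    · have h3 : (Q - Q / 2).choose 4 ≤ (Q - Q / 2).choose (k - k / 2) :=
        choose_mono_half' (by omega) (by omega)
      refine le_trans ?_ h3
      obtain ⟨x, hx⟩ : ∃ x, Q - Q / 2 = x + 4 := ⟨Q - Q / 2 - 4, by omega⟩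
      have h4 := c4 x
      have hx5 : 6 ≤ x := by omega
      have hQx : Q ≤ 2 * (x + 4) := by omega
      have hkx : k ≤ x + 4 := by omega
      rw [hx]
      have h5 : 48 * (x + 4) * (x + 4) ≤ (x + 4) * (x + 3) * (x + 2) * (x + 1) := by
        have : 48 * (x + 4) ≤ (x + 3) * (x + 2) * (x + 1) := by
          obtain ⟨y, rfl⟩ : ∃ y, x = y + 6 := ⟨x - 6, by omega⟩
          nlinarith [Nat.zero_le (y ^ 3), Nat.zero_le (y ^ 2), Nat.zero_le y]
        calc 48 * (x + 4) * (x + 4) = (x + 4) * (48 * (x + 4)) := by ring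
          _ ≤ (x + 4) * ((x + 3) * (x + 2) * (x + 1)) := Nat.mul_le_mul_left _ this
          _ = _ := by ring
      have h6 : k * Q ≤ (x + 4) * (2 * (x + 4)) := Nat.mul_le_mul hkx hQx
      nlinarith
  calc k * Q * (Q / 2).choose (k / 2) ≤
        (Q - Q / 2).choose (k - k / 2) * (Q / 2).choose (k / 2) := Nat.mul_le_mul_right _ h2
    _ = (Q / 2).choose (k / 2) * (Q - Q / 2).choose (k - k / 2) := by ring
    _ ≤ Q.choose k := h1

lemma I1_small : ∀ Q ∈ Finset.Icc 10 18, ∀ k ∈ Finset.Icc 5 9, 2 * k ≤ Q →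
    sumA1 Q k + (Q - 1) * (Q / 2).choose (k / 2) < Q.choose k := by
  decide +kernel

lemma I1 {Q k : ℕ} (hk : 5 ≤ k) (hkQ : 2 * k ≤ Q) :
    sumA1 Q k + (Q - 1) * (Q / 2).choose (k / 2) < Q.choose k := by
  rcases Nat.lt_or_ge Q 19 with h | h
  · exact I1_small Q (Finset.mem_Icc.2 ⟨by omega, by omega⟩) k
      (Finset.mem_Icc.2 ⟨by omega, by omega⟩) hkQ
  · have hY : 0 < (Q / 2).choose (k / 2) := Nat.choose_pos (by omega)
    have h1 := I1_large h hk hkQ
    have h2 := sumA1_le (by omega) hkQ
    set Y := (Q / 2).choose (k / 2) with hYdef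
    refine lt_of_lt_of_le ?_ h1
    obtain ⟨k', rfl⟩ : ∃ k', k = k' + 1 := ⟨k - 1, by omega⟩
    obtain ⟨Q', rfl⟩ : ∃ Q', Q = Q' + 1 := ⟨Q - 1, by omega⟩
    simp only [Nat.add_sub_cancel] at h2 ⊢
    calc sumA1 (Q' + 1) (k' + 1) + Q' * Y ≤ k' * ((Q' + 1) * Y) + Q' * Y := by omega
      _ < k' * ((Q' + 1) * Y) + (Q' + 1) * Y := by nlinarith
      _ = (k' + 1) * (Q' + 1) * Y := by ring

lemma sumA2_two (m : ℕ) : sumA2 m 2 ≤ m / 2 := by
  unfold sumA2
  rw [sum_filter]
  simp only [sum_range_succ, sum_range_zero]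
  norm_num
  split_ifs <;> omega

lemma sumA2_three (m : ℕ) : sumA2 m 3 ≤ m / 3 := by
  unfold sumA2
  rw [sum_filter]
  simp only [sum_range_succ, sum_range_zero]
  norm_num
  split_ifs <;> omega

theorem ineq2 {m j d c e0 m1 j1 b : ℕ} (hd : 2 ≤ d) (hj : 2 ≤ j) (hjm : 2 * j ≤ m)
    (hb : b = 0 ∨ (1 ≤ c ∧ e0 ≤ 1 ∧ j = (c * d + 1) * j1 + c * e0 ∧ m = (c * d + 1) * m1 + c ∧
      b * c ≤ m * m1.choose j1)) :
    sumA2 m j + b < m.choose j := by
  rcases Nat.lt_or_ge j 4 with h4 | h4
  · have hcd : b ≠ 0 → 3 ≤ c * d + 1 := by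
      intro hb0
      rcases hb with h | ⟨h1, -⟩
      · exact absurd h hb0
      · have : 1 * 2 ≤ c * d := Nat.mul_le_mul h1 hd
        omega
    rcases (show j = 2 ∨ j = 3 by omega) with rfl | rfl
    · have hA := sumA2_two m
      have hB : b * 2 ≤ m := by
        rcases Nat.eq_zero_or_pos b with h0 | h0
        · rw [h0]; omega
        · have h3 := hcd (by omega)
          rcases hb with h | ⟨h1, he0, hj1, hm1, hb⟩
          · omega
          · have hj10 : j1 = 0 := by
              rcases Nat.eq_zero_or_pos j1 with h | h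
              · exact h
              · have : 3 * 1 ≤ (c * d + 1) * j1 := Nat.mul_le_mul h3 h
                omega
            rw [hj10, mul_zero, zero_add] at hj1
            rw [hj10, Nat.choose_zero_right, mul_one] at hb
            have hc2 : c = 2 := by
              rcases (show e0 = 0 ∨ e0 = 1 by omega) with h | h
              · rw [h] at hj1; omega
              · rw [h] at hj1; omega
            rw [hc2] at hb
            exact hb
      obtain ⟨x, rfl⟩ : ∃ x, m = x + 2 := ⟨m - 2, by omega⟩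
      have h5 := c2 x
      have h6 : (x + 2) * 3 ≤ (x + 2) * (x + 1) := Nat.mul_le_mul_left _ (by omega)
      omega
    · have hA := sumA2_three m
      have hB : 3 * b ≤ m ∨ ∃ m1, m = 3 * m1 + 1 ∧ b ≤ m * m1 := by
        rcases Nat.eq_zero_or_pos b with h0 | h0
        · left; rw [h0]; omega
        · have h3 := hcd (by omega)
          rcases hb with h | ⟨h1, he0, hj1, hm1, hb⟩
          · omega
          · rcases Nat.eq_zero_or_pos j1 with h | h
            · left
              rw [h, mul_zero, zero_add] at hj1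
              rw [h, Nat.choose_zero_right, mul_one] at hb
              have hc2 : c = 3 := by
                rcases (show e0 = 0 ∨ e0 = 1 by omega) with h | h
                · rw [h] at hj1; omega
                · rw [h] at hj1; omega
              rw [hc2] at hb
              omega
            · right
              have hj11 : j1 = 1 := by
                by_contra hne
                have : 3 * 2 ≤ (c * d + 1) * j1 := Nat.mul_le_mul h3 (by omega)
                omega
              rw [hj11, mul_one] at hj1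
              have hcd2 : c * d = 2 := by omega
              have hc1 : c = 1 := by
                by_contra hne
                have : 2 * 2 ≤ c * d := Nat.mul_le_mul (by omega) hd
                omega
              rw [hc1] at hcd2 hm1 hb
              rw [hcd2] at hm1
              rw [hj11, Nat.choose_one_right, mul_one] at hb
              exact ⟨m1, hm1, hb⟩
      obtain ⟨x, rfl⟩ : ∃ x, m = x + 3 := ⟨m - 3, by omega⟩
      have h5 := c3 x
      have hx : 3 ≤ x := by omega
      rcases hB with hB | ⟨m1, hm1, hB⟩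
      · have h6 : (x + 3) * 20 ≤ (x + 3) * ((x + 2) * (x + 1)) :=
          Nat.mul_le_mul_left _ (by nlinarith)
        have h7 : (x + 3) * (x + 2) * (x + 1) = (x + 3) * ((x + 2) * (x + 1)) := by ring
        omega
      · obtain ⟨y, hy⟩ : ∃ y, m1 = y + 2 := ⟨m1 - 2, by omega⟩
        subst hy
        have hxy : x = 3 * y + 4 := by omega
        subst hxy
        have h6 : 6 * ((3 * y + 4 + 3) / 3 + b) ≤
            2 * (3 * y + 7) + 6 * ((3 * y + 7) * (y + 2)) := by
          have : (3 * y + 4 + 3) / 3 * 3 ≤ 3 * y + 7 := Nat.div_mul_le_self _ _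
          have e : 3 * y + 4 + 3 = 3 * y + 7 := by ring
          rw [e] at hB this ⊢
          omega
        have h7 : 2 * (3 * y + 7) + 6 * ((3 * y + 7) * (y + 2)) <
            (3 * y + 4 + 3) * (3 * y + 4 + 2) * (3 * y + 4 + 1) := by
          nlinarith [Nat.zero_le (y ^ 3), Nat.zero_le (y ^ 2), Nat.zero_le y]
        omega
  · have hA := sumA2_le (m := m) (j := j) (by omega) hjm
    have hI := I2 h4 hjm
    have hB : b ≤ m * (m / 2).choose (j / 2) := by
      rcases hb with h | ⟨h1, he0, hj1, hm1, hb⟩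
      · rw [h]; exact Nat.zero_le _
      · have hcd : 3 ≤ c * d + 1 := by
          have : 1 * 2 ≤ c * d := Nat.mul_le_mul h1 hd
          omega
        have h5 : m1.choose j1 ≤ (m / 2).choose (j / 2) := by
          apply choose_div_le hjm
          · have : 3 * m1 ≤ (c * d + 1) * m1 := Nat.mul_le_mul_right _ hcd
            omega
          · have : 3 * j1 ≤ (c * d + 1) * j1 := Nat.mul_le_mul_right _ hcd
            omega
        calc b = b * 1 := (mul_one b).symm
          _ ≤ b * c := Nat.mul_le_mul_left _ h1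
          _ ≤ m * m1.choose j1 := hb
          _ ≤ _ := Nat.mul_le_mul_left _ h5
    set Y := (m / 2).choose (j / 2)
    calc sumA2 m j + b ≤ (j - 1) * Y + m * Y := by omega
      _ = (m + j - 1) * Y := by
        rw [← add_mul]
        congr 1
        omega
      _ < _ := hI

lemma sumA1_three (Q : ℕ) : sumA1 Q 3 =
    (if 2 ∣ Q - 1 then Q * ((Q - 1) / 2) else 0) + (if 3 ∣ Q - 1 then Q * ((Q - 1) / 3) else 0) := by
  unfold sumA1
  rw [sum_filter]
  simp only [sum_range_succ, sum_range_zero]
  norm_num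

lemma sumA1_four (Q : ℕ) : sumA1 Q 4 =
    (if 2 ∣ Q - 1 then Q * ((Q - 1) / 2).choose 2 else 0) +
    (if 3 ∣ Q - 1 then Q * ((Q - 1) / 3) else 0) +
    (if 4 ∣ Q - 1 then Q * ((Q - 1) / 4) else 0) := by
  unfold sumA1
  rw [sum_filter]
  simp only [sum_range_succ, sum_range_zero]
  norm_num

theorem ineq1 {Q k e b : ℕ} (hk : 3 ≤ k) (hkQ : 2 * k ≤ Q) (hne : ¬ (Q = 7 ∧ k = 3))
    (hb : b = 0 ∨ (2 ≤ e ∧ ∃ Q1 k1, Q = e * Q1 ∧ k = e * k1 ∧
      b * (e - 1) ≤ (Q - 1) * Q1.choose k1)) :
    sumA1 Q k + b < Q.choose k := by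
  rcases Nat.lt_or_ge k 5 with h5 | h5
  · rcases (show k = 3 ∨ k = 4 by omega) with rfl | rfl
    · have hB : b = 0 ∨ ∃ Q1, Q = 3 * Q1 ∧ b * 2 ≤ (Q - 1) * Q1 := by
        rcases hb with h | ⟨he, Q1, k1, hQ1, hk1, hb⟩
        · exact Or.inl h
        · right
          have he3 : e = 3 := by
            have h1 : e ∣ 3 := ⟨k1, hk1⟩
            rcases (Nat.dvd_prime Nat.prime_three).1 h1 with h | h <;> omega
          subst he3
          have hk11 : k1 = 1 := by omega
          rw [hk11, Nat.choose_one_right] at hb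
          exact ⟨Q1, hQ1, hb⟩
      rw [sumA1_three]
      obtain ⟨x, rfl⟩ : ∃ x, Q = x + 3 := ⟨Q - 3, by omega⟩
      have hc := c3 x
      have e1 : x + 3 - 1 = x + 2 := by omega
      rw [e1] at hB ⊢
      have h2 : (x + 2) / 2 * 2 ≤ x + 2 := Nat.div_mul_le_self _ _
      have h3 : (x + 2) / 3 * 3 ≤ x + 2 := Nat.div_mul_le_self _ _
      have h2' : (x + 3) * ((x + 2) / 2) * 2 ≤ (x + 3) * (x + 2) := by
        rw [mul_assoc]; exact Nat.mul_le_mul_left _ h2
      have h3' : (x + 3) * ((x + 2) / 3) * 3 ≤ (x + 3) * (x + 2) := by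
        rw [mul_assoc]; exact Nat.mul_le_mul_left _ h3
      rcases Nat.lt_or_ge x 5 with hx | hx
      · have hx34 : x = 3 ∨ x = 4 := by omega
        rcases hx34 with rfl | rfl
        · norm_num
          rcases hB with h | ⟨Q1, hQ1, hb⟩
          · rw [h]; norm_num [Nat.choose]
          · have : Q1 = 2 := by omega
            rw [this] at hb
            norm_num [Nat.choose]
            omega
        · exact absurd ⟨rfl, rfl⟩ hne
      · have h7 : (x + 3) * (x + 2) * 6 ≤ (x + 3) * (x + 2) * (x + 1) :=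
          Nat.mul_le_mul_left _ (by omega)
        have hpos : 0 < (x + 3) * (x + 2) := by positivity
        rcases hB with h | ⟨Q1, hQ1, hb⟩
        · rw [h]
          split_ifs <;> omega
        · have h8 : ¬ 3 ∣ x + 2 := by omega
          rw [if_neg h8]
          have h9 : b * 2 * 3 ≤ (x + 3) * (x + 2) := by
            calc b * 2 * 3 ≤ (x + 2) * Q1 * 3 := Nat.mul_le_mul_right _ hb
              _ = (x + 2) * (3 * Q1) := by ring
              _ = (x + 3) * (x + 2) := by rw [← hQ1]; ring
          split_ifs <;> omega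
    · rw [sumA1_four]
      rcases Nat.even_or_odd' Q with ⟨x, hx | hx⟩
      · subst hx
        have hx4 : 4 ≤ x := by omega
        have h2 : ¬ 2 ∣ 2 * x - 1 := by omega
        have h4 : ¬ 4 ∣ 2 * x - 1 := by omega
        rw [if_neg h2, if_neg h4, zero_add, add_zero]
        obtain ⟨y, rfl⟩ : ∃ y, x = y + 4 := ⟨x - 4, by omega⟩
        have hc4 := c4 (2 * y + 4)
        have e4 : 2 * y + 4 + 4 = 2 * (y + 4) := by ring
        rw [e4] at hc4
        have e1 : 2 * (y + 4) - 1 = 2 * y + 7 := by omega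
        rw [e1] at hb ⊢
        have h3 : (2 * y + 7) / 3 * 3 ≤ 2 * y + 7 := Nat.div_mul_le_self _ _
        have hA : (if 3 ∣ 2 * y + 7 then 2 * (y + 4) * ((2 * y + 7) / 3) else 0) * 3 ≤
            2 * (y + 4) * (2 * y + 7) := by
          split_ifs
          · rw [mul_assoc]; exact Nat.mul_le_mul_left _ h3
          · rw [zero_mul]; exact Nat.zero_le _
        have hB : b * 2 ≤ (2 * y + 7) * ((y + 4) * (y + 3)) := by
          rcases hb with h | ⟨he, Q1, k1, hQ1, hk1, hb⟩
          · rw [h, zero_mul]; exact Nat.zero_le _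
          · have he4 : e = 2 ∨ e = 4 := by
              have h1 : e ∣ 4 := ⟨k1, hk1⟩
              have h2 := Nat.le_of_dvd (by norm_num) h1
              interval_cases e
              · left; rfl
              · exfalso; revert h1; decide
              · right; rfl
            rcases he4 with rfl | rfl
            · have hk2 : k1 = 2 := by omega
              have hQ2 : Q1 = y + 4 := by omega
              rw [hk2, hQ2] at hb
              have hc2 := c2 (y + 2)
              have e5 : y + 2 + 2 = y + 4 := by ring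
              have e6 : y + 2 + 1 = y + 3 := by ring
              rw [e5, e6] at hc2
              calc b * 2 = b * (2 - 1) * 2 := by norm_num
                _ ≤ (2 * y + 7) * (y + 4).choose 2 * 2 := Nat.mul_le_mul_right _ hb
                _ = (2 * y + 7) * ((y + 4).choose 2 * 2) := by ring
                _ = _ := by rw [hc2]
            · have hk2 : k1 = 1 := by omega
              rw [hk2, Nat.choose_one_right] at hb
              have hQ1' : Q1 ≤ y + 4 := by omega
              calc b * 2 ≤ b * (4 - 1) := Nat.mul_le_mul_left _ (by norm_num)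
                _ ≤ (2 * y + 7) * Q1 := hb
                _ ≤ (2 * y + 7) * ((y + 4) * (y + 3)) := by
                  apply Nat.mul_le_mul_left
                  nlinarith
        have hfin : 8 * (2 * (y + 4) * (2 * y + 7)) + 12 * ((2 * y + 7) * ((y + 4) * (y + 3))) <
            2 * (y + 4) * (2 * y + 4 + 3) * (2 * y + 4 + 2) * (2 * y + 4 + 1) := by
          nlinarith [Nat.zero_le (y ^ 4), Nat.zero_le (y ^ 3), Nat.zero_le (y ^ 2),
            Nat.zero_le y]
        omega
      · subst hx
        have hx4 : 4 ≤ x := by omega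
        have hb0 : b = 0 := by
          rcases hb with h | ⟨he, Q1, k1, hQ1, hk1, hb⟩
          · exact h
          · exfalso
            have he4 : e = 2 ∨ e = 4 := by
              have h1 : e ∣ 4 := ⟨k1, hk1⟩
              have h2 := Nat.le_of_dvd (by norm_num) h1
              interval_cases e
              · left; rfl
              · exfalso; revert h1; decide
              · right; rfl
            rcases he4 with rfl | rfl <;> omega
        rw [hb0, add_zero]
        obtain ⟨y, rfl⟩ : ∃ y, x = y + 4 := ⟨x - 4, by omega⟩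
        have e1 : 2 * (y + 4) + 1 - 1 = 2 * (y + 4) := by omega
        have e2 : 2 * (y + 4) / 2 = y + 4 := by omega
        rw [e1, e2]
        have hc4 := c4 (2 * y + 5)
        have e4 : 2 * y + 5 + 4 = 2 * (y + 4) + 1 := by ring
        rw [e4] at hc4
        have hc2 := c2 (y + 2)
        have e5 : y + 2 + 2 = y + 4 := by ring
        have e6 : y + 2 + 1 = y + 3 := by ring
        rw [e5, e6] at hc2
        set Q := 2 * (y + 4) + 1 with hQ
        have h3 : 2 * (y + 4) / 3 * 3 ≤ 2 * (y + 4) := Nat.div_mul_le_self _ _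
        have h4 : 2 * (y + 4) / 4 * 4 ≤ 2 * (y + 4) := Nat.div_mul_le_self _ _
        have hA2 : (if 2 ∣ 2 * (y + 4) then Q * (y + 4).choose 2 else 0) * 2 ≤
            Q * ((y + 4) * (y + 3)) := by
          split_ifs
          · rw [mul_assoc, hc2]
          · rw [zero_mul]; exact Nat.zero_le _
        have hA3 : (if 3 ∣ 2 * (y + 4) then Q * (2 * (y + 4) / 3) else 0) * 3 ≤
            Q * (2 * (y + 4)) := by
          split_ifs
          · rw [mul_assoc]; exact Nat.mul_le_mul_left _ h3
          · rw [zero_mul]; exact Nat.zero_le _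
        have hA4 : (if 4 ∣ 2 * (y + 4) then Q * (2 * (y + 4) / 4) else 0) * 4 ≤
            Q * (2 * (y + 4)) := by
          split_ifs
          · rw [mul_assoc]; exact Nat.mul_le_mul_left _ h4
          · rw [zero_mul]; exact Nat.zero_le _
        have hfin : 12 * (Q * ((y + 4) * (y + 3))) + 8 * (Q * (2 * (y + 4))) +
            6 * (Q * (2 * (y + 4))) < Q * (2 * y + 5 + 3) * (2 * y + 5 + 2) * (2 * y + 5 + 1) := by
          have hQpos : 0 < Q := by omega
          have : 12 * ((y + 4) * (y + 3)) + 8 * (2 * (y + 4)) + 6 * (2 * (y + 4)) <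
              (2 * y + 5 + 3) * (2 * y + 5 + 2) * (2 * y + 5 + 1) := by
            nlinarith [Nat.zero_le (y ^ 3), Nat.zero_le (y ^ 2), Nat.zero_le y]
          calc 12 * (Q * ((y + 4) * (y + 3))) + 8 * (Q * (2 * (y + 4))) +
              6 * (Q * (2 * (y + 4))) =
              Q * (12 * ((y + 4) * (y + 3)) + 8 * (2 * (y + 4)) + 6 * (2 * (y + 4))) := by ring
            _ < Q * ((2 * y + 5 + 3) * (2 * y + 5 + 2) * (2 * y + 5 + 1)) :=
              Nat.mul_lt_mul_of_pos_left this hQpos
            _ = _ := by ring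
        omega
  · have hI := I1 h5 hkQ
    have hB : b ≤ (Q - 1) * (Q / 2).choose (k / 2) := by
      rcases hb with h | ⟨he, Q1, k1, hQ1, hk1, hb⟩
      · rw [h]; exact Nat.zero_le _
      · have h6 : Q1.choose k1 ≤ (Q / 2).choose (k / 2) := by
          apply choose_div_le hkQ
          · rw [hQ1]; exact Nat.mul_le_mul_right _ he
          · rw [hk1]; exact Nat.mul_le_mul_right _ he
        calc b = b * 1 := (mul_one b).symm
          _ ≤ b * (e - 1) := Nat.mul_le_mul_left _ (by omega)
          _ ≤ (Q - 1) * Q1.choose k1 := hb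
          _ ≤ _ := Nat.mul_le_mul_left _ h6
    omega

end Pool.Agent.V11179.AGL
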