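import Mathlib
import Pool.Agent.V11179.AGLBad
import Pool.Agent.V11179.AGLIneq

/-!
Existence of sets with exact stabilizer outside of the exceptional cases.
-/

namespace Pool.Agent.V11179.AGL

open Finset Classical

noncomputable section

variable {K : Type*} [Field K] [Fintype K]

/-- the stabilizer of `B` is exactly `S_{d,H}` -/
def Exact (B : Finset K) (d : ℕ) (H : AddSubgroup K) : Prop :=
  ∀ a b : K, a ≠ 0 → (Inv B a b ↔ (a ^ d = 1 ∧ b ∈ H))

variable {d : ℕ} {H : AddSubgroup K} {k : ℕ}

lemma exact_mem_Fix {B : Finset K} (hd : d ∣ Fintype.card K - 1) (hB : Exact B d H)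
    (hk : B.card = k) : B ∈ Fix d H k := by
  refine mem_Fix.2 ⟨hk, ?_, ?_⟩
  · intro ζ hζ
    have hζ0 : ζ ≠ 0 := by
      rintro rfl
      rw [zero_pow (d_pos hd).ne'] at hζ
      exact zero_ne_one hζ
    exact (hB ζ 0 hζ0).2 ⟨hζ, H.zero_mem⟩
  · intro h hh
    exact (hB 1 h one_ne_zero).2 ⟨one_pow _, hh⟩

/-- a union of bad families -/
lemma exists_of_card {F : Finset (Finset K)} (hF : F = Fix d H k) (hd : d ∣ Fintype.card K - 1)
    (G : Finset (Finset K)) (hG : ∀ B ∈ F, B ∉ G →
      ∀ a b : K, a ≠ 0 → Inv B a b → a ^ d = 1 ∧ b ∈ H) (hcard : G.card < F.card) :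
    ∃ B : Finset K, B.card = k ∧ Exact B d H := by
  obtain ⟨B, hB, hBG⟩ := exists_mem_notMem_of_card_lt_card hcard
  refine ⟨B, ?_, ?_⟩
  · rw [hF] at hB
    exact (mem_Fix.1 hB).1
  · intro a b ha
    refine ⟨hG B hB hBG a b ha, ?_⟩
    rintro ⟨h1, h2⟩
    rw [hF] at hB
    exact exact_mpr hB h1 h2

lemma card_P0_l {l : ℕ} (hd : d ∣ Fintype.card K - 1)
    (hH : ∀ ζ : K, ζ ^ d = 1 → ∀ h ∈ H, ζ * h ∈ H) (hdl : d * l ∣ Fintype.card K - 1)
    (hHl : ∀ ζ : K, ζ ^ (d * l) = 1 → ∀ h ∈ H, ζ * h ∈ H) :
    (P0 d H).card = (P0 (d * l) H).card * l := by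
  have h1 := card_P0 hd hH
  have h2 := card_P0 hdl hHl
  have h3 : 0 < d * (Hf H).card := Nat.mul_pos (d_pos hd) (Hf_pos H)
  apply Nat.eq_of_mul_eq_mul_right h3
  have : (P0 (d * l) H).card * l * (d * (Hf H).card) =
      (P0 (d * l) H).card * (d * l * (Hf H).card) := by ring
  rw [this]
  omega

theorem exists_two (hd : d ∣ Fintype.card K - 1)
    (hH : ∀ ζ : K, ζ ^ d = 1 → ∀ h ∈ H, ζ * h ∈ H) (hd2 : 2 ≤ d) {j e : ℕ} (he : e ≤ 1)
    (hk : k = (Hf H).card * (d * j + e)) (hj : 1 ≤ j) (hkq : 2 * k ≤ Fintype.card K)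
    (hexc : ¬ (j = 1 ∧ e = 1 ∧ (Ef K d).card = d + 1)) :
    ∃ B : Finset K, B.card = k ∧ Exact B d H := by
  set h := (Hf H).card with hh
  have hpos : 0 < h := Hf_pos H
  set m := (P0 d H).card with hm
  have hmq : m * (d * h) + h = Fintype.card K := card_P0 hd hH
  -- `2 j ≤ m`
  have hmj : 2 * j ≤ m := by
    rw [← hmq, hk] at hkq
    have h1 : h * (2 * (d * j + e)) ≤ h * (m * d + 1) := by
      calc h * (2 * (d * j + e)) = 2 * (h * (d * j + e)) := by ring
        _ ≤ m * (d * h) + h := hkq
        _ = h * (m * d + 1) := by ring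
    have h2 : 2 * (d * j + e) ≤ m * d + 1 := Nat.le_of_mul_le_mul_left h1 hpos
    by_contra hc
    have h3 : m + 1 ≤ 2 * j := by omega
    have h4 : d * (m + 1) ≤ d * (2 * j) := Nat.mul_le_mul_left _ h3
    have h5 : d * (m + 1) = m * d + d := by ring
    have h6 : d * (2 * j) = 2 * (d * j) := by ring
    omega
  have hFcard : (Fix d H k).card = m.choose j := card_Fix_of_two_le hd hH hd2 he hk
  obtain ⟨c, hc1, hcE⟩ := card_Ef_mod (K := K) hd
  -- the structure of type B sets
  have hBstr : (BadB d H k).Nonempty → ∃ j1 m1, j = (c * d + 1) * j1 + c * e ∧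
      m = (c * d + 1) * m1 + c ∧ (BadB d H k).card * c ≤ m * m1.choose j1 := by
    rintro ⟨B, hB⟩
    obtain ⟨hB1, v, hv, hBv⟩ := mem_filter.1 hB
    have hFixv := Fix_H1 hB1 hd hBv
    obtain ⟨j1, e1, he1, hk1⟩ := Fix_size hd (H1_stable hH v) hFixv
    rw [card_H1 hH hv, ← hh, hcE, hk] at hk1
    have h1 : d * j + e = (c * d + 1) * (d * j1 + e1) := by
      apply Nat.eq_of_mul_eq_mul_left hpos
      rw [hk1]
      ring
    have h2 : e = e1 := by
      have h3 : (d * j + e) % d = ((c * d + 1) * (d * j1 + e1)) % d := by rw [h1]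
      have h4 : (c * d + 1) * (d * j1 + e1) = d * (c * (d * j1 + e1) + j1) + e1 := by ring
      rw [h4, Nat.mul_add_mod, Nat.mul_add_mod, Nat.mod_eq_of_lt (by omega),
        Nat.mod_eq_of_lt (by omega)] at h3
      exact h3
    subst h2
    have h3 : j = (c * d + 1) * j1 + c * e := by
      have h4 : d * j = d * ((c * d + 1) * j1 + c * e) := by
        have h5 : (c * d + 1) * (d * j1 + e) = d * ((c * d + 1) * j1 + c * e) + e := by ring
        rw [h5] at h1
        omega
      exact Nat.eq_of_mul_eq_mul_left (by omega) h4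
    set m1 := (P0 d (H1 d H v)).card with hm1
    have hm1q : m1 * (d * ((c * d + 1) * h)) + (c * d + 1) * h = Fintype.card K := by
      have := card_P0 hd (H1_stable hH v)
      rw [card_H1 hH hv, ← hh, hcE] at this
      exact this
    have h4 : m = (c * d + 1) * m1 + c := by
      have h5 : h * (d * m) = h * (d * ((c * d + 1) * m1 + c)) := by
        have h6 : m1 * (d * ((c * d + 1) * h)) + (c * d + 1) * h =
            h * (d * ((c * d + 1) * m1 + c)) + h := by ring
        have h7 : m * (d * h) + h = h * (d * m) + h := by ring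
        rw [h6] at hm1q
        rw [h7] at hmq
        omega
      exact Nat.eq_of_mul_eq_mul_left (by omega) (Nat.eq_of_mul_eq_mul_left hpos h5)
    refine ⟨j1, m1, h3, h4, ?_⟩
    have hX : ∀ v, v ∉ H → (Fix d (H1 d H v) k).card ≤ m1.choose j1 := by
      intro w hw
      have hm1w : (P0 d (H1 d H w)).card = m1 := by
        have h5 := card_P0 hd (H1_stable hH w)
        rw [card_H1 hH hw, ← hh, hcE, ← hm1q] at h5
        have h6 : 0 < d * ((c * d + 1) * h) := by positivity
        exact Nat.eq_of_mul_eq_mul_right h6 (by omega)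
      rw [card_Fix_of_two_le hd (H1_stable hH w) hd2 (j := j1) he
        (by rw [card_H1 hH hw, ← hh, hcE, hk, h1]; ring), hm1w]
    have h5 := card_BadB hd hH hX
    rw [← hh, hcE] at h5
    have h6 : (c * d + 1) * h - h = c * (d * h) := by
      have : (c * d + 1) * h = c * (d * h) + h := by ring
      rw [this]
      omega
    have h7 : Fintype.card K - h = m * (d * h) := by omega
    rw [h6, h7] at h5
    have h8 : 0 < d * h := by positivity
    apply Nat.le_of_mul_le_mul_right _ h8
    calc (BadB d H k).card * c * (d * h) = (BadB d H k).card * (c * (d * h)) := by ring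
      _ ≤ m * (d * h) * m1.choose j1 := h5
      _ = m * m1.choose j1 * (d * h) := by ring
  -- the type A families
  set L := (range (j + 1)).filter (fun l => 2 ≤ l ∧ l ∣ j ∧ l ∣ m) with hL
  set FA : ℕ → Finset (Finset K) := fun l => (Fix d H k).filter (fun B =>
    d * l ∣ Fintype.card K - 1 ∧ (∀ ζ : K, ζ ^ (d * l) = 1 → ∀ h ∈ H, ζ * h ∈ H) ∧
      B ∈ Fix (d * l) H k) with hFA
  have hFAcard : ∀ l ∈ L, (FA l).card ≤ (m / l).choose (j / l) := by
    intro l hl
    rw [hL, mem_filter] at hl
    obtain ⟨-, hl2, hlj, hlm⟩ := hl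
    rcases (FA l).eq_empty_or_nonempty with h0 | ⟨B, hB⟩
    · rw [h0, card_empty]; exact Nat.zero_le _
    · obtain ⟨-, hdl, hHl, -⟩ := mem_filter.1 hB
      have h1 : (FA l) ⊆ Fix (d * l) H k := by
        intro B hB
        exact (mem_filter.1 hB).2.2.2
      refine (card_le_card h1).trans ?_
      obtain ⟨j', rfl⟩ := hlj
      rw [Nat.mul_div_cancel_left _ (by omega)]
      rw [card_Fix_of_two_le hdl hHl (j := j') (by
        have := Nat.mul_le_mul hd2 hl2
        omega) he (by rw [hk]; ring)]
      have h2 := card_P0_l hd hH hdl hHl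
      rw [← hm] at h2
      rw [h2, Nat.mul_div_cancel _ (by omega)]
  apply exists_of_card rfl hd (BadB d H k ∪ L.biUnion FA)
  · intro B hB hBG a b ha hab
    by_contra hnot
    apply hBG
    rcases bad_cases hB hd ha hab hnot with hv | ⟨hv, a', b', l, hl, ha0, h1, h2, hab', haH⟩
    · exact mem_union_left _ (mem_filter.2 ⟨hB, hv⟩)
    · obtain ⟨hdl, hHl, hBl⟩ := badA_two hB hd hd2 hH hv hl ha0 h1 h2 hab' haH
      apply mem_union_right
      refine mem_biUnion.2 ⟨l, ?_, mem_filter.2 ⟨hB, hdl, hHl, hBl⟩⟩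
      obtain ⟨j', e', he', hk'⟩ := Fix_size hdl hHl hBl
      have h3 : d * j + e = d * l * j' + e' := by
        apply Nat.eq_of_mul_eq_mul_left hpos
        rw [← hk, hk']
      have h4 : e = e' := by
        have h5 : (d * j + e) % d = (d * l * j' + e') % d := by rw [h3]
        rw [mul_assoc, Nat.mul_add_mod, Nat.mul_add_mod, Nat.mod_eq_of_lt (by omega),
          Nat.mod_eq_of_lt (by omega)] at h5
        exact h5
      have h5 : j = l * j' := by
        apply Nat.eq_of_mul_eq_mul_left (show 0 < d by omega)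
        rw [← mul_assoc]
        omega
      rw [hL, mem_filter, mem_range]
      refine ⟨?_, hl.two_le, ⟨j', h5⟩, ?_⟩
      · have := Nat.le_of_dvd hj ⟨j', h5⟩
        omega
      · rw [hm, card_P0_l hd hH hdl hHl]
        exact dvd_mul_left _ _
  · rw [hFcard]
    have hunion : (BadB d H k ∪ L.biUnion FA).card ≤ sumA2 m j + (BadB d H k).card := by
      calc (BadB d H k ∪ L.biUnion FA).card ≤ (BadB d H k).card + (L.biUnion FA).card :=
            card_union_le _ _
        _ ≤ (BadB d H k).card + ∑ l ∈ L, (FA l).card := by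
            have := card_biUnion_le (s := L) (t := FA)
            omega
        _ ≤ (BadB d H k).card + sumA2 m j := by
            have : ∑ l ∈ L, (FA l).card ≤ sumA2 m j := sum_le_sum hFAcard
            omega
        _ = _ := by ring
    refine lt_of_le_of_lt hunion ?_
    rcases Nat.lt_or_ge j 2 with hj2 | hj2
    · have hj1 : j = 1 := by omega
      have hb0 : BadB d H k = ∅ := by
        by_contra hne
        obtain ⟨j1, m1, h1, -, -⟩ := hBstr (nonempty_iff_ne_empty.2 hne)
        apply hexc
        have h2 : 3 ≤ c * d + 1 := by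
          have : 1 * 2 ≤ c * d := Nat.mul_le_mul hc1 hd2
          omega
        have h3 : j1 = 0 := by
          rcases Nat.eq_zero_or_pos j1 with h | h
          · exact h
          · have : 3 * 1 ≤ (c * d + 1) * j1 := Nat.mul_le_mul h2 h
            omega
        rw [h3, mul_zero, zero_add, hj1] at h1
        have h4 : c = 1 ∧ e = 1 := by
          have := Nat.eq_one_of_mul_eq_one_left h1.symm
          have := Nat.eq_one_of_mul_eq_one_right h1.symm
          omega
        refine ⟨hj1, h4.2, ?_⟩
        rw [hcE, h4.1, one_mul]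
      rw [hb0, card_empty, add_zero, hj1, Nat.choose_one_right]
      have h2 : sumA2 m 1 = 0 := by
        unfold sumA2
        apply sum_eq_zero
        intro l hl
        rw [mem_filter, mem_range] at hl
        omega
      rw [h2]
      omega
    · apply ineq2 (d := d) (c := c) (e0 := e) hd2 hj2 hmj
        (m1 := if hne : (BadB d H k).Nonempty then (hBstr hne).choose_spec.choose else 0)
        (j1 := if hne : (BadB d H k).Nonempty then (hBstr hne).choose else 0)
      by_cases hne : (BadB d H k).Nonempty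
      · right
        rw [dif_pos hne, dif_pos hne]
        obtain ⟨h1, h2, h3⟩ := (hBstr hne).choose_spec.choose_spec
        exact ⟨hc1, he, h1, h2, h3⟩
      · left
        rw [not_nonempty_iff_eq_empty] at hne
        rw [hne, card_empty]

theorem exists_one {t : ℕ} (hk : k = (Hf H).card * t) (ht : 3 ≤ t)
    (hkq : 2 * k ≤ Fintype.card K)
    (hexc : ¬ (Fintype.card K = 7 * (Hf H).card ∧ t = 3)) :
    ∃ B : Finset K, B.card = k ∧ Exact B 1 H := by
  set h := (Hf H).card with hh
  have hpos : 0 < h := Hf_pos H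
  set Q := (P1 1 H).card with hQ
  have hQq : Q * h = Fintype.card K := card_P1
  have htQ : 2 * t ≤ Q := by
    rw [← hQq, hk] at hkq
    apply Nat.le_of_mul_le_mul_left _ hpos
    calc h * (2 * t) = 2 * (h * t) := by ring
      _ ≤ Q * h := hkq
      _ = h * Q := by ring
  have hFcard : (Fix 1 H k).card = Q.choose t := card_Fix_one hk
  have hd : 1 ∣ Fintype.card K - 1 := one_dvd_card
  have hH : ∀ ζ : K, ζ ^ 1 = 1 → ∀ h ∈ H, ζ * h ∈ H := one_stab (H := H)
  set E := (Ef K 1).card with hE
  have hE2 : 2 ≤ E := card_Ef_ge (K := K) hd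
  have hBstr : (BadB 1 H k).card = 0 ∨ (2 ≤ E ∧ ∃ Q1 t1, Q = E * Q1 ∧ t = E * t1 ∧
      (BadB 1 H k).card * (E - 1) ≤ (Q - 1) * Q1.choose t1) := by
    rcases (BadB 1 H k).eq_empty_or_nonempty with h0 | ⟨B, hB⟩
    · left; rw [h0, card_empty]
    · right
      refine ⟨hE2, ?_⟩
      obtain ⟨hB1, v, hv, hBv⟩ := mem_filter.1 hB
      have hFixv := Fix_H1 hB1 hd hBv
      obtain ⟨t1, hk1⟩ := Fix_one_size hFixv
      rw [card_H1 hH hv, ← hh, hk] at hk1
      have h1 : t = E * t1 := by
        apply Nat.eq_of_mul_eq_mul_left hpos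
        rw [hk1]
        ring
      have hQw : ∀ w, w ∉ H → Q = E * (P1 1 (H1 1 H w)).card := by
        intro w hw
        have h5 := card_P1 (H := H1 1 H w)
        rw [card_H1 hH hw, ← hh, ← hQq] at h5
        apply Nat.eq_of_mul_eq_mul_right hpos
        rw [← h5]
        ring
      refine ⟨(P1 1 (H1 1 H v)).card, t1, hQw v hv, h1, ?_⟩
      have hX : ∀ w, w ∉ H → (Fix 1 (H1 1 H w) k).card ≤ (P1 1 (H1 1 H v)).card.choose t1 := by
        intro w hw
        have h6 : (P1 1 (H1 1 H w)).card = (P1 1 (H1 1 H v)).card := by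
          have h7 := hQw w hw
          rw [hQw v hv] at h7
          exact (Nat.eq_of_mul_eq_mul_left (by omega) h7).symm
        rw [card_Fix_one (t := t1) (by rw [card_H1 hH hw, ← hh, hk, h1]; ring), h6]
      have h5 := card_BadB hd hH hX
      rw [← hh] at h5
      have h6 : E * h - h = (E - 1) * h := by rw [Nat.sub_mul, one_mul]
      have h7 : Fintype.card K - h = (Q - 1) * h := by rw [← hQq, Nat.sub_mul, one_mul]
      rw [h6, h7] at h5
      apply Nat.le_of_mul_le_mul_right _ hpos
      calc (BadB 1 H k).card * (E - 1) * h = (BadB 1 H k).card * ((E - 1) * h) := by ring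
        _ ≤ (Q - 1) * h * (P1 1 (H1 1 H v)).card.choose t1 := h5
        _ = (Q - 1) * (P1 1 (H1 1 H v)).card.choose t1 * h := by ring
  set L := (range (t + 1)).filter (fun l => 2 ≤ l ∧ t % l ≤ 1 ∧ l ∣ Q - 1) with hL
  set FA : ℕ → Finset (Finset K) := fun l => (Fix 1 H k).filter (fun B =>
    l ∣ Fintype.card K - 1 ∧ (∀ ζ : K, ζ ^ l = 1 → ∀ h ∈ H, ζ * h ∈ H) ∧
      ∃ c, B.image (fun x => x - c) ∈ Fix l H k) with hFA
  have hP0l : ∀ l, l ∣ Fintype.card K - 1 → (∀ ζ : K, ζ ^ l = 1 → ∀ h ∈ H, ζ * h ∈ H) →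
      Q = (P0 l H).card * l + 1 := by
    intro l hl hHl
    have h1 := card_P0 hl hHl
    rw [← hh, ← hQq] at h1
    apply Nat.eq_of_mul_eq_mul_right hpos
    rw [← h1]
    ring
  have hFAcard : ∀ l ∈ L, (FA l).card ≤ Q * ((Q - 1) / l).choose (t / l) := by
    intro l hl
    rw [hL, mem_filter] at hl
    obtain ⟨-, hl2, htl, hlQ⟩ := hl
    rcases (FA l).eq_empty_or_nonempty with h0 | ⟨B, hB⟩
    · rw [h0, card_empty]; exact Nat.zero_le _
    · obtain ⟨-, hdl, hHl, -⟩ := mem_filter.1 hB
      have hP := hP0l l hdl hHl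
      have hPdiv : (Q - 1) / l = (P0 l H).card := by
        rw [hP, Nat.add_sub_cancel, Nat.mul_div_cancel _ (by omega)]
      have hFl : (Fix l H k).card = ((Q - 1) / l).choose (t / l) := by
        rw [hPdiv]
        apply card_Fix_of_two_le hdl hHl hl2 htl
        rw [hk, Nat.div_add_mod]
      rw [← hFl]
      have h1 : (FA l).card * h ≤ (univ : Finset K).card * (Fix l H k).card := by
        apply card_mul_le_card_mul (fun (B : Finset K) (c : K) =>
          B.image (fun x => x - c) ∈ Fix l H k)
        · intro B hB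
          obtain ⟨hB1, -, -, c, hc⟩ := mem_filter.1 hB
          have h2 : (Hf H).image (fun y => c + y) ⊆
              (univ : Finset K).bipartiteAbove (fun B c => B.image (fun x => x - c) ∈ Fix l H k) B := by
            intro w hw
            obtain ⟨y, hy, rfl⟩ := mem_image.1 hw
            rw [mem_bipartiteAbove]
            refine ⟨mem_univ _, ?_⟩
            have h3 : B.image (fun x => x - (c + y)) = B.image (fun x => x - c) := by
              have h4 : B.image (fun x => 1 * x + (-y)) = B :=
                (image_eq_iff B one_ne_zero _).2 ((mem_Fix.1 hB1).2.2 _ (H.neg_mem (mem_Hf.1 hy)))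
              conv_rhs => rw [← h4, image_image]
              apply image_congr
              intro x _
              simp only [Function.comp]
              ring
            rw [h3]
            exact hc
          refine le_trans ?_ (card_le_card h2)
          rw [card_image_of_injective _ (add_right_injective c)]
        · intro c _
          apply card_le_card_of_injOn (fun B => B.image (fun x => x - c))
          · intro B hB
            exact ((mem_bipartiteBelow _).1 hB).2
          · intro B _ B' _ heq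
            exact image_injective (sub_left_injective) heq
      rw [Finset.card_univ, ← hQq] at h1
      apply Nat.le_of_mul_le_mul_right _ hpos
      calc (FA l).card * h ≤ Q * h * (Fix l H k).card := h1
        _ = Q * (Fix l H k).card * h := by ring
  apply exists_of_card rfl hd (BadB 1 H k ∪ L.biUnion FA)
  · intro B hB hBG a b ha hab
    by_contra hnot
    apply hBG
    rcases bad_cases hB hd ha hab hnot with hv | ⟨hv, a', b', l, hl, ha0, h1, h2, hab', haH⟩
    · exact mem_union_left _ (mem_filter.2 ⟨hB, hv⟩)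
    · obtain ⟨hdl, hHl, c, hBl⟩ := badA_one hB hl ha0 h1 h2 hab' haH
      apply mem_union_right
      refine mem_biUnion.2 ⟨l, ?_, mem_filter.2 ⟨hB, hdl, hHl, c, hBl⟩⟩
      obtain ⟨j', e', he', hk'⟩ := Fix_size hdl hHl hBl
      have h3 : t = l * j' + e' := by
        apply Nat.eq_of_mul_eq_mul_left hpos
        rw [← hk, hk']
      have hl2 := hl.two_le
      rw [hL, mem_filter, mem_range]
      refine ⟨?_, hl2, ?_, ?_⟩
      · have hj' : 1 ≤ j' := by
          rcases Nat.eq_zero_or_pos j' with h | h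
          · rw [h] at h3; omega
          · exact h
        have : l * 1 ≤ l * j' := Nat.mul_le_mul_left _ hj'
        omega
      · rw [h3, Nat.mul_add_mod, Nat.mod_eq_of_lt (by omega)]
        exact he'
      · rw [hP0l l hdl hHl, Nat.add_sub_cancel]
        exact dvd_mul_left _ _
  · rw [hFcard]
    have hunion : (BadB 1 H k ∪ L.biUnion FA).card ≤ sumA1 Q t + (BadB 1 H k).card := by
      calc (BadB 1 H k ∪ L.biUnion FA).card ≤ (BadB 1 H k).card + (L.biUnion FA).card :=
            card_union_le _ _
        _ ≤ (BadB 1 H k).card + ∑ l ∈ L, (FA l).card := by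
            have := card_biUnion_le (s := L) (t := FA)
            omega
        _ ≤ (BadB 1 H k).card + sumA1 Q t := by
            have : ∑ l ∈ L, (FA l).card ≤ sumA1 Q t := sum_le_sum hFAcard
            omega
        _ = _ := by ring
    refine lt_of_le_of_lt hunion ?_
    apply ineq1 (e := E) ht htQ _ hBstr
    rintro ⟨h1, h2⟩
    apply hexc
    refine ⟨?_, h2⟩
    rw [← hQq, h1]

/-- the set `H` itself -/
theorem exists_H (hd : d ∣ Fintype.card K - 1)
    (hH : ∀ ζ : K, ζ ^ d = 1 → ∀ h ∈ H, ζ * h ∈ H)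
    (hf : d = Nat.card (stabField H) - 1) :
    ∃ B : Finset K, B.card = (Hf H).card ∧ Exact B d H := by
  refine ⟨Hf H, rfl, ?_⟩
  intro a b ha
  constructor
  · intro hab
    have hb : b ∈ H := by
      have := hab 0 (mem_Hf.2 H.zero_mem)
      rw [mul_zero, zero_add, mem_Hf] at this
      exact this
    refine ⟨?_, hb⟩
    have haf : a ∈ stabField H := by
      intro h hh
      have := hab h (mem_Hf.2 hh)
      rw [mem_Hf] at this
      have := H.sub_mem this hb
      rwa [add_sub_cancel_right] at this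
    have h1 : (⟨a, haf⟩ : stabField H) ≠ 0 := by
      intro h
      exact ha (congrArg Subtype.val h)
    have h2 := FiniteField.pow_card_sub_one_eq_one (⟨a, haf⟩ : stabField H) h1
    rw [← Nat.card_eq_fintype_card, ← hf] at h2
    exact congrArg Subtype.val h2
  · rintro ⟨h1, h2⟩ x hx
    rw [mem_Hf] at hx ⊢
    exact H.add_mem (hH a h1 x hx) h2

end

end Pool.Agent.V11179.AGL
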