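import Mathlib
import Pool.Agent.V11179.AGLPos
import Pool.Agent.V11179.AGLDefs

/-!
Vanishing in the exceptional cases and the classification.
-/

namespace Pool.Agent.V11179.AGL

open Finset Classical

noncomputable section

variable {K : Type*} [Field K] [Fintype K]

variable {d : ℕ} {H : AddSubgroup K} {k : ℕ}

lemma card_stab_eq : Nat.card (stabField H) = (univ.filter (· ∈ stabField H)).card := by
  rw [Nat.card_eq_fintype_card, Fintype.card_subtype]

/-- a coset as a finset -/
def coset (H : AddSubgroup K) (x : K) : Finset K := univ.filter (fun y => y - x ∈ H)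

lemma mem_coset {x y : K} : y ∈ coset H x ↔ y - x ∈ H := by simp [coset]

lemma card_coset (x : K) : (coset H x).card = (Hf H).card := by
  have : coset H x = (Hf H).image (fun g => x + g) := by
    ext y
    rw [mem_coset, mem_image]
    constructor
    · intro h
      exact ⟨y - x, mem_Hf.2 h, by ring⟩
    · rintro ⟨g, hg, rfl⟩
      rw [add_sub_cancel_left]
      exact mem_Hf.1 hg
  rw [this, card_image_of_injective _ (add_right_injective x)]

lemma coset_subset {B : Finset K} (hB : B ∈ Fix d H k) {x : K} (hx : x ∈ B) :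
    coset H x ⊆ B := by
  intro y hy
  have := (mem_Fix.1 hB).2.2 _ (mem_coset.1 hy) x hx
  rwa [one_mul, add_sub_cancel] at this

lemma van_a (hd : d ∣ Fintype.card K - 1) (hH : ∀ ζ : K, ζ ^ d = 1 → ∀ h ∈ H, ζ * h ∈ H)
    {B : Finset K} (hB : Exact B d H) (hk : B.card = (Hf H).card) :
    d = Nat.card (stabField H) - 1 := by
  have hBF := exact_mem_Fix hd hB hk
  obtain ⟨x0, hx0⟩ : B.Nonempty := by
    rw [← card_pos, hk]
    exact Hf_pos H
  have hBc : coset H x0 = B := by
    apply eq_of_subset_of_card_le (coset_subset hBF hx0)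
    rw [card_coset, hk]
  have h1 : ∀ a ∈ stabField H, a ≠ 0 → a ^ d = 1 := by
    intro a ha ha0
    refine ((hB a ((1 - a) * x0) ha0).1 ?_).1
    intro x hx
    rw [← hBc, mem_coset] at hx ⊢
    have := ha _ hx
    convert this using 1
    ring
  have h2 : insert 0 (mu K d) = univ.filter (· ∈ stabField H) := by
    ext a
    rw [mem_insert, mem_mu, mem_filter]
    constructor
    · rintro (rfl | h)
      · exact ⟨mem_univ _, (stabField H).zero_mem⟩
      · exact ⟨mem_univ _, hH a h⟩
    · rintro ⟨-, h⟩
      by_cases ha : a = 0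
      · exact Or.inl ha
      · exact Or.inr (h1 a h ha)
  rw [card_stab_eq, ← h2, card_insert_of_notMem, card_mu hd, Nat.add_sub_cancel]
  rw [mem_mu, zero_pow (d_pos hd).ne']
  exact zero_ne_one

lemma van_b {B : Finset K} (hB : Exact B 1 H) (hk : B.card = 2 * (Hf H).card) : False := by
  have hBF := exact_mem_Fix one_dvd_card hB hk
  have hpos := Hf_pos H
  obtain ⟨x0, hx0⟩ : B.Nonempty := by
    rw [← card_pos, hk]
    omega
  obtain ⟨x1, hx1, hx10⟩ : ∃ x1 ∈ B, x1 ∉ coset H x0 := by
    apply exists_mem_notMem_of_card_lt_card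
    rw [card_coset, hk]
    omega
  have hdisj : Disjoint (coset H x0) (coset H x1) := by
    rw [disjoint_left]
    intro y hy hy'
    apply hx10
    rw [mem_coset] at hy hy' ⊢
    have := H.sub_mem hy hy'
    convert this using 1
    ring
  have hBc : coset H x0 ∪ coset H x1 = B := by
    apply eq_of_subset_of_card_le
      (union_subset (coset_subset hBF hx0) (coset_subset hBF hx1))
    rw [card_union_of_disjoint hdisj, card_coset, card_coset, hk]
    omega
  have h1 := (hB (-1) (x0 + x1) (neg_ne_zero.2 one_ne_zero)).1 (by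
    intro x hx
    rw [← hBc, mem_union, mem_coset, mem_coset] at hx ⊢
    rcases hx with h | h
    · right
      have := H.neg_mem h
      convert this using 1
      ring
    · left
      have := H.neg_mem h
      convert this using 1
      ring)
  obtain ⟨h2, h3⟩ := h1
  rw [pow_one] at h2
  apply hx10
  rw [mem_coset]
  have : x1 - x0 = x0 + x1 := by
    have h4 : x0 = -x0 := by
      calc x0 = 1 * x0 := (one_mul _).symm
        _ = (-1) * x0 := by rw [h2]
        _ = -x0 := by ring
    linear_combination -h4
  rw [this]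
  exact h3

lemma van_c {p s : ℕ} [CharP K p] (hp : p.Prime) (hs : 1 ≤ s) (hdp : d = p ^ s - 1)
    (hd : d ∣ Fintype.card K - 1) (hH : ∀ ζ : K, ζ ^ d = 1 → ∀ h ∈ H, ζ * h ∈ H)
    {B : Finset K} (hB : Exact B d H) (hk : B.card = p ^ s * (Hf H).card) : False := by
  have hBF := exact_mem_Fix hd hB hk
  have hpos := Hf_pos H
  have hd0 := d_pos hd
  have hps : p ^ s = d + 1 := by omega
  rcases Nat.lt_or_ge d 2 with hd2 | hd2
  · have hd1 : d = 1 := by omega
    subst hd1
    apply van_b hB
    rw [hk, hps]
  · have h1 := Fix_card_eq hd hH (mem_Fix.1 hBF).2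
    have h2 := Fix_structure hd hH (mem_Fix.1 hBF).2
    rw [hk, hps] at h1
    set A := (P0 d H).filter (· ⊆ B) with hA
    have h3 : A.card = 1 ∧ (0 : K) ∈ B := by
      by_cases h0 : (0 : K) ∈ B
      · refine ⟨?_, h0⟩
        rw [if_pos h0] at h1
        have h4 : d * (Hf H).card = A.card * (d * (Hf H).card) := by
          have : (d + 1) * (Hf H).card = d * (Hf H).card + (Hf H).card := by ring
          omega
        have h5 : 0 < d * (Hf H).card := Nat.mul_pos hd0 hpos
        have h6 : 1 * (d * (Hf H).card) = A.card * (d * (Hf H).card) := by rw [one_mul]; exact h4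
        exact (Nat.eq_of_mul_eq_mul_right h5 h6).symm
      · exfalso
        rw [if_neg h0, add_zero] at h1
        have h4 : d + 1 = A.card * d := by
          apply Nat.eq_of_mul_eq_mul_right hpos
          rw [h1]
          ring
        have h5 : d ∣ d + 1 := ⟨A.card, by rw [h4]; ring⟩
        have h6 : d ∣ 1 := (Nat.dvd_add_right (dvd_refl d)).1 h5
        have := Nat.le_of_dvd one_pos h6
        omega
    obtain ⟨h3, h0⟩ := h3
    obtain ⟨o, ho⟩ := card_eq_one.1 h3
    have hoP : o ∈ P0 d H := by
      have : o ∈ A := by rw [ho]; exact mem_singleton_self o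
      exact (mem_filter.1 this).1
    obtain ⟨v, hv, rfl⟩ := mem_image.1 hoP
    have hvH : v ∉ H := (mem_filter.1 hv).2
    rw [ho, if_pos h0, singleton_biUnion] at h2
    have hBeq : B = orb d H v ∪ Hf H := h2
    apply hvH
    refine ((hB 1 v one_ne_zero).1 ?_).2
    intro x hx
    rw [hBeq, mem_union] at hx ⊢
    rw [one_mul]
    rcases hx with hx | hx
    · obtain ⟨ζ, hζ, hxζ⟩ := mem_orb.1 hx
      by_cases hz : ζ + 1 = 0
      · right
        rw [mem_Hf]
        have : x + v = (x - ζ * v) + (ζ + 1) * v := by ring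
        rw [this, hz, zero_mul, add_zero]
        exact hxζ
      · left
        rw [mem_orb]
        refine ⟨ζ + 1, ?_, ?_⟩
        · have : Fact p.Prime := ⟨hp⟩
          have : ExpChar K p := ExpChar.prime hp
          have h5 : (ζ + 1) ^ (d + 1) = ζ + 1 := by
            rw [← hps, add_pow_expChar_pow, one_pow, hps, pow_succ, hζ, one_mul]
          have h6 : (ζ + 1) * ((ζ + 1) ^ d - 1) = 0 := by
            rw [pow_succ] at h5
            linear_combination h5
          have h7 := (mul_eq_zero.1 h6).resolve_left hz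
          linear_combination h7
        · convert hxζ using 1
          ring
    · left
      rw [mem_orb]
      refine ⟨1, one_pow _, ?_⟩
      rw [one_mul, add_sub_cancel_right]
      exact mem_Hf.1 hx

lemma seven : ∀ S : Finset (ZMod 7), S.card = 3 →
    ∃ a b : ZMod 7, a ≠ 0 ∧ (a ≠ 1 ∨ b ≠ 0) ∧ ∀ i ∈ S, a * i + b ∈ S := by
  decide +kernel

lemma van_d {p : ℕ} [CharP K p] (hp : p.Prime) (hq : Fintype.card K = 7 * (Hf H).card)
    {B : Finset K} (hB : Exact B 1 H) (hk : B.card = 3 * (Hf H).card) : False := by
  have hBF := exact_mem_Fix one_dvd_card hB hk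
  have hpos := Hf_pos H
  -- characteristic 7
  have : Fact p.Prime := ⟨hp⟩
  have hp7 : p = 7 := by
    obtain ⟨n, -, hn⟩ := FiniteField.card K p
    have h1 : 7 ∣ p ^ (n : ℕ) := by rw [← hn, hq]; exact dvd_mul_right _ _
    have h2 : 7 ∣ p := (by norm_num : Nat.Prime 7).dvd_of_dvd_pow h1
    exact ((Nat.prime_dvd_prime_iff_eq (by norm_num) hp).1 h2).symm
  subst hp7
  obtain ⟨v, hv⟩ : ∃ v : K, v ∉ H := by
    by_contra hc
    push Not at hc
    have : (Hf H).card = Fintype.card K := by
      rw [← Finset.card_univ]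
      congr 1
      ext x
      simp [mem_Hf, hc x]
    omega
  set φ : ZMod 7 →+* K := ZMod.castHom (dvd_refl 7) K with hφ
  have hφinj : Function.Injective φ := φ.injective
  have hφH : ∀ a : ZMod 7, φ a ∈ stabField H := by
    intro a
    have : φ a = ((a.val : ℕ) : K) := by
      conv_lhs => rw [← ZMod.natCast_zmod_val a]
      rw [map_natCast]
    rw [this]
    exact natCast_mem _ _
  have hdisj : ∀ i j : ZMod 7, i ≠ j → Disjoint (coset H (φ i * v)) (coset H (φ j * v)) := by
    intro i j hij
    rw [disjoint_left]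
    intro y hy hy'
    rw [mem_coset] at hy hy'
    have h1 := H.sub_mem hy' hy
    have h2 : (φ i - φ j) * v ∈ H := by
      convert h1 using 1
      ring
    have h3 : φ i - φ j ≠ 0 := sub_ne_zero.2 (fun h => hij (hφinj h))
    have h4 := (stabField H).inv_mem ((stabField H).sub_mem (hφH i) (hφH j)) _ h2
    rw [← mul_assoc, inv_mul_cancel₀ h3, one_mul] at h4
    exact hv h4
  have hcover : (univ : Finset (ZMod 7)).biUnion (fun i => coset H (φ i * v)) = univ := by
    apply eq_of_subset_of_card_le (subset_univ _)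
    rw [card_biUnion (fun i _ j _ hij => hdisj i j hij)]
    simp only [card_coset, sum_const, Finset.card_univ, ZMod.card, smul_eq_mul]
    rw [hq]
  set S : Finset (ZMod 7) := univ.filter (fun i => φ i * v ∈ B) with hS
  have hBS : B = S.biUnion (fun i => coset H (φ i * v)) := by
    ext x
    rw [mem_biUnion]
    constructor
    · intro hx
      have : x ∈ (univ : Finset (ZMod 7)).biUnion (fun i => coset H (φ i * v)) := by
        rw [hcover]; exact mem_univ _
      obtain ⟨i, -, hi⟩ := mem_biUnion.1 this
      refine ⟨i, mem_filter.2 ⟨mem_univ _, ?_⟩, hi⟩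
      apply coset_subset hBF hx
      rw [mem_coset] at hi ⊢
      have := H.neg_mem hi
      rwa [neg_sub] at this
    · rintro ⟨i, hi, hx⟩
      exact coset_subset hBF (mem_filter.1 hi).2 hx
  have hScard : S.card = 3 := by
    have h1 : B.card = S.card * (Hf H).card := by
      conv_lhs => rw [hBS]
      rw [card_biUnion (fun i _ j _ hij => hdisj i j hij)]
      simp only [card_coset, sum_const, smul_eq_mul]
    rw [hk] at h1
    exact (Nat.eq_of_mul_eq_mul_right hpos h1).symm
  obtain ⟨a, b, ha0, hab, hSinv⟩ := seven S hScard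
  have h1 := (hB (φ a) (φ b * v) (by
    intro h
    apply ha0
    apply hφinj
    rw [h, map_zero])).1 (by
    intro x hx
    rw [hBS, mem_biUnion] at hx ⊢
    obtain ⟨i, hi, hx⟩ := hx
    refine ⟨a * i + b, hSinv i hi, ?_⟩
    rw [mem_coset] at hx ⊢
    have := hφH a _ hx
    convert this using 1
    rw [map_add, map_mul]
    ring)
  obtain ⟨h2, h3⟩ := h1
  rw [pow_one] at h2
  have ha1 : a = 1 := by
    apply hφinj
    rw [h2, map_one]
  rcases hab with h | h
  · exact h ha1
  · have h4 : φ b ≠ 0 := by
      intro h5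
      apply h
      apply hφinj
      rw [h5, map_zero]
    have h5 := (stabField H).inv_mem (hφH b) _ h3
    rw [← mul_assoc, inv_mul_cancel₀ h4, one_mul] at h5
    exact hv h5

/-- the classification -/
theorem classification {p : ℕ} [CharP K p] (hp : p.Prime) (hd : d ∣ Fintype.card K - 1)
    (hH : ∀ ζ : K, ζ ^ d = 1 → ∀ h ∈ H, ζ * h ∈ H) (hk3 : 3 ≤ k)
    (hkq : 2 * k ≤ Fintype.card K)
    (hmod : k ≡ 0 [MOD d * (Hf H).card] ∨ k ≡ (Hf H).card [MOD d * (Hf H).card]) :
    (¬ ∃ B : Finset K, B.card = k ∧ Exact B d H) ↔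
      ((k = (Hf H).card ∧ d ≠ Nat.card (stabField H) - 1) ∨ (k = 2 * (Hf H).card ∧ d = 1) ∨
        (∃ s, 1 ≤ s ∧ d = p ^ s - 1 ∧ k = p ^ s * (Hf H).card) ∨
        (Fintype.card K = 7 * (Hf H).card ∧ k = 3 * (Hf H).card ∧ d = 1)) := by
  have hpos := Hf_pos H
  have hd0 := d_pos hd
  constructor
  · intro hno
    -- the shape of k
    have hshape : ∃ j e, e ≤ 1 ∧ k = (Hf H).card * (d * j + e) := by
      rcases hmod with h | h
      · obtain ⟨j, hj⟩ := (Nat.modEq_zero_iff_dvd).1 h
        exact ⟨j, 0, zero_le_one, by rw [hj]; ring⟩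
      · rcases Nat.lt_or_ge d 2 with h2 | h2
        · have hd1 : d = 1 := by omega
          subst hd1
          rw [one_mul] at h
          have h3 : (Hf H).card ∣ k := by
            rw [← Nat.modEq_zero_iff_dvd]
            exact h.trans (by rw [Nat.modEq_zero_iff_dvd])
          obtain ⟨t, ht⟩ := h3
          exact ⟨t, 0, zero_le_one, by rw [ht]; ring⟩
        · rcases Nat.lt_or_ge k (Hf H).card with h3 | h3
          · exfalso
            have h4 : (Hf H).card < d * (Hf H).card := by nlinarith
            have h5 : k % (d * (Hf H).card) = (Hf H).card % (d * (Hf H).card) := h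
            rw [Nat.mod_eq_of_lt (by omega), Nat.mod_eq_of_lt h4] at h5
            omega
          · have h4 := (Nat.modEq_iff_dvd' h3).1 h.symm
            obtain ⟨j, hj⟩ := h4
            exact ⟨j, 1, le_rfl, by
              have : k = d * (Hf H).card * j + (Hf H).card := by omega
              rw [this]; ring⟩
    obtain ⟨j, e, he, hk⟩ := hshape
    rcases Nat.lt_or_ge d 2 with hd2 | hd2
    · have hd1 : d = 1 := by omega
      subst hd1
      set t := j + e with ht
      have hkt : k = (Hf H).card * t := by rw [hk, ht, one_mul]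
      have ht0 : t ≠ 0 := by
        intro h
        rw [h, mul_zero] at hkt
        omega
      rcases (show t = 1 ∨ t = 2 ∨ 3 ≤ t by omega) with h | h | h
      · left
        refine ⟨by rw [hkt, h, mul_one], ?_⟩
        intro hf
        apply hno
        obtain ⟨B, hB1, hB2⟩ := exists_H hd hH hf
        exact ⟨B, by rw [hB1, hkt, h, mul_one], hB2⟩
      · right; left
        exact ⟨by rw [hkt, h, mul_comm], rfl⟩
      · by_cases hexc : Fintype.card K = 7 * (Hf H).card ∧ t = 3
        · right; right; right
          exact ⟨hexc.1, by rw [hkt, hexc.2, mul_comm], rfl⟩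
        · exact absurd (exists_one hkt h hkq hexc) hno
    · rcases Nat.eq_zero_or_pos j with hj | hj
      · left
        have he1 : e = 1 := by
          rcases (show e = 0 ∨ e = 1 by omega) with h | h
          · rw [hj, h, mul_zero, zero_add, mul_zero] at hk
            omega
          · exact h
        have hkH : k = (Hf H).card := by rw [hk, hj, he1, mul_zero, zero_add, mul_one]
        refine ⟨hkH, ?_⟩
        intro hf
        apply hno
        obtain ⟨B, hB1, hB2⟩ := exists_H hd hH hf
        exact ⟨B, by rw [hB1, hkH], hB2⟩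
      · by_cases hexc : j = 1 ∧ e = 1 ∧ (Ef K d).card = d + 1
        · right; right; left
          have : Fact p.Prime := ⟨hp⟩
          have : CharP (EE K d) p :=
            (RingHom.charP_iff (EE K d).subtype Subtype.val_injective p).2 inferInstance
          obtain ⟨n, hn⟩ := FiniteField.card (EE K d) p
          have h1 : (Ef K d).card = p ^ (n : ℕ) := by
            rw [card_Ef_eq, Nat.card_eq_fintype_card]
            exact hn.2
          refine ⟨n, n.pos, ?_, ?_⟩
          · rw [← h1, hexc.2.2, Nat.add_sub_cancel]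
          · rw [hk, hexc.1, hexc.2.1, ← h1, hexc.2.2]
            ring
        · exact absurd (exists_two hd hH hd2 he hk hj hkq hexc) hno
  · rintro hcase ⟨B, hBk, hB⟩
    rcases hcase with ⟨h1, h2⟩ | ⟨h1, h2⟩ | ⟨s, hs, h1, h2⟩ | ⟨h1, h2, h3⟩
    · exact h2 (van_a hd hH hB (by rw [hBk, h1]))
    · subst h2
      exact van_b hB (by rw [hBk, h1])
    · exact van_c hp hs h1 hd hH hB (by rw [hBk, h2])
    · subst h3
      exact van_d hp h1 hB (by rw [hBk, h2])

lemma multCard_eq : multCard H = Nat.card (stabField H) := by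
  unfold multCard
  rw [← Nat.card_coe_set_eq]
  rfl

lemma stabCount_eq_zero_iff : stabCount K d H k = 0 ↔
    ¬ ∃ B : Finset K, B.card = k ∧ Exact B d H := by
  unfold stabCount
  rw [Set.ncard_eq_zero (Set.toFinite _), Set.eq_empty_iff_forall_notMem]
  constructor
  · rintro h ⟨B, hB1, hB2⟩
    apply h (B : Set K)
    refine ⟨by rw [Set.ncard_coe_finset, hB1], ?_⟩
    intro a b ha
    rw [← hB2 a b ha, ← image_eq_iff B ha b]
    rw [← Finset.coe_image, Finset.coe_inj]
  · intro h B hB
    apply h
    refine ⟨B.toFinset, ?_, ?_⟩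
    · rw [← Set.ncard_eq_toFinset_card']
      exact hB.1
    · intro a b ha
      rw [← hB.2 a b ha, ← image_eq_iff _ ha b]
      rw [← Finset.coe_inj, Finset.coe_image, Set.coe_toFinset]

end

end Pool.Agent.V11179.AGL
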