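import Mathlib

/-!
Definitions on principal symmetric ideals.
-/

namespace Pool.Agent.V11179.Psi

open MvPolynomial

/-- The ideal `(f)_{S_d}` of `k[x_1, ..., x_d]` generated by the orbit of `f` under all
permutations of the variables. -/
noncomputable def orbitIdeal {k : Type*} [Field k] {d : ℕ} (f : MvPolynomial (Fin d) k) :
    Ideal (MvPolynomial (Fin d) k) :=
  Ideal.span {g | ∃ σ : Equiv.Perm (Fin d), g = rename σ f}

/-- Principal symmetric ideals: generated by the orbit of a homogeneous polynomial. -/
def IsPsi {k : Type*} [Field k] {d : ℕ} (I : Ideal (MvPolynomial (Fin d) k)) : Prop :=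
  ∃ (f : MvPolynomial (Fin d) k) (n : ℕ), f.IsHomogeneous n ∧ I = orbitIdeal f

/-- `I = (f)_{S_d}` for some polynomial `f` that is `k`-invariant under some symmetric subgroup:
for some set `A` of at least two indices, every permutation fixing all indices outside `A`
multiplies `f` by a scalar. -/
def HasInvariantGenerator {k : Type*} [Field k] {d : ℕ}
    (I : Ideal (MvPolynomial (Fin d) k)) : Prop :=
  ∃ f : MvPolynomial (Fin d) k, I = orbitIdeal f ∧
    ∃ A : Finset (Fin d), 2 ≤ A.card ∧
      ∀ σ : Equiv.Perm (Fin d), (∀ i, i ∉ A → σ i = i) → ∃ c : k, rename σ f = C c * f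

end Pool.Agent.V11179.Psi
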