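import Mathlib

/-!
A descent lemma of Springer type: a quadratic form in finitely many variables which has a
nontrivial zero (satisfying a linear condition) modulo a polynomial of odd degree has such a
zero over the ground field.
-/

namespace Pool.Agent.V11179.Psi

open Polynomial

lemma exists_odd_irreducible_factor {K : Type*} [Field K] :
    ∀ n : ℕ, ∀ F : K[X], F.natDegree ≤ n → Odd F.natDegree →
      ∃ P : K[X], Irreducible P ∧ P ∣ F ∧ Odd P.natDegree := by
  intro n
  induction n with
  | zero =>
    intro F hF hodd
    exfalso
    have : F.natDegree = 0 := by omega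
    rw [this] at hodd
    exact (by decide : ¬ Odd 0) hodd
  | succ n ih =>
    intro F hF hodd
    have hF0 : F ≠ 0 := by
      rintro rfl
      simp at hodd
    have hnu : ¬ IsUnit F := by
      intro hu
      rw [Polynomial.natDegree_eq_zero_of_isUnit hu] at hodd
      exact (by decide : ¬ Odd 0) hodd
    obtain ⟨P, hP, H, rfl⟩ := WfDvdMonoid.exists_irreducible_factor hnu hF0
    have hP0 : P ≠ 0 := hP.ne_zero
    have hH0 : H ≠ 0 := by
      rintro rfl
      simp at hF0
    rw [natDegree_mul hP0 hH0] at hodd hF
    by_cases hPo : Odd P.natDegree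
    · exact ⟨P, hP, dvd_mul_right _ _, hPo⟩
    · have hPpos : 0 < P.natDegree := hP.natDegree_pos
      have hHo : Odd H.natDegree := by
        rw [Nat.odd_add] at hodd
        rw [Nat.not_odd_iff_even] at hPo
        by_contra hc
        rw [Nat.not_odd_iff_even] at hc
        have := hodd.2 hc
        rw [← Nat.not_even_iff_odd] at this
        exact this hPo
      obtain ⟨P', h1, h2, h3⟩ := ih H (by omega) hHo
      exact ⟨P', h1, h2.mul_left P, h3⟩

theorem springer {K : Type*} [Field K] {m : ℕ} (q : Fin m → Fin m → K) (l : Fin m → K) :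
    ∀ n : ℕ, ∀ F : K[X], F.natDegree ≤ n → Odd F.natDegree → ∀ V : Fin m → K[X],
      (∑ j, C (l j) * V j = 0) →
      F ∣ ∑ i, ∑ j, C (q i j) * (V i * V j) →
      (∀ P, Irreducible P → P ∣ F → ∃ j, ¬ P ∣ V j) →
      ∃ v : Fin m → K, v ≠ 0 ∧ ∑ j, l j * v j = 0 ∧ ∑ i, ∑ j, q i j * (v i * v j) = 0 := by
  classical
  intro n
  induction n with
  | zero =>
    intro F hF hodd
    exfalso
    have : F.natDegree = 0 := by omega
    rw [this] at hodd
    exact (by decide : ¬ Odd 0) hodd
  | succ n ih =>
    intro F hF hodd V hlV hqV hV
    obtain ⟨P, hP, hPF, hPo⟩ := exists_odd_irreducible_factor _ F le_rfl hodd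
    have hF0 : F ≠ 0 := by
      rintro rfl
      simp at hodd
    have hPn : P.natDegree ≤ n + 1 := (natDegree_le_of_dvd hPF hF0).trans hF
    have hP0 : P ≠ 0 := hP.ne_zero
    obtain ⟨j0, hj0⟩ := hV P hP hPF
    -- reduce modulo P
    set D : Fin m → K[X] := fun j => V j % P with hD
    have hDdeg : ∀ j, (D j).degree < P.degree := fun j => EuclideanDomain.mod_lt _ hP0
    have hVD : ∀ j, V j = D j + P * (V j / P) := fun j => by
      rw [hD]; exact (EuclideanDomain.mod_add_div (V j) P).symm
    have hDj0 : D j0 ≠ 0 := by
      intro h
      apply hj0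
      rw [hVD j0, h, zero_add]
      exact dvd_mul_right _ _
    have hlD : ∑ j, C (l j) * D j = 0 := by
      apply eq_zero_of_dvd_of_degree_lt (p := P)
      · have : ∑ j, C (l j) * D j = (∑ j, C (l j) * V j) - P * ∑ j, C (l j) * (V j / P) := by
          rw [Finset.mul_sum, ← Finset.sum_sub_distrib]
          apply Finset.sum_congr rfl
          intro j _
          have := hVD j
          linear_combination (-C (l j)) * this
        rw [this, hlV, zero_sub, dvd_neg]
        exact dvd_mul_right _ _
      · refine (degree_sum_le _ _).trans_lt ?_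
        rw [Finset.sup_lt_iff]
        · intro j _
          refine lt_of_le_of_lt ?_ (hDdeg j)
          rw [← smul_eq_C_mul]
          exact degree_smul_le _ _
        · rw [bot_lt_iff_ne_bot]
          simpa [degree_eq_bot] using hP0
    have hqD : P ∣ ∑ i, ∑ j, C (q i j) * (D i * D j) := by
      have : ∑ i, ∑ j, C (q i j) * (D i * D j) =
          (∑ i, ∑ j, C (q i j) * (V i * V j)) - P * ∑ i, ∑ j, C (q i j) *
            ((V i / P) * D j + D i * (V j / P) + P * (V i / P) * (V j / P)) := by
        rw [Finset.mul_sum, ← Finset.sum_sub_distrib]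
        apply Finset.sum_congr rfl
        intro i _
        rw [Finset.mul_sum, ← Finset.sum_sub_distrib]
        apply Finset.sum_congr rfl
        intro j _
        have h1 := hVD i
        have h2 := hVD j
        have h3 : V i * V j = (D i + P * (V i / P)) * (D j + P * (V j / P)) := by
          rw [← h1, ← h2]
        rw [h3]
        ring
      rw [this]
      exact dvd_sub (hPF.trans hqV) (dvd_mul_right _ _)
    -- extract the gcd
    let _ : NormalizedGCDMonoid K[X] := UniqueFactorizationMonoid.toNormalizedGCDMonoid K[X]
    obtain ⟨E, hE, hE1⟩ := Finset.extract_gcd D (s := Finset.univ) ⟨j0, Finset.mem_univ _⟩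
    set g := Finset.univ.gcd D with hg
    have hg0 : g ≠ 0 := by
      intro h
      apply hDj0
      rw [hE j0 (Finset.mem_univ _), h, zero_mul]
    have hEj0 : E j0 ≠ 0 := by
      intro h
      apply hDj0
      rw [hE j0 (Finset.mem_univ _), h, mul_zero]
    have hPg : ¬ P ∣ g := by
      intro h
      have h1 : P ∣ D j0 := by
        rw [hE j0 (Finset.mem_univ _)]
        exact h.mul_right _
      exact hDj0 (eq_zero_of_dvd_of_degree_lt h1 (hDdeg j0))
    have hlE : ∑ j, C (l j) * E j = 0 := by
      have : g * ∑ j, C (l j) * E j = 0 := by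
        rw [Finset.mul_sum, ← hlD]
        apply Finset.sum_congr rfl
        intro j _
        rw [hE j (Finset.mem_univ _)]
        ring
      exact (mul_eq_zero.1 this).resolve_left hg0
    have hqE : P ∣ ∑ i, ∑ j, C (q i j) * (E i * E j) := by
      have : ∑ i, ∑ j, C (q i j) * (D i * D j) = g * (g * ∑ i, ∑ j, C (q i j) * (E i * E j)) := by
        rw [Finset.mul_sum, Finset.mul_sum]
        apply Finset.sum_congr rfl
        intro i _
        rw [Finset.mul_sum, Finset.mul_sum]
        apply Finset.sum_congr rfl
        intro j _
        rw [hE j (Finset.mem_univ _), hE i (Finset.mem_univ _)]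
        ring
      rw [this] at hqD
      have hPp := hP.prime
      rcases hPp.dvd_or_dvd hqD with h | h
      · exact absurd h hPg
      · rcases hPp.dvd_or_dvd h with h | h
        · exact absurd h hPg
        · exact h
    have hEdeg : ∀ j, (E j).natDegree < P.natDegree := by
      intro j
      by_cases h : E j = 0
      · rw [h, natDegree_zero]
        exact hP.natDegree_pos
      · have h1 : D j ≠ 0 := by
          rw [hE j (Finset.mem_univ _)]
          exact mul_ne_zero hg0 h
        have h2 : (D j).natDegree < P.natDegree := natDegree_lt_natDegree h1 (hDdeg j)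
        have h3 : (D j).natDegree = g.natDegree + (E j).natDegree := by
          rw [hE j (Finset.mem_univ _), natDegree_mul hg0 h]
        omega
    -- leading coefficients
    obtain ⟨j1, hj1, hmax⟩ := Finset.exists_max_image (Finset.univ.filter (fun j => E j ≠ 0))
      (fun j => (E j).natDegree) ⟨j0, by simp [hEj0]⟩
    set M := (E j1).natDegree with hM
    have hj1' : E j1 ≠ 0 := (Finset.mem_filter.1 hj1).2
    have hle : ∀ j, (E j).natDegree ≤ M := by
      intro j
      by_cases h : E j = 0
      · rw [h, natDegree_zero]
        exact Nat.zero_le _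
      · exact hmax j (by simp [h])
    set v : Fin m → K := fun j => (E j).coeff M with hv
    have hv0 : v ≠ 0 := by
      intro h
      have h1 := congrFun h j1
      rw [hv] at h1
      simp only [Pi.zero_apply, hM, coeff_natDegree, leadingCoeff_eq_zero] at h1
      exact hj1' h1
    have hlv : ∑ j, l j * v j = 0 := by
      have h1 := congrArg (fun p : K[X] => p.coeff M) hlE
      simp only [finsetSum_coeff, coeff_C_mul, coeff_zero] at h1
      exact h1
    have hqv : (∑ i, ∑ j, C (q i j) * (E i * E j)).coeff (M + M) =
        ∑ i, ∑ j, q i j * (v i * v j) := by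
      simp only [finsetSum_coeff, coeff_C_mul]
      apply Finset.sum_congr rfl
      intro i _
      apply Finset.sum_congr rfl
      intro j _
      rw [coeff_mul_add_eq_of_natDegree_le (hle i) (hle j)]
    by_cases hz : ∑ i, ∑ j, q i j * (v i * v j) = 0
    · exact ⟨v, hv0, hlv, hz⟩
    · obtain ⟨G, hG⟩ := hqE
      have hQ0 : ∑ i, ∑ j, C (q i j) * (E i * E j) ≠ 0 := by
        intro h
        rw [h, coeff_zero] at hqv
        exact hz hqv.symm
      have hQdeg : (∑ i, ∑ j, C (q i j) * (E i * E j)).natDegree = M + M := by
        apply le_antisymm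
        · apply natDegree_sum_le_of_forall_le
          intro i _
          apply natDegree_sum_le_of_forall_le
          intro j _
          refine (natDegree_C_mul_le _ _).trans ?_
          exact natDegree_mul_le_of_le (hle i) (hle j)
        · apply le_natDegree_of_ne_zero
          rw [hqv]
          exact hz
      have hG0 : G ≠ 0 := by
        rintro rfl
        rw [mul_zero] at hG
        exact hQ0 hG
      have hdeg : P.natDegree + G.natDegree = M + M := by
        rw [← hQdeg, hG, natDegree_mul hP0 hG0]
      have hMP : M < P.natDegree := hEdeg j1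
      have hGo : Odd G.natDegree := by
        obtain ⟨a, ha⟩ := hPo
        have : G.natDegree = 2 * (M - a - 1) + 1 := by omega
        exact ⟨_, this⟩
      apply ih G (by omega) hGo E hlE
      · rw [hG]
        exact dvd_mul_left _ _
      · intro P' hP' hP'G
        by_contra hcon
        push Not at hcon
        have : P' ∣ Finset.univ.gcd E := Finset.dvd_gcd (fun j _ => hcon j)
        rw [hE1] at this
        exact hP'.not_isUnit (isUnit_of_dvd_one this)

end Pool.Agent.V11179.Psi
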