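import Mathlib
import Pool.Agent.V11179.Springer

/-!
Descent of an isotropic vector of the trace form from an odd orbit of isotropic vectors.
-/

namespace Pool.Agent.V11179.Psi

open Polynomial

/-- The subfield of elements fixed by all `ρ σ`. -/
def fixF {G L : Type*} [Field L] (ρ : G → L →+* L) : Subfield L :=
  ⨅ σ, (ρ σ).eqLocusField (RingHom.id L)

lemma mem_fixF {G L : Type*} [Field L] (ρ : G → L →+* L) (z : L) :
    z ∈ fixF ρ ↔ ∀ σ, ρ σ z = z := by
  unfold fixF
  rw [Subfield.mem_iInf]
  rfl

lemma lift_of_fixed {G L : Type*} [Field L] (ρ : G → L →+* L) (p : L[X])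
    (hp : ∀ σ, p.map (ρ σ) = p) : ∃ q : (fixF ρ)[X], q.map (fixF ρ).subtype = p := by
  have : p ∈ Polynomial.lifts (fixF ρ).subtype := by
    rw [Polynomial.lifts_iff_coeff_lifts]
    intro n
    have : p.coeff n ∈ fixF ρ := by
      rw [mem_fixF]
      intro σ
      conv_rhs => rw [← hp σ]
      rw [Polynomial.coeff_map]
    exact ⟨⟨_, this⟩, rfl⟩
  rw [Polynomial.mem_lifts] at this
  exact this

lemma sum3_comm {M A B D : Type*} [AddCommMonoid M] [Fintype A] [Fintype B] [Fintype D]
    (f : A → B → D → M) : ∑ t, ∑ i, ∑ j, f t i j = ∑ i, ∑ j, ∑ t, f t i j := by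
  rw [Finset.sum_comm]
  apply Finset.sum_congr rfl
  intro i _
  rw [Finset.sum_comm]

theorem descent {L : Type*} [Field L] {d : ℕ} (x : Fin d → L) (hx : Function.Injective x)
    (ρ : Equiv.Perm (Fin d) → L →+* L) (hρx : ∀ σ i, ρ σ (x i) = x (σ i))
    {O : Type*} [Fintype O] [DecidableEq O] (hO : Odd (Fintype.card O))
    (act : Equiv.Perm (Fin d) → O ≃ O)
    (θ : O → L) (hθ : Function.Injective θ) (hρθ : ∀ σ o, ρ σ (θ o) = θ (act σ o))
    (c : O → Fin d → L) (hρc : ∀ σ o i, ρ σ (c o i) = c o i)
    (hc : ∀ σ o i, c (act σ o) (σ i) = c o i)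
    (hc1 : ∀ o, ∑ i, c o i = 0) (hc2 : ∀ o, ∑ i, c o i ^ 2 = 0) (hc0 : ∀ o, ∃ i, c o i ≠ 0) :
    ∃ v : Fin d → L, v ≠ 0 ∧ (∀ σ j, ρ σ (v j) = v j) ∧
      ∑ i, ∑ j : Fin d, x i ^ (j : ℕ) * v j = 0 ∧
      ∑ i, (∑ j : Fin d, x i ^ (j : ℕ) * v j) ^ 2 = 0 := by
  classical
  -- interpolation polynomials
  set P : O → L[X] := fun o => Lagrange.interpolate Finset.univ x (c o) with hPdef
  have hxs : Set.InjOn x (Finset.univ : Finset (Fin d)) := hx.injOn
  have hPdeg : ∀ o, (P o).degree < d := by
    intro o
    have := Lagrange.degree_interpolate_lt (s := Finset.univ) (v := x) (c o) hxs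
    rw [Finset.card_univ, Fintype.card_fin] at this
    exact this
  have hPeval : ∀ o i, (P o).eval (x i) = c o i := fun o i =>
    Lagrange.eval_interpolate_at_node _ hxs (Finset.mem_univ i)
  have hPmap : ∀ σ o, (P o).map (ρ σ) = P (act σ o) := by
    intro σ o
    apply Lagrange.eq_interpolate_of_eval_eq _ hxs
    · refine lt_of_le_of_lt (degree_map_le) ?_
      simpa using hPdeg o
    · intro i _
      have h1 : x i = ρ σ (x (σ⁻¹ i)) := by
        rw [hρx]; simp
      rw [h1, eval_map, eval₂_at_apply, hPeval, hρc]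
      have := hc σ o (σ⁻¹ i)
      rw [← this]
      simp
  have hPsum : ∀ o t, ∑ j : Fin d, x t ^ (j : ℕ) * (P o).coeff j = c o t := by
    intro o t
    rcases Nat.eq_zero_or_pos d with h | h
    · subst h; exact t.elim0
    have hlt : (P o).natDegree < d := by
      by_cases hz : P o = 0
      · rw [hz, natDegree_zero]; exact h
      · rw [natDegree_lt_iff_degree_lt hz]; exact hPdeg o
    rw [← hPeval o t, eval_eq_sum_range' hlt, Finset.sum_range]
    apply Finset.sum_congr rfl
    intro j _
    ring
  -- the products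
  set Pi : O → L[X] := fun o => ∏ o' ∈ Finset.univ.erase o, (X - C (θ o')) with hPi
  set FL : L[X] := ∏ o, (X - C (θ o)) with hFL
  have hFLPi : ∀ o, FL = (X - C (θ o)) * Pi o := by
    intro o
    rw [hFL, hPi]
    exact (Finset.mul_prod_erase Finset.univ _ (Finset.mem_univ o)).symm
  have hPimap : ∀ σ o, (Pi o).map (ρ σ) = Pi (act σ o) := by
    intro σ o
    simp only [hPi, Polynomial.map_prod, Polynomial.map_sub, map_X, map_C, hρθ]
    apply Finset.prod_equiv (act σ)
    · intro i
      simp
    · intro i _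
      rfl
  have hFLmap : ∀ σ, FL.map (ρ σ) = FL := by
    intro σ
    simp only [hFL, Polynomial.map_prod, Polynomial.map_sub, map_X, map_C, hρθ]
    exact Equiv.prod_comp (act σ) (fun o => X - C (θ o))
  -- the covariant coefficients
  set B : Fin d → L[X] := fun j => ∑ o, C ((P o).coeff j) * Pi o with hB
  have hBmap : ∀ σ j, (B j).map (ρ σ) = B j := by
    intro σ j
    simp only [hB, Polynomial.map_sum, Polynomial.map_mul, map_C, hPimap]
    rw [← Equiv.sum_comp (act σ) (fun o => C ((P o).coeff (j : ℕ)) * Pi o)]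
    apply Finset.sum_congr rfl
    intro o _
    rw [← hPmap, coeff_map]
  have hWt : ∀ t, ∑ j : Fin d, C (x t ^ (j : ℕ)) * B j = ∑ o, C (c o t) * Pi o := by
    intro t
    simp only [hB, Finset.mul_sum]
    rw [Finset.sum_comm]
    apply Finset.sum_congr rfl
    intro o _
    rw [← hPsum o t, map_sum, Finset.sum_mul]
    apply Finset.sum_congr rfl
    intro j _
    rw [map_mul]
    ring
  -- lifts
  have hlift : ∀ j, ∃ q : (fixF ρ)[X], q.map (fixF ρ).subtype = B j :=
    fun j => lift_of_fixed ρ _ (fun σ => hBmap σ j)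
  choose V hV using hlift
  obtain ⟨F, hF⟩ := lift_of_fixed ρ FL hFLmap
  have hinj : Function.Injective (Polynomial.map (fixF ρ).subtype) :=
    Polynomial.map_injective _ (fixF ρ).subtype.injective
  have hps : ∀ n : ℕ, ∑ t, x t ^ n ∈ fixF ρ := by
    intro n
    rw [mem_fixF]
    intro σ
    rw [map_sum]
    simp only [map_pow, hρx]
    exact Equiv.sum_comp σ (fun t => x t ^ n)
  set q : Fin d → Fin d → fixF ρ := fun i j => ⟨_, hps (i + j)⟩ with hq
  set l : Fin d → fixF ρ := fun j => ⟨_, hps j⟩ with hl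
  have hFdeg : F.natDegree = Fintype.card O := by
    have h1 : (F.map (fixF ρ).subtype).natDegree = F.natDegree := natDegree_map _
    rw [← h1, hF, hFL, natDegree_prod_of_monic _ _ (fun o _ => monic_X_sub_C _)]
    simp
  have hFodd : Odd F.natDegree := by rw [hFdeg]; exact hO
  have hA : ∑ j, C (l j) * V j = 0 := by
    apply hinj
    simp only [Polynomial.map_sum, Polynomial.map_mul, map_C, Polynomial.map_zero, hV]
    have h1 : ∀ j : Fin d, C ((fixF ρ).subtype (l j)) * B j =
        ∑ t, C (x t ^ (j : ℕ)) * B j := by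
      intro j
      rw [← Finset.sum_mul, ← map_sum]
      rfl
    simp only [h1]
    rw [Finset.sum_comm]
    simp only [hWt]
    rw [Finset.sum_comm]
    apply Finset.sum_eq_zero
    intro o _
    rw [← Finset.sum_mul, ← map_sum, hc1, map_zero, zero_mul]
  have hBd : F ∣ ∑ i, ∑ j, C (q i j) * (V i * V j) := by
    rw [← Polynomial.map_dvd_map' (fixF ρ).subtype, hF]
    simp only [Polynomial.map_sum, Polynomial.map_mul, map_C, hV]
    have h1 : ∑ i, ∑ j, C ((fixF ρ).subtype (q i j)) * (B i * B j) =
        ∑ t, (∑ j : Fin d, C (x t ^ (j : ℕ)) * B j) ^ 2 := by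
      have h2 : ∀ t, (∑ j : Fin d, C (x t ^ (j : ℕ)) * B j) ^ 2 =
          ∑ i : Fin d, ∑ j : Fin d, C (x t ^ ((i : ℕ) + j)) * (B i * B j) := by
        intro t
        rw [sq, Finset.sum_mul_sum]
        apply Finset.sum_congr rfl
        intro i _
        apply Finset.sum_congr rfl
        intro j _
        rw [pow_add, map_mul]
        ring
      simp only [h2]
      rw [sum3_comm]
      apply Finset.sum_congr rfl
      intro i _
      apply Finset.sum_congr rfl
      intro j _
      rw [← Finset.sum_mul, ← map_sum]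
      rfl
    rw [h1]
    simp only [hWt]
    have h3 : ∀ t, (∑ o, C (c o t) * Pi o) ^ 2 =
        ∑ o, ∑ o', C (c o t * c o' t) * (Pi o * Pi o') := by
      intro t
      rw [sq, Finset.sum_mul_sum]
      apply Finset.sum_congr rfl
      intro i _
      apply Finset.sum_congr rfl
      intro j _
      rw [map_mul]
      ring
    simp only [h3]
    rw [Finset.sum_comm]
    apply Finset.dvd_sum
    intro o _
    rw [Finset.sum_comm]
    apply Finset.dvd_sum
    intro o' _
    rw [← Finset.sum_mul, ← map_sum]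
    by_cases hoo : o = o'
    · subst hoo
      have : ∑ i, c o i * c o i = 0 := by
        rw [← hc2 o]
        apply Finset.sum_congr rfl
        intro i _
        ring
      rw [this, map_zero, zero_mul]
      exact dvd_zero _
    · apply Dvd.dvd.mul_left
      rw [hFLPi o, mul_comm]
      apply mul_dvd_mul_left
      apply Finset.dvd_prod_of_mem
      simp [hoo]
  have hCn : ∀ p, Irreducible p → p ∣ F → ∃ j, ¬ p ∣ V j := by
    intro p hp hpF
    by_contra hcon
    push Not at hcon
    have hpL : ¬ IsUnit (p.map (fixF ρ).subtype) := by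
      intro hu
      have h1 := Polynomial.natDegree_eq_zero_of_isUnit hu
      rw [natDegree_map] at h1
      have := hp.natDegree_pos
      omega
    have hpL0 : p.map (fixF ρ).subtype ≠ 0 := by
      rw [Ne, Polynomial.map_eq_zero]
      exact hp.ne_zero
    obtain ⟨r, hr, hrp⟩ := WfDvdMonoid.exists_irreducible_factor hpL hpL0
    have hrF : r ∣ FL := by
      rw [← hF]
      exact hrp.trans ((Polynomial.map_dvd_map' (fixF ρ).subtype).2 hpF)
    obtain ⟨o, -, ho⟩ := hr.prime.exists_mem_finset_dvd hrF
    have hXr : (X - C (θ o)) ∣ r := hr.dvd_symm (irreducible_X_sub_C _) ho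
    have hBo : ∀ j, (B j).eval (θ o) = 0 := by
      intro j
      have h1 : (X - C (θ o)) ∣ B j := by
        rw [← hV j]
        exact hXr.trans (hrp.trans ((Polynomial.map_dvd_map' (fixF ρ).subtype).2 (hcon j)))
      exact dvd_iff_isRoot.1 h1
    have hPio : ∀ o', o' ≠ o → (Pi o').eval (θ o) = 0 := by
      intro o' ho'
      have h1 : (X - C (θ o)) ∣ Pi o' := by
        apply Finset.dvd_prod_of_mem
        simp [Ne.symm ho']
      exact dvd_iff_isRoot.1 h1
    have hPioo : (Pi o).eval (θ o) ≠ 0 := by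
      rw [hPi]
      simp only [eval_prod, eval_sub, eval_X, eval_C]
      rw [Finset.prod_ne_zero_iff]
      intro o' ho'
      rw [sub_ne_zero]
      intro h
      exact (Finset.mem_erase.1 ho').1 (hθ h).symm
    have hcoef : ∀ j : Fin d, (P o).coeff j = 0 := by
      intro j
      have h1 := hBo j
      simp only [hB, eval_finsetSum, eval_mul, eval_C] at h1
      rw [Finset.sum_eq_single o] at h1
      · exact (mul_eq_zero.1 h1).resolve_right hPioo
      · intro o' _ ho'
        rw [hPio o' ho', mul_zero]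
      · intro h
        exact absurd (Finset.mem_univ o) h
    obtain ⟨i, hi⟩ := hc0 o
    apply hi
    rw [← hPsum o i]
    apply Finset.sum_eq_zero
    intro j _
    rw [hcoef j, mul_zero]
  obtain ⟨v, hv0, hlv, hqv⟩ := springer q l F.natDegree F le_rfl hFodd V hA hBd hCn
  refine ⟨fun j => (v j : L), ?_, ?_, ?_, ?_⟩
  · intro h
    apply hv0
    funext j
    have := congrFun h j
    exact Subtype.ext (by simpa using this)
  · intro σ j
    exact (mem_fixF ρ _).1 (v j).2 σ
  · have h1 := congrArg (fixF ρ).subtype hlv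
    simp only [map_sum, map_mul, map_zero, hl] at h1
    rw [Finset.sum_comm]
    rw [← h1]
    apply Finset.sum_congr rfl
    intro j _
    rw [← Finset.sum_mul]
    rfl
  · have h1 := congrArg (fixF ρ).subtype hqv
    simp only [map_sum, map_mul, map_zero, hq] at h1
    rw [← h1]
    have h2 : ∀ t, (∑ j : Fin d, x t ^ (j : ℕ) * (v j : L)) ^ 2 =
        ∑ i : Fin d, ∑ j : Fin d, x t ^ ((i : ℕ) + j) * ((v i : L) * (v j : L)) := by
      intro t
      rw [sq, Finset.sum_mul_sum]
      apply Finset.sum_congr rfl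
      intro i _
      apply Finset.sum_congr rfl
      intro j _
      ring
    simp only [h2]
    rw [sum3_comm]
    apply Finset.sum_congr rfl
    intro i _
    apply Finset.sum_congr rfl
    intro j _
    rw [← Finset.sum_mul]
    rfl
end Pool.Agent.V11179.Psi
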