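import Mathlib
import Pool.Agent.V11179.Descent

/-!
Homogeneous covariant polynomials `y_1, ..., y_7` with `∑ y_i = 0` and `∑ y_i ^ 2 = 0`.
-/

namespace Pool.Agent.V11179.Psi

open MvPolynomial

/-- The labelings of seven indices with label multiplicities 4, 2, 1. -/
def Good (o : Fin 7 → Fin 3) : Prop :=
  (Finset.univ.filter (fun i => o i = 0)).card = 4 ∧
  (Finset.univ.filter (fun i => o i = 1)).card = 2 ∧
  (Finset.univ.filter (fun i => o i = 2)).card = 1

instance : DecidablePred Good := fun o => by unfold Good; infer_instance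

theorem card_good : Fintype.card {o : Fin 7 → Fin 3 // Good o} = 105 := by
  decide +kernel

lemma good_perm (σ : Equiv.Perm (Fin 7)) (o : Fin 7 → Fin 3) (ho : Good o) :
    Good (fun i => o (σ⁻¹ i)) := by
  have key : ∀ b : Fin 3, (Finset.univ.filter (fun i => o (σ⁻¹ i) = b)).card =
      (Finset.univ.filter (fun i => o i = b)).card := by
    intro b
    apply Finset.card_bij (fun i _ => σ⁻¹ i)
    · intro i hi
      simpa using hi
    · intro i _ j _ h
      exact (σ⁻¹).injective h
    · intro i hi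
      exact ⟨σ i, by simpa using hi, by simp⟩
  obtain ⟨h0, h1, h2⟩ := ho
  exact ⟨by rw [key, h0], by rw [key, h1], by rw [key, h2]⟩

/-- The permutation action on labelings. -/
def goodAct (σ : Equiv.Perm (Fin 7)) : {o : Fin 7 → Fin 3 // Good o} ≃ {o : Fin 7 → Fin 3 // Good o} where
  toFun o := ⟨fun i => o.1 (σ⁻¹ i), good_perm σ o.1 o.2⟩
  invFun o := ⟨fun i => o.1 (σ i), by
    have := good_perm σ⁻¹ o.1 o.2
    simpa using this⟩
  left_inv o := by
    apply Subtype.ext
    funext i
    simp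
  right_inv o := by
    apply Subtype.ext
    funext i
    simp

lemma sum_good {M : Type*} [CommRing M] (f : Fin 3 → M) (o : Fin 7 → Fin 3) (ho : Good o) :
    ∑ i, f (o i) = 4 * f 0 + 2 * f 1 + f 2 := by
  have h1 : ∀ i, f (o i) = ∑ b : Fin 3, if o i = b then f b else 0 := by
    intro i
    simp
  simp only [h1]
  rw [Finset.sum_comm]
  simp only [← Finset.sum_filter, Finset.sum_const, Fin.sum_univ_three]
  rw [ho.1, ho.2.1, ho.2.2]
  simp [nsmul_eq_mul]

lemma good_surj (o : Fin 7 → Fin 3) (ho : Good o) (b : Fin 3) : ∃ i, o i = b := by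
  have key : ∀ b : Fin 3, 0 < (Finset.univ.filter (fun i => o i = b)).card := by
    intro b
    obtain ⟨h0, h1, h2⟩ := ho
    fin_cases b
    · show 0 < (Finset.univ.filter (fun i => o i = 0)).card
      omega
    · show 0 < (Finset.univ.filter (fun i => o i = 1)).card
      omega
    · show 0 < (Finset.univ.filter (fun i => o i = 2)).card
      omega
  obtain ⟨i, hi⟩ := Finset.card_pos.1 (key b)
  exact ⟨i, (Finset.mem_filter.1 hi).2⟩

/-- The extension of a permutation of the variables to the field of rational functions. -/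
noncomputable def rhoL (k : Type*) [Field k] {d : ℕ} (σ : Equiv.Perm (Fin d)) :
    FractionRing (MvPolynomial (Fin d) k) →+* FractionRing (MvPolynomial (Fin d) k) :=
  IsFractionRing.map (A := MvPolynomial (Fin d) k) (B := MvPolynomial (Fin d) k)
    (j := (rename σ : MvPolynomial (Fin d) k →ₐ[k] MvPolynomial (Fin d) k).toRingHom)
    (rename_injective σ σ.injective)

lemma rhoL_algebraMap (k : Type*) [Field k] {d : ℕ} (σ : Equiv.Perm (Fin d))
    (f : MvPolynomial (Fin d) k) :
    rhoL k σ (algebraMap _ _ f) = algebraMap _ (FractionRing (MvPolynomial (Fin d) k))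
      (rename σ f) := by
  unfold rhoL IsFractionRing.map
  rw [IsLocalization.map_eq]
  rfl

/-- The weighted linear form attached to a labeling. -/
noncomputable def theta (k : Type*) [Field k] (o : Fin 7 → Fin 3) : MvPolynomial (Fin 7) k :=
  ∑ i, C ((![0, 1, 2] : Fin 3 → k) (o i)) * X i

lemma coeff_theta (k : Type*) [Field k] (o : Fin 7 → Fin 3) (i : Fin 7) :
    coeff (Finsupp.single i 1) (theta k o) = (![0, 1, 2] : Fin 3 → k) (o i) := by
  unfold theta
  rw [coeff_sum, Finset.sum_eq_single i]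
  · rw [coeff_C_mul, coeff_X, if_pos rfl, mul_one]
  · intro j _ hj
    rw [coeff_C_mul, coeff_X, if_neg, mul_zero]
    intro h
    exact hj (Finsupp.single_left_injective (one_ne_zero) h)
  · intro h
    exact absurd (Finset.mem_univ i) h

lemma theta_injective {k : Type*} [Field k] (h2 : (2 : k) ≠ 0) :
    Function.Injective (theta k) := by
  intro o o' h
  funext i
  have h1 : (![0, 1, 2] : Fin 3 → k) (o i) = (![0, 1, 2] : Fin 3 → k) (o' i) := by
    rw [← coeff_theta, ← coeff_theta, h]
  have hinj : Function.Injective (![0, 1, 2] : Fin 3 → k) := by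
    have h21 : (2 : k) ≠ 1 := by
      intro h
      have : (1 : k) = 0 := by linear_combination h
      exact one_ne_zero this
    intro a b hab
    fin_cases a <;> fin_cases b <;> simp at hab ⊢
    · exact absurd hab.symm h2
    · exact absurd hab.symm h21
    · exact absurd hab h2
    · exact absurd hab h21
  exact hinj h1

lemma rename_theta (k : Type*) [Field k] (σ : Equiv.Perm (Fin 7)) (o : Fin 7 → Fin 3) :
    rename σ (theta k o) = theta k (fun i => o (σ⁻¹ i)) := by
  unfold theta
  rw [map_sum]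
  rw [← Equiv.sum_comp σ (fun i => C ((![0, 1, 2] : Fin 3 → k) (o (σ⁻¹ i))) * X i)]
  apply Finset.sum_congr rfl
  intro i _
  simp

theorem exists_field_vector {k : Type*} [Field k] (h2 : (2 : k) ≠ 0) (c : Fin 3 → k)
    (hc1 : 4 * c 0 + 2 * c 1 + c 2 = 0) (hc2 : 4 * c 0 ^ 2 + 2 * c 1 ^ 2 + c 2 ^ 2 = 0)
    (hc0 : c ≠ 0) :
    ∃ v : Fin 7 → FractionRing (MvPolynomial (Fin 7) k), v ≠ 0 ∧
      (∀ σ j, rhoL k σ (v j) = v j) ∧
      ∑ i, ∑ j : Fin 7, (algebraMap (MvPolynomial (Fin 7) k) _ (X i)) ^ (j : ℕ) * v j = 0 ∧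
      ∑ i, (∑ j : Fin 7, (algebraMap (MvPolynomial (Fin 7) k) _ (X i)) ^ (j : ℕ) * v j) ^ 2
        = 0 := by
  have hinj : Function.Injective
      (algebraMap (MvPolynomial (Fin 7) k) (FractionRing (MvPolynomial (Fin 7) k))) :=
    IsFractionRing.injective _ _
  apply descent (fun i => algebraMap (MvPolynomial (Fin 7) k)
    (FractionRing (MvPolynomial (Fin 7) k)) (X i)) (O := {o : Fin 7 → Fin 3 // Good o})
    (ρ := fun σ => rhoL k σ) (act := goodAct)
    (θ := fun o => algebraMap (MvPolynomial (Fin 7) k) _ (theta k o.1))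
    (c := fun o i => algebraMap (MvPolynomial (Fin 7) k) _ (C (c (o.1 i))))
  · intro i j h
    exact X_injective (hinj h)
  · intro σ i
    rw [rhoL_algebraMap, rename_X]
  · rw [card_good]
    decide
  · intro o o' h
    exact Subtype.ext (theta_injective h2 (hinj h))
  · intro σ o
    rw [rhoL_algebraMap, rename_theta]
    rfl
  · intro σ o i
    show rhoL k σ (algebraMap (MvPolynomial (Fin 7) k) _ (C (c (o.1 i)))) = _
    rw [rhoL_algebraMap, rename_C]
  · intro σ o i
    show algebraMap (MvPolynomial (Fin 7) k) _ (C (c (o.1 (σ⁻¹ (σ i))))) =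
      algebraMap (MvPolynomial (Fin 7) k) _ (C (c (o.1 i)))
    rw [show σ⁻¹ (σ i) = i by simp]
  · intro o
    rw [← map_sum, ← map_sum, sum_good c o.1 o.2, hc1, map_zero, map_zero]
  · intro o
    simp only [← map_pow]
    rw [← map_sum, ← map_sum, sum_good (fun b => c b ^ 2) o.1 o.2, hc2, map_zero, map_zero]
  · intro o
    obtain ⟨b, hb⟩ := Function.ne_iff.1 hc0
    obtain ⟨i, hi⟩ := good_surj o.1 o.2 b
    refine ⟨i, ?_⟩
    rw [hi]
    intro h
    rw [map_eq_zero_iff _ hinj, map_eq_zero_iff _ (C_injective _ _)] at h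
    exact hb h

theorem exists_poly_vector {k : Type*} [Field k] (h2 : (2 : k) ≠ 0) (c : Fin 3 → k)
    (hc1 : 4 * c 0 + 2 * c 1 + c 2 = 0) (hc2 : 4 * c 0 ^ 2 + 2 * c 1 ^ 2 + c 2 ^ 2 = 0)
    (hc0 : c ≠ 0) :
    ∃ y : Fin 7 → MvPolynomial (Fin 7) k,
      (∀ (σ : Equiv.Perm (Fin 7)) i, rename σ (y i) = y (σ i)) ∧
      ∑ i, y i = 0 ∧ ∑ i, y i ^ 2 = 0 ∧ ∃ i, y i ≠ 0 := by
  classical
  obtain ⟨v, hv0, hvρ, hv1, hv2⟩ := exists_field_vector h2 c hc1 hc2 hc0
  have hinj : Function.Injective
      (algebraMap (MvPolynomial (Fin 7) k) (FractionRing (MvPolynomial (Fin 7) k))) :=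
    IsFractionRing.injective _ _
  obtain ⟨⟨b, hb⟩, hbv⟩ := IsLocalization.exist_integer_multiples_of_finite
    (nonZeroDivisors (MvPolynomial (Fin 7) k)) v
  have hb0 : b ≠ 0 := nonZeroDivisors.ne_zero hb
  choose a ha using hbv
  set E : MvPolynomial (Fin 7) k :=
    ∏ σ ∈ (Finset.univ : Finset (Equiv.Perm (Fin 7))).erase 1, rename σ b with hE
  set D : MvPolynomial (Fin 7) k := ∏ σ : Equiv.Perm (Fin 7), rename σ b with hD
  have hDE : D = b * E := by
    rw [hD, ← Finset.mul_prod_erase Finset.univ _ (Finset.mem_univ (1 : Equiv.Perm (Fin 7)))]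
    congr 1
    exact rename_id_apply b
  have hD0 : D ≠ 0 := by
    rw [hD, Finset.prod_ne_zero_iff]
    intro σ _ h
    rw [map_eq_zero_iff _ (rename_injective σ σ.injective)] at h
    exact hb0 h
  have hDinv : ∀ τ : Equiv.Perm (Fin 7), rename τ D = D := by
    intro τ
    rw [hD, map_prod]
    rw [← Equiv.prod_comp (Equiv.mulLeft τ) (fun σ : Equiv.Perm (Fin 7) => rename σ b)]
    apply Finset.prod_congr rfl
    intro σ _
    rw [rename_rename]
    rfl
  set u : Fin 7 → MvPolynomial (Fin 7) k := fun j => E * a j with hu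
  have huv : ∀ j, algebraMap (MvPolynomial (Fin 7) k) (FractionRing (MvPolynomial (Fin 7) k))
      (u j) = algebraMap _ _ D * v j := by
    intro j
    rw [hu]
    simp only [map_mul]
    rw [ha j, hDE, map_mul, Algebra.smul_def]
    ring
  have huinv : ∀ (τ : Equiv.Perm (Fin 7)) j, rename τ (u j) = u j := by
    intro τ j
    apply hinj
    rw [← rhoL_algebraMap, huv, map_mul, hvρ, rhoL_algebraMap, hDinv]
  set y : Fin 7 → MvPolynomial (Fin 7) k := fun i => ∑ j : Fin 7, X i ^ (j : ℕ) * u j with hy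
  have hyL : ∀ i, algebraMap (MvPolynomial (Fin 7) k) (FractionRing (MvPolynomial (Fin 7) k))
      (y i) = algebraMap _ _ D *
        ∑ j : Fin 7, (algebraMap (MvPolynomial (Fin 7) k) _ (X i)) ^ (j : ℕ) * v j := by
    intro i
    rw [hy]
    simp only [map_sum, map_mul, map_pow, huv, Finset.mul_sum]
    apply Finset.sum_congr rfl
    intro j _
    ring
  refine ⟨y, ?_, ?_, ?_, ?_⟩
  · intro σ i
    rw [hy]
    simp only [map_sum, map_mul, map_pow, rename_X, huinv]
  · apply hinj
    rw [map_sum, map_zero]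
    simp only [hyL]
    rw [← Finset.mul_sum, hv1, mul_zero]
  · apply hinj
    rw [map_sum, map_zero]
    simp only [map_pow, hyL, mul_pow]
    rw [← Finset.mul_sum, hv2, mul_zero]
  · by_contra hcon
    push Not at hcon
    apply hv0
    have hdet : (Matrix.vandermonde (fun i : Fin 7 => algebraMap (MvPolynomial (Fin 7) k)
        (FractionRing (MvPolynomial (Fin 7) k)) (X i))).det ≠ 0 := by
      rw [Matrix.det_vandermonde_ne_zero_iff]
      intro i j h
      exact X_injective (hinj h)
    apply Matrix.eq_zero_of_mulVec_eq_zero hdet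
    funext i
    have h1 := hyL i
    rw [hcon i, map_zero] at h1
    have h2 := (mul_eq_zero.1 h1.symm).resolve_left
      (fun h => hD0 ((map_eq_zero_iff _ hinj).1 h))
    exact h2

lemma homogeneousComponent_sq {k : Type*} [Field k] (n : ℕ) (p : MvPolynomial (Fin 7) k)
    (hp : ∀ m < n, homogeneousComponent m p = 0) :
    homogeneousComponent (n + n) (p ^ 2) = (homogeneousComponent n p) ^ 2 := by
  classical
  have hp' : ∀ d : Fin 7 →₀ ℕ, d.degree < n → coeff d p = 0 := by
    intro d hd
    have h1 := congrArg (coeff d) (hp d.degree hd)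
    rwa [coeff_homogeneousComponent, if_pos rfl, coeff_zero] at h1
  ext d
  rw [coeff_homogeneousComponent]
  split_ifs with h
  · rw [sq, sq, coeff_mul, coeff_mul]
    apply Finset.sum_congr rfl
    rintro ⟨a, b⟩ hab
    rw [Finset.HasAntidiagonal.mem_antidiagonal] at hab
    simp only at hab ⊢
    have hdeg : a.degree + b.degree = n + n := by
      rw [← h, ← hab, map_add]
    rw [coeff_homogeneousComponent, coeff_homogeneousComponent]
    rcases lt_trichotomy a.degree n with h1 | h1 | h1
    · rw [hp' a h1, if_neg (by omega), zero_mul, zero_mul]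
    · rw [if_pos h1, if_pos (by omega)]
    · rw [hp' b (by omega), if_neg (show ¬ b.degree = n by omega), mul_zero, mul_zero]
  · have h1 : ((homogeneousComponent n p) ^ 2).IsHomogeneous (n * 2) :=
      (homogeneousComponent_isHomogeneous n p).pow 2
    symm
    apply h1.coeff_eq_zero
    omega

theorem exists_covariant {k : Type*} [Field k] (h2 : (2 : k) ≠ 0) (c : Fin 3 → k)
    (hc1 : 4 * c 0 + 2 * c 1 + c 2 = 0) (hc2 : 4 * c 0 ^ 2 + 2 * c 1 ^ 2 + c 2 ^ 2 = 0)
    (hc0 : c ≠ 0) :
    ∃ (n : ℕ) (y : Fin 7 → MvPolynomial (Fin 7) k),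
      (∀ (σ : Equiv.Perm (Fin 7)) i, rename σ (y i) = y (σ i)) ∧
      ∑ i, y i = 0 ∧ ∑ i, y i ^ 2 = 0 ∧ (∃ i, y i ≠ 0) ∧ ∀ i, (y i).IsHomogeneous n := by
  classical
  obtain ⟨y, hyσ, hy1, hy2, i0, hi0⟩ := exists_poly_vector h2 c hc1 hc2 hc0
  have hex : ∃ n, ∃ i, homogeneousComponent n (y i) ≠ 0 := by
    by_contra hcon
    push Not at hcon
    apply hi0
    rw [← sum_homogeneousComponent (y i0)]
    apply Finset.sum_eq_zero
    intro m _
    exact hcon m i0
  obtain ⟨n, hn, hmin⟩ : ∃ n, (∃ i, homogeneousComponent n (y i) ≠ 0) ∧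
      ∀ m < n, ∀ i, homogeneousComponent m (y i) = 0 := by
    refine ⟨Nat.find hex, Nat.find_spec hex, ?_⟩
    intro m hm i
    by_contra h
    exact Nat.find_min hex hm ⟨i, h⟩
  refine ⟨n, fun i => homogeneousComponent n (y i), ?_, ?_, ?_,
    hn, fun i => homogeneousComponent_isHomogeneous _ _⟩
  · intro σ i
    simp only
    rw [rename_homogeneousComponent, hyσ]
  · simp only
    rw [← map_sum, hy1, map_zero]
  · have h1 := congrArg (homogeneousComponent (n + n)) hy2
    rw [map_sum, map_zero] at h1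
    refine Eq.trans ?_ h1
    apply Finset.sum_congr rfl
    intro i _
    rw [homogeneousComponent_sq]
    intro m hm
    exact hmin m hm i

end Pool.Agent.V11179.Psi
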