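import Mathlib
import Pool.Agent.V11179.PsiBasic

/-!
Facts on principal symmetric ideals and the ideals of the construction.
-/

namespace Pool.Agent.V11179.Psi

open MvPolynomial

section

variable {k : Type*} [Field k] {d : ℕ}

/-- Stability under all permutations of the variables. -/
def Stable (J : Ideal (MvPolynomial (Fin d) k)) : Prop :=
  ∀ (τ : Equiv.Perm (Fin d)) (x : MvPolynomial (Fin d) k), x ∈ J → rename τ x ∈ J

lemma self_mem_orbitIdeal (f : MvPolynomial (Fin d) k) : f ∈ orbitIdeal f := by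
  apply Ideal.subset_span
  exact ⟨1, (rename_id_apply f).symm⟩

lemma stable_orbitIdeal (f : MvPolynomial (Fin d) k) : Stable (orbitIdeal f) := by
  intro τ x hx
  have : (orbitIdeal f).map (rename τ : MvPolynomial (Fin d) k →ₐ[k] _) ≤ orbitIdeal f := by
    unfold orbitIdeal
    rw [Ideal.map_span, Ideal.span_le]
    rintro _ ⟨_, ⟨σ, rfl⟩, rfl⟩
    apply Ideal.subset_span
    refine ⟨τ * σ, ?_⟩
    show rename τ (rename σ f) = _
    rw [rename_rename]
    rfl
  exact this (Ideal.mem_map_of_mem _ hx)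

lemma stable_sq {J : Ideal (MvPolynomial (Fin d) k)} (hJ : Stable J) : Stable (J ^ 2) := by
  intro τ x hx
  have h1 : J.map (rename τ : MvPolynomial (Fin d) k →ₐ[k] _) ≤ J := by
    rw [Ideal.map_le_iff_le_comap]
    intro z hz
    exact hJ τ z hz
  have h2 : (J ^ 2).map (rename τ : MvPolynomial (Fin d) k →ₐ[k] _) ≤ J ^ 2 := by
    rw [Ideal.map_pow]
    exact Ideal.pow_right_mono h1 2
  exact h2 (Ideal.mem_map_of_mem _ hx)

lemma orbitIdeal_le {J : Ideal (MvPolynomial (Fin d) k)} (hJ : Stable J)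
    {f : MvPolynomial (Fin d) k} (hf : f ∈ J) : orbitIdeal f ≤ J := by
  unfold orbitIdeal
  rw [Ideal.span_le]
  rintro _ ⟨σ, rfl⟩
  exact hJ σ f hf

lemma C_mul_mem_iff {J : Ideal (MvPolynomial (Fin d) k)} {c : k} (hc : c ≠ 0)
    {x : MvPolynomial (Fin d) k} (h : C c * x ∈ J) : x ∈ J := by
  have h1 : C c⁻¹ * (C c * x) ∈ J := J.mul_mem_left _ h
  rwa [← mul_assoc, ← C_mul, inv_mul_cancel₀ hc, C_1, one_mul] at h1

end

/-- The data of the construction: covariants `y i`, an alternating polynomial `a`, and two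
symmetric polynomials `s1`, `s2`. -/
structure Data (k : Type*) [Field k] where
  /-- covariants -/
  y : Fin 7 → MvPolynomial (Fin 7) k
  /-- alternating -/
  a : MvPolynomial (Fin 7) k
  /-- symmetric -/
  s1 : MvPolynomial (Fin 7) k
  /-- symmetric -/
  s2 : MvPolynomial (Fin 7) k
  /-- degree -/
  n : ℕ
  h2 : (2 : k) ≠ 0
  h3 : (3 : k) ≠ 0
  h7 : (7 : k) ≠ 0
  hy : ∀ (σ : Equiv.Perm (Fin 7)) i, rename σ (y i) = y (σ i)
  hy1 : ∑ i, y i = 0
  hy2 : ∑ i, y i ^ 2 = 0
  hy0 : ∃ i, y i ≠ 0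
  ha : ∀ σ : Equiv.Perm (Fin 7), rename σ a = a ∨ rename σ a = -a
  hasw : ∀ p q : Fin 7, p ≠ q → rename (Equiv.swap p q) a = -a
  ha0 : a ≠ 0
  hs1 : ∀ σ : Equiv.Perm (Fin 7), rename σ s1 = s1
  hs2 : ∀ σ : Equiv.Perm (Fin 7), rename σ s2 = s2
  hs : ∀ l m : k, C l * s1 + C m * s2 = 0 → l = 0 ∧ m = 0
  han : a.IsHomogeneous n
  h1n : ∀ i, (s1 * y i).IsHomogeneous n
  h2n : ∀ i, (s2 * y i).IsHomogeneous n

namespace Data

variable {k : Type*} [Field k] (D : Data k)

/-- generator of `I` -/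
noncomputable def f : MvPolynomial (Fin 7) k := D.a + D.s1 * D.y 0 + D.s2 * D.y 1

/-- generator of `I ^ 2` -/
noncomputable def g : MvPolynomial (Fin 7) k :=
  D.a ^ 2 + D.a * (D.s1 * D.y 0 + D.s2 * D.y 1) + D.s1 ^ 2 * (D.y 0 * D.y 1) +
    D.s1 * D.s2 * (D.y 2 * D.y 3) + D.s2 ^ 2 * (D.y 4 * D.y 5)

/-- the degree `n` generators -/
def S : Set (MvPolynomial (Fin 7) k) :=
  {x | x = D.a ∨ (∃ i, x = D.s1 * D.y i) ∨ ∃ i, x = D.s2 * D.y i}

include D in
lemma C2_ne : (C 2 : MvPolynomial (Fin 7) k) ≠ 0 := by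
  rw [Ne, C_eq_zero]
  exact D.h2

include D in
lemma ring2_ne : (2 : MvPolynomial (Fin 7) k) ≠ 0 := by
  have : (2 : MvPolynomial (Fin 7) k) = C 2 := (map_ofNat C 2).symm
  rw [this]
  exact D.C2_ne

include D in
lemma mem_of_two_mul {J : Ideal (MvPolynomial (Fin 7) k)} {x : MvPolynomial (Fin 7) k}
    (h : 2 * x ∈ J) : x ∈ J := by
  apply C_mul_mem_iff D.h2
  rw [show (C 2 : MvPolynomial (Fin 7) k) = 2 from map_ofNat C 2]
  exact h

include D in
lemma mem_of_seven_mul {J : Ideal (MvPolynomial (Fin 7) k)} {x : MvPolynomial (Fin 7) k}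
    (h : 7 * x ∈ J) : x ∈ J := by
  apply C_mul_mem_iff D.h7
  rw [show (C 7 : MvPolynomial (Fin 7) k) = 7 from map_ofNat C 7]
  exact h

include D in
lemma mem_of_six_mul {J : Ideal (MvPolynomial (Fin 7) k)} {x : MvPolynomial (Fin 7) k}
    (h : 6 * x ∈ J) : x ∈ J := by
  have h6 : (6 : k) ≠ 0 := by
    have : (6 : k) = 2 * 3 := by norm_num
    rw [this]
    exact mul_ne_zero D.h2 D.h3
  apply C_mul_mem_iff h6
  rw [show (C 6 : MvPolynomial (Fin 7) k) = 6 from map_ofNat C 6]
  exact h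

/-- spreading a membership `t * y u` over all indices -/
lemma spread {J : Ideal (MvPolynomial (Fin 7) k)} (hJ : Stable J) {t : MvPolynomial (Fin 7) k}
    (ht : ∀ σ : Equiv.Perm (Fin 7), rename σ t = t ∨ rename σ t = -t) {u : Fin 7}
    (h : t * D.y u ∈ J) (i : Fin 7) : t * D.y i ∈ J := by
  have h1 := hJ (Equiv.swap u i) _ h
  rw [map_mul, D.hy, Equiv.swap_apply_left] at h1
  rcases ht (Equiv.swap u i) with h2 | h2
  · rwa [h2] at h1
  · rw [h2, neg_mul, neg_mem_iff] at h1
    exact h1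

/-- from one difference to all covariants -/
lemma lemA {J : Ideal (MvPolynomial (Fin 7) k)} (hJ : Stable J) {t : MvPolynomial (Fin 7) k}
    (ht : ∀ σ : Equiv.Perm (Fin 7), rename σ t = t ∨ rename σ t = -t) {u v : Fin 7}
    (huv : u ≠ v) (h : t * (D.y u - D.y v) ∈ J) (i : Fin 7) : t * D.y i ∈ J := by
  have h1 : ∀ j, t * (D.y u - D.y j) ∈ J := by
    intro j
    by_cases hj : j = u
    · subst hj
      simp
    · have h1 := hJ (Equiv.swap v j) _ h
      rw [map_mul, map_sub, D.hy, D.hy, Equiv.swap_apply_left,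
        Equiv.swap_apply_of_ne_of_ne huv (Ne.symm hj)] at h1
      rcases ht (Equiv.swap v j) with h2 | h2
      · rwa [h2] at h1
      · rw [h2, neg_mul, neg_mem_iff] at h1
        exact h1
  have h2 : ∑ j, t * (D.y u - D.y j) ∈ J := Ideal.sum_mem _ (fun j _ => h1 j)
  have h3 : ∑ j, t * (D.y u - D.y j) = 7 * (t * D.y u) := by
    rw [← Finset.mul_sum, Finset.sum_sub_distrib, D.hy1]
    simp
    ring
  rw [h3] at h2
  exact D.spread hJ ht (D.mem_of_seven_mul h2) i

/-- from one difference product to all products -/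
lemma lemB {J : Ideal (MvPolynomial (Fin 7) k)} (hJ : Stable J) {t : MvPolynomial (Fin 7) k}
    (ht : ∀ σ : Equiv.Perm (Fin 7), rename σ t = t) {u v w : Fin 7}
    (huv : u ≠ v) (huw : u ≠ w) (hvw : v ≠ w)
    (h : t * (D.y u * (D.y v - D.y w)) ∈ J) (i j : Fin 7) : t * (D.y i * D.y j) ∈ J := by
  have h1 : ∀ j, j ≠ u → t * (D.y u * (D.y v - D.y j)) ∈ J := by
    intro j hju
    by_cases hj : j = v
    · subst hj
      simp
    · have h1 := hJ (Equiv.swap w j) _ h
      rw [map_mul, map_mul, map_sub, D.hy, D.hy, D.hy, Equiv.swap_apply_left,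
        Equiv.swap_apply_of_ne_of_ne hvw (Ne.symm hj),
        Equiv.swap_apply_of_ne_of_ne huw (Ne.symm hju), ht] at h1
      exact h1
  have h2 : t * (D.y u * (6 * D.y v + D.y u)) ∈ J := by
    have h2 : ∑ j ∈ Finset.univ.erase u, t * (D.y u * (D.y v - D.y j)) ∈ J :=
      Ideal.sum_mem _ (fun j hj => h1 j (Finset.ne_of_mem_erase hj))
    have h3 : ∑ j ∈ Finset.univ.erase u, t * (D.y u * (D.y v - D.y j)) =
        t * (D.y u * (6 * D.y v + D.y u)) := by
      rw [← Finset.mul_sum, ← Finset.mul_sum, Finset.sum_sub_distrib]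
      have h4 : ∑ j ∈ Finset.univ.erase u, D.y j = - D.y u := by
        have := Finset.sum_erase_add Finset.univ D.y (Finset.mem_univ u)
        rw [D.hy1] at this
        linear_combination this
      rw [h4, Finset.sum_const, Finset.card_erase_of_mem (Finset.mem_univ u)]
      simp
    rwa [h3] at h2
  have h3 : ∀ i, i ≠ u → t * (D.y u * (6 * D.y i + D.y u)) ∈ J := by
    intro i hi
    have h3 := hJ (Equiv.swap v i) _ h2
    rw [map_mul, map_mul, map_add, map_mul, D.hy, D.hy, Equiv.swap_apply_left,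
      Equiv.swap_apply_of_ne_of_ne huv (Ne.symm hi), ht,
      show rename (Equiv.swap v i) (6 : MvPolynomial (Fin 7) k) = 6 from map_ofNat _ 6] at h3
    exact h3
  have h4 : ∀ i, t * (D.y u ^ 2 - D.y i ^ 2) ∈ J := by
    intro i
    by_cases hi : i = u
    · subst hi
      simp
    · have h5 := h3 i hi
      have h6 := hJ (Equiv.swap u i) _ h5
      rw [map_mul, map_mul, map_add, map_mul, D.hy, D.hy, Equiv.swap_apply_left,
        Equiv.swap_apply_right, ht,
        show rename (Equiv.swap u i) (6 : MvPolynomial (Fin 7) k) = 6 from map_ofNat _ 6] at h6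
      have h7 := J.sub_mem h5 h6
      convert h7 using 1
      ring
  have h5 : t * D.y u ^ 2 ∈ J := by
    have h6 : ∑ i, t * (D.y u ^ 2 - D.y i ^ 2) ∈ J := Ideal.sum_mem _ (fun i _ => h4 i)
    have h7 : ∑ i, t * (D.y u ^ 2 - D.y i ^ 2) = 7 * (t * D.y u ^ 2) := by
      rw [← Finset.mul_sum, Finset.sum_sub_distrib, D.hy2]
      simp
      ring
    rw [h7] at h6
    exact D.mem_of_seven_mul h6
  have h6 : ∀ i, t * (D.y u * D.y i) ∈ J := by
    intro i
    by_cases hi : i = u
    · subst hi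
      convert h5 using 1
      ring
    · apply D.mem_of_six_mul
      have h7 := J.sub_mem (h3 i hi) h5
      convert h7 using 1
      ring
  have h7 := hJ (Equiv.swap u i) _ (h6 (Equiv.swap u i j))
  rw [map_mul, map_mul, D.hy, D.hy, Equiv.swap_apply_left, Equiv.swap_apply_self, ht] at h7
  exact h7

theorem orbit_f : orbitIdeal D.f = Ideal.span D.S := by
  have hstabS : Stable (Ideal.span D.S) := by
    intro τ x hx
    have : (Ideal.span D.S).map (rename τ : MvPolynomial (Fin 7) k →ₐ[k] _) ≤ Ideal.span D.S := by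
      rw [Ideal.map_span, Ideal.span_le]
      rintro _ ⟨x, hx, rfl⟩
      show rename τ x ∈ Ideal.span D.S
      rcases hx with rfl | ⟨i, rfl⟩ | ⟨i, rfl⟩
      · rcases D.ha τ with h | h
        · rw [h]; exact Ideal.subset_span (Or.inl rfl)
        · rw [h]; exact Ideal.neg_mem_iff _ |>.2 (Ideal.subset_span (Or.inl rfl))
      · rw [map_mul, D.hs1, D.hy]
        exact Ideal.subset_span (Or.inr (Or.inl ⟨_, rfl⟩))
      · rw [map_mul, D.hs2, D.hy]
        exact Ideal.subset_span (Or.inr (Or.inr ⟨_, rfl⟩))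
    exact this (Ideal.mem_map_of_mem _ hx)
  apply le_antisymm
  · apply orbitIdeal_le hstabS
    unfold f
    refine Ideal.add_mem _ (Ideal.add_mem _ ?_ ?_) ?_
    · exact Ideal.subset_span (Or.inl rfl)
    · exact Ideal.subset_span (Or.inr (Or.inl ⟨_, rfl⟩))
    · exact Ideal.subset_span (Or.inr (Or.inr ⟨_, rfl⟩))
  · have hJ := stable_orbitIdeal D.f
    set J := orbitIdeal D.f with hJdef
    have hf : D.f ∈ J := self_mem_orbitIdeal D.f
    have h1 : D.s1 * D.y 0 + D.s2 * D.y 1 ∈ J := by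
      apply D.mem_of_two_mul
      have h2 := J.add_mem hf (hJ (Equiv.swap 2 3) _ hf)
      have h3 : D.f + rename (Equiv.swap 2 3) D.f = 2 * (D.s1 * D.y 0 + D.s2 * D.y 1) := by
        unfold f
        rw [map_add, map_add, map_mul, map_mul, D.hs1, D.hs2, D.hy, D.hy,
          D.hasw 2 3 (by decide), show Equiv.swap (2 : Fin 7) 3 0 = 0 by decide,
          show Equiv.swap (2 : Fin 7) 3 1 = 1 by decide]
        ring
      rwa [h3] at h2
    have ha : D.a ∈ J := by
      have h2 := J.sub_mem hf h1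
      convert h2 using 1
      unfold f
      ring
    have hs1 : ∀ i, D.s1 * D.y i ∈ J := by
      have h2 := J.sub_mem h1 (hJ (Equiv.swap 0 2) _ h1)
      have h3 : D.s1 * D.y 0 + D.s2 * D.y 1 - rename (Equiv.swap 0 2)
          (D.s1 * D.y 0 + D.s2 * D.y 1) = D.s1 * (D.y 0 - D.y 2) := by
        rw [map_add, map_mul, map_mul, D.hs1, D.hs2, D.hy, D.hy,
          show Equiv.swap (0 : Fin 7) 2 0 = 2 by decide,
          show Equiv.swap (0 : Fin 7) 2 1 = 1 by decide]
        ring
      rw [h3] at h2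
      exact fun i => D.lemA hJ (fun σ => Or.inl (D.hs1 σ)) (by decide) h2 i
    have hs2 : ∀ i, D.s2 * D.y i ∈ J := by
      intro i
      apply D.spread hJ (fun σ => Or.inl (D.hs2 σ)) (u := 1)
      have h2 := J.sub_mem h1 (hs1 0)
      convert h2 using 1
      ring
    rw [Ideal.span_le]
    rintro x (rfl | ⟨i, rfl⟩ | ⟨i, rfl⟩)
    · exact ha
    · exact hs1 i
    · exact hs2 i

theorem orbit_g : orbitIdeal D.g = Ideal.span D.S ^ 2 := by
  have hstabS : Stable (Ideal.span D.S) := by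
    rw [← D.orbit_f]
    exact stable_orbitIdeal D.f
  have ma : D.a ∈ Ideal.span D.S := Ideal.subset_span (Or.inl rfl)
  have m1 : ∀ i, D.s1 * D.y i ∈ Ideal.span D.S :=
    fun i => Ideal.subset_span (Or.inr (Or.inl ⟨i, rfl⟩))
  have m2 : ∀ i, D.s2 * D.y i ∈ Ideal.span D.S :=
    fun i => Ideal.subset_span (Or.inr (Or.inr ⟨i, rfl⟩))
  apply le_antisymm
  · apply orbitIdeal_le (stable_sq hstabS)
    have h1 : D.g = D.a * D.a + D.a * (D.s1 * D.y 0 + D.s2 * D.y 1) +
        (D.s1 * D.y 0) * (D.s1 * D.y 1) + (D.s1 * D.y 2) * (D.s2 * D.y 3) +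
        (D.s2 * D.y 4) * (D.s2 * D.y 5) := by
      unfold g
      ring
    rw [h1, sq]
    refine Ideal.add_mem _ (Ideal.add_mem _ (Ideal.add_mem _ (Ideal.add_mem _ ?_ ?_) ?_) ?_) ?_
    · exact Ideal.mul_mem_mul ma ma
    · exact Ideal.mul_mem_mul ma (Ideal.add_mem _ (m1 0) (m2 1))
    · exact Ideal.mul_mem_mul (m1 0) (m1 1)
    · exact Ideal.mul_mem_mul (m1 2) (m2 3)
    · exact Ideal.mul_mem_mul (m2 4) (m2 5)
  · have hJ := stable_orbitIdeal D.g
    set J := orbitIdeal D.g with hJdef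
    have hg : D.g ∈ J := self_mem_orbitIdeal D.g
    have h1 : D.a * (D.s1 * D.y 0 + D.s2 * D.y 1) ∈ J := by
      apply D.mem_of_two_mul
      have h2 := J.sub_mem hg (hJ (Equiv.swap 4 5) _ hg)
      have h3 : D.g - rename (Equiv.swap 4 5) D.g =
          2 * (D.a * (D.s1 * D.y 0 + D.s2 * D.y 1)) := by
        unfold g
        simp only [map_add, map_mul, map_pow, D.hs1, D.hs2, D.hy, D.hasw 4 5 (by decide),
          show Equiv.swap (4 : Fin 7) 5 0 = 0 by decide,
          show Equiv.swap (4 : Fin 7) 5 1 = 1 by decide,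
          show Equiv.swap (4 : Fin 7) 5 2 = 2 by decide,
          show Equiv.swap (4 : Fin 7) 5 3 = 3 by decide,
          show Equiv.swap (4 : Fin 7) 5 4 = 5 by decide,
          show Equiv.swap (4 : Fin 7) 5 5 = 4 by decide]
        ring
      rwa [h3] at h2
    have has1 : ∀ σ : Equiv.Perm (Fin 7), rename σ (D.a * D.s1) = D.a * D.s1 ∨
        rename σ (D.a * D.s1) = -(D.a * D.s1) := by
      intro σ
      rw [map_mul, D.hs1]
      rcases D.ha σ with h | h
      · left; rw [h]
      · right; rw [h]; ring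
    have has2 : ∀ σ : Equiv.Perm (Fin 7), rename σ (D.a * D.s2) = D.a * D.s2 ∨
        rename σ (D.a * D.s2) = -(D.a * D.s2) := by
      intro σ
      rw [map_mul, D.hs2]
      rcases D.ha σ with h | h
      · left; rw [h]
      · right; rw [h]; ring
    have hA1 : ∀ i, D.a * D.s1 * D.y i ∈ J := by
      have h2 := J.add_mem h1 (hJ (Equiv.swap 0 2) _ h1)
      have h3 : D.a * (D.s1 * D.y 0 + D.s2 * D.y 1) + rename (Equiv.swap 0 2)
          (D.a * (D.s1 * D.y 0 + D.s2 * D.y 1)) = D.a * D.s1 * (D.y 0 - D.y 2) := by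
        rw [map_mul, map_add, map_mul, map_mul, D.hs1, D.hs2, D.hy, D.hy,
          D.hasw 0 2 (by decide),
          show Equiv.swap (0 : Fin 7) 2 0 = 2 by decide,
          show Equiv.swap (0 : Fin 7) 2 1 = 1 by decide]
        ring
      rw [h3] at h2
      exact fun i => D.lemA hJ has1 (by decide) h2 i
    have hA2 : ∀ i, D.a * D.s2 * D.y i ∈ J := by
      intro i
      apply D.spread hJ has2 (u := 1)
      have h2 := J.sub_mem h1 (hA1 0)
      convert h2 using 1
      ring
    have hg' : D.a ^ 2 + D.s1 ^ 2 * (D.y 0 * D.y 1) +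
        D.s1 * D.s2 * (D.y 2 * D.y 3) + D.s2 ^ 2 * (D.y 4 * D.y 5) ∈ J := by
      have h2 := J.sub_mem hg h1
      convert h2 using 1
      unfold g
      ring
    set g' := D.a ^ 2 + D.s1 ^ 2 * (D.y 0 * D.y 1) +
        D.s1 * D.s2 * (D.y 2 * D.y 3) + D.s2 ^ 2 * (D.y 4 * D.y 5) with hg'def
    have hB1 : ∀ i j, D.s1 ^ 2 * (D.y i * D.y j) ∈ J := by
      have h2 := J.sub_mem hg' (hJ (Equiv.swap 1 6) _ hg')
      have h3 : g' - rename (Equiv.swap 1 6) g' = D.s1 ^ 2 * (D.y 0 * (D.y 1 - D.y 6)) := by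
        rw [hg'def]
        simp only [map_add, map_mul, map_pow, D.hs1, D.hs2, D.hy, D.hasw 1 6 (by decide),
          show Equiv.swap (1 : Fin 7) 6 0 = 0 by decide,
          show Equiv.swap (1 : Fin 7) 6 1 = 6 by decide,
          show Equiv.swap (1 : Fin 7) 6 2 = 2 by decide,
          show Equiv.swap (1 : Fin 7) 6 3 = 3 by decide,
          show Equiv.swap (1 : Fin 7) 6 4 = 4 by decide,
          show Equiv.swap (1 : Fin 7) 6 5 = 5 by decide]
        ring
      rw [h3] at h2
      exact fun i j => D.lemB hJ (fun σ => by rw [map_pow, D.hs1]) (by decide) (by decide)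
        (by decide) h2 i j
    have hB2 : ∀ i j, D.s1 * D.s2 * (D.y i * D.y j) ∈ J := by
      have h2 := J.sub_mem hg' (hJ (Equiv.swap 3 6) _ hg')
      have h3 : g' - rename (Equiv.swap 3 6) g' = D.s1 * D.s2 * (D.y 2 * (D.y 3 - D.y 6)) := by
        rw [hg'def]
        simp only [map_add, map_mul, map_pow, D.hs1, D.hs2, D.hy, D.hasw 3 6 (by decide),
          show Equiv.swap (3 : Fin 7) 6 0 = 0 by decide,
          show Equiv.swap (3 : Fin 7) 6 1 = 1 by decide,
          show Equiv.swap (3 : Fin 7) 6 2 = 2 by decide,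
          show Equiv.swap (3 : Fin 7) 6 3 = 6 by decide,
          show Equiv.swap (3 : Fin 7) 6 4 = 4 by decide,
          show Equiv.swap (3 : Fin 7) 6 5 = 5 by decide]
        ring
      rw [h3] at h2
      exact fun i j => D.lemB hJ (fun σ => by rw [map_mul, D.hs1, D.hs2]) (by decide) (by decide)
        (by decide) h2 i j
    have hB3 : ∀ i j, D.s2 ^ 2 * (D.y i * D.y j) ∈ J := by
      have h2 := J.sub_mem hg' (hJ (Equiv.swap 5 6) _ hg')
      have h3 : g' - rename (Equiv.swap 5 6) g' = D.s2 ^ 2 * (D.y 4 * (D.y 5 - D.y 6)) := by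
        rw [hg'def]
        simp only [map_add, map_mul, map_pow, D.hs1, D.hs2, D.hy, D.hasw 5 6 (by decide),
          show Equiv.swap (5 : Fin 7) 6 0 = 0 by decide,
          show Equiv.swap (5 : Fin 7) 6 1 = 1 by decide,
          show Equiv.swap (5 : Fin 7) 6 2 = 2 by decide,
          show Equiv.swap (5 : Fin 7) 6 3 = 3 by decide,
          show Equiv.swap (5 : Fin 7) 6 4 = 4 by decide,
          show Equiv.swap (5 : Fin 7) 6 5 = 6 by decide]
        ring
      rw [h3] at h2
      exact fun i j => D.lemB hJ (fun σ => by rw [map_pow, D.hs2]) (by decide) (by decide)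
        (by decide) h2 i j
    have haa : D.a ^ 2 ∈ J := by
      have h2 := J.sub_mem (J.sub_mem (J.sub_mem hg' (hB1 0 1)) (hB2 2 3)) (hB3 4 5)
      convert h2 using 1
      rw [hg'def]
      ring
    rw [sq, Ideal.span_mul_span', Ideal.span_le]
    rintro _ ⟨x, hx, z, hz, rfl⟩
    show x * z ∈ J
    rcases hx with rfl | ⟨i, rfl⟩ | ⟨i, rfl⟩ <;> rcases hz with rfl | ⟨j, rfl⟩ | ⟨j, rfl⟩
    · convert haa using 1; ring
    · convert hA1 j using 1; ring
    · convert hA2 j using 1; ring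
    · convert hA1 i using 1; ring
    · convert hB1 i j using 1; ring
    · convert hB2 i j using 1; ring
    · convert hA2 i using 1; ring
    · convert hB2 i j using 1; ring
    · convert hB3 i j using 1; ring

end Data

end Pool.Agent.V11179.Psi
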