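import Mathlib
import Pool.Agent.V11179.PsiDefs

/-!
The ideal of the construction has no generator that is an eigenvector of a transposition.
-/

namespace Pool.Agent.V11179.Psi

open MvPolynomial

lemma hc_mul_of_homog {k : Type*} [Field k] {d : ℕ} (n : ℕ) (r w : MvPolynomial (Fin d) k)
    (hw : w.IsHomogeneous n) :
    homogeneousComponent n (r * w) = C (constantCoeff r) * w := by
  classical
  ext e
  rw [coeff_homogeneousComponent, coeff_C_mul]
  split_ifs with h
  · rw [coeff_mul, Finset.sum_eq_single (0, e)]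
    · rfl
    · rintro ⟨a, b⟩ hab hne
      rw [Finset.HasAntidiagonal.mem_antidiagonal] at hab
      simp only at hab ⊢
      by_cases hb : b.degree = n
      · exfalso
        apply hne
        have h1 : a.degree + b.degree = n := by
          rw [← h, ← hab, map_add]
        have h2 : a.degree = 0 := by omega
        rw [Finsupp.degree_eq_zero_iff] at h2
        subst h2
        rw [zero_add] at hab
        rw [hab]
      · rw [hw.coeff_eq_zero hb, mul_zero]
    · intro h'
      exact absurd (by rw [Finset.HasAntidiagonal.mem_antidiagonal]; simp) h'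
  · rw [hw.coeff_eq_zero h, mul_zero]

namespace Data

variable {k : Type*} [Field k] (D : Data k)

lemma S_homog {x : MvPolynomial (Fin 7) k} (hx : x ∈ D.S) : x.IsHomogeneous D.n := by
  rcases hx with rfl | ⟨i, rfl⟩ | ⟨i, rfl⟩
  · exact D.han
  · exact D.h1n i
  · exact D.h2n i

lemma hc_mul {x : MvPolynomial (Fin 7) k} (hx : x ∈ Ideal.span D.S) :
    ∀ r : MvPolynomial (Fin 7) k, homogeneousComponent D.n (r * x) =
      C (constantCoeff r) * homogeneousComponent D.n x := by
  induction hx using Submodule.span_induction with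
  | mem x hx =>
    intro r
    rw [hc_mul_of_homog _ _ _ (D.S_homog hx), homogeneousComponent_eq_self (D.S_homog hx)]
  | zero => intro r; simp
  | add x y _ _ hx hy =>
    intro r
    rw [mul_add, map_add, hx, hy, map_add, mul_add]
  | smul a x _ hx =>
    intro r
    rw [smul_eq_mul, ← mul_assoc, hx, hx, map_mul, map_mul, mul_assoc]

/-- the span of the covariants -/
noncomputable def V : Submodule k (MvPolynomial (Fin 7) k) := Submodule.span k (Set.range D.y)

lemma y_mem_V (i : Fin 7) : D.y i ∈ D.V := Submodule.subset_span ⟨i, rfl⟩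

lemma V_rename (σ : Equiv.Perm (Fin 7)) {v : MvPolynomial (Fin 7) k} (hv : v ∈ D.V) :
    rename σ v ∈ D.V := by
  unfold V at hv
  induction hv using Submodule.span_induction with
  | mem x hx =>
    obtain ⟨i, rfl⟩ := hx
    rw [D.hy]
    exact D.y_mem_V _
  | zero => rw [map_zero]; exact Submodule.zero_mem _
  | add x y _ _ hx hy => rw [map_add]; exact Submodule.add_mem _ hx hy
  | smul a x _ hx => rw [map_smul]; exact Submodule.smul_mem _ _ hx

lemma V_C_mul (c : k) {v : MvPolynomial (Fin 7) k} (hv : v ∈ D.V) : C c * v ∈ D.V := by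
  rw [← smul_eq_C_mul]
  exact Submodule.smul_mem _ _ hv

lemma V_diff (p q : Fin 7) {v : MvPolynomial (Fin 7) k} (hv : v ∈ D.V) :
    ∃ l : k, v - rename (Equiv.swap p q) v = C l * (D.y p - D.y q) := by
  unfold V at hv
  induction hv using Submodule.span_induction with
  | mem x hx =>
    obtain ⟨i, rfl⟩ := hx
    rw [D.hy]
    by_cases hp : i = p
    · refine ⟨1, ?_⟩
      rw [hp, Equiv.swap_apply_left, C_1, one_mul]
    · by_cases hq : i = q
      · refine ⟨-1, ?_⟩
        rw [hq, Equiv.swap_apply_right, map_neg, C_1]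
        ring
      · refine ⟨0, ?_⟩
        rw [Equiv.swap_apply_of_ne_of_ne hp hq, C_0, zero_mul, sub_self]
  | zero => exact ⟨0, by simp⟩
  | add x y _ _ hx hy =>
    obtain ⟨l, hl⟩ := hx
    obtain ⟨m, hm⟩ := hy
    refine ⟨l + m, ?_⟩
    rw [map_add, C_add]
    linear_combination hl + hm
  | smul a x _ hx =>
    obtain ⟨l, hl⟩ := hx
    refine ⟨a * l, ?_⟩
    rw [map_smul, ← smul_sub, hl, smul_eq_C_mul, C_mul, mul_assoc]

lemma y_ne {i j : Fin 7} (hij : i ≠ j) : D.y i ≠ D.y j := by
  intro h
  have h1 : ∀ m, D.y m = D.y i := by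
    intro m
    by_cases hm : m = i
    · rw [hm]
    · have h2 := congrArg (rename (Equiv.swap j m)) h
      rw [D.hy, D.hy, Equiv.swap_apply_left, Equiv.swap_apply_of_ne_of_ne hij (Ne.symm hm)] at h2
      exact h2.symm
  have h2 : (C 7 : MvPolynomial (Fin 7) k) * D.y i = 0 := by
    rw [show (C 7 : MvPolynomial (Fin 7) k) = 7 from map_ofNat C 7, ← D.hy1]
    simp only [h1]
    simp
  have h3 : D.y i = 0 := (mul_eq_zero.1 h2).resolve_left (by
    rw [C_eq_zero]
    exact D.h7)
  obtain ⟨m, hm⟩ := D.hy0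
  exact hm (by rw [h1 m, h3])

lemma span_form {x : MvPolynomial (Fin 7) k} (hx : x ∈ Ideal.span D.S) :
    ∃ α : k, ∃ v ∈ D.V, ∃ w ∈ D.V,
      homogeneousComponent D.n x = C α * D.a + D.s1 * v + D.s2 * w := by
  induction hx using Submodule.span_induction with
  | mem x hx =>
    rw [homogeneousComponent_eq_self (D.S_homog hx)]
    rcases hx with rfl | ⟨i, rfl⟩ | ⟨i, rfl⟩
    · exact ⟨1, 0, Submodule.zero_mem _, 0, Submodule.zero_mem _, by simp⟩
    · exact ⟨0, D.y i, D.y_mem_V i, 0, Submodule.zero_mem _, by simp⟩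
    · exact ⟨0, 0, Submodule.zero_mem _, D.y i, D.y_mem_V i, by simp⟩
  | zero => exact ⟨0, 0, Submodule.zero_mem _, 0, Submodule.zero_mem _, by simp⟩
  | add x y _ _ hx hy =>
    obtain ⟨α, v, hv, w, hw, h⟩ := hx
    obtain ⟨α', v', hv', w', hw', h'⟩ := hy
    refine ⟨α + α', v + v', Submodule.add_mem _ hv hv', w + w', Submodule.add_mem _ hw hw', ?_⟩
    rw [map_add, h, h', C_add]
    ring
  | smul a x hx0 hx =>
    obtain ⟨α, v, hv, w, hw, h⟩ := hx
    refine ⟨constantCoeff a * α, C (constantCoeff a) * v, D.V_C_mul _ hv,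
      C (constantCoeff a) * w, D.V_C_mul _ hw, ?_⟩
    rw [smul_eq_mul, D.hc_mul hx0, h, C_mul]
    ring

lemma exists_disjoint (p q : Fin 7) : ∃ u v : Fin 7, u ≠ v ∧ u ≠ p ∧ u ≠ q ∧ v ≠ p ∧ v ≠ q := by
  revert p q
  decide

theorem no_eigen (f : MvPolynomial (Fin 7) k) (hf : orbitIdeal f = Ideal.span D.S)
    (p q : Fin 7) (hpq : p ≠ q) (c : k) (hc : rename (Equiv.swap p q) f = C c * f) : False := by
  have hfmem : f ∈ Ideal.span D.S := by rw [← hf]; exact self_mem_orbitIdeal f
  have hf0 : f ≠ 0 := by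
    intro h
    apply D.ha0
    have h1 : D.a ∈ orbitIdeal f := by rw [hf]; exact Ideal.subset_span (Or.inl rfl)
    have h2 : orbitIdeal f = ⊥ := by
      unfold orbitIdeal
      rw [Ideal.span_eq_bot]
      rintro _ ⟨σ, rfl⟩
      rw [h, map_zero]
    rw [h2] at h1
    exact h1
  have hc2 : c = 1 ∨ c = -1 := by
    have h1 : f = C c * (C c * f) := by
      have h2 : rename (Equiv.swap p q) (rename (Equiv.swap p q) f) = C c * (C c * f) := by
        rw [hc, map_mul, rename_C, hc]
      have h3 : (Equiv.swap p q : Fin 7 → Fin 7) ∘ (Equiv.swap p q) = id := by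
        funext i
        simp
      rw [rename_rename, h3, rename_id_apply] at h2
      exact h2
    have h2 : C (c * c - 1) * f = 0 := by
      rw [C_sub, C_mul, C_1]
      linear_combination -h1
    have h3 : c * c - 1 = 0 := by
      rcases mul_eq_zero.1 h2 with h | h
      · rwa [C_eq_zero] at h
      · exact absurd h hf0
    have h4 : (c - 1) * (c + 1) = 0 := by linear_combination h3
    rcases mul_eq_zero.1 h4 with h | h
    · left; linear_combination h
    · right; linear_combination h
  set F := homogeneousComponent D.n f with hF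
  obtain ⟨α, v, hv, w, hw, hFf⟩ := D.span_form hfmem
  rw [← hF] at hFf
  have hcF : rename (Equiv.swap p q) F = C c * F := by
    rw [hF, rename_homogeneousComponent, hc, homogeneousComponent_C_mul]
  set U : Submodule k (MvPolynomial (Fin 7) k) :=
    Submodule.span k {g | ∃ σ : Equiv.Perm (Fin 7), g = rename σ F} with hU
  have hUmem : ∀ x, x ∈ orbitIdeal f → homogeneousComponent D.n x ∈ U := by
    intro x hx
    refine Submodule.span_induction (p := fun x _ => homogeneousComponent D.n x ∈ U)
      ?_ ?_ ?_ ?_ hx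
    · rintro x ⟨σ, rfl⟩
      rw [← rename_homogeneousComponent]
      exact Submodule.subset_span ⟨σ, rfl⟩
    · rw [map_zero]; exact Submodule.zero_mem _
    · intro x y _ _ hx hy
      rw [map_add]; exact Submodule.add_mem _ hx hy
    · intro a x hx0 hx
      have h1 : x ∈ Ideal.span D.S := by rw [← hf]; exact hx0
      rw [smul_eq_mul, D.hc_mul h1, ← smul_eq_C_mul]
      exact Submodule.smul_mem _ _ hx
  have hSU : ∀ x ∈ D.S, x ∈ U := by
    intro x hx
    rw [← homogeneousComponent_eq_self (D.S_homog hx)]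
    apply hUmem
    rw [hf]
    exact Ideal.subset_span hx
  obtain ⟨l1, hl1⟩ := D.V_diff p q hv
  obtain ⟨l2, hl2⟩ := D.V_diff p q hw
  have hasw := D.hasw p q hpq
  have hFdiff : F - rename (Equiv.swap p q) F =
      2 * C α * D.a + (C l1 * D.s1 + C l2 * D.s2) * (D.y p - D.y q) := by
    rw [hFf, map_add, map_add, map_mul, map_mul, map_mul, rename_C, D.hs1, D.hs2, hasw]
    linear_combination D.s1 * hl1 + D.s2 * hl2
  have h2R := D.ring2_ne
  rcases hc2 with rfl | rfl
  · -- eigenvalue 1
    rw [hcF, C_1, one_mul, sub_self] at hFdiff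
    obtain ⟨r, s, hrs, hrp, hrq, hsp, hsq⟩ := exists_disjoint p q
    have h1 := congrArg (rename (Equiv.swap r s)) hFdiff
    simp only [map_add, map_mul, map_zero, map_sub, rename_C, D.hs1, D.hs2, D.hy,
      D.hasw r s hrs, Equiv.swap_apply_of_ne_of_ne (Ne.symm hrp) (Ne.symm hsp),
      Equiv.swap_apply_of_ne_of_ne (Ne.symm hrq) (Ne.symm hsq),
      show rename (Equiv.swap r s) (2 : MvPolynomial (Fin 7) k) = 2 from map_ofNat _ 2] at h1
    have h2 : 2 * (2 * (C α * D.a)) = 0 := by linear_combination h1 - hFdiff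
    have h3 : C α * D.a = 0 := by
      have h4 := (mul_eq_zero.1 h2).resolve_left h2R
      exact (mul_eq_zero.1 h4).resolve_left h2R
    rw [h3, zero_add] at hFf
    have hform : ∀ x ∈ U, ∃ v ∈ D.V, ∃ w ∈ D.V, x = D.s1 * v + D.s2 * w := by
      intro x hx
      rw [hU] at hx
      induction hx using Submodule.span_induction with
      | mem x hx =>
        obtain ⟨σ, rfl⟩ := hx
        refine ⟨rename σ v, D.V_rename σ hv, rename σ w, D.V_rename σ hw, ?_⟩
        rw [hFf, map_add, map_mul, map_mul, D.hs1, D.hs2]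
      | zero => exact ⟨0, Submodule.zero_mem _, 0, Submodule.zero_mem _, by simp⟩
      | add x y _ _ hx hy =>
        obtain ⟨v, hv, w, hw, h⟩ := hx
        obtain ⟨v', hv', w', hw', h'⟩ := hy
        refine ⟨v + v', Submodule.add_mem _ hv hv', w + w', Submodule.add_mem _ hw hw', ?_⟩
        rw [h, h']
        ring
      | smul b x _ hx =>
        obtain ⟨v, hv, w, hw, h⟩ := hx
        refine ⟨C b * v, D.V_C_mul b hv, C b * w, D.V_C_mul b hw, ?_⟩
        rw [h, smul_eq_C_mul]
        ring
    obtain ⟨v', hv', w', hw', ha⟩ := hform D.a (hSU _ (Or.inl rfl))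
    obtain ⟨l, hl⟩ := D.V_diff 0 1 hv'
    obtain ⟨m, hm⟩ := D.V_diff 0 1 hw'
    have h4 : 2 * D.a = (C l * D.s1 + C m * D.s2) * (D.y 0 - D.y 1) := by
      have h5 := congrArg (rename (Equiv.swap 0 1)) ha
      rw [map_add, map_mul, map_mul, D.hs1, D.hs2, D.hasw 0 1 (by decide)] at h5
      linear_combination ha - h5 + D.s1 * hl + D.s2 * hm
    have h5 := congrArg (rename (Equiv.swap 2 3)) h4
    simp only [map_add, map_mul, map_sub, rename_C, D.hs1, D.hs2, D.hy,
      D.hasw 2 3 (by decide), show Equiv.swap (2 : Fin 7) 3 0 = 0 by decide,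
      show Equiv.swap (2 : Fin 7) 3 1 = 1 by decide,
      show rename (Equiv.swap 2 3) (2 : MvPolynomial (Fin 7) k) = 2 from map_ofNat _ 2] at h5
    have h6 : 2 * (2 * D.a) = 0 := by linear_combination h4 - h5
    exact D.ha0 ((mul_eq_zero.1 ((mul_eq_zero.1 h6).resolve_left h2R)).resolve_left h2R)
  · -- eigenvalue -1
    set t : MvPolynomial (Fin 7) k := C l1 * D.s1 + C l2 * D.s2 with ht
    have hFt : 2 * F = 2 * C α * D.a + t * (D.y p - D.y q) := by
      rw [hcF] at hFdiff
      rw [map_neg, C_1] at hFdiff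
      linear_combination hFdiff
    have htσ : ∀ σ : Equiv.Perm (Fin 7), rename σ t = t := by
      intro σ
      rw [ht, map_add, map_mul, map_mul, rename_C, rename_C, D.hs1, D.hs2]
    have hform : ∀ x ∈ U, ∃ β : k, ∃ v ∈ D.V, 2 * x = C β * D.a + t * v := by
      intro x hx
      rw [hU] at hx
      induction hx using Submodule.span_induction with
      | mem x hx =>
        obtain ⟨σ, rfl⟩ := hx
        have h1 := congrArg (rename σ) hFt
        rw [map_add, map_mul, map_mul, map_mul, map_mul, rename_C, map_sub, D.hy, D.hy, htσ,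
          show rename σ (2 : MvPolynomial (Fin 7) k) = 2 from map_ofNat _ 2] at h1
        rcases D.ha σ with h | h
        · refine ⟨2 * α, D.y (σ p) - D.y (σ q), Submodule.sub_mem _ (D.y_mem_V _) (D.y_mem_V _), ?_⟩
          rw [h1, h, C_mul, show (C 2 : MvPolynomial (Fin 7) k) = 2 from map_ofNat C 2]
        · refine ⟨-(2 * α), D.y (σ p) - D.y (σ q),
            Submodule.sub_mem _ (D.y_mem_V _) (D.y_mem_V _), ?_⟩
          rw [h1, h, map_neg, C_mul, show (C 2 : MvPolynomial (Fin 7) k) = 2 from map_ofNat C 2]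
          ring
      | zero => exact ⟨0, 0, Submodule.zero_mem _, by simp⟩
      | add x y _ _ hx hy =>
        obtain ⟨β, v, hv, h⟩ := hx
        obtain ⟨β', v', hv', h'⟩ := hy
        refine ⟨β + β', v + v', Submodule.add_mem _ hv hv', ?_⟩
        rw [C_add]
        linear_combination h + h'
      | smul b x _ hx =>
        obtain ⟨β, v, hv, h⟩ := hx
        refine ⟨b * β, C b * v, D.V_C_mul b hv, ?_⟩
        rw [smul_eq_C_mul, C_mul]
        linear_combination C b * h
    have key : ∀ s : MvPolynomial (Fin 7) k, (∀ σ : Equiv.Perm (Fin 7), rename σ s = s) →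
        s * D.y 0 ∈ U → ∃ l : k, 2 * s = C l * t := by
      intro s hs hsU
      obtain ⟨β, v', hv', h⟩ := hform _ hsU
      obtain ⟨l, hl⟩ := D.V_diff 0 1 hv'
      have h1 := congrArg (rename (Equiv.swap 0 1)) h
      rw [map_mul, map_mul, map_add, map_mul, map_mul, rename_C, hs, htσ, D.hy,
        D.hasw 0 1 (by decide), show Equiv.swap (0 : Fin 7) 1 0 = 1 by decide,
        show rename (Equiv.swap 0 1) (2 : MvPolynomial (Fin 7) k) = 2 from map_ofNat _ 2] at h1
      have h2 : 2 * (s * (D.y 0 - D.y 1)) = 2 * (C β * D.a) + t * (C l * (D.y 0 - D.y 1)) := by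
        linear_combination h - h1 + t * hl
      have h3 := congrArg (rename (Equiv.swap 2 3)) h2
      simp only [map_add, map_mul, map_sub, rename_C, hs, htσ, D.hy,
        D.hasw 2 3 (by decide), show Equiv.swap (2 : Fin 7) 3 0 = 0 by decide,
        show Equiv.swap (2 : Fin 7) 3 1 = 1 by decide,
        show rename (Equiv.swap 2 3) (2 : MvPolynomial (Fin 7) k) = 2 from map_ofNat _ 2] at h3
      refine ⟨l, ?_⟩
      have h4 : (2 * (D.y 0 - D.y 1)) * (2 * s - C l * t) = 0 := by
        linear_combination h2 + h3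
      have h5 : (2 * (D.y 0 - D.y 1)) ≠ 0 :=
        mul_ne_zero h2R (sub_ne_zero.2 (D.y_ne (by decide)))
      have h6 := (mul_eq_zero.1 h4).resolve_left h5
      linear_combination h6
    obtain ⟨l, hl⟩ := key D.s1 D.hs1 (hSU _ (Or.inr (Or.inl ⟨0, rfl⟩)))
    obtain ⟨m, hm⟩ := key D.s2 D.hs2 (hSU _ (Or.inr (Or.inr ⟨0, rfl⟩)))
    have h1 : C (m) * D.s1 + C (-l) * D.s2 = 0 := by
      have h2 : 2 * (C (m) * D.s1 + C (-l) * D.s2) = 0 := by
        rw [map_neg]
        linear_combination C m * hl - C l * hm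
      exact (mul_eq_zero.1 h2).resolve_left h2R
    obtain ⟨h3, h4⟩ := D.hs _ _ h1
    rw [neg_eq_zero] at h4
    rw [h4, C_0, zero_mul] at hl
    have h5 := (mul_eq_zero.1 hl).resolve_left h2R
    have h6 := D.hs 1 0 (by rw [h5]; simp)
    exact one_ne_zero h6.1

end Data

end Pool.Agent.V11179.Psi
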