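import Mathlib
import Pool.Agent.V11179.Covariant
import Pool.Agent.V11179.PsiNoGen

/-!
The data of the construction exist over every field of characteristic different from 2, 3, 7
in which -14 is a square.
-/

namespace Pool.Agent.V11179.Psi

open MvPolynomial

section

variable (k : Type*) [Field k]

/-- first power sum -/
noncomputable def p1 : MvPolynomial (Fin 7) k := ∑ i, X i

/-- second power sum -/
noncomputable def p2 : MvPolynomial (Fin 7) k := ∑ i, X i ^ 2

/-- Vandermonde polynomial -/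
noncomputable def vdm : MvPolynomial (Fin 7) k :=
  (Matrix.vandermonde (fun i : Fin 7 => (X i : MvPolynomial (Fin 7) k))).det

lemma rename_p1 (σ : Equiv.Perm (Fin 7)) : rename σ (p1 k) = p1 k := by
  unfold p1
  rw [map_sum]
  simp only [rename_X]
  exact Equiv.sum_comp σ (fun i => (X i : MvPolynomial (Fin 7) k))

lemma rename_p2 (σ : Equiv.Perm (Fin 7)) : rename σ (p2 k) = p2 k := by
  unfold p2
  rw [map_sum]
  simp only [map_pow, rename_X]
  exact Equiv.sum_comp σ (fun i => (X i ^ 2 : MvPolynomial (Fin 7) k))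

lemma p1_homog : (p1 k).IsHomogeneous 1 := by
  unfold p1
  exact IsHomogeneous.sum _ _ _ (fun i _ => isHomogeneous_X k i)

lemma p2_homog : (p2 k).IsHomogeneous 2 := by
  unfold p2
  refine IsHomogeneous.sum _ _ _ (fun i _ => ?_)
  simpa using (isHomogeneous_X k i).pow 2

lemma p1_ne : p1 k ≠ 0 := by
  intro h
  have h1 := congrArg (eval (![1, 0, 0, 0, 0, 0, 0] : Fin 7 → k)) h
  unfold p1 at h1
  simp [Fin.sum_univ_succ] at h1

lemma vdm_homog : (vdm k).IsHomogeneous 21 := by
  unfold vdm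
  rw [Matrix.det_vandermonde]
  have h1 : (∏ i : Fin 7, ∏ j ∈ Finset.Ioi i,
      ((X j : MvPolynomial (Fin 7) k) - X i)).IsHomogeneous
        (∑ i : Fin 7, ∑ _j ∈ Finset.Ioi i, 1) := by
    apply IsHomogeneous.prod
    intro i _
    apply IsHomogeneous.prod
    intro j _
    exact (isHomogeneous_X k j).sub (isHomogeneous_X k i)
  have h2 : (∑ i : Fin 7, ∑ _j ∈ Finset.Ioi i, 1) = 21 := by decide
  rwa [h2] at h1

lemma vdm_ne : vdm k ≠ 0 := by
  unfold vdm
  rw [Matrix.det_vandermonde_ne_zero_iff]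
  exact X_injective

lemma rename_vdm (σ : Equiv.Perm (Fin 7)) :
    rename σ (vdm k) = ((Equiv.Perm.sign σ : ℤ) : MvPolynomial (Fin 7) k) * vdm k := by
  unfold vdm
  rw [AlgHom.map_det, ← Matrix.det_permute]
  congr 1
  ext i j
  simp [Matrix.vandermonde_apply]

end

theorem exists_data (k : Type*) [Field k] (h2 : (2 : k) ≠ 0) (h3 : (3 : k) ≠ 0)
    (h7 : (7 : k) ≠ 0) (hsq : IsSquare (-14 : k)) : Nonempty (Data k) := by
  have hr : ∃ r : k, r * r = -14 ∧ r ≠ 4 := by
    obtain ⟨r, hr⟩ := hsq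
    by_cases h : r = 4
    · refine ⟨-r, by rw [hr]; ring, ?_⟩
      rw [h]
      intro h'
      have h8 : (2 : k) * (2 * 2) = 0 := by linear_combination -h'
      exact mul_ne_zero h2 (mul_ne_zero h2 h2) h8
    · exact ⟨r, hr.symm, h⟩
  obtain ⟨r, hr, hr4⟩ := hr
  obtain ⟨n, y, hy, hy1, hy2, hy0, hyn⟩ := exists_covariant h2 (![-4 + r, 10, -4 - 4 * r])
    (by simp; ring) (by simp; linear_combination 20 * hr) (by
      intro h
      have h0 := congrFun h 0
      simp at h0
      apply hr4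
      linear_combination h0)
  refine ⟨
    { y := y
      a := vdm k * p1 k ^ n
      s1 := p1 k ^ 21
      s2 := p1 k ^ 19 * p2 k
      n := 21 + n
      h2 := h2
      h3 := h3
      h7 := h7
      hy := hy
      hy1 := hy1
      hy2 := hy2
      hy0 := hy0
      ha := ?_
      hasw := ?_
      ha0 := ?_
      hs1 := ?_
      hs2 := ?_
      hs := ?_
      han := ?_
      h1n := ?_
      h2n := ?_ }⟩
  · intro σ
    rw [map_mul, map_pow, rename_p1, rename_vdm]
    rcases Int.units_eq_one_or (Equiv.Perm.sign σ) with h | h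
    · left
      rw [h]
      simp
    · right
      rw [h]
      simp
  · intro p q hpq
    rw [map_mul, map_pow, rename_p1, rename_vdm, Equiv.Perm.sign_swap hpq]
    simp
  · exact mul_ne_zero (vdm_ne k) (pow_ne_zero _ (p1_ne k))
  · intro σ
    rw [map_pow, rename_p1]
  · intro σ
    rw [map_mul, map_pow, rename_p1, rename_p2]
  · intro l m h
    have h1 : p1 k ^ 19 * (C l * p1 k ^ 2 + C m * p2 k) = 0 := by
      rw [← h]
      ring
    have h4 := (mul_eq_zero.1 h1).resolve_left (pow_ne_zero _ (p1_ne k))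
    have h5 := congrArg (eval (![1, -1, 0, 0, 0, 0, 0] : Fin 7 → k)) h4
    have h6 := congrArg (eval (![1, 0, 0, 0, 0, 0, 0] : Fin 7 → k)) h4
    unfold p1 p2 at h5 h6
    simp [Fin.sum_univ_succ] at h5 h6
    have hm : m = 0 := by
      rcases h5 with h5 | h5
      · exact h5
      · exfalso
        apply h2
        linear_combination h5
    refine ⟨?_, hm⟩
    rw [hm] at h6
    simpa using h6
  · exact (vdm_homog k).mul (by simpa using (p1_homog k).pow n)
  · intro i
    exact IsHomogeneous.mul (by simpa using (p1_homog k).pow 21) (hyn i)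
  · intro i
    refine IsHomogeneous.mul ?_ (hyn i)
    exact IsHomogeneous.mul (m := 19) (n := 2) (by simpa using (p1_homog k).pow 19) (p2_homog k)

theorem Data.f_homog {k : Type*} [Field k] (D : Data k) : D.f.IsHomogeneous D.n := by
  unfold Data.f
  exact (D.han.add (D.h1n 0)).add (D.h2n 1)

theorem Data.g_homog {k : Type*} [Field k] (D : Data k) : D.g.IsHomogeneous (D.n + D.n) := by
  have h1 : D.g = D.a * D.a + D.a * (D.s1 * D.y 0 + D.s2 * D.y 1) +
      (D.s1 * D.y 0) * (D.s1 * D.y 1) + (D.s1 * D.y 2) * (D.s2 * D.y 3) +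
      (D.s2 * D.y 4) * (D.s2 * D.y 5) := by
    unfold Data.g
    ring
  rw [h1]
  refine IsHomogeneous.add (IsHomogeneous.add (IsHomogeneous.add (IsHomogeneous.add ?_ ?_) ?_) ?_) ?_
  · exact D.han.mul D.han
  · exact D.han.mul ((D.h1n 0).add (D.h2n 1))
  · exact (D.h1n 0).mul (D.h1n 1)
  · exact (D.h1n 2).mul (D.h2n 3)
  · exact (D.h2n 4).mul (D.h2n 5)

theorem counterexample (k : Type*) [Field k] (h2 : (2 : k) ≠ 0) (h3 : (3 : k) ≠ 0)
    (h7 : (7 : k) ≠ 0) (hsq : IsSquare (-14 : k)) :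
    ∃ I : Ideal (MvPolynomial (Fin 7) k), IsPsi I ∧ IsPsi (I ^ 2) ∧
      ¬ HasInvariantGenerator I := by
  obtain ⟨D⟩ := exists_data k h2 h3 h7 hsq
  refine ⟨Ideal.span D.S, ⟨D.f, _, D.f_homog, D.orbit_f.symm⟩,
    ⟨D.g, _, D.g_homog, D.orbit_g.symm⟩, ?_⟩
  rintro ⟨f, hf, A, hA, hinv⟩
  obtain ⟨p, hp, q, hq, hpq⟩ := Finset.one_lt_card.1 hA
  obtain ⟨c, hc⟩ := hinv (Equiv.swap p q) (by
    intro i hi
    apply Equiv.swap_apply_of_ne_of_ne
    · rintro rfl; exact hi hp
    · rintro rfl; exact hi hq)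
  exact D.no_eigen f hf.symm p q hpq c hc

end Pool.Agent.V11179.Psi
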