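import Mathlib

/-!
Regular additive group actions by symplectomorphisms on affine space.
-/

namespace Pool.Agent.V11179.Sym

open MvPolynomial

/-- The points of affine `2n`-space over `K`; a point `p` has coordinates `x_i = p (inl i)` and
`y_i = p (inr i)`. -/
abbrev Aff (K : Type*) (n : ℕ) : Type _ := Fin n ⊕ Fin n → K

/-- The symplectic form `∑ dx_i ∧ dy_i` on `K ^ (2n)`. -/
def omega {K : Type*} [Field K] {n : ℕ} (u v : Aff K n) : K :=
  ∑ i : Fin n, (u (Sum.inl i) * v (Sum.inr i) - u (Sum.inr i) * v (Sum.inl i))

/-- The differential at the point `p` of the polynomial map with components `P`, applied to the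
vector `u`. -/
noncomputable def polyDiff {K : Type*} [Field K] {n : ℕ}
    (P : Fin n ⊕ Fin n → MvPolynomial (Fin n ⊕ Fin n) K) (p u : Aff K n) : Aff K n :=
  fun a => ∑ b, eval p (pderiv b (P a)) * u b

/-- The bijection `σ` of affine `2n`-space is given by polynomials, and its differential preserves
the symplectic form at every point. -/
def IsSymplecto {K : Type*} [Field K] {n : ℕ} (σ : Equiv.Perm (Aff K n)) : Prop :=
  ∃ P : Fin n ⊕ Fin n → MvPolynomial (Fin n ⊕ Fin n) K,
    (∀ p a, σ p a = eval p (P a)) ∧
      ∀ p u v, omega (polyDiff P p u) (polyDiff P p v) = omega u v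

/-- The homomorphism `φ` from the additive group of `K` to the bijections of affine `2n`-space is
nontrivial and is given by polynomials in the time and the coordinates of the point (a nontrivial
regular action of the additive group). -/
def IsGaAction {K : Type*} [Field K] {n : ℕ}
    (φ : Multiplicative K →* Equiv.Perm (Aff K n)) : Prop :=
  φ ≠ 1 ∧ ∃ P : Fin n ⊕ Fin n → MvPolynomial (Option (Fin n ⊕ Fin n)) K,
    ∀ (t : K) (p : Aff K n) (a : Fin n ⊕ Fin n),
      φ (Multiplicative.ofAdd t) p a = eval (fun o => o.elim t p) (P a)

/-- The permutation group `H` of `X` acts infinitely transitively: any finite tuple of distinct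
points is mapped to any other one of the same length. -/
def InfTransitive {X : Type*} (H : Subgroup (Equiv.Perm X)) : Prop :=
  ∀ (m : ℕ) (p q : Fin m → X), Function.Injective p → Function.Injective q →
    ∃ h ∈ H, ∀ k, h (p k) = q k

end Pool.Agent.V11179.Sym
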