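import Mathlib

/-!
Polynomial symplectomorphisms `(x, y) ↦ (x, y + ∇g(x))` of `K^n × K^n` and the group they
generate.
-/

namespace Pool.Agent.V11179.Sym

open MvPolynomial

variable {K : Type*} [Field K] {ι : Type*} [Fintype ι] [DecidableEq ι]

/-- `(x, y) ↦ (x, y + ∇g(x))`. -/
noncomputable def expX (g : MvPolynomial ι K) : Equiv.Perm ((ι → K) × (ι → K)) where
  toFun p := (p.1, fun i => p.2 i + eval p.1 (pderiv i g))
  invFun p := (p.1, fun i => p.2 i - eval p.1 (pderiv i g))
  left_inv p := by ext i <;> simp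
  right_inv p := by ext i <;> simp

omit [Fintype ι] [DecidableEq ι] in
theorem expX_apply (g : MvPolynomial ι K) (p : (ι → K) × (ι → K)) :
    expX g p = (p.1, fun i => p.2 i + eval p.1 (pderiv i g)) := rfl

omit [Fintype ι] [DecidableEq ι] in
theorem expX_add (g h : MvPolynomial ι K) : expX (g + h) = expX g * expX h := by
  ext p i
  · rfl
  · simp only [expX_apply, Equiv.Perm.coe_mul, Function.comp_apply, map_add]
    ring

omit [Fintype ι] [DecidableEq ι] in
theorem expX_zero : expX (0 : MvPolynomial ι K) = 1 := by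
  ext p i
  · rfl
  · simp [expX_apply]

omit [Fintype ι] [DecidableEq ι] in
theorem expX_neg (g : MvPolynomial ι K) : expX (-g) = (expX g)⁻¹ := by
  rw [eq_inv_iff_mul_eq_one, ← expX_add, neg_add_cancel, expX_zero]

/-- `(x, y) ↦ (y, -x)`. -/
def wey (K ι : Type*) [Field K] : Equiv.Perm ((ι → K) × (ι → K)) where
  toFun p := (p.2, -p.1)
  invFun p := (-p.2, p.1)
  left_inv p := by simp
  right_inv p := by simp

omit [Fintype ι] [DecidableEq ι] in
theorem wey_apply (p : (ι → K) × (ι → K)) : wey K ι p = (p.2, -p.1) := rfl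

omit [Fintype ι] [DecidableEq ι] in
theorem wey_inv_apply (p : (ι → K) × (ι → K)) : (wey K ι)⁻¹ p = (-p.2, p.1) := rfl

/-- `(x, y) ↦ (x + ∇g(-y), y)`. -/
noncomputable def expY (g : MvPolynomial ι K) : Equiv.Perm ((ι → K) × (ι → K)) :=
  wey K ι * expX g * (wey K ι)⁻¹

omit [Fintype ι] [DecidableEq ι] in
theorem expY_apply (g : MvPolynomial ι K) (p : (ι → K) × (ι → K)) :
    expY g p = (fun i => p.1 i + eval (-p.2) (pderiv i g), p.2) := by
  simp only [expY, Equiv.Perm.coe_mul, Function.comp_apply, wey_inv_apply, expX_apply, wey_apply,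
    neg_neg]

/-- The polynomials `g` all of whose multiples have exponential in `H`. -/
noncomputable def V (H : Subgroup (Equiv.Perm ((ι → K) × (ι → K)))) :
    Submodule K (MvPolynomial ι K) where
  carrier := {g | ∀ t : K, expX (t • g) ∈ H}
  add_mem' {a b} ha hb t := by
    rw [smul_add, expX_add]
    exact H.mul_mem (ha t) (hb t)
  zero_mem' t := by
    rw [smul_zero, expX_zero]
    exact H.one_mem
  smul_mem' c a ha t := by
    rw [smul_smul]
    exact ha _

omit [Fintype ι] [DecidableEq ι] in
theorem mem_V {H : Subgroup (Equiv.Perm ((ι → K) × (ι → K)))} {g : MvPolynomial ι K} :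
    g ∈ V H ↔ ∀ t : K, expX (t • g) ∈ H := Iff.rfl

omit [Fintype ι] [DecidableEq ι] in
theorem expX_mem {H : Subgroup (Equiv.Perm ((ι → K) × (ι → K)))} {g : MvPolynomial ι K}
    (hg : g ∈ V H) : expX g ∈ H := by
  have := hg 1
  rwa [one_smul] at this

/-- If a vector-valued polynomial takes values in a subspace at all nonzero points of an infinite
field then its coefficients are in the subspace. -/
theorem extract [Infinite K] {M : Type*} [AddCommGroup M] [Module K M] (W : Submodule K M)
    (N : ℕ) (v : ℕ → M)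
    (h : ∀ s : K, s ≠ 0 → ∑ d ∈ Finset.range N, s ^ d • v d ∈ W) :
    ∀ d < N, v d ∈ W := by
  intro d hd
  by_contra hv
  have hv' : W.mkQ (v d) ≠ 0 := by
    simpa using hv
  obtain ⟨f, hf⟩ : ∃ f : Module.Dual K (M ⧸ W), f (W.mkQ (v d)) ≠ 0 := by
    by_contra hcon
    push Not at hcon
    exact hv' ((Module.forall_dual_apply_eq_zero_iff K _).1 hcon)
  let P : Polynomial K := ∑ e ∈ Finset.range N, Polynomial.C (f (W.mkQ (v e))) * Polynomial.X ^ e
  have hP : P = 0 := by
    apply Polynomial.eq_zero_of_infinite_isRoot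
    apply Set.Infinite.mono (s := {s : K | s ≠ 0})
    · intro s hs
      have h1 : f (W.mkQ (∑ e ∈ Finset.range N, s ^ e • v e)) = 0 := by
        rw [show W.mkQ (∑ e ∈ Finset.range N, s ^ e • v e) = 0 from (Submodule.Quotient.mk_eq_zero W).2 (h s hs), map_zero]
      simp only [Set.mem_ofPred_eq, Polynomial.IsRoot.def, P, Polynomial.eval_finsetSum,
        Polynomial.eval_mul, Polynomial.eval_C, Polynomial.eval_pow, Polynomial.eval_X]
      rw [map_sum, map_sum] at h1
      rw [← h1]
      apply Finset.sum_congr rfl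
      intro e _
      rw [map_smul, map_smul, smul_eq_mul, mul_comm]
    · exact Set.Infinite.mono (fun x hx => by simpa using hx)
        (Set.Finite.infinite_compl (Set.finite_singleton (0 : K)))
  have h2 : P.coeff d = f (W.mkQ (v d)) := by
    simp only [P, Polynomial.finsetSum_coeff, Polynomial.coeff_C_mul_X_pow]
    rw [Finset.sum_eq_single d]
    · simp
    · intro e _ hed
      rw [if_neg (fun h => hed h.symm)]
    · intro h'
      exact absurd (Finset.mem_range.2 hd) h'
  rw [hP, Polynomial.coeff_zero] at h2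
  exact hf h2.symm

omit [Fintype ι] [DecidableEq ι] in
theorem eval_bind_sym (φ : ι → MvPolynomial ι K) (g : MvPolynomial ι K) (x : ι → K) :
    eval x (bind₁ φ g) = eval (fun k => eval x (φ k)) g := by
  induction g using MvPolynomial.induction_on with
  | C a => simp
  | add p q hp hq => simp [hp, hq]
  | mul_X p i hp => simp [hp]

omit [DecidableEq ι] in
/-- Chain rule. -/
theorem pderiv_bind (φ : ι → MvPolynomial ι K) (g : MvPolynomial ι K) (i : ι) :
    pderiv i (bind₁ φ g) = ∑ k, bind₁ φ (pderiv k g) * pderiv i (φ k) := by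
  classical
  induction g using MvPolynomial.induction_on with
  | C a => simp
  | add p q hp hq => simp only [map_add, hp, hq, add_mul, Finset.sum_add_distrib]
  | mul_X p j hp =>
    rw [map_mul, bind₁_X_right, pderiv_mul, hp]
    simp only [pderiv_mul, map_add, map_mul, bind₁_X_right, add_mul, Finset.sum_add_distrib,
      Finset.sum_mul]
    congr 1
    · apply Finset.sum_congr rfl
      intro k _
      ring
    · rw [Finset.sum_eq_single j]
      · simp
      · intro k _ hk
        rw [pderiv_X_of_ne (Ne.symm hk)]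
        simp
      · simp

end Pool.Agent.V11179.Sym
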