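import Mathlib
import Pool.Agent.V11179.SymBasic

/-!
Closure operations on the space of polynomials whose exponentials are in a group.
-/

namespace Pool.Agent.V11179.Sym

open MvPolynomial

variable {K : Type*} [Field K] {ι : Type*} [Fintype ι] [DecidableEq ι]

/-- The substitution `x_j ↦ x_j + s m`. -/
noncomputable def shear (m : MvPolynomial ι K) (j : ι) (s : K) : ι → MvPolynomial ι K :=
  fun k => X k + if k = j then s • m else 0

omit [Fintype ι] in
theorem pderiv_shear (m : MvPolynomial ι K) (j : ι) (s : K) (i k : ι) :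
    pderiv i (shear m j s k) = (if k = i then 1 else 0) + if k = j then s • pderiv i m else 0 := by
  unfold shear
  rw [map_add, pderiv_X]
  congr 1
  · rw [Pi.single_apply]
  · split_ifs <;> simp

theorem pderiv_bind_shear (m : MvPolynomial ι K) (j : ι) (s : K) (g : MvPolynomial ι K) (i : ι) :
    pderiv i (bind₁ (shear m j s) g) = bind₁ (shear m j s) (pderiv i g) +
      bind₁ (shear m j s) (pderiv j g) * (s • pderiv i m) := by
  rw [pderiv_bind]
  simp only [pderiv_shear, mul_add, Finset.sum_add_distrib, mul_ite, mul_one, mul_zero,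
    Finset.sum_ite_eq', Finset.mem_univ, if_true]

/-- The cotangent lift of the shear `x_j ↦ x_j + s m(x)`. -/
noncomputable def Phi (m : MvPolynomial ι K) (j : ι) (s : K) (p : (ι → K) × (ι → K)) :
    (ι → K) × (ι → K) :=
  (fun k => eval p.1 (shear m j s k), fun i => p.2 i - s * p.2 j * eval p.1 (pderiv i m))

theorem conj_Phi (m : MvPolynomial ι K) (j : ι) (s : K) (hm : pderiv j m = 0)
    (g : MvPolynomial ι K) (p : (ι → K) × (ι → K)) :
    expX g (Phi m j s p) = Phi m j s (expX (bind₁ (shear m j s) g) p) := by
  have h1 : ∀ q : MvPolynomial ι K, eval (fun k => eval p.1 (shear m j s k)) q =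
      eval p.1 (bind₁ (shear m j s) q) := fun q => (eval_bind_sym _ _ _).symm
  ext i
  · rfl
  · simp only [expX_apply, Phi, pderiv_bind_shear, map_add, map_mul, h1, hm, smul_eval, map_zero,
      mul_zero, add_zero]
    ring

/-- The Taylor polynomial of `g` along the shear. -/
noncomputable def tay (m : MvPolynomial ι K) (j : ι) (g : MvPolynomial ι K) :
    Polynomial (MvPolynomial ι K) :=
  aeval (fun k => Polynomial.C (X k) + if k = j then Polynomial.X * Polynomial.C m else 0) g

omit [Fintype ι] in
theorem tay_coeff_zero (m : MvPolynomial ι K) (j : ι) (g : MvPolynomial ι K) :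
    (tay m j g).coeff 0 = g := by
  unfold tay
  induction g using MvPolynomial.induction_on with
  | C a =>
    rw [aeval_C, Polynomial.algebraMap_apply, Polynomial.coeff_C_zero]
    rfl
  | add p q hp hq => rw [map_add, Polynomial.coeff_add, hp, hq]
  | mul_X p k hp =>
    rw [map_mul, Polynomial.mul_coeff_zero, hp, aeval_X, Polynomial.coeff_add,
      Polynomial.coeff_C_zero]
    split_ifs <;> simp

omit [Fintype ι] in
theorem tay_coeff_one (m : MvPolynomial ι K) (j : ι) (g : MvPolynomial ι K) :
    (tay m j g).coeff 1 = m * pderiv j g := by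
  induction g using MvPolynomial.induction_on with
  | C a =>
    unfold tay
    rw [aeval_C, Polynomial.algebraMap_apply, Polynomial.coeff_C_succ, pderiv_C, mul_zero]
  | add p q hp hq =>
    have : tay m j (p + q) = tay m j p + tay m j q := map_add _ _ _
    rw [this, Polynomial.coeff_add, hp, hq, map_add, mul_add]
  | mul_X p k hp =>
    have : tay m j (p * X k) = tay m j p *
        (Polynomial.C (X k) + if k = j then Polynomial.X * Polynomial.C m else 0) := by
      unfold tay
      rw [map_mul, aeval_X]
    rw [this, Polynomial.mul_coeff_one, tay_coeff_zero, hp, pderiv_mul, pderiv_X,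
      Pi.single_apply, Polynomial.coeff_add, Polynomial.coeff_add, Polynomial.coeff_C_succ,
      Polynomial.coeff_C_zero]
    split_ifs with h
    · simp
      ring
    · simp
      ring

omit [Fintype ι] in
theorem tay_eval (m : MvPolynomial ι K) (j : ι) (g : MvPolynomial ι K) (s : K) :
    Polynomial.eval (C s) (tay m j g) = bind₁ (shear m j s) g := by
  unfold tay
  induction g using MvPolynomial.induction_on with
  | C a =>
    rw [aeval_C, Polynomial.algebraMap_apply, Polynomial.eval_C, bind₁_C_right]
    rfl
  | add p q hp hq => rw [map_add, Polynomial.eval_add, hp, hq, map_add]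
  | mul_X p k hp =>
    rw [map_mul, Polynomial.eval_mul, hp, map_mul, bind₁_X_right, aeval_X]
    congr 1
    unfold shear
    split_ifs
    · simp [MvPolynomial.smul_eq_C_mul]
      ring
    · simp

theorem closure_op [Infinite K] {H : Subgroup (Equiv.Perm ((ι → K) × (ι → K)))}
    {m : MvPolynomial ι K} {j : ι} (hm : pderiv j m = 0)
    (hΦ : ∀ s : K, ∃ h ∈ H, ∀ p, h p = Phi m j s p) {g : MvPolynomial ι K} (hg : g ∈ V H) :
    m * pderiv j g ∈ V H := by
  have key := extract (V H) ((tay m j g).natDegree + 2) (fun d => (tay m j g).coeff d) (by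
    intro s _
    have h1 : ∑ d ∈ Finset.range ((tay m j g).natDegree + 2), s ^ d • (tay m j g).coeff d =
        bind₁ (shear m j s) g := by
      rw [← tay_eval, Polynomial.eval_eq_sum_range' (n := (tay m j g).natDegree + 2) (by omega)]
      apply Finset.sum_congr rfl
      intro d _
      rw [MvPolynomial.smul_eq_C_mul, map_pow, mul_comm]
    rw [h1]
    intro t
    obtain ⟨h, hh, hp⟩ := hΦ s
    have h2 : expX (t • bind₁ (shear m j s) g) = h⁻¹ * expX (t • g) * h := by
      rw [eq_comm, mul_assoc, inv_mul_eq_iff_eq_mul]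
      ext1 p
      rw [Equiv.Perm.coe_mul, Function.comp_apply, Equiv.Perm.coe_mul, Function.comp_apply, hp,
        hp, conj_Phi _ _ _ hm, map_smul]
    rw [h2]
    exact H.mul_mem (H.mul_mem (H.inv_mem hh) (hg t)) hh) 1 (by omega)
  rw [tay_coeff_one] at key
  exact key

/-- The torus element `(x, y) ↦ (s x, s⁻¹ y)`. -/
def Tor (s : K) (p : (ι → K) × (ι → K)) : (ι → K) × (ι → K) :=
  (fun k => s * p.1 k, fun k => s⁻¹ * p.2 k)

theorem scale_mem {H : Subgroup (Equiv.Perm ((ι → K) × (ι → K)))} {s : K} (hs : s ≠ 0)
    (hT : ∃ h ∈ H, ∀ p, h p = Tor s p) {g : MvPolynomial ι K} (hg : g ∈ V H) :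
    bind₁ (fun k => s • (X k : MvPolynomial ι K)) g ∈ V H := by
  intro t
  obtain ⟨h, hh, hp⟩ := hT
  have h2 : expX (t • bind₁ (fun k => s • (X k : MvPolynomial ι K)) g) =
      h⁻¹ * expX (t • g) * h := by
    rw [eq_comm, mul_assoc, inv_mul_eq_iff_eq_mul]
    ext1 p
    rw [Equiv.Perm.coe_mul, Function.comp_apply, Equiv.Perm.coe_mul, Function.comp_apply, hp,
      hp, ← map_smul]
    ext i
    · rfl
    · simp only [Tor, expX_apply]
      rw [pderiv_bind]
      have h3 : ∀ k : ι, pderiv i (s • (X k : MvPolynomial ι K)) = if k = i then C s else 0 := by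
        intro k
        rw [MvPolynomial.smul_eq_C_mul, pderiv_C_mul, pderiv_X, Pi.single_apply]
        split_ifs
        · rw [mul_one]
        · rw [mul_zero]
      simp only [h3, mul_ite, mul_zero, Finset.sum_ite_eq', Finset.mem_univ, if_true, map_mul,
        eval_C, eval_bind_sym, smul_eval, eval_X]
      field_simp
  rw [h2]
  exact H.mul_mem (H.mul_mem (H.inv_mem hh) (hg t)) hh

end Pool.Agent.V11179.Sym
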