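import Mathlib
import Pool.Agent.V11179.SymOps

/-!
Three one-parameter groups generate all `(x, y) ↦ (x, y + ∇g(x))`.
-/

namespace Pool.Agent.V11179.Sym

open MvPolynomial

variable {K : Type*} [Field K] {n : ℕ}

/-- `Q = (1/2) ∑ x_i^2`. -/
noncomputable def polyQ (K : Type*) [Field K] (n : ℕ) : MvPolynomial (Fin n) K :=
  ∑ i, C (2 : K)⁻¹ * X i ^ 2

/-- `F = ∑_i x_0^i x_i + ∏_i x_i^2`. -/
noncomputable def polyF (K : Type*) [Field K] (n : ℕ) (z : Fin n) : MvPolynomial (Fin n) K :=
  ∑ i : Fin n, X z ^ (i : ℕ) * X i + ∏ i, X i ^ 2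

theorem pderiv_half_sq [CharZero K] (i j : Fin n) :
    pderiv i (C (2 : K)⁻¹ * X j ^ 2 : MvPolynomial (Fin n) K) = if j = i then X j else 0 := by
  rw [pderiv_C_mul, pderiv_pow, pderiv_X, Pi.single_apply]
  split_ifs with h
  · have h2 : (C (2 : K)⁻¹ * 2 : MvPolynomial (Fin n) K) = 1 := by
      rw [show (2 : MvPolynomial (Fin n) K) = C 2 from rfl, ← C_mul, inv_mul_cancel₀ two_ne_zero,
        C_1]
    push_cast
    calc _ = (C (2 : K)⁻¹ * 2 : MvPolynomial (Fin n) K) * X j := by ring
      _ = X j := by rw [h2, one_mul]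
  · ring

theorem pderiv_polyQ [CharZero K] (i : Fin n) : pderiv i (polyQ K n) = X i := by
  rw [polyQ, map_sum]
  simp only [pderiv_half_sq, Finset.sum_ite_eq', Finset.mem_univ, if_true]

theorem expX_polyQ [CharZero K] (t : K) (p : (Fin n → K) × (Fin n → K)) :
    expX (t • polyQ K n) p = (p.1, fun i => p.2 i + t * p.1 i) := by
  simp only [expX_apply, Derivation.map_smul, pderiv_polyQ, smul_eval, eval_X]

theorem expY_polyQ [CharZero K] (t : K) (p : (Fin n → K) × (Fin n → K)) :
    expY (t • polyQ K n) p = (fun i => p.1 i - t * p.2 i, p.2) := by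
  simp only [expY_apply, Derivation.map_smul, pderiv_polyQ, smul_eval, eval_X, Pi.neg_apply]
  ext i
  · ring
  · rfl

section

variable [CharZero K] {H : Subgroup (Equiv.Perm ((Fin n → K) × (Fin n → K)))}
  (hQ : polyQ K n ∈ V H) (hY : ∀ t : K, expY (t • polyQ K n) ∈ H)

include hQ hY

theorem wey_mem : wey K (Fin n) ∈ H := by
  have h : wey K (Fin n) = expY ((-1 : K) • polyQ K n) * expX ((-1 : K) • polyQ K n) *
      expY ((-1 : K) • polyQ K n) := by
    ext p i
    · simp only [Equiv.Perm.coe_mul, Function.comp_apply, expX_polyQ, expY_polyQ, wey_apply]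
      ring
    · simp only [Equiv.Perm.coe_mul, Function.comp_apply, expX_polyQ, expY_polyQ, wey_apply,
        Pi.neg_apply]
      ring
  rw [h]
  exact H.mul_mem (H.mul_mem (hY _) (hQ _)) (hY _)

theorem tor_mem (s : K) (hs : s ≠ 0) : ∃ h ∈ H, ∀ p, h p = Tor s p := by
  refine ⟨expX (s⁻¹ • polyQ K n) * expY (s • polyQ K n) * expX (s⁻¹ • polyQ K n) *
    wey K (Fin n), ?_, ?_⟩
  · exact H.mul_mem (H.mul_mem (H.mul_mem (hQ _) (hY _)) (hQ _)) (wey_mem hQ hY)
  · intro p
    ext i
    · simp only [Equiv.Perm.coe_mul, Function.comp_apply, expX_polyQ, expY_polyQ, wey_apply, Tor,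
        Pi.neg_apply]
      field_simp
      ring
    · simp only [Equiv.Perm.coe_mul, Function.comp_apply, expX_polyQ, expY_polyQ, wey_apply, Tor,
        Pi.neg_apply]
      field_simp
      ring

theorem expY_mem {g : MvPolynomial (Fin n) K} (hg : g ∈ V H) : expY g ∈ H := by
  unfold expY
  exact H.mul_mem (H.mul_mem (wey_mem hQ hY) (expX_mem hg)) (H.inv_mem (wey_mem hQ hY))

theorem deriv_mem {j : Fin n} (hj : (X j : MvPolynomial (Fin n) K) ∈ V H)
    {g : MvPolynomial (Fin n) K} (hg : g ∈ V H) : pderiv j g ∈ V H := by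
  have := closure_op (m := (1 : MvPolynomial (Fin n) K)) (j := j) (H := H) pderiv_one (by
    intro s
    refine ⟨expY (s • X j), expY_mem hQ hY ((V H).smul_mem _ hj), ?_⟩
    intro p
    ext i
    · simp only [expY_apply, Derivation.map_smul, smul_eval, Phi, shear, map_add, eval_X,
        pderiv_X, Pi.single_apply]
      by_cases h : i = j
      · subst h
        simp
      · rw [if_neg h, if_neg (fun h' => h h'.symm)]
        simp
    · simp [expY_apply, Phi]) hg
  rwa [one_mul] at this

theorem pieces (hn : 2 ≤ n) (z : Fin n) (hF : polyF K n z ∈ V H) :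
    (∀ i : Fin n, (X z ^ (i : ℕ) * X i : MvPolynomial (Fin n) K) ∈ V H) ∧
      (∏ i, X i ^ 2 : MvPolynomial (Fin n) K) ∈ V H := by
  let v : ℕ → MvPolynomial (Fin n) K := fun d =>
    (∑ i : Fin n, if d = (i : ℕ) + 1 then X z ^ (i : ℕ) * X i else 0) +
      if d = 2 * n then ∏ i, X i ^ 2 else 0
  have key := extract (V H) (2 * n + 1) v (by
    intro s hs
    have h1 : ∑ d ∈ Finset.range (2 * n + 1), s ^ d • v d =
        bind₁ (fun k => s • (X k : MvPolynomial (Fin n) K)) (polyF K n z) := by
      simp only [v, smul_add, Finset.sum_add_distrib, Finset.smul_sum, smul_ite, smul_zero]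
      rw [Finset.sum_comm]
      have h2 : ∀ i : Fin n, ∑ d ∈ Finset.range (2 * n + 1),
          (if d = (i : ℕ) + 1 then s ^ d • (X z ^ (i : ℕ) * X i : MvPolynomial (Fin n) K) else 0) =
          s ^ ((i : ℕ) + 1) • (X z ^ (i : ℕ) * X i) := by
        intro i
        rw [Finset.sum_ite_eq' (Finset.range (2 * n + 1)) ((i : ℕ) + 1)
          (fun d => s ^ d • (X z ^ (i : ℕ) * X i : MvPolynomial (Fin n) K)), if_pos]
        rw [Finset.mem_range]
        omega
      rw [Finset.sum_congr rfl (fun i _ => h2 i)]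
      rw [Finset.sum_ite_eq' (Finset.range (2 * n + 1)) (2 * n)
        (fun d => s ^ d • (∏ i, X i ^ 2 : MvPolynomial (Fin n) K)),
        if_pos (Finset.mem_range.2 (by omega))]
      rw [polyF, map_add, map_sum, map_prod]
      congr 1
      · apply Finset.sum_congr rfl
        intro i _
        rw [map_mul, map_pow, bind₁_X_right, bind₁_X_right, smul_pow, smul_mul_smul_comm,
          ← pow_succ]
      · simp only [map_pow, bind₁_X_right, smul_pow]
        simp only [MvPolynomial.smul_eq_C_mul, Finset.prod_mul_distrib, Finset.prod_const,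
          Finset.card_univ, Fintype.card_fin, ← map_pow, ← pow_mul]
    rw [h1]
    exact scale_mem hs (tor_mem hQ hY s hs) hF)
  constructor
  · intro i
    have h1 := key (i + 1) (by omega)
    have h2 : v (i + 1) = X z ^ (i : ℕ) * X i := by
      simp only [v]
      rw [if_neg (by omega), add_zero, Finset.sum_eq_single i]
      · rw [if_pos rfl]
      · intro k _ hk
        rw [if_neg]
        intro h
        apply hk
        ext
        omega
      · simp
    rwa [h2] at h1
  · have h1 := key (2 * n) (by omega)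
    have h2 : v (2 * n) = ∏ i, X i ^ 2 := by
      simp only [v, if_true]
      rw [Finset.sum_eq_zero, zero_add]
      intro i _
      rw [if_neg (by omega)]
    rwa [h2] at h1

end

end Pool.Agent.V11179.Sym
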