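import Mathlib
import Pool.Agent.V11179.SymGen

/-!
All polynomials have their exponential in the group.
-/

namespace Pool.Agent.V11179.Sym

open MvPolynomial

variable {K : Type*} [Field K] {n : ℕ}

section

variable [CharZero K] {H : Subgroup (Equiv.Perm ((Fin n → K) × (Fin n → K)))}
  (hQ : polyQ K n ∈ V H) (hY : ∀ t : K, expY (t • polyQ K n) ∈ H)

include hQ hY

theorem X_mem {z i : Fin n} (hzi : z ≠ i) (hz : (X z : MvPolynomial (Fin n) K) ∈ V H) :
    ∀ e : ℕ, (X z ^ e * X i : MvPolynomial (Fin n) K) ∈ V H →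
      (X i : MvPolynomial (Fin n) K) ∈ V H := by
  intro e
  induction e with
  | zero =>
    intro h
    rwa [pow_zero, one_mul] at h
  | succ e ih =>
    intro h
    apply ih
    have h1 := deriv_mem hQ hY hz h
    have h2 : pderiv z (X z ^ (e + 1) * X i : MvPolynomial (Fin n) K) =
        ((e : K) + 1) • (X z ^ e * X i) := by
      rw [pderiv_mul, pderiv_pow, pderiv_X_self, pderiv_X_of_ne (Ne.symm hzi),
        MvPolynomial.smul_eq_C_mul]
      simp
      ring
    rw [h2] at h1
    have h3 : ((e : K) + 1) ≠ 0 := by exact_mod_cast Nat.succ_ne_zero e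
    exact ((V H).smul_mem_iff h3).1 h1

theorem div_mem (hX : ∀ i : Fin n, (X i : MvPolynomial (Fin n) K) ∈ V H) :
    ∀ δ β : Fin n →₀ ℕ, monomial (β + δ) (1 : K) ∈ V H → monomial β (1 : K) ∈ V H := by
  intro δ
  induction δ using Finsupp.induction_linear with
  | zero =>
    intro β h
    rwa [add_zero] at h
  | add a b ha hb =>
    intro β h
    apply ha
    apply hb
    rwa [add_assoc]
  | single i k =>
    intro β
    induction k with
    | zero =>
      intro h
      rwa [Finsupp.single_zero, add_zero] at h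
    | succ k ih =>
      intro h
      apply ih
      have h1 := deriv_mem hQ hY (hX i) h
      rw [pderiv_monomial] at h1
      have h2 : β + Finsupp.single i (k + 1) - Finsupp.single i 1 = β + Finsupp.single i k := by
        rw [Finsupp.single_add, ← add_assoc, add_tsub_cancel_right]
      have h3 : (1 : K) * ((β + Finsupp.single i (k + 1)) i : ℕ) ≠ 0 := by
        rw [one_mul, Finsupp.add_apply, Finsupp.single_eq_same]
        exact_mod_cast (by omega : β i + (k + 1) ≠ 0)
      rw [h2] at h1
      have h4 : monomial (β + Finsupp.single i k)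
          ((1 : K) * ((β + Finsupp.single i (k + 1)) i : ℕ)) =
          ((1 : K) * ((β + Finsupp.single i (k + 1)) i : ℕ)) •
            monomial (β + Finsupp.single i k) (1 : K) := by
        rw [smul_monomial, smul_eq_mul, mul_one]
      rw [h4] at h1
      exact ((V H).smul_mem_iff h3).1 h1

theorem small_mem (hX : ∀ i : Fin n, (X i : MvPolynomial (Fin n) K) ∈ V H)
    (hB : (∏ i, X i ^ 2 : MvPolynomial (Fin n) K) ∈ V H) (γ : Fin n →₀ ℕ)
    (hγ : ∀ i, γ i ≤ 2) : monomial γ (1 : K) ∈ V H := by
  have h1 : (∏ i, X i ^ 2 : MvPolynomial (Fin n) K) =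
      monomial (Finsupp.equivFunOnFinite.symm (fun _ => 2)) (1 : K) := by
    rw [monomial_eq, C_1, one_mul, Finsupp.prod_fintype _ _ (fun i => by simp)]
    apply Finset.prod_congr rfl
    intro i _
    simp
  rw [h1] at hB
  have hle : γ ≤ Finsupp.equivFunOnFinite.symm (fun _ => 2) := by
    intro i
    simpa using hγ i
  apply div_mem hQ hY hX (Finsupp.equivFunOnFinite.symm (fun _ => 2) - γ) γ
  rwa [add_tsub_cancel_of_le hle]

/-- The Weyl element in the `j`-th pair of coordinates. -/
def Wj (j : Fin n) (p : (Fin n → K) × (Fin n → K)) : (Fin n → K) × (Fin n → K) :=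
  (Function.update p.1 j (p.2 j), Function.update p.2 j (-p.1 j))

theorem wj_mem (j : Fin n) (hj : (C (2 : K)⁻¹ * X j ^ 2 : MvPolynomial (Fin n) K) ∈ V H) :
    ∃ h ∈ H, ∀ p, h p = Wj j p := by
  set q : MvPolynomial (Fin n) K := C (2 : K)⁻¹ * X j ^ 2 with hq
  have hX : ∀ p : (Fin n → K) × (Fin n → K), expX ((-1 : K) • q) p =
      (p.1, Function.update p.2 j (p.2 j - p.1 j)) := by
    intro p
    ext i
    · rfl
    · simp only [expX_apply, Derivation.map_smul, hq, pderiv_half_sq, smul_eval]
      by_cases h : i = j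
      · subst h
        simp
        ring
      · rw [if_neg (fun h' => h h'.symm), Function.update_of_ne h]
        simp
  have hY' : ∀ p : (Fin n → K) × (Fin n → K), expY ((-1 : K) • q) p =
      (Function.update p.1 j (p.1 j + p.2 j), p.2) := by
    intro p
    ext i
    · simp only [expY_apply, Derivation.map_smul, hq, pderiv_half_sq, smul_eval]
      by_cases h : i = j
      · subst h
        simp
      · rw [if_neg (fun h' => h h'.symm), Function.update_of_ne h]
        simp
    · rw [expY_apply]
  refine ⟨expY ((-1 : K) • q) * expX ((-1 : K) • q) * expY ((-1 : K) • q), ?_, ?_⟩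
  · exact H.mul_mem (H.mul_mem (expY_mem hQ hY ((V H).smul_mem _ hj)) (hj _))
      (expY_mem hQ hY ((V H).smul_mem _ hj))
  · intro p
    rw [Equiv.Perm.coe_mul, Function.comp_apply, Equiv.Perm.coe_mul, Function.comp_apply, hY', hX,
      hY', Wj]
    ext i
    · by_cases h : i = j
      · subst h
        simp
      · simp [Function.update_of_ne h]
    · by_cases h : i = j
      · subst h
        simp
      · simp [Function.update_of_ne h]

theorem phi_mem {i j : Fin n} (hij : i ≠ j)
    (hj : (C (2 : K)⁻¹ * X j ^ 2 : MvPolynomial (Fin n) K) ∈ V H)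
    (hm : (X i ^ 2 * X j : MvPolynomial (Fin n) K) ∈ V H) (s : K) :
    ∃ h ∈ H, ∀ p, h p = Phi (X i ^ 2) j s p := by
  obtain ⟨w, hw, hwp⟩ := wj_mem hQ hY j hj
  refine ⟨w * expX (s • (X i ^ 2 * X j : MvPolynomial (Fin n) K)) * w⁻¹,
    H.mul_mem (H.mul_mem hw (hm s)) (H.inv_mem hw), ?_⟩
  intro p
  obtain ⟨q, rfl⟩ := w.surjective p
  rw [Equiv.Perm.coe_mul, Function.comp_apply, Equiv.Perm.coe_mul, Function.comp_apply,
    show w⁻¹ (w q) = q from w.symm_apply_apply q, hwp, hwp]
  have h1 : ∀ k, pderiv k (X i ^ 2 * X j : MvPolynomial (Fin n) K) =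
      (if i = k then 2 * X i * X j else 0) + (if j = k then X i ^ 2 else 0) := by
    intro k
    rw [pderiv_mul, pderiv_pow, pderiv_X, pderiv_X, Pi.single_apply, Pi.single_apply]
    congr 1
    · split_ifs
      · push_cast
        ring
      · ring
    · split_ifs <;> ring
  have h2 : ∀ k, pderiv k (X i ^ 2 : MvPolynomial (Fin n) K) = if i = k then 2 * X i else 0 := by
    intro k
    rw [pderiv_pow, pderiv_X, Pi.single_apply]
    split_ifs
    · push_cast
      ring
    · ring
  ext k
  · simp only [Wj, expX_apply, Phi, shear, Derivation.map_smul, smul_eval, h1]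
    by_cases hk : k = j
    · subst hk
      simp [hij]
    · simp [hk]
  · simp only [Wj, expX_apply, Phi, Derivation.map_smul, smul_eval, h1, h2]
    by_cases hk : k = j
    · subst hk
      simp [hij]
    · by_cases hki : i = k
      · subst hki
        simp [hk, Ne.symm hk]
        ring
      · simp [hk, hki, Ne.symm hk]

theorem mono_mem (hn : 2 ≤ n) (z : Fin n) (hz : (z : ℕ) = 0) (hF : polyF K n z ∈ V H) :
    ∀ (N : ℕ) (γ : Fin n →₀ ℕ), γ.degree = N → monomial γ (1 : K) ∈ V H := by
  obtain ⟨hM, hB⟩ := pieces hQ hY hn z hF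
  have hXz : (X z : MvPolynomial (Fin n) K) ∈ V H := by
    have := hM z
    rwa [hz, pow_zero, one_mul] at this
  have hX : ∀ i : Fin n, (X i : MvPolynomial (Fin n) K) ∈ V H := by
    intro i
    by_cases h : z = i
    · rwa [← h]
    · exact X_mem hQ hY h hXz _ (hM i)
  have hsm := small_mem hQ hY hX hB
  have hsq : ∀ j : Fin n, (C (2 : K)⁻¹ * X j ^ 2 : MvPolynomial (Fin n) K) ∈ V H := by
    intro j
    have h1 := hsm (Finsupp.single j 2) (by
      intro i
      rw [Finsupp.single_apply]
      split_ifs <;> omega)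
    rw [← MvPolynomial.smul_eq_C_mul]
    apply (V H).smul_mem
    rwa [MvPolynomial.X_pow_eq_monomial]
  have hcub : ∀ i j : Fin n, i ≠ j → (X i ^ 2 * X j : MvPolynomial (Fin n) K) ∈ V H := by
    intro i j hij
    have h1 := hsm (Finsupp.single i 2 + Finsupp.single j 1) (by
      intro k
      rw [Finsupp.add_apply, Finsupp.single_apply, Finsupp.single_apply]
      by_cases h1 : i = k
      · rw [if_pos h1, if_neg (fun h2 => hij (h1.trans h2.symm))]
        omega
      · rw [if_neg h1]
        split_ifs <;> omega)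
    have h2 : (X i ^ 2 * X j : MvPolynomial (Fin n) K) =
        monomial (Finsupp.single i 2 + Finsupp.single j 1) (1 : K) := by
      rw [X_pow_eq_monomial, X, monomial_mul, one_mul]
    rwa [h2]
  intro N
  induction N using Nat.strong_induction_on with
  | _ N ih =>
    intro γ hγ
    by_cases hs : ∀ i, γ i ≤ 2
    · exact hsm γ hs
    push Not at hs
    obtain ⟨i, hi⟩ := hs
    obtain ⟨j, hj⟩ : ∃ j : Fin n, j ≠ i := by
      have : Nontrivial (Fin n) := Fin.nontrivial_iff_two_le.2 hn
      exact exists_ne i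
    obtain ⟨δ, hδ⟩ : ∃ δ : Fin n →₀ ℕ, γ = δ + Finsupp.single i 2 := by
      refine ⟨γ - Finsupp.single i 2, ?_⟩
      rw [tsub_add_cancel_of_le]
      rw [Finsupp.single_le_iff]
      omega
    have hdeg : γ.degree = δ.degree + 2 := by
      rw [hδ, map_add, Finsupp.degree_single]
    have h1 := ih (δ.degree + 1) (by omega) (δ + Finsupp.single j 1) (by
      rw [map_add, Finsupp.degree_single])
    have h2 := closure_op (m := (X i ^ 2 : MvPolynomial (Fin n) K)) (j := j) (H := H) (by
      rw [pderiv_pow, pderiv_X_of_ne (Ne.symm hj), mul_zero])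
      (phi_mem hQ hY (Ne.symm hj) (hsq j) (hcub i j (Ne.symm hj))) h1
    have h3 : (X i ^ 2 * pderiv j (monomial (δ + Finsupp.single j 1) (1 : K)) :
        MvPolynomial (Fin n) K) = ((δ j : K) + 1) • monomial γ (1 : K) := by
      rw [pderiv_monomial, add_tsub_cancel_right, X_pow_eq_monomial, monomial_mul, smul_monomial,
        hδ, add_comm (Finsupp.single i 2) δ]
      congr 1
      simp
    rw [h3] at h2
    have h4 : ((δ j : K) + 1) ≠ 0 := by exact_mod_cast Nat.succ_ne_zero (δ j)
    exact ((V H).smul_mem_iff h4).1 h2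

theorem V_eq_top (hn : 2 ≤ n) (z : Fin n) (hz : (z : ℕ) = 0) (hF : polyF K n z ∈ V H)
    (g : MvPolynomial (Fin n) K) : g ∈ V H := by
  rw [g.as_sum]
  apply Submodule.sum_mem
  intro γ _
  have h1 : monomial γ (coeff γ g) = coeff γ g • monomial γ (1 : K) := by
    rw [smul_monomial, smul_eq_mul, mul_one]
  rw [h1]
  exact (V H).smul_mem _ (mono_mem hQ hY hn z hz hF _ γ rfl)

end

/-- Interpolation of gradients. -/
theorem interp {m : ℕ} (z : Fin n) (x : Fin m → (Fin n → K)) (hx : Function.Injective x)
    (v : Fin m → (Fin n → K)) :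
    ∃ g : MvPolynomial (Fin n) K, ∀ k i, eval (x k) (pderiv i g) = v k i := by
  have hsep : ∀ k l : Fin m, ∃ i : Fin n, k ≠ l → x k i ≠ x l i := by
    intro k l
    by_cases h : k = l
    · exact ⟨z, fun h' => absurd h h'⟩
    · obtain ⟨i, hi⟩ := Function.ne_iff.1 (hx.ne h)
      exact ⟨i, fun _ => hi⟩
  choose ix hix using hsep
  let f : Fin m → Fin m → MvPolynomial (Fin n) K := fun k l =>
    C ((x k (ix k l) - x l (ix k l))⁻¹) * (X (ix k l) - C (x l (ix k l)))
  have hf0 : ∀ k l, eval (x l) (f k l) = 0 := by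
    intro k l
    simp [f]
  have hf1 : ∀ k l, k ≠ l → eval (x k) (f k l) = 1 := by
    intro k l h
    simp only [f, map_mul, eval_C, map_sub, eval_X]
    exact inv_mul_cancel₀ (sub_ne_zero.2 (hix k l h))
  let P : Fin m → MvPolynomial (Fin n) K := fun k => ∏ l ∈ Finset.univ.erase k, f k l ^ 2
  have hP1 : ∀ k, eval (x k) (P k) = 1 := by
    intro k
    simp only [P, map_prod, map_pow]
    apply Finset.prod_eq_one
    intro l hl
    rw [hf1 k l (Finset.ne_of_mem_erase hl).symm, one_pow]
  have hfac : ∀ k l, k ≠ l → ∃ r, P k = f k l ^ 2 * r := by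
    intro k l h
    exact ⟨_, (Finset.mul_prod_erase _ _ (Finset.mem_erase.2 ⟨h.symm, Finset.mem_univ l⟩)).symm⟩
  have hP0 : ∀ k l, k ≠ l → eval (x l) (P k) = 0 := by
    intro k l h
    obtain ⟨r, hr⟩ := hfac k l h
    rw [hr, map_mul, map_pow, hf0]
    ring
  have hP2 : ∀ k l i, k ≠ l → eval (x l) (pderiv i (P k)) = 0 := by
    intro k l i h
    obtain ⟨r, hr⟩ := hfac k l h
    rw [hr, pderiv_mul, pderiv_pow]
    simp only [map_add, map_mul, map_pow, hf0]
    ring
  let L : Fin m → MvPolynomial (Fin n) K := fun k => ∑ i, C (v k i) * (X i - C (x k i))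
  have hL0 : ∀ k, eval (x k) (L k) = 0 := by
    intro k
    simp [L]
  have hL1 : ∀ k j, pderiv j (L k) = C (v k j) := by
    intro k j
    simp only [L, map_sum, pderiv_C_mul, map_sub, pderiv_C, sub_zero, pderiv_X, Pi.single_apply,
      mul_ite, mul_one, mul_zero, Finset.sum_ite_eq', Finset.mem_univ, if_true]
  refine ⟨∑ k, P k * L k, ?_⟩
  intro l j
  rw [map_sum, map_sum, Finset.sum_eq_single l]
  · rw [pderiv_mul, map_add, map_mul, map_mul, hL0, hL1, hP1, eval_C]
    ring
  · intro k _ hk
    rw [pderiv_mul, map_add, map_mul, map_mul, hP0 k l hk, hP2 k l j hk]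
    ring
  · intro h
    exact absurd (Finset.mem_univ l) h

/-- A group acts infinitely transitively. -/
def InfTrans {X : Type*} (H : Subgroup (Equiv.Perm X)) : Prop :=
  ∀ (m : ℕ) (p q : Fin m → X), Function.Injective p → Function.Injective q →
    ∃ h ∈ H, ∀ k, h (p k) = q k

/-- generic separation -/
theorem exists_sep [Infinite K] {m : ℕ} (a b : Fin m → (Fin n → K))
    (hab : Function.Injective (fun k => (a k, b k))) :
    ∃ t : K, Function.Injective (fun k => fun i => a k i + t * b k i) := by
  have hfin : (⋃ k : Fin m, ⋃ l : Fin m, {t : K | k ≠ l ∧ ∀ i, a k i + t * b k i =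
      a l i + t * b l i}).Finite := by
    apply Set.finite_iUnion
    intro k
    apply Set.finite_iUnion
    intro l
    apply Set.Subsingleton.finite
    rintro t ⟨hkl, ht⟩ s ⟨-, hs⟩
    by_contra hts
    apply hkl
    apply hab
    have hb : b k = b l := by
      ext i
      have h1 := ht i
      have h2 := hs i
      have h3 : (t - s) * (b k i - b l i) = 0 := by linear_combination h1 - h2
      rcases mul_eq_zero.1 h3 with h | h
      · exact absurd (sub_eq_zero.1 h) hts
      · exact sub_eq_zero.1 h
    have ha : a k = a l := by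
      ext i
      have h1 := ht i
      rw [hb] at h1
      linear_combination h1
    simp only [ha, hb]
  obtain ⟨t, ht⟩ := hfin.infinite_compl.nonempty
  refine ⟨t, ?_⟩
  intro k l hkl
  by_contra hne
  apply ht
  simp only [Set.mem_iUnion]
  exact ⟨k, l, hne, fun i => congrFun hkl i⟩

theorem infTrans [CharZero K] (H : Subgroup (Equiv.Perm ((Fin n → K) × (Fin n → K))))
    (hn : 2 ≤ n) (z : Fin n) (hz : (z : ℕ) = 0)
    (hQ : polyQ K n ∈ V H) (hY : ∀ t : K, expY (t • polyQ K n) ∈ H) (hF : polyF K n z ∈ V H) :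
    InfTrans H := by
  have hV := V_eq_top hQ hY hn z hz hF
  intro m p q hp hq
  obtain ⟨t, ht⟩ := exists_sep (fun k => (p k).1) (fun k => (p k).2) (by
    intro k l h
    apply hp
    exact h)
  obtain ⟨s, hs⟩ := exists_sep (fun k => (q k).2) (fun k => (q k).1) (by
    intro k l h
    apply hq
    simp only [Prod.mk.injEq] at h
    exact Prod.ext h.2 h.1)
  set p' : Fin m → (Fin n → K) × (Fin n → K) := fun k => expY ((-t) • polyQ K n) (p k) with hp'
  set q' : Fin m → (Fin n → K) × (Fin n → K) := fun k => expX (s • polyQ K n) (q k) with hq'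
  have hp1 : Function.Injective (fun k => (p' k).1) := by
    have : (fun k => (p' k).1) = fun k => fun i => (p k).1 i + t * (p k).2 i := by
      ext k i
      simp only [hp', expY_polyQ]
      ring
    rw [this]
    exact ht
  have hq1 : Function.Injective (fun k => (q' k).2) := by
    have : (fun k => (q' k).2) = fun k => fun i => (q k).2 i + s * (q k).1 i := by
      ext k i
      simp only [hq', expX_polyQ]
    rw [this]
    exact hs
  obtain ⟨g, hg⟩ := interp z (fun k => (p' k).1) hp1 (fun k i => (q' k).2 i - (p' k).2 i)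
  obtain ⟨f, hf⟩ := interp z (fun k => -(q' k).2) (fun k l h => hq1 (neg_injective h))
    (fun k i => (q' k).1 i - (p' k).1 i)
  refine ⟨(expX (s • polyQ K n))⁻¹ * (expY f * (expX g * expY ((-t) • polyQ K n))), ?_, ?_⟩
  · exact H.mul_mem (H.inv_mem (hQ s)) (H.mul_mem (expY_mem hQ hY (hV f))
      (H.mul_mem (expX_mem (hV g)) (hY _)))
  · intro k
    rw [Equiv.Perm.coe_mul, Function.comp_apply]
    rw [show ((expX (s • polyQ K n))⁻¹ : Equiv.Perm _) ((expY f * (expX g *
      expY ((-t) • polyQ K n))) (p k)) = (expX (s • polyQ K n)).symm ((expY f * (expX g *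
      expY ((-t) • polyQ K n))) (p k)) from rfl, Equiv.symm_apply_eq]
    rw [Equiv.Perm.coe_mul, Function.comp_apply, Equiv.Perm.coe_mul, Function.comp_apply]
    change expY f (expX g (p' k)) = q' k
    have h1 : expX g (p' k) = ((p' k).1, (q' k).2) := by
      rw [expX_apply]
      ext i
      · rfl
      · simp only
        rw [hg k i]
        ring
    rw [h1, expY_apply]
    ext i
    · simp only
      rw [hf k i]
      ring
    · rfl

end Pool.Agent.V11179.Sym
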