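import Mathlib

/-!
The moments of the Al-Salam–Carlitz polynomials.
-/

namespace Pool.Agent.V11179.PfB

/-- `(q; q)_m = ∏_{i=1}^m (1 - q^i)`. -/
def qP {K : Type*} [Field K] (q : K) (m : ℕ) : K := ∏ i ∈ Finset.Icc 1 m, (1 - q ^ i)

/-- The Gaussian binomial coefficient `(q; q)_m / ((q; q)_k (q; q)_{m-k})`, for `0 ≤ k ≤ m`. -/
noncomputable def gb {K : Type*} [Field K] (q : K) (m k : ℕ) : K :=
  qP q m / (qP q k * qP q (m - k))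

/-- `g_r = ∑_{j=0}^r [r, j]_q a^j`. -/
noncomputable def gm {K : Type*} [Field K] (a q : K) (r : ℕ) : K :=
  ∑ j ∈ Finset.range (r + 1), gb q r j * a ^ j

/-- The integer `e(n) = m (16 m^2 - 1) / 3 - (-1)^n 4 m^2`, `m = ⌊n / 2⌋`. -/
def en (n : ℕ) : ℤ :=
  ((n / 2 : ℕ) : ℤ) * (16 * ((n / 2 : ℕ) : ℤ) ^ 2 - 1) / 3 - (-1) ^ n * (4 * ((n / 2 : ℕ) : ℤ) ^ 2)

/-- `P_n = ∏_{k=1}^n (q; q)_{2k-1}`. -/
def Pn {K : Type*} [Field K] (q : K) (n : ℕ) : K := ∏ k ∈ Finset.Icc 1 n, qP q (2 * k - 1)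

/-- `c_k = ⌊(n - 2k)^2 / 2⌋`. -/
def ck (n k : ℕ) : ℤ := ((n : ℤ) - 2 * (k : ℤ)) ^ 2 / 2

/-- The Pfaffian of a skew-symmetric matrix of order `2 n` (rows and columns `0, …, 2 n - 1`):
`1 / (2 ^ n n!)` times the sum over all permutations `σ` of
`sign σ * ∏ k, A (σ (2 k)) (σ (2 k + 1))`. -/
noncomputable def pfaff {K : Type*} [Field K] (n : ℕ) (A : Matrix (Fin (2 * n)) (Fin (2 * n)) K) :
    K :=
  1 / (2 ^ n * (n.factorial : K)) * ∑ σ : Equiv.Perm (Fin (2 * n)),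
    ((Equiv.Perm.sign σ : ℤ) : K) *
      ∏ k : Fin n, A (σ ⟨2 * k, by omega⟩) (σ ⟨2 * k + 1, by omega⟩)

end Pool.Agent.V11179.PfB
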