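import Mathlib
import Pool.Agent.Helper929.Pfaffian

/-!
Pfaffians of skew-symmetric matrices with two bands.
-/

namespace Pool.Agent.V11179.PfB

open Pool.Agent.Helper929

variable {K : Type*} [CommRing K]

/-- The matrix of order `n` with entries `T (s + i) (s + j)`. -/
def win (T : ℕ → ℕ → K) (s n : ℕ) : Matrix (Fin n) (Fin n) K := fun i j => T (s + i) (s + j)

theorem pf_win_step (T : ℕ → ℕ → K) (hT : ∀ i j, i + 3 ≤ j → T i j = 0) (s n : ℕ) :
    pf (n + 4) (win T s (n + 4)) = T s (s + 1) * pf (n + 2) (win T (s + 2) (n + 2)) -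
      T s (s + 2) * T (s + 1) (s + 3) * pf n (win T (s + 4) n) := by
  rw [pf, Fin.sum_univ_succ, Fin.sum_univ_succ, Finset.sum_eq_zero]
  · have h1 : (win T s (n + 4)).submatrix (fun k => ((0 : Fin (n + 3)).succAbove k).succ)
        (fun k => ((0 : Fin (n + 3)).succAbove k).succ) = win T (s + 2) (n + 2) := by
      ext i j
      simp only [Matrix.submatrix_apply, win, Fin.succAbove_zero, Fin.val_succ]
      congr 1 <;> omega
    rw [h1]
    have h2 : pf (n + 2) ((win T s (n + 4)).submatrix
        (fun k => ((Fin.succ 0 : Fin (n + 3)).succAbove k).succ)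
        (fun k => ((Fin.succ 0 : Fin (n + 3)).succAbove k).succ)) =
        T (s + 1) (s + 3) * pf n (win T (s + 4) n) := by
      rw [pf, Fin.sum_univ_succ, Finset.sum_eq_zero]
      · have h3 : (((win T s (n + 4)).submatrix
            (fun k => ((Fin.succ 0 : Fin (n + 3)).succAbove k).succ)
            (fun k => ((Fin.succ 0 : Fin (n + 3)).succAbove k).succ)).submatrix
            (fun k => ((0 : Fin (n + 1)).succAbove k).succ)
            (fun k => ((0 : Fin (n + 1)).succAbove k).succ)) = win T (s + 4) n := by
          ext i j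
          simp only [Matrix.submatrix_apply, win, Fin.succAbove_zero, Fin.val_succ,
            Fin.succ_succAbove_succ]
          congr 1 <;> omega
        rw [h3]
        simp only [Matrix.submatrix_apply, win, Fin.val_zero, pow_zero, one_mul, add_zero,
          Fin.succ_succAbove_zero, Fin.succ_succAbove_succ, Fin.succAbove_zero, Fin.val_succ]
      · intro j _
        simp only [Matrix.submatrix_apply, win, Fin.succ_succAbove_zero, Fin.succ_succAbove_succ,
          Fin.succAbove_zero, Fin.val_succ, Fin.val_zero]
        rw [hT _ _ (by omega)]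
        ring
    rw [h2]
    simp only [win, Fin.val_zero, Fin.val_succ, pow_zero, add_zero, zero_add, pow_one]
    ring
  · intro j _
    simp only [win, Fin.val_zero, Fin.val_succ, add_zero]
    rw [hT _ _ (by omega)]
    ring

theorem pf_win_two (T : ℕ → ℕ → K) (s : ℕ) : pf 2 (win T s 2) = T s (s + 1) := by
  simp [pf, win]

/-- The continuant. -/
def cont (α β : ℕ → K) : ℕ → ℕ → K
  | _, 0 => 1
  | s, 1 => α s
  | s, n + 2 => α s * cont α β (s + 1) (n + 1) - β s * cont α β (s + 2) n

theorem pf_win_cont (T : ℕ → ℕ → K) (hT : ∀ i j, i + 3 ≤ j → T i j = 0) (n : ℕ) :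
    ∀ s, pf (2 * n) (win T (2 * s) (2 * n)) = cont (fun k => T (2 * k) (2 * k + 1))
      (fun k => T (2 * k) (2 * k + 2) * T (2 * k + 1) (2 * k + 3)) s n := by
  induction n using Nat.strong_induction_on with
  | _ n ih =>
    intro s
    match n, ih with
    | 0, _ => rfl
    | 1, _ => exact pf_win_two T (2 * s)
    | n + 2, ih =>
      have h := pf_win_step T hT (2 * s) (2 * n)
      rw [cont, ← ih (n + 1) (by omega) (s + 1), ← ih n (by omega) (s + 2)]
      exact h

theorem cont_back (α β : ℕ → K) (n : ℕ) : ∀ s, cont α β s (n + 2) =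
    α (s + n + 1) * cont α β s (n + 1) - β (s + n) * cont α β s n := by
  induction n using Nat.strong_induction_on with
  | _ n ih =>
    intro s
    match n, ih with
    | 0, _ => simp [cont]; ring
    | 1, _ =>
      simp only [cont]
      ring_nf
    | n + 2, ih =>
      have h1 := ih (n + 1) (by omega) (s + 1)
      have h2 := ih n (by omega) (s + 2)
      have e1 : cont α β s (n + 2 + 2) = α s * cont α β (s + 1) (n + 1 + 2) -
        β s * cont α β (s + 2) (n + 2) := by rw [cont]
      have e2 : cont α β s (n + 2 + 1) = α s * cont α β (s + 1) (n + 1 + 1) -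
        β s * cont α β (s + 2) (n + 1) := by rw [cont]
      have e3 : cont α β s (n + 2) = α s * cont α β (s + 1) (n + 1) -
        β s * cont α β (s + 2) n := by rw [cont]
      rw [show s + 1 + (n + 1) + 1 = s + (n + 2) + 1 by ring,
        show s + 1 + (n + 1) = s + (n + 2) by ring] at h1
      rw [show s + 2 + n + 1 = s + (n + 2) + 1 by ring,
        show s + 2 + n = s + (n + 2) by ring] at h2
      rw [e1, e2, e3, h1, h2]
      ring

end Pool.Agent.V11179.PfB
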