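import Mathlib
import Pool.Agent.V11179.PfDefs

/-!
Gaussian binomials and Rogers–Szegő polynomials.
-/

namespace Pool.Agent.V11179.PfB

variable {K : Type*} [Field K]

theorem qP_zero (q : K) : qP q 0 = 1 := by simp [qP]

theorem qP_succ (q : K) (m : ℕ) : qP q (m + 1) = qP q m * (1 - q ^ (m + 1)) := by
  unfold qP
  rw [Finset.prod_Icc_succ_top (by omega)]

theorem qP_ne {q : K} (hq : ∀ j : ℕ, 1 ≤ j → q ^ j ≠ 1) (m : ℕ) : qP q m ≠ 0 := by
  unfold qP
  apply Finset.prod_ne_zero_iff.2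
  intro i hi
  rw [Finset.mem_Icc] at hi
  exact sub_ne_zero.2 (hq i hi.1).symm

/-- Gaussian binomial, zero outside the range. -/
noncomputable def gz (q : K) (m k : ℕ) : K := if k ≤ m then gb q m k else 0

theorem gz_of_lt (q : K) {m k : ℕ} (h : m < k) : gz q m k = 0 := if_neg (by omega)

theorem gz_zero {q : K} (hq : ∀ j : ℕ, 1 ≤ j → q ^ j ≠ 1) (m : ℕ) : gz q m 0 = 1 := by
  rw [gz, if_pos (Nat.zero_le _), gb, qP_zero, one_mul, Nat.sub_zero, div_self (qP_ne hq m)]

theorem gz_self {q : K} (hq : ∀ j : ℕ, 1 ≤ j → q ^ j ≠ 1) (m : ℕ) : gz q m m = 1 := by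
  rw [gz, if_pos le_rfl, gb, Nat.sub_self, qP_zero, mul_one, div_self (qP_ne hq m)]

/-- `gz` in terms of `k` and `l = m - k`. -/
theorem gz_add (q : K) (k l : ℕ) : gz q (k + l) k = qP q (k + l) / (qP q k * qP q l) := by
  rw [gz, if_pos (by omega), gb, Nat.add_sub_cancel_left]

theorem gz_absorb {q : K} (hq : ∀ j : ℕ, 1 ≤ j → q ^ j ≠ 1) (m k : ℕ) :
    (1 - q ^ (k + 1)) * gz q (m + 1) (k + 1) = (1 - q ^ (m + 1)) * gz q m k := by
  rcases Nat.lt_or_ge m k with h | h
  · rw [gz_of_lt q h, gz_of_lt q (by omega)]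
    ring
  · obtain ⟨l, rfl⟩ := Nat.exists_eq_add_of_le h
    rw [show k + l + 1 = (k + 1) + l by ring, gz_add, gz_add, show k + 1 + l = k + l + 1 by ring,
      qP_succ, qP_succ]
    have h1 := qP_ne hq k
    have h2 := qP_ne hq l
    have h3 : (1 : K) - q ^ (k + 1) ≠ 0 := sub_ne_zero.2 (hq _ (by omega)).symm
    field_simp

theorem gz_right {q : K} (hq : ∀ j : ℕ, 1 ≤ j → q ^ j ≠ 1) (m k : ℕ) (hk : k ≤ m + 1) :
    (1 - q ^ (m + 1 - k)) * gz q (m + 1) k = (1 - q ^ (m + 1)) * gz q m k := by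
  rcases Nat.lt_or_ge m k with h | h
  · have : k = m + 1 := by omega
    subst this
    rw [gz_of_lt q (show m < m + 1 by omega), Nat.sub_self, pow_zero]
    ring
  · obtain ⟨l, rfl⟩ := Nat.exists_eq_add_of_le h
    rw [show k + l + 1 - k = l + 1 by omega, show k + l + 1 = k + (l + 1) by ring, gz_add, gz_add,
      show k + (l + 1) = k + l + 1 by ring, qP_succ, qP_succ]
    have h1 := qP_ne hq k
    have h2 := qP_ne hq l
    have h3 : (1 : K) - q ^ (l + 1) ≠ 0 := sub_ne_zero.2 (hq _ (by omega)).symm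
    field_simp

theorem gz_next {q : K} (hq : ∀ j : ℕ, 1 ≤ j → q ^ j ≠ 1) (m k : ℕ) (hk : k ≤ m) :
    (1 - q ^ (k + 1)) * gz q m (k + 1) = (1 - q ^ (m - k)) * gz q m k := by
  obtain ⟨l, rfl⟩ := Nat.exists_eq_add_of_le hk
  rcases l with _ | l
  · rw [gz_of_lt q (show k + 0 < k + 1 by omega), show k + 0 - k = 0 by omega, pow_zero]
    ring
  · rw [show k + (l + 1) - k = l + 1 by omega, gz_add, show k + (l + 1) = (k + 1) + l by ring,
      gz_add, qP_succ, qP_succ q l]
    have h1 := qP_ne hq k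
    have h2 := qP_ne hq l
    have h3 : (1 : K) - q ^ (l + 1) ≠ 0 := sub_ne_zero.2 (hq _ (by omega)).symm
    have h4 : (1 : K) - q ^ (k + 1) ≠ 0 := sub_ne_zero.2 (hq _ (by omega)).symm
    field_simp

theorem gz_pascal {q : K} (hq : ∀ j : ℕ, 1 ≤ j → q ^ j ≠ 1) (m k : ℕ) :
    gz q (m + 1) (k + 1) = gz q m k + q ^ (k + 1) * gz q m (k + 1) := by
  rcases Nat.lt_or_ge m k with h | h
  · rw [gz_of_lt q h, gz_of_lt q (by omega), gz_of_lt q (by omega)]
    ring
  · have h1 := gz_absorb hq m k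
    have h2 := gz_next hq m k h
    have h4 : (1 : K) - q ^ (k + 1) ≠ 0 := sub_ne_zero.2 (hq _ (by omega)).symm
    apply mul_left_cancel₀ h4
    rw [h1, mul_add, show (1 - q ^ (k + 1)) * (q ^ (k + 1) * gz q m (k + 1)) =
      q ^ (k + 1) * ((1 - q ^ (k + 1)) * gz q m (k + 1)) by ring, h2]
    obtain ⟨l, rfl⟩ := Nat.exists_eq_add_of_le h
    rw [show k + l - k = l by omega]
    ring

theorem gm_eq (a q : K) (r N : ℕ) (h : r < N) :
    gm a q r = ∑ j ∈ Finset.range N, gz q r j * a ^ j := by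
  unfold gm
  rw [← Finset.sum_subset (Finset.range_mono (show r + 1 ≤ N by omega))
    (f := fun j => gz q r j * a ^ j)]
  · apply Finset.sum_congr rfl
    intro j hj
    rw [Finset.mem_range] at hj
    rw [gz, if_pos (by omega)]
  · intro j _ hj
    rw [Finset.mem_range] at hj
    rw [gz_of_lt q (by omega), zero_mul]

theorem gm_zero {q : K} (hq : ∀ j : ℕ, 1 ≤ j → q ^ j ≠ 1) (a : K) : gm a q 0 = 1 := by
  rw [gm_eq a q 0 1 (by omega), Finset.sum_range_one, gz_zero hq]
  ring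

theorem gm_rec {q : K} (hq : ∀ j : ℕ, 1 ≤ j → q ^ j ≠ 1) (a : K) (r : ℕ) :
    gm a q (r + 1) = (1 + a) * gm a q r - a * (1 - q ^ r) * gm a q (r - 1) := by
  have h0 : gm a q (r + 1) = 1 + ∑ j ∈ Finset.range (r + 1),
      (gz q r j + q ^ (j + 1) * gz q r (j + 1)) * a ^ (j + 1) := by
    rw [gm_eq a q (r + 1) (r + 2) (by omega), Finset.sum_range_succ', gz_zero hq, pow_zero,
      mul_one, add_comm]
    congr 1
    apply Finset.sum_congr rfl
    intro j _
    rw [gz_pascal hq]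
  have h1 : a * gm a q r = ∑ j ∈ Finset.range (r + 1), gz q r j * a ^ (j + 1) := by
    rw [gm_eq a q r (r + 1) (by omega), Finset.mul_sum]
    apply Finset.sum_congr rfl
    intro j _
    ring
  have h2 : gm a q r = 1 + ∑ j ∈ Finset.range (r + 1), gz q r (j + 1) * a ^ (j + 1) := by
    rw [gm_eq a q r (r + 2) (by omega), Finset.sum_range_succ', gz_zero hq, pow_zero,
      mul_one, add_comm]
  have h3 : a * (1 - q ^ r) * gm a q (r - 1) = ∑ j ∈ Finset.range (r + 1),
      (1 - q ^ (j + 1)) * gz q r (j + 1) * a ^ (j + 1) := by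
    rcases r with _ | r
    · simp [gz_of_lt q (show 0 < 1 by omega)]
    · rw [Nat.add_sub_cancel, gm_eq a q r (r + 1 + 1) (by omega), Finset.mul_sum]
      apply Finset.sum_congr rfl
      intro j _
      rw [gz_absorb hq]
      ring
  rw [h0, h3]
  have h4 : (1 + a) * gm a q r = (1 + ∑ j ∈ Finset.range (r + 1), gz q r (j + 1) * a ^ (j + 1)) +
      ∑ j ∈ Finset.range (r + 1), gz q r j * a ^ (j + 1) := by
    rw [← h1, ← h2]
    ring
  rw [h4, add_assoc, add_sub_assoc, ← Finset.sum_add_distrib, ← Finset.sum_sub_distrib]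
  congr 1
  apply Finset.sum_congr rfl
  intro j _
  ring

/-- `S~_n`. -/
noncomputable def St (Q a : K) (n : ℕ) : K :=
  ∑ k ∈ Finset.range (n + 1), Q ^ (k.choose 2 + (n - k).choose 2) * gz Q n k * a ^ k

theorem St_eq (Q a : K) (n N : ℕ) (h : n < N) : St Q a n =
    ∑ k ∈ Finset.range N, Q ^ (k.choose 2 + (n - k).choose 2) * gz Q n k * a ^ k := by
  unfold St
  apply Finset.sum_subset (Finset.range_mono (show n + 1 ≤ N by omega))
  intro j _ hj
  rw [Finset.mem_range] at hj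
  rw [gz_of_lt Q (by omega), mul_zero, zero_mul]

theorem choose_two_succ (k : ℕ) : (k + 1).choose 2 = k.choose 2 + k := by
  rw [Nat.choose_succ_succ' k 1, Nat.choose_one_right]
  ring

theorem St_rec {Q : K} (hQ : ∀ j : ℕ, 1 ≤ j → Q ^ j ≠ 1) (a : K) (n : ℕ) :
    St Q a (n + 2) = (1 + a) * Q ^ (n + 1) * St Q a (n + 1) +
      a * Q ^ n * (1 - Q ^ (n + 1)) * St Q a n := by
  have h0 : St Q a (n + 2) = Q ^ ((n + 2).choose 2) + ∑ k ∈ Finset.range (n + 2),
      Q ^ ((k + 1).choose 2 + (n + 1 - k).choose 2) * gz Q (n + 2) (k + 1) * a ^ (k + 1) := by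
    rw [St_eq Q a (n + 2) (n + 3) (by omega), Finset.sum_range_succ', gz_zero hQ]
    rw [add_comm]
    congr 1
    · simp
    · apply Finset.sum_congr rfl
      intro k _
      rw [show n + 2 - (k + 1) = n + 1 - k by omega]
  have h1 : St Q a (n + 1) = Q ^ ((n + 1).choose 2) + ∑ k ∈ Finset.range (n + 2),
      Q ^ ((k + 1).choose 2 + (n - k).choose 2) * gz Q (n + 1) (k + 1) * a ^ (k + 1) := by
    rw [St_eq Q a (n + 1) (n + 3) (by omega), Finset.sum_range_succ', gz_zero hQ]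
    rw [add_comm]
    congr 1
    · simp
    · apply Finset.sum_congr rfl
      intro k _
      rw [show n + 1 - (k + 1) = n - k by omega]
  have h2 : a * St Q a (n + 1) = ∑ k ∈ Finset.range (n + 2),
      Q ^ (k.choose 2 + (n + 1 - k).choose 2) * gz Q (n + 1) k * a ^ (k + 1) := by
    rw [St_eq Q a (n + 1) (n + 2) (by omega), Finset.mul_sum]
    apply Finset.sum_congr rfl
    intro k _
    ring
  have h3 : a * St Q a n = ∑ k ∈ Finset.range (n + 2),
      Q ^ (k.choose 2 + (n - k).choose 2) * gz Q n k * a ^ (k + 1) := by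
    rw [St_eq Q a n (n + 2) (by omega), Finset.mul_sum]
    apply Finset.sum_congr rfl
    intro k _
    ring
  have h4 : (1 + a) * Q ^ (n + 1) * St Q a (n + 1) + a * Q ^ n * (1 - Q ^ (n + 1)) * St Q a n =
      Q ^ (n + 1) * St Q a (n + 1) + Q ^ (n + 1) * (a * St Q a (n + 1)) +
        Q ^ n * (1 - Q ^ (n + 1)) * (a * St Q a n) := by ring
  rw [h4, h2, h3, h0]
  nth_rewrite 1 [h1]
  rw [mul_add, Finset.mul_sum, Finset.mul_sum, Finset.mul_sum, add_assoc, add_assoc,
    ← Finset.sum_add_distrib, ← Finset.sum_add_distrib]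
  congr 1
  · rw [choose_two_succ (n + 1), pow_add]
    ring
  · apply Finset.sum_congr rfl
    intro k hk
    rw [Finset.mem_range] at hk
    rcases Nat.lt_or_ge n k with h | h
    · have hk' : k = n + 1 := by omega
      subst hk'
      rw [gz_of_lt Q (show n + 1 < n + 1 + 1 by omega), gz_of_lt Q (show n < n + 1 by omega),
        show n + 2 = n + 1 + 1 from rfl, gz_self hQ, gz_self hQ, choose_two_succ (n + 1)]
      simp only [Nat.sub_self]
      rw [show Nat.choose 0 2 = 0 from rfl, add_zero, add_zero, pow_add]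
      ring
    · obtain ⟨l, rfl⟩ := Nat.exists_eq_add_of_le h
      have e1 := gz_pascal hQ (k + l + 1) k
      have e2 := gz_right hQ (k + l) k (by omega)
      rw [show k + l + 1 - k = l + 1 by omega] at e2 ⊢
      rw [show k + l - k = l by omega, show k + l + 2 = k + l + 1 + 1 from rfl, e1,
        choose_two_succ k, choose_two_succ l]
      linear_combination (Q ^ (k.choose 2 + l.choose 2 + k + l) * a ^ (k + 1)) * e2

end Pool.Agent.V11179.PfB
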