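import Mathlib
import Pool.Agent.V11179.PfQ
import Pool.Agent.V11179.PfBand

/-!
Al-Salam–Carlitz polynomials and their moment functional.
-/

namespace Pool.Agent.V11179.PfB

open Polynomial

variable {K : Type*} [Field K]

/-- The linear extension of a sequence. -/
noncomputable def ext {M : Type*} [AddCommGroup M] [Module K M] (v : ℕ → M) : K[X] →ₗ[K] M :=
  Polynomial.lsum (fun n => LinearMap.toSpanSingleton K M (v n))

theorem ext_monomial {M : Type*} [AddCommGroup M] [Module K M] (v : ℕ → M) (n : ℕ) (c : K) :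
    ext v (monomial n c) = c • v n := by
  unfold ext
  rw [Polynomial.lsum_apply, Polynomial.sum_monomial_index _ _ (by simp)]
  rfl

theorem ext_X_pow {M : Type*} [AddCommGroup M] [Module K M] (v : ℕ → M) (n : ℕ) :
    ext v ((X : K[X]) ^ n) = v n := by
  rw [X_pow_eq_monomial, ext_monomial, one_smul]

theorem ext_C_mul {M : Type*} [AddCommGroup M] [Module K M] (v : ℕ → M) (c : K) (p : K[X]) :
    ext v (C c * p) = c • ext v p := by
  rw [← smul_eq_C_mul, map_smul]

/-- The moment functional. -/
noncomputable def L (a q : K) : K[X] →ₗ[K] K := ext (gm a q)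

/-- The `q`-difference operator `p ↦ (p(x) - p(q x)) / x`. -/
noncomputable def D (q : K) : K[X] →ₗ[K] K[X] := ext (fun n => C (1 - q ^ n) * X ^ (n - 1))

theorem D_X_mul (q : K) (p : K[X]) : D q (X * p) = C (1 - q) * p + C q * (X * D q p) := by
  induction p using Polynomial.induction_on' with
  | add p r hp hr =>
    rw [mul_add, map_add, hp, hr, map_add]
    ring
  | monomial n c =>
    rw [X_mul_monomial]
    unfold D
    rw [ext_monomial, ext_monomial, Nat.add_sub_cancel]
    rcases n with _ | n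
    · simp [smul_eq_C_mul]
      ring
    · rw [Nat.add_sub_cancel, smul_eq_C_mul, smul_eq_C_mul, ← C_mul_X_pow_eq_monomial]
      simp only [map_sub, map_pow, map_one]
      ring

/-- The Al-Salam–Carlitz polynomials. -/
noncomputable def U (a q : K) : ℕ → K[X]
  | 0 => 1
  | 1 => X - C (1 + a)
  | n + 2 => (X - C ((1 + a) * q ^ (n + 1))) * U a q (n + 1) +
      C (a * q ^ n * (1 - q ^ (n + 1))) * U a q n

theorem U_zero (a q : K) : U a q 0 = 1 := by rw [U]
theorem U_one (a q : K) : U a q 1 = X - C (1 + a) := by rw [U]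
theorem U_succ (a q : K) (n : ℕ) : U a q (n + 2) = (X - C ((1 + a) * q ^ (n + 1))) *
    U a q (n + 1) + C (a * q ^ n * (1 - q ^ (n + 1))) * U a q n := by rw [U]

theorem X_mul_U_zero (a q : K) : X * U a q 0 = U a q 1 + C (1 + a) * U a q 0 := by
  rw [U_zero, U_one]
  ring

theorem X_mul_U (a q : K) (n : ℕ) : X * U a q (n + 1) = U a q (n + 2) +
    C ((1 + a) * q ^ (n + 1)) * U a q (n + 1) - C (a * q ^ n * (1 - q ^ (n + 1))) * U a q n := by
  rw [U_succ]
  ring

theorem D_U_zero (a q : K) : D q (U a q 0) = 0 := by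
  rw [U_zero, ← pow_zero X]
  unfold D
  rw [ext_X_pow]
  simp

theorem D_C_mul (q c : K) (p : K[X]) : D q (C c * p) = C c * D q p := by
  unfold D
  rw [ext_C_mul, smul_eq_C_mul]

theorem D_U (a q : K) (n : ℕ) : D q (U a q (n + 1)) = C (1 - q ^ (n + 1)) * U a q n := by
  induction n using Nat.strong_induction_on with
  | _ n ih =>
    match n, ih with
    | 0, _ =>
      have h1 : D q (1 : K[X]) = 0 := by
        have := D_U_zero a q
        rwa [U_zero] at this
      rw [U_one, U_zero, map_sub, show (X : K[X]) = X * 1 by ring, D_X_mul,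
        show C (1 + a) = C (1 + a) * (1 : K[X]) by ring, D_C_mul, h1]
      simp
    | 1, ih =>
      have h0 := ih 0 (by omega)
      rw [U_succ, map_add, sub_mul, map_sub, D_X_mul, D_C_mul, D_C_mul, D_U_zero, h0,
        U_one, U_zero]
      simp only [map_sub, map_mul, map_add, map_pow, map_one]
      ring
    | n + 2, ih =>
      have h1 := ih (n + 1) (by omega)
      have h0 := ih n (by omega)
      rw [U_succ a q (n + 1), map_add, sub_mul, map_sub, D_X_mul, D_C_mul, D_C_mul, h1, h0]
      have h2 := U_succ a q n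
      simp only [map_sub, map_mul, map_add, map_pow, map_one] at h2 ⊢
      linear_combination (-(C q : K[X]) * (1 - C q ^ (n + 2))) * h2

/-- Coefficients of the expansion of `x^n`. -/
noncomputable def cf (a q : K) (n k : ℕ) : K := gz q n k * gm a q (n - k)

theorem cf_of_lt (a q : K) {n k : ℕ} (h : n < k) : cf a q n k = 0 := by
  rw [cf, gz_of_lt q h, zero_mul]

theorem cf_self {q : K} (hq : ∀ j : ℕ, 1 ≤ j → q ^ j ≠ 1) (a : K) (n : ℕ) : cf a q n n = 1 := by
  rw [cf, gz_self hq, Nat.sub_self, gm_zero hq, one_mul]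

theorem cf_zero {q : K} (hq : ∀ j : ℕ, 1 ≤ j → q ^ j ≠ 1) (a : K) (n : ℕ) :
    cf a q n 0 = gm a q n := by
  rw [cf, gz_zero hq, one_mul, Nat.sub_zero]

theorem cf_succ_zero {q : K} (hq : ∀ j : ℕ, 1 ≤ j → q ^ j ≠ 1) (a : K) (n : ℕ) :
    cf a q (n + 1) 0 = (1 + a) * cf a q n 0 - a * (1 - q) * cf a q n 1 := by
  rw [cf_zero hq, cf_zero hq, cf, gm_rec hq]
  have h := gz_next hq n 0 (Nat.zero_le _)
  rw [gz_zero hq, zero_add, pow_one, Nat.sub_zero, mul_one] at h
  linear_combination (a * gm a q (n - 1)) * h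

theorem cf_succ_succ {q : K} (hq : ∀ j : ℕ, 1 ≤ j → q ^ j ≠ 1) (a : K) (n k : ℕ) :
    cf a q (n + 1) (k + 1) = cf a q n k + (1 + a) * q ^ (k + 1) * cf a q n (k + 1) -
      a * q ^ (k + 1) * (1 - q ^ (k + 2)) * cf a q n (k + 2) := by
  unfold cf
  rw [gz_pascal hq, show n + 1 - (k + 1) = n - k by omega]
  rcases Nat.lt_or_ge k n with h | h
  · obtain ⟨l, rfl⟩ := Nat.exists_eq_add_of_le (show k + 1 ≤ n from h)
    have h1 := gz_next hq (k + 1 + l) (k + 1) (by omega)
    rw [show k + 1 + l - (k + 1) = l by omega] at h1 ⊢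
    rw [show k + 1 + l - k = l + 1 by omega, show k + 1 + l - (k + 2) = l - 1 by omega,
      gm_rec hq a l]
    rw [show k + 1 + 1 = k + 2 by rfl] at h1
    linear_combination (a * q ^ (k + 1) * gm a q (l - 1)) * h1
  · rw [gz_of_lt q (show n < k + 1 by omega), gz_of_lt q (show n < k + 2 by omega)]
    ring

theorem X_pow_eq {q : K} (hq : ∀ j : ℕ, 1 ≤ j → q ^ j ≠ 1) (a : K) (n : ℕ) :
    (X : K[X]) ^ n = ∑ k ∈ Finset.range (n + 1), C (cf a q n k) * U a q k := by
  induction n with
  | zero => rw [Finset.sum_range_one, cf_self hq, U_zero]; simp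
  | succ n ih =>
    have h1 : (X : K[X]) ^ (n + 1) = ∑ k ∈ Finset.range (n + 1),
        C (cf a q n k) * (X * U a q k) := by
      rw [pow_succ', ih, Finset.mul_sum]
      apply Finset.sum_congr rfl
      intro k _
      ring
    -- extend all sums
    have e1 : ∑ k ∈ Finset.range (n + 1), C (cf a q n k) * (X * U a q k) =
        ∑ k ∈ Finset.range (n + 1), C (cf a q n k) * U a q (k + 1) +
        (C (cf a q n 0 * (1 + a)) * U a q 0 + ∑ k ∈ Finset.range n,
          C (cf a q n (k + 1) * ((1 + a) * q ^ (k + 1))) * U a q (k + 1)) -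
        ∑ k ∈ Finset.range n, C (cf a q n (k + 1) * (a * q ^ k * (1 - q ^ (k + 1)))) *
          U a q k := by
      rw [Finset.sum_range_succ' _ n, Finset.sum_range_succ' _ n, X_mul_U_zero]
      simp only [X_mul_U]
      have : ∀ x ∈ Finset.range n, C (cf a q n (x + 1)) * (U a q (x + 2) +
          C ((1 + a) * q ^ (x + 1)) * U a q (x + 1) -
            C (a * q ^ x * (1 - q ^ (x + 1))) * U a q x) =
          C (cf a q n (x + 1)) * U a q (x + 1 + 1) +
          C (cf a q n (x + 1) * ((1 + a) * q ^ (x + 1))) * U a q (x + 1) -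
          C (cf a q n (x + 1) * (a * q ^ x * (1 - q ^ (x + 1)))) * U a q x := by
        intro x _
        simp only [map_sub, map_mul, map_add, map_pow, map_one]
        ring
      rw [Finset.sum_congr rfl this, Finset.sum_sub_distrib, Finset.sum_add_distrib]
      simp only [map_mul, map_add, map_one]
      ring
    have e2 : ∑ k ∈ Finset.range n,
          C (cf a q n (k + 1) * ((1 + a) * q ^ (k + 1))) * U a q (k + 1) =
        ∑ k ∈ Finset.range (n + 1),
          C (cf a q n (k + 1) * ((1 + a) * q ^ (k + 1))) * U a q (k + 1) := by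
      rw [Finset.sum_range_succ, cf_of_lt a q (show n < n + 1 by omega)]
      simp
    have e3 : ∑ k ∈ Finset.range n, C (cf a q n (k + 1) * (a * q ^ k * (1 - q ^ (k + 1)))) *
          U a q k = C (cf a q n 1 * (a * (1 - q))) * U a q 0 +
          ∑ k ∈ Finset.range (n + 1), C (cf a q n (k + 2) *
            (a * q ^ (k + 1) * (1 - q ^ (k + 2)))) * U a q (k + 1) := by
      have : ∑ k ∈ Finset.range n, C (cf a q n (k + 1) * (a * q ^ k * (1 - q ^ (k + 1)))) *
          U a q k = ∑ k ∈ Finset.range (n + 1 + 1),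
          C (cf a q n (k + 1) * (a * q ^ k * (1 - q ^ (k + 1)))) * U a q k := by
        rw [Finset.sum_range_succ, Finset.sum_range_succ, cf_of_lt a q (show n < n + 1 by omega),
          cf_of_lt a q (show n < n + 1 + 1 by omega)]
        simp
      rw [this, Finset.sum_range_succ', add_comm]
      congr 1
      simp
    rw [h1, e1, e2, e3, Finset.sum_range_succ' _ (n + 1), cf_succ_zero hq]
    simp only [cf_succ_succ hq]
    have : ∀ x ∈ Finset.range (n + 1), C (cf a q n x + (1 + a) * q ^ (x + 1) * cf a q n (x + 1) -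
        a * q ^ (x + 1) * (1 - q ^ (x + 2)) * cf a q n (x + 2)) * U a q (x + 1) =
        C (cf a q n x) * U a q (x + 1) +
        C (cf a q n (x + 1) * ((1 + a) * q ^ (x + 1))) * U a q (x + 1) -
        C (cf a q n (x + 2) * (a * q ^ (x + 1) * (1 - q ^ (x + 2)))) * U a q (x + 1) := by
      intro x _
      simp only [map_sub, map_mul, map_add, map_pow, map_one]
      ring
    rw [Finset.sum_congr rfl this, Finset.sum_sub_distrib, Finset.sum_add_distrib]
    simp only [map_sub, map_mul, map_add, map_one]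
    ring

theorem L_C_mul (a q c : K) (p : K[X]) : L a q (C c * p) = c * L a q p := by
  unfold L
  rw [ext_C_mul, smul_eq_mul]

theorem L_U_zero {q : K} (hq : ∀ j : ℕ, 1 ≤ j → q ^ j ≠ 1) (a : K) : L a q (U a q 0) = 1 := by
  rw [U_zero, ← pow_zero X]
  unfold L
  rw [ext_X_pow, gm_zero hq]

theorem L_U {q : K} (hq : ∀ j : ℕ, 1 ≤ j → q ^ j ≠ 1) (a : K) (n : ℕ) :
    L a q (U a q (n + 1)) = 0 := by
  induction n using Nat.strong_induction_on with
  | _ n ih =>
    have h1 := congrArg (L a q) (X_pow_eq hq a (n + 1))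
    rw [map_sum, Finset.sum_range_succ, Finset.sum_range_succ', Finset.sum_eq_zero] at h1
    · rw [L_C_mul, L_C_mul, L_U_zero hq, cf_self hq, cf_zero hq] at h1
      have h2 : L a q ((X : K[X]) ^ (n + 1)) = gm a q (n + 1) := by
        unfold L
        rw [ext_X_pow]
      rw [h2] at h1
      linear_combination -h1
    · intro k hk
      rw [L_C_mul, ih k (Finset.mem_range.1 hk), mul_zero]

end Pool.Agent.V11179.PfB
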