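import Mathlib
import Pool.Agent.V11179.PfASC

/-!
Orthogonality of the Al-Salam–Carlitz polynomials and the evaluation of the Pfaffians.
-/

namespace Pool.Agent.V11179.PfB

open Polynomial

variable {K : Type*} [Field K]

/-- The norms. -/
noncomputable def hn (a q : K) (n : ℕ) : K :=
  ∏ i ∈ Finset.range n, (-(a * q ^ i * (1 - q ^ (i + 1))))

theorem hn_succ (a q : K) (n : ℕ) : hn a q (n + 1) = hn a q n * (-(a * q ^ n * (1 - q ^ (n + 1)))) := by
  unfold hn
  rw [Finset.prod_range_succ]

theorem orth {q : K} (hq : ∀ j : ℕ, 1 ≤ j → q ^ j ≠ 1) (a : K) (m : ℕ) :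
    (∀ n, m < n → L a q (U a q m * U a q n) = 0) ∧
      L a q (U a q m * U a q m) = hn a q m := by
  induction m using Nat.strong_induction_on with
  | _ m ih =>
    match m, ih with
    | 0, _ =>
      constructor
      · intro n hn'
        obtain ⟨k, rfl⟩ := Nat.exists_eq_add_of_le (show 1 ≤ n from hn')
        rw [U_zero, one_mul, add_comm, L_U hq]
      · have h := L_U_zero hq a
        rw [U_zero] at h ⊢
        rw [one_mul, h]
        simp [hn]
    | 1, _ =>
      constructor
      · intro n hn'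
        obtain ⟨k, rfl⟩ := Nat.exists_eq_add_of_le (show 2 ≤ n from hn')
        have h1 := X_mul_U a q (k + 1)
        have h2 : U a q 1 * U a q (2 + k) = X * U a q (k + 1 + 1) -
            C (1 + a) * U a q (k + 1 + 1) := by
          rw [U_one, show 2 + k = k + 1 + 1 by ring]
          ring
        rw [h2, h1, map_sub, map_sub, map_add, L_C_mul, L_C_mul, L_C_mul,
          show k + 1 + 2 = (k + 2) + 1 by ring, L_U hq, L_U hq, L_U hq]
        ring
      · have h1 := X_mul_U a q 0
        have h2 : U a q 1 * U a q 1 = X * U a q (0 + 1) - C (1 + a) * U a q (0 + 1) := by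
          nth_rewrite 1 [U_one]
          ring
        rw [h2, h1]
        rw [map_sub, map_sub, map_add, L_C_mul, L_C_mul, L_C_mul, L_U_zero hq,
          show 0 + 2 = 1 + 1 by rfl, L_U hq, L_U hq]
        simp [hn]
    | m + 2, ih =>
      obtain ⟨h1, h1'⟩ := ih (m + 1) (by omega)
      obtain ⟨h0, -⟩ := ih m (by omega)
      have key : ∀ k, m + 1 ≤ k → L a q (U a q (m + 2) * U a q (k + 1)) =
          -(a * q ^ k * (1 - q ^ (k + 1))) * L a q (U a q (m + 1) * U a q k) := by
        intro k hk
        have h2 : U a q (m + 2) * U a q (k + 1) = U a q (m + 1) * (X * U a q (k + 1)) -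
            C ((1 + a) * q ^ (m + 1)) * (U a q (m + 1) * U a q (k + 1)) +
            C (a * q ^ m * (1 - q ^ (m + 1))) * (U a q m * U a q (k + 1)) := by
          rw [U_succ]
          ring
        have h3 : U a q (m + 1) * (X * U a q (k + 1)) = U a q (m + 1) * U a q (k + 2) +
            C ((1 + a) * q ^ (k + 1)) * (U a q (m + 1) * U a q (k + 1)) -
            C (a * q ^ k * (1 - q ^ (k + 1))) * (U a q (m + 1) * U a q k) := by
          rw [X_mul_U]
          ring
        rw [h2, h3, map_add, map_sub, map_sub, map_add, L_C_mul, L_C_mul, L_C_mul, L_C_mul,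
          h1 (k + 2) (by omega), h1 (k + 1) (by omega), h0 (k + 1) (by omega)]
        ring
      constructor
      · intro n hn'
        obtain ⟨k, rfl⟩ := Nat.exists_eq_add_of_le (show m + 3 ≤ n from hn')
        rw [show m + 3 + k = (m + 2 + k) + 1 by ring, key (m + 2 + k) (by omega),
          h1 _ (by omega), mul_zero]
      · rw [key (m + 1) le_rfl, h1', hn_succ a q (m + 1)]
        ring

section

variable {q : K} (hq : ∀ j : ℕ, 1 ≤ j → q ^ j ≠ 1) (a : K)
include hq

theorem LUU_lt {m n : ℕ} (h : m < n) : L a q (U a q m * U a q n) = 0 := (orth hq a m).1 n h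

theorem LUU_gt {m n : ℕ} (h : n < m) : L a q (U a q m * U a q n) = 0 := by
  rw [mul_comm]
  exact LUU_lt hq a h

theorem LUU_self (m : ℕ) : L a q (U a q m * U a q m) = hn a q m := (orth hq a m).2

theorem LX_far {m n : ℕ} (h : m + 1 < n) : L a q (X * (U a q m * U a q n)) = 0 := by
  rcases m with _ | m
  · rw [← mul_assoc, X_mul_U_zero, add_mul, map_add, mul_assoc, L_C_mul, LUU_lt hq a h,
      LUU_lt hq a (show 0 < n by omega)]
    ring
  · rw [← mul_assoc, X_mul_U, sub_mul, add_mul, map_sub, map_add, mul_assoc, mul_assoc, L_C_mul,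
      L_C_mul, LUU_lt hq a (show m + 2 < n by omega), LUU_lt hq a (show m + 1 < n by omega),
      LUU_lt hq a (show m < n by omega)]
    ring

theorem LX_next (m : ℕ) : L a q (X * (U a q m * U a q (m + 1))) = hn a q (m + 1) := by
  rcases m with _ | m
  · rw [← mul_assoc, X_mul_U_zero, add_mul, map_add, mul_assoc, L_C_mul, LUU_self hq a,
      LUU_lt hq a (show 0 < 0 + 1 by omega)]
    ring
  · rw [← mul_assoc, X_mul_U, sub_mul, add_mul, map_sub, map_add, mul_assoc, mul_assoc, L_C_mul,
      L_C_mul, LUU_lt hq a (show m + 1 < m + 1 + 1 by omega),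
      LUU_lt hq a (show m < m + 1 + 1 by omega), show m + 2 = m + 1 + 1 by rfl, LUU_self hq a]
    ring

theorem LX_self (m : ℕ) : L a q (X * (U a q m * U a q m)) = (1 + a) * q ^ m * hn a q m := by
  rcases m with _ | m
  · rw [← mul_assoc, X_mul_U_zero, add_mul, map_add, mul_assoc, L_C_mul, LUU_self hq a,
      LUU_gt hq a (show 0 < 1 by omega)]
    ring
  · rw [← mul_assoc, X_mul_U, sub_mul, add_mul, map_sub, map_add, mul_assoc, mul_assoc, L_C_mul,
      L_C_mul, LUU_gt hq a (show m + 1 < m + 2 by omega), LUU_lt hq a (show m < m + 1 by omega),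
      LUU_self hq a]
    ring

end

/-- The matrix of the skew form in the basis of Al-Salam–Carlitz polynomials. -/
noncomputable def TT (r : ℕ) (a q : K) (m l : ℕ) : K :=
  L a q (X ^ r * (U a q m * D q (U a q l) - D q (U a q m) * U a q l))

theorem TT_skew (r : ℕ) (a q : K) (m l : ℕ) : TT r a q m l = - TT r a q l m := by
  unfold TT
  rw [← map_neg]
  congr 1
  ring

section

variable {q : K} (hq : ∀ j : ℕ, 1 ≤ j → q ^ j ≠ 1) (a : K)
include hq

omit hq in
/-- First part. -/
theorem TT_split (r m l : ℕ) : TT r a q m (l + 1) =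
    (1 - q ^ (l + 1)) * L a q (X ^ r * (U a q m * U a q l)) -
      L a q (X ^ r * (D q (U a q m) * U a q (l + 1))) := by
  unfold TT
  rw [mul_sub, map_sub, D_U]
  congr 1
  rw [← L_C_mul]
  congr 1
  ring

omit hq in
theorem second_zero (r l : ℕ) : L a q (X ^ r * (D q (U a q 0) * U a q l)) = 0 := by
  rw [D_U_zero, zero_mul, mul_zero, map_zero]

omit hq in
theorem second_succ (r m l : ℕ) : L a q (X ^ r * (D q (U a q (m + 1)) * U a q l)) =
    (1 - q ^ (m + 1)) * L a q (X ^ r * (U a q m * U a q l)) := by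
  rw [D_U, ← L_C_mul]
  congr 1
  ring

theorem TT0_next (m : ℕ) : TT 0 a q m (m + 1) = (1 - q ^ (m + 1)) * hn a q m := by
  rw [TT_split, pow_zero, one_mul, LUU_self hq a]
  rcases m with _ | m
  · have := second_zero (q := q) a 0 1
    rw [pow_zero] at this
    rw [zero_add, this]
    ring
  · have := second_succ (q := q) a 0 m (m + 1 + 1)
    rw [pow_zero, one_mul, one_mul, LUU_lt hq a (show m < m + 1 + 1 by omega)] at this
    rw [one_mul, this]
    ring

theorem TT0_far {m l : ℕ} (h : m + 2 ≤ l) : TT 0 a q m l = 0 := by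
  obtain ⟨k, rfl⟩ : ∃ k, l = k + 1 := ⟨l - 1, by omega⟩
  rw [TT_split, pow_zero, one_mul, LUU_lt hq a (show m < k by omega)]
  rcases m with _ | m
  · have := second_zero (q := q) a 0 (k + 1)
    rw [pow_zero] at this
    rw [this]
    ring
  · have := second_succ (q := q) a 0 m (k + 1)
    rw [pow_zero, one_mul, one_mul, LUU_lt hq a (by omega)] at this
    rw [one_mul, this]
    ring

theorem TT1_next (m : ℕ) : TT 1 a q m (m + 1) =
    (1 - q ^ (m + 1)) * ((1 + a) * q ^ m * hn a q m) := by
  rw [TT_split, pow_one, LX_self hq a]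
  rcases m with _ | m
  · have := second_zero (q := q) a 1 1
    rw [pow_one] at this
    rw [zero_add, this]
    ring
  · have := second_succ (q := q) a 1 m (m + 1 + 1)
    rw [pow_one, LX_far hq a (show m + 1 < m + 1 + 1 by omega)] at this
    rw [this]
    ring

theorem TT1_next2 (m : ℕ) : TT 1 a q m (m + 2) = (1 - q ^ (m + 2)) * hn a q (m + 1) := by
  rw [TT_split, pow_one, LX_next hq a]
  rcases m with _ | m
  · have := second_zero (q := q) a 1 (0 + 1 + 1)
    rw [pow_one] at this
    rw [this]
    ring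
  · have := second_succ (q := q) a 1 m (m + 1 + 1 + 1)
    rw [pow_one, LX_far hq a (show m + 1 < m + 1 + 1 + 1 by omega)] at this
    rw [this]
    ring

theorem TT1_far {m l : ℕ} (h : m + 3 ≤ l) : TT 1 a q m l = 0 := by
  obtain ⟨k, rfl⟩ : ∃ k, l = k + 1 := ⟨l - 1, by omega⟩
  rw [TT_split, pow_one, LX_far hq a (show m + 1 < k by omega)]
  rcases m with _ | m
  · have := second_zero (q := q) a 1 (k + 1)
    rw [pow_one] at this
    rw [this]
    ring
  · have := second_succ (q := q) a 1 m (k + 1)
    rw [pow_one, LX_far hq a (show m + 1 < k + 1 by omega)] at this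
    rw [this]
    ring

theorem X_pow_fin (N : ℕ) (i : Fin N) :
    (X : K[X]) ^ (i : ℕ) = ∑ k : Fin N, C (cf a q i k) * U a q k := by
  rw [X_pow_eq hq a i, Finset.sum_range]
  rw [Fin.sum_univ_eq_sum_range (fun k => C (cf a q i k) * U a q k) N,
    Fin.sum_univ_eq_sum_range (fun k => C (cf a q i k) * U a q k) (i + 1)]
  apply Finset.sum_subset (Finset.range_mono (show (i : ℕ) + 1 ≤ N by omega))
  intro j _ hj
  rw [Finset.mem_range] at hj
  rw [cf_of_lt a q (by omega)]
  simp

/-- The change of basis matrix. -/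
noncomputable def PM (a q : K) (N : ℕ) : Matrix (Fin N) (Fin N) K :=
  Matrix.of fun i k => cf a q i k

omit hq in
/-- The Gram matrix in the monomial basis. -/
noncomputable def GM (r : ℕ) (a q : K) (N : ℕ) : Matrix (Fin N) (Fin N) K :=
  Matrix.of fun i j => L a q (X ^ r * (X ^ (i : ℕ) * D q (X ^ (j : ℕ)) -
    D q (X ^ (i : ℕ)) * X ^ (j : ℕ)))

theorem gram (r N : ℕ) : GM r a q N = PM a q N * win (TT r a q) 0 N * (PM a q N).transpose := by
  ext i j
  rw [Matrix.mul_apply]
  simp only [Matrix.mul_apply, Matrix.transpose_apply]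
  simp only [GM, PM, Matrix.of_apply, win, zero_add]
  have hD : ∀ i : Fin N, D q ((X : K[X]) ^ (i : ℕ)) = ∑ k : Fin N,
      C (cf a q i k) * D q (U a q k) := by
    intro i
    rw [X_pow_fin hq a N i, map_sum]
    apply Finset.sum_congr rfl
    intro k _
    rw [D_C_mul]
  rw [hD i, hD j, X_pow_fin hq a N i, X_pow_fin hq a N j]
  rw [Finset.sum_mul_sum, Finset.sum_mul_sum, ← Finset.sum_sub_distrib, Finset.mul_sum, map_sum]
  simp only [Finset.sum_mul]
  rw [Finset.sum_comm]
  apply Finset.sum_congr rfl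
  intro x _
  rw [← Finset.sum_sub_distrib, Finset.mul_sum, map_sum]
  apply Finset.sum_congr rfl
  intro y _
  unfold TT
  have e : cf a q i x * L a q (X ^ r * (U a q x * D q (U a q y) - D q (U a q x) * U a q y)) *
      cf a q j y = (cf a q i x * cf a q j y) *
      L a q (X ^ r * (U a q x * D q (U a q y) - D q (U a q x) * U a q y)) := by ring
  rw [e, ← L_C_mul]
  congr 1
  rw [C_mul]
  ring

theorem det_PM (N : ℕ) : (PM a q N).det = 1 := by
  rw [Matrix.det_of_isLowerTriangular]
  · apply Finset.prod_eq_one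
    intro i _
    simp only [PM, Matrix.of_apply]
    exact cf_self hq a i
  · intro i j hij
    simp only [PM, Matrix.of_apply]
    apply cf_of_lt
    simpa using hij

open Pool.Agent.Helper929

variable [CharZero K]

theorem pf_GM (r N : ℕ) : pf N (GM r a q N) = pf N (win (TT r a q) 0 N) := by
  rw [gram hq a r N, pf_gram (win (TT r a q) 0 N) (fun i j => TT_skew r a q _ _) (PM a q N),
    det_PM hq a N, one_mul]

/-- `D_n`. -/
noncomputable def Dn (a q : K) (n : ℕ) : K :=
  ∏ k ∈ Finset.range n, (1 - q ^ (2 * k + 1)) * hn a q (2 * k)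

theorem pf_GM0 (n : ℕ) : pf (2 * n) (GM 0 a q (2 * n)) = Dn a q n := by
  rw [pf_GM hq a, show win (TT 0 a q) 0 (2 * n) = win (TT 0 a q) (2 * 0) (2 * n) from rfl,
    pf_win_cont _ (fun i j h => TT0_far hq a (by omega))]
  induction n using Nat.strong_induction_on with
  | _ n ih =>
    match n, ih with
    | 0, _ => simp [cont, Dn]
    | 1, _ =>
      simp only [cont, Dn, Finset.prod_range_one]
      rw [TT0_next hq a]
    | n + 2, ih =>
      rw [cont_back, ih (n + 1) (by omega), TT0_far hq a (m := 2 * (0 + n)) (by omega), Dn, Dn,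
        Finset.prod_range_succ _ (n + 1), zero_add, TT0_next hq a]
      ring

omit [CharZero K] in
theorem hn_odd (n : ℕ) : hn a q (2 * n + 1) = -(a * q ^ (2 * n) * (1 - q ^ (2 * n + 1))) *
    hn a q (2 * n) := by
  rw [hn_succ]
  ring

theorem pf_GM1 (n : ℕ) : pf (2 * n) (GM 1 a q (2 * n)) = Dn a q n * St (q ^ 2) a n := by
  have hQ : ∀ j : ℕ, 1 ≤ j → (q ^ 2) ^ j ≠ 1 := by
    intro j hj
    rw [← pow_mul]
    exact hq _ (by omega)
  rw [pf_GM hq a, show win (TT 1 a q) 0 (2 * n) = win (TT 1 a q) (2 * 0) (2 * n) from rfl,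
    pf_win_cont _ (fun i j h => TT1_far hq a (by omega))]
  induction n using Nat.strong_induction_on with
  | _ n ih =>
    match n, ih with
    | 0, _ =>
      simp [cont, Dn, St, gz_zero hQ]
    | 1, _ =>
      simp only [cont, Dn, Finset.prod_range_one]
      rw [TT1_next hq a, St, Finset.sum_range_succ, Finset.sum_range_one, gz_zero hQ, gz_self hQ]
      simp
      ring
    | n + 2, ih =>
      rw [cont_back, ih (n + 1) (by omega), ih n (by omega), St_rec hQ, zero_add,
        TT1_next hq a, TT1_next2 hq a]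
      have h1 : TT 1 a q (2 * n + 1) (2 * n + 3) = (1 - q ^ (2 * n + 3)) * hn a q (2 * n + 2) :=
        TT1_next2 hq a (2 * n + 1)
      rw [h1, hn_odd hq a]
      have h2 : Dn a q (n + 2) = Dn a q (n + 1) * ((1 - q ^ (2 * (n + 1) + 1)) *
        hn a q (2 * (n + 1))) := Finset.prod_range_succ _ _
      have h3 : Dn a q (n + 1) = Dn a q n * ((1 - q ^ (2 * n + 1)) * hn a q (2 * n)) :=
        Finset.prod_range_succ _ _
      rw [h2, h3, show 2 * (n + 1) + 1 = 2 * n + 3 by ring, show 2 * (n + 1) = 2 * n + 2 by ring,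
        ← pow_mul, ← pow_mul]
      ring

end

end Pool.Agent.V11179.PfB
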