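import Mathlib
import Pool.Agent.V11179.PfOrth

/-!
Closed forms and exponents.
-/

namespace Pool.Agent.V11179.PfB

variable {K : Type*} [Field K]

theorem hn_closed (a q : K) (n : ℕ) : hn a q n = (-a) ^ n * q ^ (n.choose 2) * qP q n := by
  induction n with
  | zero => simp [hn, qP]
  | succ n ih =>
    rw [hn_succ, ih, qP_succ, choose_two_succ, pow_succ, pow_add]
    ring

/-- exponent -/
def EE (n : ℕ) : ℕ := ∑ k ∈ Finset.range n, (2 * k).choose 2

theorem Dn_closed (a q : K) (n : ℕ) : Dn a q n = a ^ (n * (n - 1)) * q ^ EE n * Pn q n := by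
  induction n with
  | zero => simp [Dn, EE, Pn]
  | succ n ih =>
    have h1 : Dn a q (n + 1) = Dn a q n * ((1 - q ^ (2 * n + 1)) * hn a q (2 * n)) :=
      Finset.prod_range_succ _ _
    have h2 : Pn q (n + 1) = Pn q n * qP q (2 * n + 1) := by
      unfold Pn
      rw [Finset.prod_Icc_succ_top (by omega), show 2 * (n + 1) - 1 = 2 * n + 1 by omega]
    have h3 : EE (n + 1) = EE n + (2 * n).choose 2 := Finset.sum_range_succ _ _
    have h4 : (n + 1) * (n + 1 - 1) = n * (n - 1) + 2 * n := by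
      rcases n with _ | n
      · rfl
      · simp only [Nat.add_sub_cancel]
        ring
    rw [h1, ih, h2, h3, h4, hn_closed, qP_succ, pow_add, pow_add, Even.neg_pow (even_two_mul n)]
    ring

theorem two_choose (k : ℕ) : (2 * (k.choose 2 : ℕ) : ℤ) = k * (k - 1) := by
  induction k with
  | zero => simp
  | succ k ih =>
    rw [choose_two_succ]
    push_cast
    linear_combination ih

theorem EE_eq (n : ℕ) : 6 * (EE n : ℤ) = n * (n - 1) * (4 * n - 5) := by
  induction n with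
  | zero => simp [EE]
  | succ n ih =>
    have h3 : EE (n + 1) = EE n + (2 * n).choose 2 := Finset.sum_range_succ _ _
    have h4 := two_choose (2 * n)
    rw [h3]
    push_cast at h4 ⊢
    linear_combination ih + 3 * h4

theorem en_eq (n : ℕ) : en n = ((EE n + 2 * (n / 2) * ((n - 1) / 2) : ℕ) : ℤ) := by
  have h := EE_eq n
  rcases Nat.even_or_odd' n with ⟨m, rfl | rfl⟩
  · rcases m with _ | m
    · simp [en, EE]
    · have e1 : 2 * (m + 1) / 2 = m + 1 := by omega
      have e2 : (2 * (m + 1) - 1) / 2 = m := by omega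
      unfold en
      rw [e1, e2, Even.neg_one_pow (even_two_mul (m + 1))]
      push_cast at h ⊢
      have h5 : ((m : ℤ) + 1) * (16 * ((m : ℤ) + 1) ^ 2 - 1) = 3 * ((EE (2 * (m + 1)) : ℤ) +
          2 * (m + 1) * m + 4 * (m + 1) ^ 2) := by
        have h6 : (2 : ℤ) * (((m : ℤ) + 1) * (16 * ((m : ℤ) + 1) ^ 2 - 1)) =
          2 * (3 * ((EE (2 * (m + 1)) : ℤ) + 2 * (m + 1) * m + 4 * (m + 1) ^ 2)) := by
          linear_combination -h
        linarith
      rw [h5, Int.mul_ediv_cancel_left _ (by norm_num)]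
      ring
  · have e1 : (2 * m + 1) / 2 = m := by omega
    have e2 : (2 * m + 1 - 1) / 2 = m := by omega
    unfold en
    rw [e1, e2, Odd.neg_one_pow ⟨m, rfl⟩]
    push_cast at h ⊢
    have h5 : (m : ℤ) * (16 * (m : ℤ) ^ 2 - 1) = 3 * ((EE (2 * m + 1) : ℤ) + 2 * m * m -
        4 * m ^ 2) := by
      have h6 : (2 : ℤ) * ((m : ℤ) * (16 * (m : ℤ) ^ 2 - 1)) =
        2 * (3 * ((EE (2 * m + 1) : ℤ) + 2 * m * m - 4 * m ^ 2)) := by
        linear_combination -h
      linarith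
    rw [h5, Int.mul_ediv_cancel_left _ (by norm_num)]
    ring

theorem ck_eq (n k : ℕ) (hk : k ≤ n) : ck n k + 2 * ((n / 2 : ℕ) : ℤ) * (((n - 1) / 2 : ℕ) : ℤ) =
    2 * ((k.choose 2 + (n - k).choose 2 : ℕ) : ℤ) := by
  have h1 := two_choose k
  have h2 := two_choose (n - k)
  rw [Nat.cast_sub hk] at h2
  rw [Nat.cast_add, mul_add, h1, h2]
  unfold ck
  rcases Nat.even_or_odd' n with ⟨m, rfl | rfl⟩
  · rcases m with _ | m
    · have : k = 0 := by omega
      subst this
      simp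
    · have e1 : 2 * (m + 1) / 2 = m + 1 := by omega
      have e2 : (2 * (m + 1) - 1) / 2 = m := by omega
      rw [e1, e2]
      push_cast
      have h5 : (2 * ((m : ℤ) + 1) - 2 * k) ^ 2 = 2 * (2 * ((m : ℤ) + 1 - k) ^ 2) := by ring
      rw [h5, Int.mul_ediv_cancel_left _ (by norm_num)]
      ring
  · have e1 : (2 * m + 1) / 2 = m := by omega
    have e2 : (2 * m + 1 - 1) / 2 = m := by omega
    rw [e1, e2]
    push_cast
    have h5 : (2 * (m : ℤ) + 1 - 2 * k) ^ 2 = 1 + 2 * (2 * ((m : ℤ) - k) ^ 2 + 2 * (m - k)) := by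
      ring
    rw [h5, Int.add_mul_ediv_left _ _ (by norm_num)]
    norm_num
    ring

theorem sum_eq (a q : K) (n : ℕ) :
    q ^ EE n * St (q ^ 2) a n =
      q ^ en n * ∑ k ∈ Finset.range (n + 1), q ^ ck n k * gb (q ^ 2) n k * a ^ k := by
  unfold St
  rw [Finset.mul_sum, Finset.mul_sum]
  apply Finset.sum_congr rfl
  intro k hk
  rw [Finset.mem_range] at hk
  have h1 := ck_eq n k (by omega)
  have h2 : 0 ≤ ck n k := Int.ediv_nonneg (sq_nonneg _) (by norm_num)
  obtain ⟨c, hc⟩ := Int.eq_ofNat_of_zero_le h2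
  have h3 : EE n + 2 * (k.choose 2 + (n - k).choose 2) =
      (EE n + 2 * (n / 2) * ((n - 1) / 2)) + c := by
    rw [hc] at h1
    have : ((c + 2 * (n / 2) * ((n - 1) / 2) : ℕ) : ℤ) =
      ((2 * (k.choose 2 + (n - k).choose 2) : ℕ) : ℤ) := by
      push_cast at h1 ⊢
      linarith
    have h4 := Int.ofNat_inj.1 this
    omega
  rw [en_eq, hc, zpow_natCast, zpow_natCast, gz, if_pos (show k ≤ n by omega), ← pow_mul]
  calc q ^ EE n * (q ^ (2 * (k.choose 2 + (n - k).choose 2)) * gb (q ^ 2) n k * a ^ k)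
      = q ^ (EE n + 2 * (k.choose 2 + (n - k).choose 2)) * gb (q ^ 2) n k * a ^ k := by
        rw [pow_add q (EE n)]
        ring
    _ = _ := by
        rw [h3, pow_add q _ c]
        ring

theorem L_X_pow (a q : K) (n : ℕ) : L a q (Polynomial.X ^ n) = gm a q n := ext_X_pow _ _

theorem GM0_apply (a q : K) (N : ℕ) : GM 0 a q N =
    Matrix.of fun i j : Fin N => (q ^ (i : ℕ) - q ^ (j : ℕ)) * gm a q (i + j - 1) := by
  ext i j
  simp only [GM, Matrix.of_apply]
  unfold D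
  rw [ext_X_pow, ext_X_pow, pow_zero, one_mul, map_sub]
  have h1 : L a q (Polynomial.X ^ (i : ℕ) * (Polynomial.C (1 - q ^ (j : ℕ)) *
      Polynomial.X ^ ((j : ℕ) - 1))) = (1 - q ^ (j : ℕ)) * gm a q (i + j - 1) := by
    rw [← L_X_pow, ← L_C_mul]
    rcases Nat.eq_zero_or_pos (j : ℕ) with h | h
    · rw [h]
      simp
    · rw [show (i : ℕ) + j - 1 = i + (j - 1) by omega, pow_add]
      congr 1
      ring
  have h2 : L a q (Polynomial.C (1 - q ^ (i : ℕ)) * Polynomial.X ^ ((i : ℕ) - 1) *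
      Polynomial.X ^ (j : ℕ)) = (1 - q ^ (i : ℕ)) * gm a q (i + j - 1) := by
    rw [← L_X_pow, ← L_C_mul]
    rcases Nat.eq_zero_or_pos (i : ℕ) with h | h
    · rw [h]
      simp
    · rw [show (i : ℕ) + j - 1 = (i - 1) + j by omega, pow_add]
      congr 1
      ring
  rw [h1, h2]
  ring

theorem GM1_apply (a q : K) (N : ℕ) : GM 1 a q N =
    Matrix.of fun i j : Fin N => (q ^ (i : ℕ) - q ^ (j : ℕ)) * gm a q (i + j) := by
  ext i j
  simp only [GM, Matrix.of_apply]
  unfold D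
  rw [ext_X_pow, ext_X_pow, pow_one, mul_sub, map_sub]
  have h1 : L a q (Polynomial.X * (Polynomial.X ^ (i : ℕ) * (Polynomial.C (1 - q ^ (j : ℕ)) *
      Polynomial.X ^ ((j : ℕ) - 1)))) = (1 - q ^ (j : ℕ)) * gm a q (i + j) := by
    rw [← L_X_pow, ← L_C_mul]
    rcases Nat.eq_zero_or_pos (j : ℕ) with h | h
    · rw [h]
      simp
    · rw [show (i : ℕ) + j = 1 + (i + (j - 1)) by omega, pow_add, pow_add]
      congr 1
      ring
  have h2 : L a q (Polynomial.X * (Polynomial.C (1 - q ^ (i : ℕ)) * Polynomial.X ^ ((i : ℕ) - 1) *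
      Polynomial.X ^ (j : ℕ))) = (1 - q ^ (i : ℕ)) * gm a q (i + j) := by
    rw [← L_X_pow, ← L_C_mul]
    rcases Nat.eq_zero_or_pos (i : ℕ) with h | h
    · rw [h]
      simp
    · rw [show (i : ℕ) + j = 1 + ((i - 1) + j) by omega, pow_add, pow_add]
      congr 1
      ring
  rw [h1, h2]
  ring

open Pool.Agent.Helper929

theorem main [CharZero K] (a q : K) (hq : ∀ j : ℕ, 1 ≤ j → q ^ j ≠ 1) (n : ℕ) :
    pf (2 * n) (Matrix.of fun i j : Fin (2 * n) =>
      (q ^ (i : ℕ) - q ^ (j : ℕ)) * gm a q (i + j - 1)) =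
      a ^ (n * (n - 1)) *
        q ^ (en n - 2 * ((n / 2 : ℕ) : ℤ) * (((n - 1) / 2 : ℕ) : ℤ)) * Pn q n ∧
    pf (2 * n) (Matrix.of fun i j : Fin (2 * n) =>
      (q ^ (i : ℕ) - q ^ (j : ℕ)) * gm a q (i + j)) =
      a ^ (n * (n - 1)) * q ^ en n * Pn q n *
        ∑ k ∈ Finset.range (n + 1), q ^ ck n k * gb (q ^ 2) n k * a ^ k := by
  constructor
  · rw [← GM0_apply, pf_GM0 hq a n, Dn_closed]
    congr 2
    rw [en_eq, ← zpow_natCast]
    congr 1
    push_cast
    ring
  · rw [← GM1_apply, pf_GM1 hq a n, Dn_closed]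
    have h := sum_eq a q n
    linear_combination (a ^ (n * (n - 1)) * Pn q n) * h

end Pool.Agent.V11179.PfB
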