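import Mathlib
import Pool.Agent.V11179.PfDefs
import Pool.Agent.Helper929.Pfaffian

/-!
The Pfaffian as a sum over permutations.
-/

namespace Pool.Agent.V11179.PfB

open Pool.Agent.Helper929 Equiv

variable {K : Type*} [Field K]

/-- The permutation with `0 ↦ p` and `i + 1 ↦ p.succAbove (σ i)`. -/
def ins {m : ℕ} (p : Fin (m + 1)) (σ : Perm (Fin m)) : Perm (Fin (m + 1)) :=
  p.cycleRange.symm * Perm.decomposeFin.symm (0, σ)

theorem ins_zero {m : ℕ} (p : Fin (m + 1)) (σ : Perm (Fin m)) : ins p σ 0 = p := by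
  unfold ins
  rw [Perm.coe_mul, Function.comp_apply, Perm.decomposeFin_symm_apply_zero,
    Fin.cycleRange_symm_zero]

theorem ins_succ {m : ℕ} (p : Fin (m + 1)) (σ : Perm (Fin m)) (i : Fin m) :
    ins p σ i.succ = p.succAbove (σ i) := by
  unfold ins
  rw [Perm.coe_mul, Function.comp_apply, Perm.decomposeFin_symm_apply_succ, Equiv.swap_self,
    Equiv.refl_apply, Fin.cycleRange_symm_succ]

theorem sign_ins {m : ℕ} (p : Fin (m + 1)) (σ : Perm (Fin m)) :
    ((Perm.sign (ins p σ) : ℤ) : K) = (-1) ^ (p : ℕ) * ((Perm.sign σ : ℤ) : K) := by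
  unfold ins
  rw [Perm.sign_mul, Perm.decomposeFin.symm_sign, Perm.sign_symm, Fin.sign_cycleRange]
  simp

theorem sum_ins {m : ℕ} (f : Perm (Fin (m + 1)) → K) :
    ∑ τ, f τ = ∑ p : Fin (m + 1), ∑ σ : Perm (Fin m), f (ins p σ) := by
  rw [← Fintype.sum_prod_type']
  symm
  apply Fintype.sum_bijective (fun x : Fin (m + 1) × Perm (Fin m) => ins x.1 x.2)
  · rw [Fintype.bijective_iff_injective_and_card]
    constructor
    · rintro ⟨p, σ⟩ ⟨r, τ⟩ h
      simp only at h
      have h1 : p = r := by rw [← ins_zero p σ, h, ins_zero]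
      subst h1
      have h2 : σ = τ := by
        ext i
        have h3 : ins p σ i.succ = ins p τ i.succ := by rw [h]
        rw [ins_succ, ins_succ] at h3
        rw [Fin.succAbove_right_injective h3]
      rw [h2]
    · rw [Fintype.card_prod, Fintype.card_fin, Fintype.card_perm, Fintype.card_perm,
        Fintype.card_fin, Fintype.card_fin, Nat.factorial_succ]
  · intro x
    rfl

/-- The sum over permutations. -/
def psum (n : ℕ) (A : Matrix (Fin (2 * n)) (Fin (2 * n)) K) : K :=
  ∑ σ : Perm (Fin (2 * n)), ((Perm.sign σ : ℤ) : K) *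
      ∏ k : Fin n, A (σ ⟨2 * k, by omega⟩) (σ ⟨2 * k + 1, by omega⟩)

theorem pf_submatrix [CharZero K] {n : ℕ} (A : Matrix (Fin n) (Fin n) K)
    (hA : ∀ i j, A i j = - A j i) (σ : Perm (Fin n)) :
    pf n (A.submatrix σ σ) = ((Perm.sign σ : ℤ) : K) * pf n A := by
  have h := pf_gram A hA (σ.permMatrix K)
  have h1 : σ.permMatrix K * A * (σ.permMatrix K).transpose = A.submatrix σ σ := by
    rw [Matrix.transpose_permMatrix, Equiv.Perm.permMatrix, Equiv.Perm.permMatrix,
      PEquiv.toMatrix_toPEquiv_mul, PEquiv.mul_toMatrix_toPEquiv]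
    rfl
  rw [h1] at h
  rw [h, Matrix.det_permutation]

theorem psum_eq [CharZero K] (n : ℕ) : ∀ (A : Matrix (Fin (2 * n)) (Fin (2 * n)) K)
    (_ : ∀ i j, A i j = - A j i), psum n A = 2 ^ n * (n.factorial : K) * pf (2 * n) A := by
  induction n with
  | zero =>
    intro A _
    have h : pf (2 * 0) A = 1 := rfl
    rw [h]
    unfold psum
    simp
  | succ n ih =>
    intro A hA
    have h1 : psum (n + 1) A = ∑ p : Fin (2 * n + 1 + 1), ∑ r : Fin (2 * n + 1),
        (-1) ^ (p : ℕ) * ((-1) ^ (r : ℕ) * A p (p.succAbove r) *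
          psum n (A.submatrix (fun k => p.succAbove (r.succAbove k))
            (fun k => p.succAbove (r.succAbove k)))) := by
      unfold psum
      have e := sum_ins (m := 2 * n + 1) (fun σ : Perm (Fin (2 * n + 1 + 1)) =>
        ((Perm.sign σ : ℤ) : K) * ∏ k : Fin (n + 1), A (σ (⟨2 * k, by omega⟩ : Fin (2 * n + 1 + 1)))
          (σ (⟨2 * k + 1, by omega⟩ : Fin (2 * n + 1 + 1))))
      refine Eq.trans e ?_
      apply Finset.sum_congr rfl
      intro p _
      rw [sum_ins]
      apply Finset.sum_congr rfl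
      intro r _
      rw [Finset.mul_sum, Finset.mul_sum]
      apply Finset.sum_congr rfl
      intro σ _
      rw [sign_ins, sign_ins, Fin.prod_univ_succ]
      have e0 : (⟨2 * ((0 : Fin (n + 1)) : ℕ), by simp⟩ : Fin (2 * n + 1 + 1)) = 0 := by
        ext; simp
      have e1 : (⟨2 * ((0 : Fin (n + 1)) : ℕ) + 1, by simp⟩ : Fin (2 * n + 1 + 1)) =
        Fin.succ 0 := by
        ext; simp
      rw [e0, e1, ins_zero, ins_succ, ins_zero]
      have e2 : ∀ k : Fin n, (⟨2 * ((k.succ : Fin (n + 1)) : ℕ), by
          have := k.2; simp; omega⟩ : Fin (2 * n + 1 + 1)) =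
          (Fin.succ (Fin.succ ⟨2 * k, by omega⟩)) := by
        intro k; ext; simp only [Fin.val_succ]; ring
      have e3 : ∀ k : Fin n, (⟨2 * ((k.succ : Fin (n + 1)) : ℕ) + 1, by
          have := k.2; rw [Fin.val_succ]; omega⟩ : Fin (2 * n + 1 + 1)) =
          (Fin.succ (Fin.succ ⟨2 * k + 1, by omega⟩)) := by
        intro k; ext; simp only [Fin.val_succ]; ring
      simp only [e2, e3, ins_succ, Matrix.submatrix_apply]
      ring
    have h2 : ∀ p : Fin (2 * n + 1 + 1), ∑ r : Fin (2 * n + 1),
        (-1) ^ (p : ℕ) * ((-1) ^ (r : ℕ) * A p (p.succAbove r) *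
          psum n (A.submatrix (fun k => p.succAbove (r.succAbove k))
            (fun k => p.succAbove (r.succAbove k)))) =
        2 ^ n * (n.factorial : K) * pf (2 * (n + 1)) A := by
      intro p
      have h3 := pf_submatrix A hA p.cycleRange.symm
      have h4 : pf (2 * n + 1 + 1) (A.submatrix p.cycleRange.symm p.cycleRange.symm) =
          ∑ r : Fin (2 * n + 1), (-1) ^ (r : ℕ) * A p (p.succAbove r) *
          pf (2 * n) (A.submatrix (fun k => p.succAbove (r.succAbove k))
            (fun k => p.succAbove (r.succAbove k))) := by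
        rw [pf]
        apply Finset.sum_congr rfl
        intro r _
        rw [Matrix.submatrix_apply, Fin.cycleRange_symm_zero, Fin.cycleRange_symm_succ,
          Matrix.submatrix_submatrix]
        congr 3
        · funext k
          simp
        · funext k
          simp
      have h5 : ∀ r : Fin (2 * n + 1), psum n (A.submatrix (fun k => p.succAbove (r.succAbove k))
            (fun k => p.succAbove (r.succAbove k))) = 2 ^ n * (n.factorial : K) *
            pf (2 * n) (A.submatrix (fun k => p.succAbove (r.succAbove k))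
            (fun k => p.succAbove (r.succAbove k))) := by
        intro r
        apply ih
        intro i j
        exact hA _ _
      simp only [h5]
      have h6 : ((Perm.sign (p.cycleRange.symm : Perm (Fin (2 * n + 1 + 1))) : ℤ) : K) =
          (-1) ^ (p : ℕ) := by
        rw [Perm.sign_symm, Fin.sign_cycleRange]
        simp
      have h7 : ((-1 : K) ^ (p : ℕ)) * (-1) ^ (p : ℕ) = 1 := by
        rw [← mul_pow]
        simp
      calc ∑ r : Fin (2 * n + 1), (-1) ^ (p : ℕ) * ((-1) ^ (r : ℕ) * A p (p.succAbove r) *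
            (2 ^ n * (n.factorial : K) * pf (2 * n) (A.submatrix
              (fun k => p.succAbove (r.succAbove k)) (fun k => p.succAbove (r.succAbove k)))))
          = (-1) ^ (p : ℕ) * (2 ^ n * (n.factorial : K)) *
            pf (2 * n + 1 + 1) (A.submatrix p.cycleRange.symm p.cycleRange.symm) := by
            rw [h4, Finset.mul_sum]
            apply Finset.sum_congr rfl
            intro r _
            ring
        _ = _ := by
            have h8 : pf (2 * n + 1 + 1) (A.submatrix p.cycleRange.symm p.cycleRange.symm) =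
              (-1) ^ (p : ℕ) * pf (2 * (n + 1)) A := by
              rw [← h6]
              exact h3
            rw [h8]
            linear_combination (2 ^ n * (n.factorial : K) * pf (2 * (n + 1)) A) * h7
    rw [h1, Finset.sum_congr rfl (fun p _ => h2 p), Finset.sum_const, Finset.card_univ,
      Fintype.card_fin, nsmul_eq_mul, Nat.factorial_succ]
    push_cast
    ring

theorem pfaff_eq [CharZero K] (n : ℕ) (A : Matrix (Fin (2 * n)) (Fin (2 * n)) K)
    (hA : ∀ i j, A i j = - A j i) : pfaff n A = pf (2 * n) A := by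
  have h := psum_eq n A hA
  have h1 : (2 ^ n * (n.factorial : K)) ≠ 0 :=
    mul_ne_zero (pow_ne_zero _ two_ne_zero) (Nat.cast_ne_zero.2 (Nat.factorial_ne_zero n))
  unfold pfaff
  unfold psum at h
  rw [h, one_div, inv_mul_cancel_left₀ h1]

end Pool.Agent.V11179.PfB
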