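import Pool.Agent.V11179.ApnSound

set_option maxRecDepth 100000

namespace Pool.Agent.V11179.ApnSearch

/-- multiplication by the generator on the codes of the field with 32 elements -/
def m1 (a : ℕ) : ℕ := (a <<< 1) ^^^ (bif a.testBit 4 then 37 else 0)
/-- multiplication by the inverse of the generator -/
def m2 (a : ℕ) : ℕ := (a >>> 1) ^^^ (bif a.testBit 0 then 18 else 0)

/-- the symmetry -/
def sg (x : ℕ) : ℕ := m1 (x % 32) + 32 * m2 (x / 32)

theorem m1_lt : ∀ a : Fin 32, m1 a < 32 := by decide +kernel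
theorem m2_lt : ∀ a : Fin 32, m2 a < 32 := by decide +kernel
theorem m1_add : ∀ a b : Fin 32, m1 (a.val ^^^ b.val) = m1 a ^^^ m1 b := by decide +kernel
theorem m2_add : ∀ a b : Fin 32, m2 (a.val ^^^ b.val) = m2 a ^^^ m2 b := by decide +kernel

theorem xor_split {a b c d : ℕ} (ha : a < 32) (hc : c < 32) :
    (a + 32 * b) ^^^ (c + 32 * d) = (a ^^^ c) + 32 * (b ^^^ d) := by
  apply Nat.eq_of_testBit_eq
  intro i
  have h5 : (32 : ℕ) = 2 ^ 5 := by norm_num
  have hac : a ^^^ c < 2 ^ 5 := Nat.xor_lt_two_pow (n := 5) (by omega) (by omega)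
  rw [Nat.testBit_xor, Nat.add_comm a, Nat.add_comm c, Nat.add_comm (a ^^^ c), h5,
    Nat.testBit_two_pow_mul_add b (by omega), Nat.testBit_two_pow_mul_add d (by omega),
    Nat.testBit_two_pow_mul_add _ hac]
  split_ifs <;> simp [Nat.testBit_xor]

theorem sg_lt (x : ℕ) (hx : x < 1024) : sg x < 1024 := by
  unfold sg
  have h1 := m1_lt ⟨x % 32, Nat.mod_lt _ (by norm_num)⟩
  have h2 := m2_lt ⟨x / 32, by omega⟩
  simp only at h1 h2
  omega

theorem sg_add (x y : ℕ) (hx : x < 1024) (hy : y < 1024) : sg (x ^^^ y) = sg x ^^^ sg y := by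
  unfold sg
  have hx1 : x % 32 < 32 := Nat.mod_lt _ (by norm_num)
  have hy1 : y % 32 < 32 := Nat.mod_lt _ (by norm_num)
  have hx2 : x / 32 < 32 := by omega
  have hy2 : y / 32 < 32 := by omega
  have hxe : x = x % 32 + 32 * (x / 32) := by omega
  have hye : y = y % 32 + 32 * (y / 32) := by omega
  have hxor : x ^^^ y = (x % 32 ^^^ y % 32) + 32 * (x / 32 ^^^ y / 32) := by
    conv_lhs => rw [hxe, hye]
    exact xor_split hx1 hy1
  have hlt : x % 32 ^^^ y % 32 < 32 := Nat.xor_lt_two_pow (n := 5) hx1 hy1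
  have hmod : (x ^^^ y) % 32 = x % 32 ^^^ y % 32 := by omega
  have hdiv : (x ^^^ y) / 32 = x / 32 ^^^ y / 32 := by omega
  rw [hmod, hdiv]
  have h1 := m1_add ⟨x % 32, hx1⟩ ⟨y % 32, hy1⟩
  have h2 := m2_add ⟨x / 32, hx2⟩ ⟨y / 32, hy2⟩
  simp only at h1 h2
  rw [h1, h2, xor_split (m1_lt ⟨x % 32, hx1⟩) (m1_lt ⟨y % 32, hy1⟩)]

theorem sg_zero_iff : ∀ x : Fin 1024, sg x = 0 → x.val = 0 := by decide +kernel

theorem sgi_lt (j : ℕ) : ∀ x < 1024, sg^[j] x < 1024 := by
  induction j with
  | zero => intro x hx; simpa using hx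
  | succ j ih =>
    intro x hx
    rw [Function.iterate_succ_apply]
    exact ih _ (sg_lt x hx)

theorem sgi_add (j : ℕ) : ∀ x < 1024, ∀ y < 1024, sg^[j] (x ^^^ y) = sg^[j] x ^^^ sg^[j] y := by
  induction j with
  | zero => intro x _ y _; rfl
  | succ j ih =>
    intro x hx y hy
    rw [Function.iterate_succ_apply, Function.iterate_succ_apply, Function.iterate_succ_apply,
      sg_add x y hx hy, ih _ (sg_lt x hx) _ (sg_lt y hy)]

theorem sgi_zero (j : ℕ) : ∀ x < 1024, sg^[j] x = 0 → x = 0 := by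
  induction j with
  | zero => intro x _ h; simpa using h
  | succ j ih =>
    intro x hx h
    rw [Function.iterate_succ_apply] at h
    exact sg_zero_iff ⟨x, hx⟩ (ih _ (sg_lt x hx) h)

theorem sgi_inj (j : ℕ) (x y : ℕ) (hx : x < 1024) (hy : y < 1024) (h : sg^[j] x = sg^[j] y) :
    x = y := by
  have h1 := sgi_add j x hx y hy
  rw [h, Nat.xor_self] at h1
  have h2 := sgi_zero j _ (xlt hx hy) h1
  exact Nat.xor_eq_zero_iff.mp h2

/-- there is an affine flat inside the set with mask `C` -/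
def Bad (C : ℕ) : Prop := ∃ (𝒦 : Finset ℕ) (w : ℕ), w < 1024 ∧ (∀ x ∈ 𝒦, x < 1024) ∧
  (∀ x ∈ 𝒦, ∀ y ∈ 𝒦, x ^^^ y ∈ 𝒦) ∧ 𝒦.card = 32 ∧ ∀ x ∈ 𝒦, C.testBit (x ^^^ w) = true

theorem bad_step (C C' w0 : ℕ) (hw0 : w0 < 1024) (hs : lvl 5 (xs C w0) [0] 0 = true)
    (hinv : ∀ x : Fin 1024, C.testBit x = true → C.testBit (sg x) = true)
    (htr : ∀ x : Fin 1024, C.testBit x = true → C'.testBit x = false →
      ∃ j : Fin 31, sg^[j.val] x = w0) (h : Bad C) : Bad C' := by
  obtain ⟨𝒦, w, hw, hb, hc, hcard, hC⟩ := h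
  by_cases hall : ∀ x ∈ 𝒦, C'.testBit (x ^^^ w) = true
  · exact ⟨𝒦, w, hw, hb, hc, hcard, hall⟩
  · exfalso
    push Not at hall
    obtain ⟨k, hk, hk2⟩ := hall
    have hk2' : C'.testBit (k ^^^ w) = false := by simpa using hk2
    obtain ⟨j, hj⟩ := htr ⟨k ^^^ w, xlt (hb k hk) hw⟩ (hC k hk) hk2'
    simp only at hj
    have hinvj : ∀ i : ℕ, ∀ x < 1024, C.testBit x = true → C.testBit (sg^[i] x) = true := by
      intro i
      induction i with
      | zero => intro x _ h; simpa using h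
      | succ i ih =>
        intro x hx h
        rw [Function.iterate_succ_apply]
        exact ih _ (sg_lt x hx) (hinv ⟨x, hx⟩ h)
    refine root_sound C w0 hw0 hs (𝒦.image (sg^[j.val])) ?_ ?_ ?_ ?_
    · intro x hx
      rw [Finset.mem_image] at hx
      obtain ⟨y, hy, rfl⟩ := hx
      exact sgi_lt _ _ (hb y hy)
    · intro x hx y hy
      rw [Finset.mem_image] at hx hy ⊢
      obtain ⟨x', hx', rfl⟩ := hx
      obtain ⟨y', hy', rfl⟩ := hy
      exact ⟨x' ^^^ y', hc _ hx' _ hy', sgi_add _ _ (hb _ hx') _ (hb _ hy')⟩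
    · rw [Finset.card_image_of_injOn, hcard]
      intro x hx y hy hxy
      exact sgi_inj _ _ _ (hb _ hx) (hb _ hy) hxy
    · intro x hx
      rw [Finset.mem_image] at hx
      obtain ⟨x', hx', rfl⟩ := hx
      have hx1 := hb _ hx'
      have hk1 := hb _ hk
      rw [← hj, ← sgi_add _ _ hx1 _ (xlt hk1 hw)]
      apply hinvj
      · exact xlt hx1 (xlt hk1 hw)
      · rw [← Nat.xor_assoc]
        exact hC _ (hc _ hx' _ hk)

theorem not_bad_zero : ¬ Bad 0 := by
  rintro ⟨𝒦, w, _, _, _, hcard, h⟩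
  have hne : 𝒦.Nonempty := by
    rw [← Finset.card_pos]; omega
  obtain ⟨x, hx⟩ := hne
  have := h x hx
  simp at this

theorem not_bad : ¬ Bad C0 := by
  intro h0
  have h1 := bad_step C0 C1 769 (by norm_num) s0 (by decide +kernel) (by decide +kernel) h0
  have h2 := bad_step C1 C2 801 (by norm_num) s1 (by decide +kernel) (by decide +kernel) h1
  have h3 := bad_step C2 C3 641 (by norm_num) s2 (by decide +kernel) (by decide +kernel) h2
  have h4 := bad_step C3 C4 929 (by norm_num) s3 (by decide +kernel) (by decide +kernel) h3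
  have h5 := bad_step C4 C5 897 (by norm_num) s4 (by decide +kernel) (by decide +kernel) h4
  have h6 := bad_step C5 C6 385 (by norm_num) s5 (by decide +kernel) (by decide +kernel) h5
  have h7 := bad_step C6 C7 833 (by norm_num) s6 (by decide +kernel) (by decide +kernel) h6
  have h8 := bad_step C7 C8 673 (by norm_num) s7 (by decide +kernel) (by decide +kernel) h7
  have h9 := bad_step C8 C9 545 (by norm_num) s8 (by decide +kernel) (by decide +kernel) h8
  have h10 := bad_step C9 C10 161 (by norm_num) s9 (by decide +kernel) (by decide +kernel) h9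
  have h11 := bad_step C10 C11 737 (by norm_num) s10 (by decide +kernel) (by decide +kernel) h10
  have h12 := bad_step C11 C12 97 (by norm_num) s11 (by decide +kernel) (by decide +kernel) h11
  have h13 := bad_step C12 C13 193 (by norm_num) s12 (by decide +kernel) (by decide +kernel) h12
  have h14 := bad_step C13 C14 705 (by norm_num) s13 (by decide +kernel) (by decide +kernel) h13
  have h15 := bad_step C14 C15 225 (by norm_num) s14 (by decide +kernel) (by decide +kernel) h14
  have h16 := bad_step C15 C16 1 (by norm_num) s15 (by decide +kernel) (by decide +kernel) h15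
  have h17 := bad_step C16 C17 32 (by norm_num) s16 (by decide +kernel) (by decide +kernel) h16
  exact not_bad_zero h17

/-- inversion on the codes of the field with 32 elements -/
def T (x : ℕ) : ℕ := (TN >>> (5 * x)) % 32

theorem T_apn : ∀ a : Fin 32, a.val ≠ 0 → ∀ b : Fin 32,
    (Finset.univ.filter (fun x : Fin 32 => T (x.val ^^^ a.val) ^^^ T x.val = b.val)).card ≤ 2 := by
  decide +kernel

theorem T_lt : ∀ x : Fin 32, T x.val < 32 := by decide +kernel

theorem T_diff : ∀ z : Fin 1024, C0.testBit z = false → z.val ≠ 0 →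
    ∃ x : Fin 32, T x ^^^ T (x.val ^^^ (z.val % 32)) = z.val / 32 := by decide +kernel

end Pool.Agent.V11179.ApnSearch
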