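import Pool.Agent.V11179.ApnSearch

set_option maxRecDepth 100000

namespace Pool.Agent.V11179.ApnSearch

/-! ### soundness of the mask operations -/

theorem maskfact (M s : ℕ) (i : ℕ)
    (hA : ∀ y : Fin 1024, M.testBit y = !(y.val.testBit i))
    (hB : ∀ y : Fin 1024, y.val.testBit i = true →
      s ≤ y.val ∧ y.val ^^^ s = y.val - s ∧ M.testBit (y.val - s) = true)
    (hC : ∀ y : Fin 1024, y.val.testBit i = false →
      y.val ^^^ s = y.val + s ∧ (s ≤ y.val → M.testBit (y.val - s) = false))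
    (m y : ℕ) (hy : y < 1024) : (swp m M s).testBit y = m.testBit (y ^^^ s) := by
  have a := hA ⟨y, hy⟩
  have b := hB ⟨y, hy⟩
  have c := hC ⟨y, hy⟩
  simp only at a b c
  unfold swp
  rw [Nat.testBit_or, Nat.testBit_and, Nat.testBit_shiftRight, Nat.testBit_shiftLeft,
    Nat.testBit_and]
  cases h : y.testBit i
  · obtain ⟨c1, c2⟩ := c h
    rw [a, h, c1]
    by_cases hs : s ≤ y
    · rw [c2 hs]
      simp [Nat.add_comm]
    · simp [hs, Nat.add_comm]
  · obtain ⟨b1, b2, b3⟩ := b h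
    rw [a, h, b2, b3]
    simp [b1]

theorem swp0 (m y : ℕ) (hy : y < 1024) : (swp m M0 1).testBit y = m.testBit (y ^^^ 1) :=
  maskfact M0 1 0 (by decide +kernel) (by decide +kernel) (by decide +kernel) m y hy
theorem swp1 (m y : ℕ) (hy : y < 1024) : (swp m M1 2).testBit y = m.testBit (y ^^^ 2) :=
  maskfact M1 2 1 (by decide +kernel) (by decide +kernel) (by decide +kernel) m y hy
theorem swp2 (m y : ℕ) (hy : y < 1024) : (swp m M2 4).testBit y = m.testBit (y ^^^ 4) :=
  maskfact M2 4 2 (by decide +kernel) (by decide +kernel) (by decide +kernel) m y hy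
theorem swp3 (m y : ℕ) (hy : y < 1024) : (swp m M3 8).testBit y = m.testBit (y ^^^ 8) :=
  maskfact M3 8 3 (by decide +kernel) (by decide +kernel) (by decide +kernel) m y hy
theorem swp4 (m y : ℕ) (hy : y < 1024) : (swp m M4 16).testBit y = m.testBit (y ^^^ 16) :=
  maskfact M4 16 4 (by decide +kernel) (by decide +kernel) (by decide +kernel) m y hy
theorem swp5 (m y : ℕ) (hy : y < 1024) : (swp m M5 32).testBit y = m.testBit (y ^^^ 32) :=
  maskfact M5 32 5 (by decide +kernel) (by decide +kernel) (by decide +kernel) m y hy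
theorem swp6 (m y : ℕ) (hy : y < 1024) : (swp m M6 64).testBit y = m.testBit (y ^^^ 64) :=
  maskfact M6 64 6 (by decide +kernel) (by decide +kernel) (by decide +kernel) m y hy
theorem swp7 (m y : ℕ) (hy : y < 1024) : (swp m M7 128).testBit y = m.testBit (y ^^^ 128) :=
  maskfact M7 128 7 (by decide +kernel) (by decide +kernel) (by decide +kernel) m y hy
theorem swp8 (m y : ℕ) (hy : y < 1024) : (swp m M8 256).testBit y = m.testBit (y ^^^ 256) :=
  maskfact M8 256 8 (by decide +kernel) (by decide +kernel) (by decide +kernel) m y hy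
theorem swp9 (m y : ℕ) (hy : y < 1024) : (swp m M9 512).testBit y = m.testBit (y ^^^ 512) :=
  maskfact M9 512 9 (by decide +kernel) (by decide +kernel) (by decide +kernel) m y hy

theorem xlt {a b : ℕ} (ha : a < 1024) (hb : b < 1024) : a ^^^ b < 1024 :=
  Nat.xor_lt_two_pow (n := 10) ha hb

/-- the part of `x` consisting of the bit `i` -/
def bt (x i : ℕ) : ℕ := bif x.testBit i then 2 ^ i else 0

theorem step_aux (b : Bool) (m m' y s : ℕ) (z : ℕ)
    (h1 : b = true → (m'.testBit y = m.testBit (y ^^^ s)))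
    (h2 : z = bif b then s else 0) :
    (bif b then m' else m).testBit y = m.testBit (y ^^^ z) := by
  subst h2
  cases b
  · simp
  · simpa using h1 rfl

theorem xs_testBit (m x y : ℕ) (hx : x < 1024) (hy : y < 1024) :
    (xs m x).testBit y = m.testBit (y ^^^ x) := by
  have e0 : ∀ y < 1024, (xs.xs0 m x).testBit y = m.testBit (y ^^^ bt x 0) := fun y hy =>
    step_aux _ _ _ _ 1 _ (fun _ => swp0 m y hy) rfl
  have hb : ∀ i < 10, bt x i < 1024 := by
    intro i hi
    unfold bt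
    cases x.testBit i
    · simp
    · simp only [cond_true]
      calc 2 ^ i < 2 ^ 10 := Nat.pow_lt_pow_right (by norm_num) hi
        _ = 1024 := by norm_num
  have e1 : ∀ y < 1024, (xs.xs1 m x).testBit y = m.testBit (y ^^^ bt x 1 ^^^ bt x 0) := by
    intro y hy
    rw [← e0 _ (xlt hy (hb 1 (by norm_num)))]
    exact step_aux _ _ _ _ 2 _ (fun _ => swp1 _ y hy) rfl
  have e2 : ∀ y < 1024, (xs.xs2 m x).testBit y = m.testBit (y ^^^ bt x 2 ^^^ bt x 1 ^^^ bt x 0) := by
    intro y hy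
    rw [← e1 _ (xlt hy (hb 2 (by norm_num)))]
    exact step_aux _ _ _ _ 4 _ (fun _ => swp2 _ y hy) rfl
  have e3 : ∀ y < 1024, (xs.xs3 m x).testBit y =
      m.testBit (y ^^^ bt x 3 ^^^ bt x 2 ^^^ bt x 1 ^^^ bt x 0) := by
    intro y hy
    rw [← e2 _ (xlt hy (hb 3 (by norm_num)))]
    exact step_aux _ _ _ _ 8 _ (fun _ => swp3 _ y hy) rfl
  have e4 : ∀ y < 1024, (xs.xs4 m x).testBit y =
      m.testBit (y ^^^ bt x 4 ^^^ bt x 3 ^^^ bt x 2 ^^^ bt x 1 ^^^ bt x 0) := by
    intro y hy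
    rw [← e3 _ (xlt hy (hb 4 (by norm_num)))]
    exact step_aux _ _ _ _ 16 _ (fun _ => swp4 _ y hy) rfl
  have e5 : ∀ y < 1024, (xs.xs5 m x).testBit y =
      m.testBit (y ^^^ bt x 5 ^^^ bt x 4 ^^^ bt x 3 ^^^ bt x 2 ^^^ bt x 1 ^^^ bt x 0) := by
    intro y hy
    rw [← e4 _ (xlt hy (hb 5 (by norm_num)))]
    exact step_aux _ _ _ _ 32 _ (fun _ => swp5 _ y hy) rfl
  have e6 : ∀ y < 1024, (xs.xs6 m x).testBit y =
      m.testBit (y ^^^ bt x 6 ^^^ bt x 5 ^^^ bt x 4 ^^^ bt x 3 ^^^ bt x 2 ^^^ bt x 1 ^^^ bt x 0) := by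
    intro y hy
    rw [← e5 _ (xlt hy (hb 6 (by norm_num)))]
    exact step_aux _ _ _ _ 64 _ (fun _ => swp6 _ y hy) rfl
  have e7 : ∀ y < 1024, (xs.xs7 m x).testBit y =
      m.testBit (y ^^^ bt x 7 ^^^ bt x 6 ^^^ bt x 5 ^^^ bt x 4 ^^^ bt x 3 ^^^ bt x 2 ^^^ bt x 1
        ^^^ bt x 0) := by
    intro y hy
    rw [← e6 _ (xlt hy (hb 7 (by norm_num)))]
    exact step_aux _ _ _ _ 128 _ (fun _ => swp7 _ y hy) rfl
  have e8 : ∀ y < 1024, (xs.xs8 m x).testBit y =
      m.testBit (y ^^^ bt x 8 ^^^ bt x 7 ^^^ bt x 6 ^^^ bt x 5 ^^^ bt x 4 ^^^ bt x 3 ^^^ bt x 2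
        ^^^ bt x 1 ^^^ bt x 0) := by
    intro y hy
    rw [← e7 _ (xlt hy (hb 8 (by norm_num)))]
    exact step_aux _ _ _ _ 256 _ (fun _ => swp8 _ y hy) rfl
  have e9 : ∀ y < 1024, (xs m x).testBit y =
      m.testBit (y ^^^ bt x 9 ^^^ bt x 8 ^^^ bt x 7 ^^^ bt x 6 ^^^ bt x 5 ^^^ bt x 4 ^^^ bt x 3
        ^^^ bt x 2 ^^^ bt x 1 ^^^ bt x 0) := by
    intro y hy
    rw [← e8 _ (xlt hy (hb 9 (by norm_num)))]
    exact step_aux _ _ _ _ 512 _ (fun _ => swp9 _ y hy) rfl
  rw [e9 y hy]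
  have key : ∀ x : Fin 1024, bt x 9 ^^^ bt x 8 ^^^ bt x 7 ^^^ bt x 6 ^^^ bt x 5 ^^^ bt x 4 ^^^ bt x 3
        ^^^ bt x 2 ^^^ bt x 1 ^^^ bt x 0 = x.val := by decide +kernel
  have k := key ⟨x, hx⟩
  simp only at k
  congr 1
  conv_rhs => rw [← k]
  simp only [Nat.xor_assoc]

/-! ### soundness of the search -/

theorem enumAll_spec (p : ℕ → Bool) : ∀ (f c : ℕ), enumAll p f c = true →
    ∀ x, c.testBit x = true → p x = true := by
  intro f
  induction f with
  | zero =>
    intro c h x hx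
    simp only [enumAll, beq_iff_eq] at h
    subst h
    simp at hx
  | succ f ih =>
    intro c h x hx
    by_cases hc : c = 0
    · subst hc; simp at hx
    · have hc' : (c == 0) = false := by simpa using hc
      simp only [enumAll, hc', cond_false, Bool.and_eq_true] at h
      by_cases hxl : x = Nat.log2 c
      · rw [hxl]; exact h.1
      · refine ih _ h.2 x ?_
        rw [Nat.testBit_xor, Nat.one_shiftLeft, Nat.testBit_two_pow, hx]
        simp [Ne.symm hxl]

theorem mem_closure_exists (K 𝒦 : Finset ℕ) (j : ℕ) (hj : j ≤ 4)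
    (hK : K.card = 2 ^ j) (hb : ∀ x ∈ 𝒦, x < 1024) (hc : ∀ x ∈ 𝒦, ∀ y ∈ 𝒦, x ^^^ y ∈ 𝒦)
    (hcard : 𝒦.card = 32) : ∃ x ∈ 𝒦, x ∉ K ∧ x < 2 ^ (6 + j) := by
  have h := Finset.exists_lt_card_fiber_of_mul_lt_card_of_maps_to (s := 𝒦)
    (t := Finset.range (2 ^ (4 - j))) (f := fun x => x >>> (6 + j)) (n := 2 ^ j) (by
      intro a ha
      rw [Finset.mem_range, Nat.shiftRight_eq_div_pow, Nat.div_lt_iff_lt_mul (by positivity),
        ← pow_add]
      have : 4 - j + (6 + j) = 10 := by omega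
      rw [this]
      exact hb a ha) (by
      rw [Finset.card_range, hcard, ← pow_add]
      have : 4 - j + j = 4 := by omega
      rw [this]
      norm_num)
  obtain ⟨y, _, hy⟩ := h
  have hne : {x ∈ 𝒦 | x >>> (6 + j) = y}.Nonempty := by
    rw [← Finset.card_pos]
    omega
  obtain ⟨y0, hy0⟩ := hne
  rw [Finset.mem_filter] at hy0
  by_contra hcon
  push Not at hcon
  -- translate the fibre by y0 into K
  have hsub : ({x ∈ 𝒦 | x >>> (6 + j) = y}.image (fun x => x ^^^ y0)) ⊆ K := by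
    intro z hz
    rw [Finset.mem_image] at hz
    obtain ⟨x, hx, rfl⟩ := hz
    rw [Finset.mem_filter] at hx
    by_contra hzK
    have h1 := hcon (x ^^^ y0) (hc x hx.1 y0 hy0.1) hzK
    have h2 : (x ^^^ y0) >>> (6 + j) = 0 := by
      rw [Nat.shiftRight_xor_distrib, hx.2, hy0.2, Nat.xor_self]
    rw [Nat.shiftRight_eq_div_pow, Nat.div_eq_zero_iff] at h2
    rcases h2 with h2 | h2
    · have : 0 < 2 ^ (6 + j) := by positivity
      omega
    · omega
  have hinj : Set.InjOn (fun x => x ^^^ y0) (({x ∈ 𝒦 | x >>> (6 + j) = y} : Finset ℕ) : Set ℕ) := by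
    intro a _ b _ hab
    exact Nat.xor_left_injective (x := y0) hab
  have h3 := Finset.card_le_card hsub
  rw [Finset.card_image_of_injOn hinj, hK] at h3
  omega

theorem lvl_sound (𝒦 : Finset ℕ) (hb : ∀ x ∈ 𝒦, x < 1024)
    (hc : ∀ x ∈ 𝒦, ∀ y ∈ 𝒦, x ^^^ y ∈ 𝒦) (hcard : 𝒦.card = 32) :
    ∀ (n S : ℕ) (K : List ℕ) (dl : ℕ), n ≤ 5 → lvl n S K dl = true → K.Nodup →
      K.length = 2 ^ (5 - n) → (∀ x ∈ K, x ∈ 𝒦) → (∀ x ∈ K, ∀ y ∈ K, x ^^^ y ∈ K) →
      (∀ x ∈ 𝒦, S.testBit x = true) → (∀ x ∈ 𝒦, x ∉ K → dl < x) → False := by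
  intro n
  induction n with
  | zero =>
    intro S K dl _ h
    simp [lvl] at h
  | succ n ih =>
    intro S K dl hn h hnd hlen hsub hKc hS hdl
    have hex := mem_closure_exists K.toFinset 𝒦 (5 - (n + 1)) (by omega)
      (by rw [List.toFinset_card_of_nodup hnd, hlen]) hb hc hcard
    have hex' : ∃ x, x ∈ 𝒦 ∧ x ∉ K ∧ x < 2 ^ (10 - n) := by
      obtain ⟨x, h1, h2, h3⟩ := hex
      refine ⟨x, h1, by simpa using h2, ?_⟩
      have : 6 + (5 - (n + 1)) = 10 - n := by omega
      rwa [this] at h3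
    classical
    let x := Nat.find hex'
    have hx : x ∈ 𝒦 ∧ x ∉ K ∧ x < 2 ^ (10 - n) := Nat.find_spec hex'
    have hmin : ∀ y, y ∈ 𝒦 → y ∉ K → x ≤ y := by
      intro y h1 h2
      by_contra hlt
      push Not at hlt
      exact Nat.find_min hex' hlt ⟨h1, h2, lt_trans hlt hx.2.2⟩
    have hx1024 := hb x hx.1
    have hxk : ∀ k ∈ K, x ^^^ k ∉ K := by
      intro k hk hcon
      have := hKc _ hcon _ hk
      rw [Nat.xor_assoc, Nat.xor_self, Nat.xor_zero] at this
      exact hx.2.1 this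
    have hall : K.all (fun k => Nat.ble x (x ^^^ k)) = true := by
      rw [List.all_eq_true]
      intro k hk
      rw [Nat.ble_eq]
      exact hmin _ (hc _ hx.1 _ (hsub k hk)) (hxk k hk)
    have hcand : (((S &&& (2^(2^(10-n)) - 1)) >>> (dl+1)) <<< (dl+1)).testBit x = true := by
      rw [Nat.testBit_shiftLeft, Nat.testBit_shiftRight, Nat.testBit_and,
        Nat.testBit_two_pow_sub_one]
      have h1 : dl + 1 ≤ x := hdl x hx.1 hx.2.1
      have h2 : dl + 1 + (x - (dl + 1)) = x := by omega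
      rw [h2, hS x hx.1]
      simp [h1, hx.2.2]
    have hstep := enumAll_spec _ _ _ h x hcand
    simp only [hall, cond_true] at hstep
    refine ih (S &&& xs S x) (K ++ K.map (fun k => x ^^^ k)) x (by omega) hstep ?_ ?_ ?_ ?_ ?_ ?_
    · rw [List.nodup_append]
      refine ⟨hnd, hnd.map (fun a b hab => Nat.xor_right_injective (x := x) hab), ?_⟩
      intro a ha b hb' hab
      subst hab
      rw [List.mem_map] at hb'
      obtain ⟨k, hk, hke⟩ := hb'
      exact hxk k hk (hke ▸ ha)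
    · rw [List.length_append, List.length_map, hlen]
      have : 5 - n = (5 - (n + 1)) + 1 := by omega
      rw [this, pow_succ]
      omega
    · intro y hy
      rw [List.mem_append, List.mem_map] at hy
      rcases hy with hy | ⟨k, hk, rfl⟩
      · exact hsub y hy
      · exact hc _ hx.1 _ (hsub k hk)
    · intro a ha b hb'
      rw [List.mem_append, List.mem_map] at ha hb' ⊢
      rcases ha with ha | ⟨k, hk, rfl⟩ <;> rcases hb' with hb' | ⟨k', hk', rfl⟩
      · exact Or.inl (hKc a ha b hb')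
      · right
        refine ⟨a ^^^ k', hKc a ha k' hk', ?_⟩
        rw [← Nat.xor_assoc, ← Nat.xor_assoc, Nat.xor_comm x a]
      · right
        exact ⟨k ^^^ b, hKc k hk b hb', by rw [Nat.xor_assoc]⟩
      · left
        have : x ^^^ k ^^^ (x ^^^ k') = k ^^^ k' := by
          rw [Nat.xor_comm x k, Nat.xor_assoc, ← Nat.xor_assoc x x k', Nat.xor_self, Nat.zero_xor]
        rw [this]
        exact hKc k hk k' hk'
    · intro y hy
      rw [Nat.testBit_and, xs_testBit S x y hx1024 (hb y hy), hS y hy,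
        hS _ (hc _ hy _ hx.1)]
      rfl
    · intro y hy hyn
      rw [List.mem_append, not_or, List.mem_map] at hyn
      have h1 := hmin y hy hyn.1
      rcases Nat.lt_or_ge x y with h2 | h2
      · exact h2
      · exfalso
        have h3 : y = x := le_antisymm h2 h1
        apply hyn.2
        have h0 : 0 ∈ K := by
          have hne : K ≠ [] := by
            intro hK
            rw [hK, List.length_nil] at hlen
            have : 0 < 2 ^ (5 - (n + 1)) := by positivity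
            omega
          obtain ⟨k, hk⟩ := List.exists_mem_of_ne_nil K hne
          have := hKc k hk k hk
          rwa [Nat.xor_self] at this
        exact ⟨0, h0, by rw [Nat.xor_zero, h3]⟩

theorem root_sound (C w : ℕ) (hw : w < 1024) (hs : lvl 5 (xs C w) [0] 0 = true)
    (𝒦 : Finset ℕ) (hb : ∀ x ∈ 𝒦, x < 1024)
    (hc : ∀ x ∈ 𝒦, ∀ y ∈ 𝒦, x ^^^ y ∈ 𝒦) (hcard : 𝒦.card = 32)
    (hC : ∀ x ∈ 𝒦, C.testBit (x ^^^ w) = true) : False := by
  refine lvl_sound 𝒦 hb hc hcard 5 _ _ _ le_rfl hs (by simp) (by simp) ?_ ?_ ?_ ?_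
  · intro x hx
    rw [List.mem_singleton] at hx
    subst hx
    have hne : 𝒦.Nonempty := by
      rw [← Finset.card_pos]; omega
    obtain ⟨k, hk⟩ := hne
    have := hc k hk k hk
    rwa [Nat.xor_self] at this
  · intro x hx y hy
    rw [List.mem_singleton] at hx hy ⊢
    subst hx; subst hy; rfl
  · intro x hx
    rw [xs_testBit C w x hw (hb x hx)]
    exact hC x hx
  · intro x _ hx
    rw [List.mem_singleton] at hx
    omega

end Pool.Agent.V11179.ApnSearch
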