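import Mathlib

/-!
Longest previous factors of a finite word and the number of subword complexity sequences.
-/

namespace Pool.Agent.V11179.SubwordSeq

open Finset

theorem card_le_of_spaced (S : Finset ℕ) (f : ℕ → ℕ) (N q : ℕ) (hq : 1 ≤ q)
    (hN : ∀ i ∈ S, f i ≤ N)
    (hs : ∀ i ∈ S, ∀ i' ∈ S, i < i' → f i + q ≤ f i' ∨ f i' + q ≤ f i) :
    S.card ≤ N / q + 1 := by
  have h1 : S.card = (S.image (fun i => f i / q)).card := by
    rw [Finset.card_image_of_injOn]
    have key : ∀ i ∈ S, ∀ i' ∈ S, i < i' → f i / q ≠ f i' / q := by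
      intro i hi i' hi' hlt heq
      have a1 := Nat.div_add_mod (f i) q
      have a2 := Nat.div_add_mod (f i') q
      have b1 := Nat.mod_lt (f i) hq
      have b2 := Nat.mod_lt (f i') hq
      rw [heq] at a1
      rcases hs i hi i' hi' hlt with h | h <;> omega
    intro i hi i' hi' heq
    by_contra hne
    rcases Nat.lt_or_gt_of_ne hne with h | h
    · exact key i hi i' hi' h heq
    · exact key i' hi' i hi h heq.symm
  rw [h1]
  calc (S.image (fun i => f i / q)).card ≤ (Finset.range (N / q + 1)).card := by
        apply Finset.card_le_card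
        intro v hv
        rw [Finset.mem_image] at hv
        obtain ⟨i, hi, rfl⟩ := hv
        rw [Finset.mem_range]
        exact Nat.lt_succ_of_le (Nat.div_le_div_right (hN i hi))
    _ = N / q + 1 := Finset.card_range _

section Core

variable {α : Type*} (w : ℕ → α) (n : ℕ)

/-- the block of length `m` at position `i` of `w[0,n)` also starts at an earlier position -/
def Rep (i m : ℕ) : Prop := i + m ≤ n ∧ ∃ j < i, ∀ t < m, w (j + t) = w (i + t)

variable {w n}

theorem Rep.mono {i m m' : ℕ} (h : Rep w n i m) (hm : m' ≤ m) : Rep w n i m' := by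
  obtain ⟨h1, j, hj, h2⟩ := h
  exact ⟨by omega, j, hj, fun t ht => h2 t (by omega)⟩

variable (w n)

open Classical in
/-- longest previous factor -/
noncomputable def L (i : ℕ) : ℕ := Nat.findGreatest (fun m => Rep w n i m) n

variable {w n}

theorem rep_L {i : ℕ} (h0 : 1 ≤ L w n i) : Rep w n i (L w n i) := by
  classical
  have h1 : L w n i ≠ 0 := by omega
  exact Nat.findGreatest_of_ne_zero (P := fun m => Rep w n i m) (n := n) rfl h1

theorem le_L {i m : ℕ} (h : Rep w n i m) : m ≤ L w n i := by
  classical
  exact Nat.le_findGreatest (by have := h.1; omega) h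

theorem rep_iff {i m : ℕ} (hm : 1 ≤ m) : Rep w n i m ↔ m ≤ L w n i := by
  constructor
  · exact le_L
  · intro h
    exact (rep_L (by omega)).mono h

theorem add_L_le {i : ℕ} (h : 1 ≤ L w n i) : i + L w n i ≤ n := (rep_L h).1

theorem L_le (i : ℕ) : L w n i ≤ n := by
  classical
  exact Nat.findGreatest_le n

theorem L_le_succ (i : ℕ) : L w n i ≤ L w n (i + 1) + 1 := by
  by_cases h0 : L w n i = 0
  · omega
  · obtain ⟨h1, j, hj, h2⟩ := rep_L (w := w) (n := n) (i := i) (by omega)
    have : Rep w n (i + 1) (L w n i - 1) := by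
      refine ⟨by omega, j + 1, by omega, fun t ht => ?_⟩
      have := h2 (t + 1) (by omega)
      rw [show j + 1 + t = j + (t + 1) by ring, show i + 1 + t = i + (t + 1) by ring]
      exact this
    have := le_L this
    omega

/-- the set of jumps of height at least `m` -/
noncomputable def jumps (w : ℕ → α) (n m : ℕ) : Finset ℕ :=
  (Finset.range (n + 1)).filter (fun i => 1 ≤ i ∧ L w n (i - 1) ≤ L w n i ∧ m ≤ L w n i)

theorem jump_source {i : ℕ} (h1 : 1 ≤ i) (hj : L w n (i - 1) ≤ L w n i) (hL : 1 ≤ L w n i) :
    ∃ j < i, (∀ t < L w n i, w (j + t) = w (i + t)) ∧ (1 ≤ j → w (j - 1) ≠ w (i - 1)) := by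
  obtain ⟨ha, j, hji, hb⟩ := rep_L (w := w) (n := n) (i := i) hL
  refine ⟨j, hji, hb, ?_⟩
  intro hj1 heq
  have : Rep w n (i - 1) (L w n i + 1) := by
    refine ⟨by omega, j - 1, by omega, fun t ht => ?_⟩
    rcases Nat.eq_zero_or_pos t with rfl | htp
    · simpa using heq
    · have := hb (t - 1) (by omega)
      rw [show j - 1 + t = j + (t - 1) by omega, show i - 1 + t = i + (t - 1) by omega]
      exact this
  have := le_L this
  omega

/-- few jumps in a window of length `q` -/
theorem window_card (x q : ℕ) (hq : 1 ≤ q) :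
    ((jumps w n (3 * q)).filter (fun i => x ≤ i ∧ i < x + q)).card ≤ 3 * (n / q + 1) + 2 := by
  classical
  set S := (jumps w n (3 * q)).filter (fun i => x ≤ i ∧ i < x + q) with hS
  have hmem : ∀ i ∈ S, 1 ≤ i ∧ L w n (i - 1) ≤ L w n i ∧ 3 * q ≤ L w n i ∧ x ≤ i ∧ i < x + q := by
    intro i hi
    simp only [hS, jumps, Finset.mem_filter, Finset.mem_range] at hi
    tauto
  -- the empty case
  rcases S.eq_empty_or_nonempty with hE | ⟨i0, hi0⟩
  · rw [hE]; simp
  have hxn : x + 3 * q ≤ n := by
    obtain ⟨h1, h2, h3, h4, h5⟩ := hmem i0 hi0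
    have := add_L_le (w := w) (n := n) (i := i0) (by omega)
    omega
  -- choose sources
  have hsrc : ∀ i : ℕ, ∃ j, i ∈ S → j < i ∧ (∀ t < L w n i, w (j + t) = w (i + t)) ∧
      (1 ≤ j → w (j - 1) ≠ w (i - 1)) := by
    intro i
    by_cases hi : i ∈ S
    · obtain ⟨h1, h2, h3, h4, h5⟩ := hmem i hi
      obtain ⟨j, hj⟩ := jump_source (w := w) (n := n) h1 h2 (by omega)
      exact ⟨j, fun _ => hj⟩
    · exact ⟨0, fun h => absurd h hi⟩
  choose J hJ using hsrc
  -- matching, in terms of absolute positions
  have hmatch : ∀ i ∈ S, ∀ t, i ≤ t → t < i + L w n i → w (t + J i - i) = w t := by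
    intro i hi t h1 h2
    obtain ⟨ha, hb, hc⟩ := hJ i hi
    have := hb (t - i) (by omega)
    rw [show t + J i - i = J i + (t - i) by omega, this, show i + (t - i) = t by omega]
  have hle : ∀ i ∈ S, i + L w n i ≤ n := by
    intro i hi
    obtain ⟨h1, h2, h3, h4, h5⟩ := hmem i hi
    exact add_L_le (by omega)
  -- the shifts are distinct
  have hdist : ∀ i ∈ S, ∀ i' ∈ S, i < i' → J i + i' ≠ J i' + i := by
    intro i hi i' hi' hlt heq
    obtain ⟨h1, h2, h3, h4, h5⟩ := hmem i hi
    obtain ⟨h1', h2', h3', h4', h5'⟩ := hmem i' hi'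
    obtain ⟨ha', hb', hc'⟩ := hJ i' hi'
    have h6 := hmatch i hi (i' - 1) (by omega) (by omega)
    apply hc' (by omega)
    rw [← h6]
    congr 1
    omega
  by_cases hper : ∃ p, 1 ≤ p ∧ p ≤ q ∧ ∀ t, x + q ≤ t → t + p < x + 3 * q → w t = w (t + p)
  swap
  · -- case A: no small period
    have hA : S.card ≤ n / q + 1 := by
      apply card_le_of_spaced S (fun i => x + q + J i - i) n q hq
      · intro i hi
        obtain ⟨h1, h2, h3, h4, h5⟩ := hmem i hi
        obtain ⟨ha, hb, hc⟩ := hJ i hi
        omega
      · have key : ∀ i ∈ S, ∀ i' ∈ S, x + q + J i - i < x + q + J i' - i' →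
            x + q + J i - i + q ≤ x + q + J i' - i' := by
          intro i hi i' hi' hlt
          obtain ⟨h1, h2, h3, h4, h5⟩ := hmem i hi
          obtain ⟨h1', h2', h3', h4', h5'⟩ := hmem i' hi'
          obtain ⟨ha, hb, hc⟩ := hJ i hi
          obtain ⟨ha', hb', hc'⟩ := hJ i' hi'
          by_contra hcon
          apply hper
          refine ⟨(x + q + J i' - i') - (x + q + J i - i), by omega, by omega, ?_⟩
          intro t ht1 ht2
          rw [← hmatch i' hi' t (by omega) (by omega),
            ← hmatch i hi (t + ((x + q + J i' - i') - (x + q + J i - i))) (by omega) (by omega)]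
          congr 1
          omega
        intro i hi i' hi' hlt
        have hne := hdist i hi i' hi' hlt
        obtain ⟨h1, h2, h3, h4, h5⟩ := hmem i hi
        obtain ⟨h1', h2', h3', h4', h5'⟩ := hmem i' hi'
        rcases Nat.lt_trichotomy (x + q + J i - i) (x + q + J i' - i') with h | h | h
        · left; exact key i hi i' hi' h
        · omega
        · right; exact key i' hi' i hi h
    omega
  -- case B: small period
  obtain ⟨hp1, hpq, hpp⟩ := Nat.find_spec hper
  set π := Nat.find hper with hπ
  have hmin : ∀ p, 1 ≤ p → p < π → ¬ ∀ t, x + q ≤ t → t + p < x + 3 * q → w t = w (t + p) := by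
    intro p h1 h2 h3
    exact Nat.find_min hper h2 ⟨h1, by omega, h3⟩
  -- left end
  have hsex : ∃ s, ∀ t, s ≤ t → t + π < x + 3 * q → w t = w (t + π) := ⟨x + q, hpp⟩
  have hs1 := Nat.find_spec hsex
  set s0 := Nat.find hsex with hs0
  have hs0le : s0 ≤ x + q := Nat.find_min' hsex hpp
  have hs0min : 1 ≤ s0 → w (s0 - 1) ≠ w (s0 - 1 + π) := by
    intro h1 heq
    apply Nat.find_min hsex (m := s0 - 1) (by omega)
    intro t ht1 ht2
    rcases Nat.eq_or_lt_of_le ht1 with h | h
    · rw [← h]; exact heq
    · exact hs1 t (by omega) ht2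
  -- right end
  let P : ℕ → Prop := fun e => ∀ t, x + q ≤ t → t + π < e → w t = w (t + π)
  have hPx : P (x + 3 * q) := hpp
  set e0 := Nat.findGreatest P n with he0
  have he0ge : x + 3 * q ≤ e0 := Nat.le_findGreatest hxn hPx
  have he0P : P e0 := Nat.findGreatest_spec hxn hPx
  have he0max : e0 < n → w (e0 - π) ≠ w e0 := by
    intro hlt heq
    apply Nat.findGreatest_is_greatest (P := P) (n := n) (k := e0 + 1) (by omega) (by omega)
    intro t ht1 ht2
    rcases Nat.lt_or_ge (t + π) e0 with h | h
    · exact he0P t ht1 h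
    · have : t = e0 - π := by omega
      rw [this, heq]
      congr 1
      omega
  have hfull : ∀ t, s0 ≤ t → t + π < e0 → w t = w (t + π) := by
    intro t ht1 ht2
    rcases Nat.lt_or_ge (t + π) (x + 3 * q) with h | h
    · exact hs1 t ht1 h
    · exact he0P t (by omega) ht2
  -- the three zones
  have hZ1 : (S.filter (fun i => i < s0)).card ≤ n / q + 1 := by
    apply card_le_of_spaced _ (fun i => s0 - 1 + J i - i) n q hq
    · intro i hi
      rw [Finset.mem_filter] at hi
      obtain ⟨h1, h2, h3, h4, h5⟩ := hmem i hi.1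
      obtain ⟨ha, hb, hc⟩ := hJ i hi.1
      omega
    · have key : ∀ i ∈ S, i < s0 → ∀ i' ∈ S, i' < s0 → s0 - 1 + J i - i < s0 - 1 + J i' - i' →
            s0 - 1 + J i - i + q ≤ s0 - 1 + J i' - i' := by
        intro i hi his i' hi' his' hlt
        obtain ⟨h1, h2, h3, h4, h5⟩ := hmem i hi
        obtain ⟨h1', h2', h3', h4', h5'⟩ := hmem i' hi'
        obtain ⟨ha, hb, hc⟩ := hJ i hi
        obtain ⟨ha', hb', hc'⟩ := hJ i' hi'
        by_contra hcon
        -- break at the second
        have hbr : w (s0 - 1 + J i' - i') ≠ w (s0 - 1 + J i' - i' + π) := by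
          have e1 := hmatch i' hi' (s0 - 1) (by omega) (by omega)
          have e2 := hmatch i' hi' (s0 - 1 + π) (by omega) (by omega)
          rw [e1, show s0 - 1 + J i' - i' + π = s0 - 1 + π + J i' - i' by omega, e2]
          exact hs0min (by omega)
        apply hbr
        -- position relative to the first
        set b := s0 - 1 + J i' - i' with hb'
        have e1 := hmatch i hi (b + i - J i) (by omega) (by omega)
        have e2 := hmatch i hi (b + i - J i + π) (by omega) (by omega)
        have e3 := hs1 (b + i - J i) (by omega) (by omega)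
        rw [show b + i - J i + J i - i = b by omega] at e1
        rw [show b + i - J i + π + J i - i = b + π by omega] at e2
        rw [e1, e2, e3]
      intro i hi i' hi' hlt
      rw [Finset.mem_filter] at hi hi'
      have hne := hdist i hi.1 i' hi'.1 hlt
      obtain ⟨h1, h2, h3, h4, h5⟩ := hmem i hi.1
      obtain ⟨h1', h2', h3', h4', h5'⟩ := hmem i' hi'.1
      rcases Nat.lt_trichotomy (s0 - 1 + J i - i) (s0 - 1 + J i' - i') with h | h | h
      · left; exact key i hi.1 hi.2 i' hi'.1 hi'.2 h
      · omega
      · right; exact key i' hi'.1 hi'.2 i hi.1 hi.2 h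
  have hZ2 : (S.filter (fun i => s0 < i ∧ i < s0 + π)).card ≤ n / q + 1 := by
    apply card_le_of_spaced _ J n q hq
    · intro i hi
      rw [Finset.mem_filter] at hi
      obtain ⟨h1, h2, h3, h4, h5⟩ := hmem i hi.1
      obtain ⟨ha, hb, hc⟩ := hJ i hi.1
      omega
    · have key : ∀ i ∈ S, s0 < i → ∀ i' ∈ S, s0 < i' → J i < J i' → J i + q ≤ J i' := by
        intro i hi his i' hi' his' hlt
        obtain ⟨h1, h2, h3, h4, h5⟩ := hmem i hi
        obtain ⟨h1', h2', h3', h4', h5'⟩ := hmem i' hi'
        obtain ⟨ha, hb, hc⟩ := hJ i hi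
        obtain ⟨ha', hb', hc'⟩ := hJ i' hi'
        by_contra hcon
        have hbr : w (J i' - 1) ≠ w (J i' - 1 + π) := by
          have e2 := hmatch i' hi' (i' - 1 + π) (by omega) (by omega)
          rw [show J i' - 1 + π = i' - 1 + π + J i' - i' by omega, e2]
          have e3 := hs1 (i' - 1) (by omega) (by omega)
          rw [← e3]
          exact hc' (by omega)
        apply hbr
        have e1 := hmatch i hi (J i' - 1 + i - J i) (by omega) (by omega)
        have e2 := hmatch i hi (J i' - 1 + i - J i + π) (by omega) (by omega)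
        have e3 := hs1 (J i' - 1 + i - J i) (by omega) (by omega)
        rw [show J i' - 1 + i - J i + J i - i = J i' - 1 by omega] at e1
        rw [show J i' - 1 + i - J i + π + J i - i = J i' - 1 + π by omega] at e2
        rw [e1, e2, e3]
      intro i hi i' hi' hlt
      rw [Finset.mem_filter] at hi hi'
      obtain ⟨h1, h2, h3, h4, h5⟩ := hmem i hi.1
      obtain ⟨h1', h2', h3', h4', h5'⟩ := hmem i' hi'.1
      obtain ⟨ha, hb, hc⟩ := hJ i hi.1
      obtain ⟨ha', hb', hc'⟩ := hJ i' hi'.1
      rcases Nat.lt_trichotomy (J i) (J i') with h | h | h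
      · left; exact key i hi.1 hi.2.1 i' hi'.1 hi'.2.1 h
      · exfalso
        apply hmin (i' - i) (by omega) (by omega)
        intro t ht1 ht2
        have e1 := hb (t - i) (by omega)
        have e2 := hb' (t - i) (by omega)
        rw [show i + (t - i) = t by omega] at e1
        rw [show i' + (t - i) = t + (i' - i) by omega] at e2
        rw [← e1, ← e2, h]
      · right; exact key i' hi'.1 hi'.2.1 i hi.1 hi.2.1 h
  have hZ3 : (S.filter (fun i => s0 + π < i)).card ≤ n / q + 1 := by
    have hfar : ∀ i ∈ S, s0 + π < i → e0 < i + L w n i := by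
      intro i hi his
      obtain ⟨h1, h2, h3, h4, h5⟩ := hmem i hi
      have : Rep w n (i - 1) (e0 - (i - 1)) := by
        have he0n : e0 ≤ n := Nat.findGreatest_le n
        refine ⟨by omega, i - 1 - π, by omega, fun t ht => ?_⟩
        have := hfull (i - 1 - π + t) (by omega) (by omega)
        rw [this]
        congr 1
        omega
      have := le_L this
      omega
    apply card_le_of_spaced _ (fun i => e0 + J i - i) n q hq
    · intro i hi
      rw [Finset.mem_filter] at hi
      obtain ⟨ha, hb, hc⟩ := hJ i hi.1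
      have he0n : e0 ≤ n := Nat.findGreatest_le n
      omega
    · have key : ∀ i ∈ S, s0 + π < i → ∀ i' ∈ S, s0 + π < i' → e0 + J i - i < e0 + J i' - i' →
          e0 + J i - i + q ≤ e0 + J i' - i' := by
        intro i hi his i' hi' his' hlt
        obtain ⟨h1, h2, h3, h4, h5⟩ := hmem i hi
        obtain ⟨h1', h2', h3', h4', h5'⟩ := hmem i' hi'
        obtain ⟨ha, hb, hc⟩ := hJ i hi
        obtain ⟨ha', hb', hc'⟩ := hJ i' hi'
        have f1 := hfar i hi his
        have f2 := hfar i' hi' his'
        have f3 := hle i hi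
        by_contra hcon
        have hbr : w (e0 + J i - i - π) ≠ w (e0 + J i - i) := by
          have e1 := hmatch i hi e0 (by omega) (by omega)
          have e2 := hmatch i hi (e0 - π) (by omega) (by omega)
          rw [e1, show e0 + J i - i - π = e0 - π + J i - i by omega, e2]
          exact he0max (by omega)
        apply hbr
        -- position relative to i'
        set s := e0 + J i - i - π with hs
        have e1 := hmatch i' hi' (s + i' - J i') (by omega) (by omega)
        have e2 := hmatch i' hi' (s + i' - J i' + π) (by omega) (by omega)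
        have e3 := hfull (s + i' - J i') (by omega) (by omega)
        rw [show s + i' - J i' + J i' - i' = s by omega] at e1
        rw [show s + i' - J i' + π + J i' - i' = e0 + J i - i by omega] at e2
        rw [e1, e2, e3]
      intro i hi i' hi' hlt
      rw [Finset.mem_filter] at hi hi'
      have hne := hdist i hi.1 i' hi'.1 hlt
      obtain ⟨h1, h2, h3, h4, h5⟩ := hmem i hi.1
      obtain ⟨h1', h2', h3', h4', h5'⟩ := hmem i' hi'.1
      rcases Nat.lt_trichotomy (e0 + J i - i) (e0 + J i' - i') with h | h | h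
      · left; exact key i hi.1 hi.2 i' hi'.1 hi'.2 h
      · omega
      · right; exact key i' hi'.1 hi'.2 i hi.1 hi.2 h
  have hcover : S ⊆ ((S.filter (fun i => i < s0)) ∪ (S.filter (fun i => s0 < i ∧ i < s0 + π)) ∪
      (S.filter (fun i => s0 + π < i))) ∪ {s0, s0 + π} := by
    intro i hi
    simp only [Finset.mem_union, Finset.mem_filter, Finset.mem_insert, Finset.mem_singleton]
    by_cases c1 : i < s0
    · tauto
    · by_cases c2 : i = s0
      · tauto
      · by_cases c3 : i < s0 + π
        · have : s0 < i := by omega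
          tauto
        · by_cases c4 : i = s0 + π
          · tauto
          · have : s0 + π < i := by omega
            tauto
  have g1 := Finset.card_le_card hcover
  have g2 := Finset.card_union_le ((S.filter (fun i => i < s0)) ∪
      (S.filter (fun i => s0 < i ∧ i < s0 + π)) ∪ (S.filter (fun i => s0 + π < i))) {s0, s0 + π}
  have g3 := Finset.card_union_le ((S.filter (fun i => i < s0)) ∪
      (S.filter (fun i => s0 < i ∧ i < s0 + π))) (S.filter (fun i => s0 + π < i))
  have g4 := Finset.card_union_le (S.filter (fun i => i < s0))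
      (S.filter (fun i => s0 < i ∧ i < s0 + π))
  have g5 : ({s0, s0 + π} : Finset ℕ).card ≤ 2 := Finset.card_le_two
  linarith

/-- few jumps altogether -/
theorem jumps_card (q : ℕ) (hq : 1 ≤ q) :
    (jumps w n (3 * q)).card ≤ (n / q + 1) * (3 * (n / q + 1) + 2) := by
  classical
  have hcover : jumps w n (3 * q) ⊆ (Finset.range (n / q + 1)).biUnion
      (fun v => (jumps w n (3 * q)).filter (fun i => v * q ≤ i ∧ i < v * q + q)) := by
    intro i hi
    have hi' := hi
    simp only [jumps, Finset.mem_filter, Finset.mem_range] at hi'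
    rw [Finset.mem_biUnion]
    refine ⟨i / q, ?_, ?_⟩
    · rw [Finset.mem_range]
      exact Nat.lt_succ_of_le (Nat.div_le_div_right (by omega))
    · rw [Finset.mem_filter]
      refine ⟨hi, Nat.div_mul_le_self i q, ?_⟩
      have := Nat.lt_div_mul_add (a := i) hq
      exact this
  refine (Finset.card_le_card hcover).trans ?_
  refine Finset.card_biUnion_le.trans ?_
  calc _ ≤ ∑ _v ∈ Finset.range (n / q + 1), (3 * (n / q + 1) + 2) :=
        Finset.sum_le_sum (fun v _ => window_card (v * q) q hq)
    _ = _ := by rw [Finset.sum_const, Finset.card_range, smul_eq_mul]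


/-- the number of positions with a given longest previous factor -/
noncomputable def c (w : ℕ → α) (n m : ℕ) : ℕ :=
  ((Finset.range (n + 1)).filter (fun i => L w n i = m)).card

theorem pos_of_L {i : ℕ} (h : 1 ≤ L w n i) : 1 ≤ i := by
  obtain ⟨h1, j, hj, h2⟩ := rep_L h
  omega

theorem change_source {m : ℕ} (hm : 1 ≤ m) (hc : c w n (m + 1) ≠ c w n m) :
    (∃ i ∈ jumps w n m, L w n (i - 1) = m + 1) ∨ (∃ i ∈ jumps w n m, L w n i = m) := by
  classical
  by_contra hcon
  push Not at hcon
  obtain ⟨hA, hB⟩ := hcon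
  apply hc
  have h1 : ∀ i, i ≤ n → L w n i = m + 1 → i + 1 ≤ n ∧ L w n (i + 1) = m := by
    intro i hi hL
    have hs := L_le_succ (w := w) (n := n) i
    have ha := add_L_le (w := w) (n := n) (i := i) (by omega)
    refine ⟨by omega, ?_⟩
    by_contra hne
    apply hA (i + 1)
    · simp only [jumps, Finset.mem_filter, Finset.mem_range]
      have : i + 1 - 1 = i := by omega
      rw [this]
      omega
    · have : i + 1 - 1 = i := by omega
      rw [this]
      exact hL
  have h2 : ∀ i, i ≤ n → L w n i = m → 1 ≤ i ∧ L w n (i - 1) = m + 1 := by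
    intro i hi hL
    have hi1 : 1 ≤ i := pos_of_L (w := w) (n := n) (by omega)
    have hs := L_le_succ (w := w) (n := n) (i - 1)
    rw [show i - 1 + 1 = i by omega] at hs
    refine ⟨hi1, ?_⟩
    by_contra hne
    apply hB i _ hL
    simp only [jumps, Finset.mem_filter, Finset.mem_range]
    omega
  unfold c
  apply Finset.card_nbij' (fun i => i + 1) (fun i => i - 1)
  · intro i hi
    simp only [Finset.coe_filter, Finset.mem_range, Set.mem_ofPred_eq] at hi ⊢
    have := h1 i (by omega) hi.2
    omega
  · intro i hi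
    simp only [Finset.coe_filter, Finset.mem_range, Set.mem_ofPred_eq] at hi ⊢
    have := h2 i (by omega) hi.2
    omega
  · intro i hi
    simp
  · intro i hi
    simp only [Finset.coe_filter, Finset.mem_range, Set.mem_ofPred_eq] at hi
    have := h2 i (by omega) hi.2
    simp only
    omega

end Core

/-- graph of a function at the first places and at its change points -/
def stepSupp (f : ℕ → ℕ) (n b : ℕ) : Finset ℕ :=
  (Finset.range (n + 1)).filter (fun m => m ≤ b ∨ f m ≠ f (m - 1))

def stepCode (f : ℕ → ℕ) (n b : ℕ) : Finset (ℕ × ℕ) := (stepSupp f n b).image (fun m => (m, f m))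

theorem mem_stepCode {f : ℕ → ℕ} {n b : ℕ} {p : ℕ × ℕ} :
    p ∈ stepCode f n b ↔ p.1 ≤ n ∧ (p.1 ≤ b ∨ f p.1 ≠ f (p.1 - 1)) ∧ f p.1 = p.2 := by
  unfold stepCode stepSupp
  simp only [Finset.mem_image, Finset.mem_filter, Finset.mem_range]
  constructor
  · rintro ⟨m, ⟨h1, h2⟩, rfl⟩
    exact ⟨by simp only; omega, h2, rfl⟩
  · rintro ⟨h1, h2, h3⟩
    exact ⟨p.1, ⟨by omega, h2⟩, by rw [h3]⟩

theorem stepCode_inj {f g : ℕ → ℕ} {n b : ℕ} (h : stepCode f n b = stepCode g n b) :
    ∀ m ≤ n, f m = g m := by
  intro m
  induction m with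
  | zero =>
    intro _
    have : ((0 : ℕ), f 0) ∈ stepCode g n b := by
      rw [← h, mem_stepCode]
      exact ⟨by simp, Or.inl (by simp), rfl⟩
    rw [mem_stepCode] at this
    exact this.2.2.symm
  | succ m ih =>
    intro hm
    by_cases hf : m + 1 ≤ b ∨ f (m + 1) ≠ f m
    · have : (m + 1, f (m + 1)) ∈ stepCode g n b := by
        rw [← h, mem_stepCode]
        exact ⟨hm, hf, rfl⟩
      rw [mem_stepCode] at this
      exact this.2.2.symm
    · by_cases hg : m + 1 ≤ b ∨ g (m + 1) ≠ g m
      · have : (m + 1, g (m + 1)) ∈ stepCode f n b := by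
          rw [h, mem_stepCode]
          exact ⟨hm, hg, rfl⟩
        rw [mem_stepCode] at this
        exact this.2.2
      · push Not at hf hg
        rw [hf.2, hg.2]
        exact ih (by omega)

theorem stepSupp_card {α : Type*} (w : ℕ → α) (n q : ℕ) (hq : 1 ≤ q) :
    (stepSupp (c w n) n (3 * q)).card ≤ 3 * q + 1 + 2 * ((n / q + 1) * (3 * (n / q + 1) + 2)) := by
  classical
  have hsub : stepSupp (c w n) n (3 * q) ⊆ (Finset.range (3 * q + 1) ∪
      (jumps w n (3 * q)).image (fun i => L w n (i - 1))) ∪
      (jumps w n (3 * q)).image (fun i => L w n i + 1) := by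
    intro m hm
    simp only [stepSupp, Finset.mem_filter, Finset.mem_range] at hm
    obtain ⟨hmn, hm⟩ := hm
    by_cases h : m ≤ 3 * q
    · simp only [Finset.mem_union, Finset.mem_range]
      left; left; omega
    · have h' : c w n m ≠ c w n (m - 1) := by tauto
      have hmm : m - 1 + 1 = m := by omega
      have hsrc := change_source (w := w) (n := n) (m := m - 1) (by omega) (by rw [hmm]; exact h')
      have hmono : ∀ i ∈ jumps w n (m - 1), i ∈ jumps w n (3 * q) := by
        intro i hi
        simp only [jumps, Finset.mem_filter, Finset.mem_range] at hi ⊢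
        omega
      simp only [Finset.mem_union, Finset.mem_range, Finset.mem_image]
      rcases hsrc with ⟨i, hi, hL⟩ | ⟨i, hi, hL⟩
      · left; right
        exact ⟨i, hmono i hi, by omega⟩
      · right
        exact ⟨i, hmono i hi, by omega⟩
  have hJ := jumps_card (w := w) (n := n) q hq
  have g1 := Finset.card_le_card hsub
  have g2 := Finset.card_union_le (Finset.range (3 * q + 1) ∪
      (jumps w n (3 * q)).image (fun i => L w n (i - 1)))
      ((jumps w n (3 * q)).image (fun i => L w n i + 1))
  have g3 := Finset.card_union_le (Finset.range (3 * q + 1))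
      ((jumps w n (3 * q)).image (fun i => L w n (i - 1)))
  have g4 : ((jumps w n (3 * q)).image (fun i => L w n (i - 1))).card ≤ (jumps w n (3 * q)).card :=
    Finset.card_image_le
  have g5 : ((jumps w n (3 * q)).image (fun i => L w n i + 1)).card ≤ (jumps w n (3 * q)).card :=
    Finset.card_image_le
  rw [Finset.card_range] at g3
  linarith

/-- counting small subsets -/
theorem exists_small_subsets (X : Finset (ℕ × ℕ)) (K : ℕ) :
    ∃ T : Finset (Finset (ℕ × ℕ)), T.card ≤ X.card ^ K ∧
      ∀ S : Finset (ℕ × ℕ), S.Nonempty → S ⊆ X → S.card ≤ K → S ∈ T := by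
  classical
  refine ⟨(Fintype.piFinset (fun _ : Fin K => X)).image (fun g => Finset.univ.image g), ?_, ?_⟩
  · refine Finset.card_image_le.trans ?_
    rw [Fintype.card_piFinset_const]
  · intro S hS hSX hSK
    have hne : Nonempty S := hS.to_subtype
    have hcard : Fintype.card S ≤ Fintype.card (Fin K) := by
      rw [Fintype.card_coe, Fintype.card_fin]; exact hSK
    obtain ⟨e⟩ := Function.Embedding.nonempty_of_card_le hcard
    have hsurj := Function.invFun_surjective e.injective
    rw [Finset.mem_image]
    refine ⟨fun t => ((Function.invFun (⇑e) t : {x // x ∈ S}) : ℕ × ℕ), ?_, ?_⟩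
    · rw [Fintype.mem_piFinset]
      intro t
      exact hSX (Function.invFun (⇑e) t).2
    · ext p
      simp only [Finset.mem_image, Finset.mem_univ, true_and]
      constructor
      · rintro ⟨t, rfl⟩
        exact (Function.invFun (⇑e) t).2
      · intro hp
        obtain ⟨t, ht⟩ := hsurj ⟨p, hp⟩
        exact ⟨t, by rw [ht]⟩

section Lists

variable {β : Type*}

theorem take_drop_eq_iff (l : List β) (i j m : ℕ) :
    (l.drop j).take m = (l.drop i).take m ↔ ∀ t < m, l[j + t]? = l[i + t]? := by
  constructor
  · intro h t ht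
    have := congrArg (fun u => u[t]?) h
    simpa [List.getElem?_take, ht] using this
  · intro h
    apply List.ext_getElem?
    intro t
    by_cases ht : t < m
    · simpa [List.getElem?_take, ht] using h t ht
    · simp [List.getElem?_take, ht]

theorem infix_iff (l u : List β) :
    u <:+: l ↔ ∃ i, i + u.length ≤ l.length ∧ u = (l.drop i).take u.length := by
  constructor
  · rintro ⟨s, t, rfl⟩
    refine ⟨s.length, ?_, ?_⟩
    · simp
    · simp
  · rintro ⟨i, h1, h2⟩
    rw [h2]
    exact (List.take_prefix _ _).isInfix.trans (List.drop_suffix _ _).isInfix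

theorem ncard_factors (l : List β) (m : ℕ) (hm : 1 ≤ m) :
    {u : List β | u <:+: l ∧ u.length = m}.ncard =
      ((Finset.range (l.length + 1 - m)).filter
        (fun i => ¬ m ≤ L (fun i => l[i]?) l.length i)).card := by
  classical
  rw [← Set.ncard_coe_finset]
  symm
  apply Set.ncard_congr (fun i _ => (l.drop i).take m)
  · intro i hi
    simp only [Finset.coe_filter, Finset.mem_range, Set.mem_ofPred_eq] at hi ⊢
    constructor
    · exact (List.take_prefix _ _).isInfix.trans (List.drop_suffix _ _).isInfix
    · rw [List.length_take, List.length_drop]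
      omega
  · have key : ∀ i j, i + m ≤ l.length → j + m ≤ l.length →
        ¬ m ≤ L (fun i => l[i]?) l.length j → i < j → (l.drop i).take m ≠ (l.drop j).take m := by
      intro i j hi hj hL hij heq
      rw [take_drop_eq_iff] at heq
      exact hL (le_L ⟨hj, i, hij, heq⟩)
    intro i j hi hj heq
    simp only [Finset.coe_filter, Finset.mem_range, Set.mem_ofPred_eq] at hi hj
    by_contra hne
    rcases Nat.lt_or_gt_of_ne hne with h | h
    · exact key i j (by omega) (by omega) hj.2 h heq
    · exact key j i (by omega) (by omega) hi.2 h heq.symm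
  · rintro u ⟨hu, hlen⟩
    rw [infix_iff, hlen] at hu
    have h1 := Nat.find_spec hu
    refine ⟨Nat.find hu, ?_, h1.2.symm⟩
    simp only [Finset.coe_filter, Finset.mem_range, Set.mem_ofPred_eq]
    refine ⟨by omega, ?_⟩
    rw [← rep_iff hm]
    rintro ⟨h2, j, hj, h3⟩
    apply Nat.find_min hu hj
    refine ⟨by omega, ?_⟩
    have h3' : (l.drop j).take m = (l.drop (Nat.find hu)).take m := by
      rw [take_drop_eq_iff]
      exact h3
    rw [h3']
    exact h1.2

theorem ncard_factors_eq (l : List β) (m : ℕ) (hm : 1 ≤ m) :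
    {u : List β | u <:+: l ∧ u.length = m}.ncard =
      (l.length + 1 - m) - ∑ v ∈ Finset.Icc m l.length, c (fun i => l[i]?) l.length v := by
  classical
  rw [ncard_factors l m hm]
  set w : ℕ → Option β := fun i => l[i]? with hw
  set n := l.length with hn
  have h1 := Finset.card_filter_add_card_filter_not (s := Finset.range (n + 1 - m))
    (fun i => m ≤ L w n i)
  have h2 : ((Finset.range (n + 1 - m)).filter (fun i => m ≤ L w n i)) =
      ((Finset.range (n + 1)).filter (fun i => m ≤ L w n i)) := by
    ext i
    simp only [Finset.mem_filter, Finset.mem_range]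
    constructor
    · rintro ⟨h3, h4⟩
      exact ⟨by omega, h4⟩
    · rintro ⟨h3, h4⟩
      have := add_L_le (w := w) (n := n) (i := i) (by omega)
      exact ⟨by omega, h4⟩
  have h3 : ((Finset.range (n + 1)).filter (fun i => m ≤ L w n i)).card =
      ∑ v ∈ Finset.Icc m n, c w n v := by
    rw [Finset.card_eq_sum_card_fiberwise (f := fun i => L w n i) (t := Finset.Icc m n)]
    · apply Finset.sum_congr rfl
      intro v hv
      rw [Finset.mem_Icc] at hv
      unfold c
      congr 1
      ext i
      simp only [Finset.mem_filter, Finset.mem_range]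
      constructor
      · rintro ⟨⟨h5, h6⟩, h7⟩
        exact ⟨h5, h7⟩
      · rintro ⟨h5, h7⟩
        exact ⟨⟨h5, by omega⟩, h7⟩
    · intro i hi
      simp only [Finset.coe_filter, Finset.mem_range, Set.mem_ofPred_eq] at hi
      simp only [Finset.coe_Icc, Set.mem_Icc]
      exact ⟨hi.2, L_le i⟩
  rw [h2, h3, Finset.card_range] at h1
  omega

end Lists

/-- the bound on the number of subword complexity sequences -/
theorem seqs_ncard_le (β : Type*) (n q : ℕ) (hq : 1 ≤ q) :
    {p : Fin n → ℕ | ∃ l : List β, l.length = n ∧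
      ∀ i : Fin n, p i = {u : List β | u <:+: l ∧ u.length = (i : ℕ) + 1}.ncard}.ncard ≤
      ((n + 1) * (n + 2)) ^ (3 * q + 1 + 2 * ((n / q + 1) * (3 * (n / q + 1) + 2))) := by
  classical
  set K := 3 * q + 1 + 2 * ((n / q + 1) * (3 * (n / q + 1) + 2)) with hK
  set X : Finset (ℕ × ℕ) := Finset.range (n + 1) ×ˢ Finset.range (n + 2) with hX
  have hXc : X.card = (n + 1) * (n + 2) := by
    rw [hX, Finset.card_product, Finset.card_range, Finset.card_range]
  obtain ⟨T, hT1, hT2⟩ := exists_small_subsets X K
  rw [hXc] at hT1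
  set A := {p : Fin n → ℕ | ∃ l : List β, l.length = n ∧
      ∀ i : Fin n, p i = {u : List β | u <:+: l ∧ u.length = (i : ℕ) + 1}.ncard} with hA
  have hch : ∀ p : Fin n → ℕ, ∃ l : List β, p ∈ A → (l.length = n ∧
      ∀ i : Fin n, p i = {u : List β | u <:+: l ∧ u.length = (i : ℕ) + 1}.ncard) := by
    intro p
    by_cases hp : p ∈ A
    · obtain ⟨l, hl⟩ := hp
      exact ⟨l, fun _ => hl⟩
    · exact ⟨[], fun h => absurd h hp⟩
  choose lw hlw using hch
  let F : (Fin n → ℕ) → Finset (ℕ × ℕ) := fun p => stepCode (c (fun i => (lw p)[i]?) n) n (3 * q)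
  have hinj : Set.InjOn F A := by
    intro p hp p' hp' heq
    obtain ⟨h1, h2⟩ := hlw p hp
    obtain ⟨h1', h2'⟩ := hlw p' hp'
    have hc := stepCode_inj heq
    funext i
    rw [h2 i, h2' i, ncard_factors_eq _ _ (by omega), ncard_factors_eq _ _ (by omega), h1, h1']
    congr 1
    apply Finset.sum_congr rfl
    intro v hv
    rw [Finset.mem_Icc] at hv
    exact hc v hv.2
  have hmaps : ∀ p ∈ A, F p ∈ (T : Set (Finset (ℕ × ℕ))) := by
    intro p hp
    apply hT2
    · refine ⟨(0, c (fun i => (lw p)[i]?) n 0), ?_⟩
      rw [mem_stepCode]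
      exact ⟨by simp, Or.inl (by simp), rfl⟩
    · intro v hv
      rw [mem_stepCode] at hv
      rw [hX, Finset.mem_product, Finset.mem_range, Finset.mem_range]
      refine ⟨by omega, ?_⟩
      rw [← hv.2.2]
      unfold c
      have := Finset.card_filter_le (Finset.range (n + 1))
        (fun i => L (fun i => (lw p)[i]?) n i = v.1)
      rw [Finset.card_range] at this
      omega
    · exact Finset.card_image_le.trans (stepSupp_card _ n q hq)
  calc A.ncard ≤ (T : Set (Finset (ℕ × ℕ))).ncard :=
        Set.ncard_le_ncard_of_injOn F hmaps hinj T.finite_toSet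
    _ = T.card := Set.ncard_coe_finset T
    _ ≤ _ := hT1

end Pool.Agent.V11179.SubwordSeq
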