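import Pool.Agent.V11179.SubwordSeq

namespace Pool.Agent.V11179.SubwordSeq

open Filter Topology

theorem exp_bound (n : ℕ) (hn : 1 ≤ n) (a : ℕ)
    (ha : ∀ q, 1 ≤ q →
      a ≤ ((n + 1) * (n + 2)) ^ (3 * q + 1 + 2 * ((n / q + 1) * (3 * (n / q + 1) + 2)))) :
    (a : ℝ) ≤ Real.exp (78 * (n : ℝ) ^ (2 / 3 : ℝ) * Real.log (n + 2)) := by
  have hn1 : (1 : ℝ) ≤ n := by exact_mod_cast hn
  set r : ℝ := (n : ℝ) ^ (1 / 3 : ℝ) with hr
  have hr1 : 1 ≤ r := Real.one_le_rpow hn1 (by norm_num)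
  have hr2 : (n : ℝ) ^ (2 / 3 : ℝ) = r ^ 2 := by
    rw [hr, ← Real.rpow_natCast, ← Real.rpow_mul (by positivity)]
    norm_num
  have hr3 : (n : ℝ) = r ^ 3 := by
    rw [hr, ← Real.rpow_natCast, ← Real.rpow_mul (by positivity)]
    norm_num
  have hr0 : 0 < r := by linarith
  set q := ⌈r ^ 2⌉₊ with hq
  have hq1 : 1 ≤ q := Nat.one_le_ceil_iff.mpr (by positivity)
  have hq2 : (q : ℝ) ≤ r ^ 2 + 1 := (Nat.ceil_lt_add_one (by positivity)).le
  have hq3 : r ^ 2 ≤ q := Nat.le_ceil _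
  have hd : ((n / q : ℕ) : ℝ) ≤ r := by
    calc ((n / q : ℕ) : ℝ) ≤ (n : ℝ) / q := Nat.cast_div_le
      _ ≤ r ^ 3 / r ^ 2 := by
          rw [hr3]
          exact div_le_div_of_nonneg_left (by positivity) (by positivity) hq3
      _ = r := by field_simp
  have hd0 : (0 : ℝ) ≤ ((n / q : ℕ) : ℝ) := by positivity
  set K := 3 * q + 1 + 2 * ((n / q + 1) * (3 * (n / q + 1) + 2)) with hK
  have hKr : (K : ℝ) ≤ 39 * r ^ 2 := by
    rw [hK]
    push_cast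
    set d : ℝ := ((n / q : ℕ) : ℝ) with hdd
    have h1 : (d + 1) * (3 * (d + 1) + 2) ≤ (r + 1) * (3 * (r + 1) + 2) := by
      apply mul_le_mul <;> nlinarith
    nlinarith
  have h1 := ha q hq1
  have h2 : (a : ℝ) ≤ (((n : ℝ) + 1) * (n + 2)) ^ K := by
    have : (a : ℝ) ≤ ((((n + 1) * (n + 2)) ^ K : ℕ) : ℝ) := by exact_mod_cast h1
    refine this.trans (le_of_eq ?_)
    push_cast
    ring
  have h3 : (((n : ℝ) + 1) * (n + 2)) ^ K ≤ (((n : ℝ) + 2) ^ 2) ^ K := by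
    apply pow_le_pow_left₀ (by positivity)
    nlinarith
  have h4 : (((n : ℝ) + 2) ^ 2) ^ K = Real.exp (2 * K * Real.log (n + 2)) := by
    rw [← pow_mul, ← Real.exp_log (show (0 : ℝ) < (n : ℝ) + 2 by positivity), ← Real.exp_nat_mul,
      Real.exp_log (show (0 : ℝ) < (n : ℝ) + 2 by positivity)]
    push_cast
    ring_nf
  have hlog : 0 ≤ Real.log ((n : ℝ) + 2) := Real.log_nonneg (by linarith)
  calc (a : ℝ) ≤ _ := h2
    _ ≤ _ := h3
    _ = _ := h4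
    _ ≤ _ := by
        apply Real.exp_le_exp.mpr
        apply mul_le_mul_of_nonneg_right _ hlog
        rw [hr2]
        linarith

theorem log_bound (x : ℝ) (hx : 1 ≤ x) : Real.log (x + 2) ≤ 18 * x ^ (1 / 6 : ℝ) := by
  have h1 : Real.log (x + 2) ≤ (x + 2) ^ (1 / 6 : ℝ) / (1 / 6) :=
    Real.log_le_rpow_div (by linarith) (by norm_num)
  have h2 : (x + 2) ^ (1 / 6 : ℝ) ≤ (3 * x) ^ (1 / 6 : ℝ) :=
    Real.rpow_le_rpow (by linarith) (by linarith) (by norm_num)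
  have h3 : (3 * x) ^ (1 / 6 : ℝ) = 3 ^ (1 / 6 : ℝ) * x ^ (1 / 6 : ℝ) :=
    Real.mul_rpow (by norm_num) (by linarith)
  have h4 : (3 : ℝ) ^ (1 / 6 : ℝ) ≤ 3 := by
    calc (3 : ℝ) ^ (1 / 6 : ℝ) ≤ 3 ^ (1 : ℝ) :=
          Real.rpow_le_rpow_of_exponent_le (by norm_num) (by norm_num)
      _ = 3 := Real.rpow_one 3
  have h5 : 0 ≤ x ^ (1 / 6 : ℝ) := by positivity
  have h6 : (3 * x) ^ (1 / 6 : ℝ) ≤ 3 * x ^ (1 / 6 : ℝ) := by
    rw [h3]
    exact mul_le_mul_of_nonneg_right h4 h5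
  linarith

theorem ratio_tendsto (a : ℕ → ℕ)
    (ha : ∀ n : ℕ, 1 ≤ n →
      (a n : ℝ) ≤ Real.exp (78 * (n : ℝ) ^ (2 / 3 : ℝ) * Real.log (n + 2)))
    (b : ℝ) (hb : 1 < b) (c : ℝ) (hc : 0 < c) :
    Tendsto (fun n : ℕ => (a n : ℝ) / (c * b ^ (n : ℝ))) atTop (𝓝 0) := by
  have hlb : 0 < Real.log b := Real.log_pos hb
  have hb0 : 0 < b := by linarith
  have hbot : Tendsto (fun x : ℝ => x ^ (5 / 6 : ℝ) * (1404 - Real.log b * x ^ (1 / 6 : ℝ)))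
      atTop atBot := by
    apply Tendsto.atTop_mul_atBot₀
    · exact tendsto_rpow_atTop (by norm_num)
    · apply tendsto_atBot_add_const_left (C := (1404 : ℝ)) (f := fun x : ℝ =>
        - (Real.log b * x ^ (1 / 6 : ℝ)))
      apply tendsto_neg_atTop_atBot.comp
      exact (tendsto_rpow_atTop (by norm_num)).const_mul_atTop hlb
  have hbot' := hbot.comp (tendsto_natCast_atTop_atTop (R := ℝ))
  have hexp := Real.tendsto_exp_atBot.comp hbot'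
  have hexp' := hexp.const_mul (1 / c)
  rw [mul_zero] at hexp'
  apply squeeze_zero' (g := fun n : ℕ => 1 / c * Real.exp ((n : ℝ) ^ (5 / 6 : ℝ) *
      (1404 - Real.log b * (n : ℝ) ^ (1 / 6 : ℝ))))
  · filter_upwards with n
    positivity
  · filter_upwards [eventually_ge_atTop 1] with n hn
    have hn1 : (1 : ℝ) ≤ n := by exact_mod_cast hn
    have h1 := ha n hn
    have h2 := log_bound n hn1
    have h3 : 0 ≤ (n : ℝ) ^ (2 / 3 : ℝ) := by positivity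
    have h4 : (n : ℝ) ^ (2 / 3 : ℝ) * (n : ℝ) ^ (1 / 6 : ℝ) = (n : ℝ) ^ (5 / 6 : ℝ) := by
      rw [← Real.rpow_add (by linarith)]
      norm_num
    have h5 : (n : ℝ) ^ (5 / 6 : ℝ) * (n : ℝ) ^ (1 / 6 : ℝ) = (n : ℝ) := by
      rw [← Real.rpow_add (by linarith)]
      norm_num
    have h6 : 78 * (n : ℝ) ^ (2 / 3 : ℝ) * Real.log (n + 2) ≤ 1404 * (n : ℝ) ^ (5 / 6 : ℝ) := by
      calc 78 * (n : ℝ) ^ (2 / 3 : ℝ) * Real.log (n + 2)
          ≤ 78 * (n : ℝ) ^ (2 / 3 : ℝ) * (18 * (n : ℝ) ^ (1 / 6 : ℝ)) := by gcongr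
        _ = 1404 * ((n : ℝ) ^ (2 / 3 : ℝ) * (n : ℝ) ^ (1 / 6 : ℝ)) := by ring
        _ = _ := by rw [h4]
    have h7 : (b : ℝ) ^ (n : ℝ) = Real.exp (Real.log b * n) := Real.rpow_def_of_pos hb0 _
    rw [h7]
    calc (a n : ℝ) / (c * Real.exp (Real.log b * n))
        ≤ Real.exp (1404 * (n : ℝ) ^ (5 / 6 : ℝ)) / (c * Real.exp (Real.log b * n)) := by
          gcongr
          exact h1.trans (Real.exp_le_exp.mpr h6)
      _ = 1 / c * Real.exp (1404 * (n : ℝ) ^ (5 / 6 : ℝ) - Real.log b * n) := by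
          rw [Real.exp_sub]
          field_simp
      _ = _ := by
          congr 2
          calc 1404 * (n : ℝ) ^ (5 / 6 : ℝ) - Real.log b * n
              = 1404 * (n : ℝ) ^ (5 / 6 : ℝ) -
                Real.log b * ((n : ℝ) ^ (5 / 6 : ℝ) * (n : ℝ) ^ (1 / 6 : ℝ)) := by rw [h5]
            _ = _ := by ring
  · exact hexp'

end Pool.Agent.V11179.SubwordSeq
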